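import Mathlib

set_option autoImplicit false

/-!
# Approximate diagonals in `ℂ1 + I`
-/

open Filter Topology
open scoped TensorProduct

namespace Am

section PN

variable {D : Type} [NormedCommRing D] [NormedAlgebra ℂ D]

/-- the projective norm of `z` is at most `ε` (with a finite witness) -/
def PN (z : D ⊗[ℂ] D) (ε : ℝ) : Prop :=
  ∃ (m : ℕ) (x y : Fin m → D), z = ∑ j, x j ⊗ₜ[ℂ] y j ∧ ∑ j, ‖x j‖ * ‖y j‖ ≤ ε

lemma PN_mono {z : D ⊗[ℂ] D} {ε δ : ℝ} (h : PN z ε) (hε : ε ≤ δ) : PN z δ := by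
  obtain ⟨m, x, y, h1, h2⟩ := h
  exact ⟨m, x, y, h1, h2.trans hε⟩

lemma PN_zero : PN (0 : D ⊗[ℂ] D) 0 := ⟨0, Fin.elim0, Fin.elim0, by simp, by simp⟩

lemma PN_tmul (x y : D) : PN (x ⊗ₜ[ℂ] y) (‖x‖ * ‖y‖) :=
  ⟨1, fun _ => x, fun _ => y, by simp, by simp⟩

lemma PN_add {z z' : D ⊗[ℂ] D} {ε ε' : ℝ} (h : PN z ε) (h' : PN z' ε') :
    PN (z + z') (ε + ε') := by
  obtain ⟨m, x, y, h1, h2⟩ := h
  obtain ⟨m', x', y', h1', h2'⟩ := h'
  refine ⟨m + m', Fin.append x x', Fin.append y y', ?_, ?_⟩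
  · rw [Fin.sum_univ_add]
    simp only [Fin.append_left, Fin.append_right]
    rw [h1, h1']
  · rw [Fin.sum_univ_add]
    simp only [Fin.append_left, Fin.append_right]
    exact add_le_add h2 h2'

lemma PN_sum {ι : Type} (s : Finset ι) (z : ι → D ⊗[ℂ] D) (ε : ι → ℝ)
    (h : ∀ i ∈ s, PN (z i) (ε i)) : PN (∑ i ∈ s, z i) (∑ i ∈ s, ε i) := by
  classical
  induction s using Finset.induction_on with
  | empty => simpa using PN_zero
  | insert a s ha ih =>
    rw [Finset.sum_insert ha, Finset.sum_insert ha]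
    exact PN_add (h a (Finset.mem_insert_self _ _))
      (ih fun i hi => h i (Finset.mem_insert_of_mem hi))

/-- a bounded bilinear form is controlled by the projective norm -/
lemma PN_apply {z : D ⊗[ℂ] D} {ε : ℝ} (h : PN z ε) (Φ : D →L[ℂ] D →L[ℂ] ℂ) :
    ‖TensorProduct.lift (LinearMap.mk₂ ℂ (fun x y => Φ x y) (by simp) (by simp) (by simp)
      (by simp)) z‖ ≤ ε * ‖Φ‖ := by
  obtain ⟨m, x, y, h1, h2⟩ := h
  rw [h1, map_sum]
  refine (norm_sum_le _ _).trans ?_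
  calc ∑ j, ‖TensorProduct.lift (LinearMap.mk₂ ℂ (fun x y => Φ x y) (by simp) (by simp) (by simp)
        (by simp)) (x j ⊗ₜ[ℂ] y j)‖ ≤ ∑ j, ‖x j‖ * ‖y j‖ * ‖Φ‖ := by
        refine Finset.sum_le_sum fun j _ => ?_
        rw [TensorProduct.lift.tmul, LinearMap.mk₂_apply]
        have := Φ.le_opNorm₂ (x j) (y j)
        linarith
    _ = (∑ j, ‖x j‖ * ‖y j‖) * ‖Φ‖ := by rw [Finset.sum_mul]
    _ ≤ ε * ‖Φ‖ := mul_le_mul_of_nonneg_right h2 Φ.opNorm_nonneg

open scoped Classical in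
/-- the commutator of an averaged elementary tensor -/
lemma comm_tensor (P s : Finset (Finset ℕ)) (α : Finset ℕ → ℂ) (X Y rX rY : Finset ℕ → D)
    (k : ℂ) (c : D)
    (hcX : ∀ S, c * X S = ∑ T ∈ s, α T • X (symmDiff S T) + rX S)
    (hYc : ∀ S, Y S * c = ∑ T ∈ s, α T • Y (symmDiff S T) + rY S)
    (hP : ∀ T ∈ s, ∀ S ∈ P, symmDiff S T ∈ P) :
    ∑ S ∈ P, ((c * (k • X S)) ⊗ₜ[ℂ] Y S - (k • X S) ⊗ₜ[ℂ] (Y S * c)) =
      ∑ S ∈ P, ((k • rX S) ⊗ₜ[ℂ] Y S + (-(k • X S)) ⊗ₜ[ℂ] rY S) := by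
  have h1 : ∀ S ∈ P, ((c * (k • X S)) ⊗ₜ[ℂ] Y S - (k • X S) ⊗ₜ[ℂ] (Y S * c)) =
      (∑ T ∈ s, (k * α T) • (X (symmDiff S T) ⊗ₜ[ℂ] Y S) -
        ∑ T ∈ s, (k * α T) • (X S ⊗ₜ[ℂ] Y (symmDiff S T))) +
      ((k • rX S) ⊗ₜ[ℂ] Y S + (-(k • X S)) ⊗ₜ[ℂ] rY S) := by
    intro S _
    rw [mul_smul_comm, hcX S, hYc S, smul_add, TensorProduct.add_tmul, TensorProduct.tmul_add,
      TensorProduct.neg_tmul, Finset.smul_sum, TensorProduct.sum_tmul, TensorProduct.tmul_sum]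
    have e1 : ∀ T ∈ s, (k • α T • X (symmDiff S T)) ⊗ₜ[ℂ] Y S =
        (k * α T) • (X (symmDiff S T) ⊗ₜ[ℂ] Y S) := by
      intro T _
      rw [smul_smul, TensorProduct.smul_tmul']
    have e2 : ∀ T ∈ s, (k • X S) ⊗ₜ[ℂ] (α T • Y (symmDiff S T)) =
        (k * α T) • (X S ⊗ₜ[ℂ] Y (symmDiff S T)) := by
      intro T _
      rw [TensorProduct.tmul_smul, ← TensorProduct.smul_tmul', smul_smul, mul_comm]
    rw [Finset.sum_congr rfl e1, Finset.sum_congr rfl e2]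
    abel
  rw [Finset.sum_congr rfl h1, Finset.sum_add_distrib, Finset.sum_sub_distrib]
  have h2 : ∑ S ∈ P, ∑ T ∈ s, (k * α T) • (X (symmDiff S T) ⊗ₜ[ℂ] Y S) =
      ∑ S ∈ P, ∑ T ∈ s, (k * α T) • (X S ⊗ₜ[ℂ] Y (symmDiff S T)) := by
    rw [Finset.sum_comm, Finset.sum_comm (s := P)]
    refine Finset.sum_congr rfl fun T hT => ?_
    rw [← Finset.smul_sum, ← Finset.smul_sum]
    congr 1
    refine Finset.sum_bij' (fun S _ => symmDiff S T) (fun S _ => symmDiff S T)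
      (hP T hT) (hP T hT) ?_ ?_ ?_
    · intro S _; exact symmDiff_symmDiff_cancel_right T S
    · intro S _; exact symmDiff_symmDiff_cancel_right T S
    · intro S _
      show _ = X (symmDiff S T) ⊗ₜ[ℂ] Y (symmDiff (symmDiff S T) T)
      rw [symmDiff_symmDiff_cancel_right]
  rw [h2, sub_self, zero_add]

end PN

open scoped Classical in
theorem seq_diag {B : Type} [NormedCommRing B] [NormedAlgebra ℂ B] (D : Subalgebra ℂ B)
    (I : Ideal B) (hID : ∀ y ∈ I, y ∈ D) (hD : ∀ y ∈ D, ∃ c : ℂ, y - algebraMap ℂ B c ∈ I)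
    (W : Finset ℕ → B) (hW : ∀ S T, W (symmDiff S T) = W S * W T) (hW0 : W ∅ = 1)
    (hW1 : ∀ S, ‖W S‖ ≤ 1)
    (hdense : ∀ b : B, ∀ δ : ℝ, 0 < δ → ∃ (m : ℕ) (s : Finset (Finset ℕ)) (α : Finset ℕ → ℂ),
      (∀ S ∈ s, ∀ i ∈ S, i < m) ∧ ‖b - ∑ S ∈ s, α S • W S‖ ≤ δ)
    (U : ℕ → B) (hUI : ∀ n, U n ∈ I) (C : ℝ) (hU : ∀ n, ‖U n‖ ≤ C)
    (hap : ∀ y ∈ I, Tendsto (fun n => ‖y - U n * y‖) atTop (𝓝 0)) :
    ∃ (K : ℝ) (s : ℕ → Finset (Option (Finset ℕ))) (a b : ℕ → Option (Finset ℕ) → D),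
      (∀ n, ∑ i ∈ s n, ‖a n i‖ * ‖b n i‖ ≤ K) ∧
      Tendsto (fun n => ∑ i ∈ s n, a n i * b n i) atTop (𝓝 1) ∧
      ∀ c : D, ∀ ε : ℝ, 0 < ε → ∀ᶠ n in atTop,
        PN (∑ i ∈ s n, ((c * a n i) ⊗ₜ[ℂ] b n i - a n i ⊗ₜ[ℂ] (b n i * c))) ε := by
  have hC0 : 0 ≤ C := (norm_nonneg _).trans (hU 0)
  have h1n : ‖(1 : B)‖ ≤ 1 := by rw [← hW0]; exact hW1 ∅
  have hWW : ∀ S, W S * W S = 1 := by
    intro S
    rw [← hW, symmDiff_self, ← hW0]
    rfl
  -- the auxiliary indices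
  have hq : ∀ n, ∃ q, n ≤ q ∧ ‖U n - U q * U n‖ ≤ (1 / 2) ^ n := by
    intro n
    have h1 := (tendsto_order.1 (hap (U n) (hUI n))).2 ((1 / 2 : ℝ) ^ n) (by positivity)
    obtain ⟨q, hq1, hq2⟩ := (h1.and (eventually_ge_atTop n)).exists
    exact ⟨q, hq2, hq1.le⟩
  choose q hqn hq using hq
  have hl : ∀ n, ∃ l, ‖U (q n) - U l * U (q n)‖ ≤ (1 / 2) ^ n := by
    intro n
    have h1 := (tendsto_order.1 (hap (U (q n)) (hUI _))).2 ((1 / 2 : ℝ) ^ n) (by positivity)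
    obtain ⟨l, hl⟩ := h1.exists
    exact ⟨l, hl.le⟩
  choose l hl using hl
  have hqt : Tendsto q atTop atTop := tendsto_atTop_mono hqn tendsto_id
  -- the elements
  let X : ℕ → Finset ℕ → D := fun n S => ⟨U (q n) * W S, hID _ (I.mul_mem_right _ (hUI _))⟩
  let Y : ℕ → Finset ℕ → D := fun n S => ⟨U (l n) * W S, hID _ (I.mul_mem_right _ (hUI _))⟩
  let V : ℕ → D := fun n => 1 - ⟨U n, hID _ (hUI _)⟩
  let V' : ℕ → D := fun n => 1 - ⟨U (q n), hID _ (hUI _)⟩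
  have hXn : ∀ n S, ‖X n S‖ ≤ C := by
    intro n S
    show ‖U (q n) * W S‖ ≤ C
    refine (norm_mul_le _ _).trans ?_
    have := mul_le_mul (hU (q n)) (hW1 S) (norm_nonneg _) hC0
    rwa [mul_one] at this
  have hYn : ∀ n S, ‖Y n S‖ ≤ C := by
    intro n S
    show ‖U (l n) * W S‖ ≤ C
    refine (norm_mul_le _ _).trans ?_
    have := mul_le_mul (hU (l n)) (hW1 S) (norm_nonneg _) hC0
    rwa [mul_one] at this
  have hVn : ∀ n, ‖V n‖ ≤ 1 + C := by
    intro n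
    show ‖1 - U n‖ ≤ 1 + C
    exact (norm_sub_le _ _).trans (add_le_add h1n (hU n))
  have hV'n : ∀ n, ‖V' n‖ ≤ 1 + C := by
    intro n
    show ‖1 - U (q n)‖ ≤ 1 + C
    exact (norm_sub_le _ _).trans (add_le_add h1n (hU _))
  let P : ℕ → Finset (Finset ℕ) := fun n => (Finset.range n).powerset
  have h2n : ∀ n : ℕ, ‖(((2 : ℂ) ^ n)⁻¹)‖ = ((2 : ℝ) ^ n)⁻¹ := by
    intro n; rw [norm_inv, norm_pow]; simp
  have hcard : ∀ n : ℕ, (((P n).card : ℕ) : ℝ) = 2 ^ n := by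
    intro n
    show ((((Finset.range n).powerset).card : ℕ) : ℝ) = 2 ^ n
    rw [Finset.card_powerset, Finset.card_range]; push_cast; ring
  have hcardC : ∀ n : ℕ, (((P n).card : ℕ) : ℂ) = 2 ^ n := by
    intro n
    show ((((Finset.range n).powerset).card : ℕ) : ℂ) = 2 ^ n
    rw [Finset.card_powerset, Finset.card_range]; push_cast; ring
  refine ⟨C * C + (1 + C) * (1 + C), fun n => Finset.insertNone (P n),
    fun n i => i.elim (V n) (fun S => (((2 : ℂ) ^ n)⁻¹) • X n S),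
    fun n i => i.elim (V' n) (fun S => Y n S), ?_, ?_, ?_⟩
  · intro n
    rw [Finset.sum_insertNone]
    simp only [Option.elim_none, Option.elim_some]
    have h1 : ∀ S ∈ P n, ‖(((2 : ℂ) ^ n)⁻¹) • X n S‖ * ‖Y n S‖ ≤ ((2 : ℝ) ^ n)⁻¹ * (C * C) := by
      intro S _
      rw [norm_smul, h2n, mul_assoc]
      refine mul_le_mul_of_nonneg_left ?_ (by positivity)
      exact mul_le_mul (hXn n S) (hYn n S) (norm_nonneg _) hC0
    have h2 := Finset.sum_le_sum h1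
    rw [Finset.sum_const, nsmul_eq_mul, hcard, ← mul_assoc, mul_inv_cancel₀ (by positivity),
      one_mul] at h2
    have h3 : ‖V n‖ * ‖V' n‖ ≤ (1 + C) * (1 + C) :=
      mul_le_mul (hVn n) (hV'n n) (norm_nonneg _) (by linarith)
    linarith
  · have hval : ∀ n, ∑ i ∈ Finset.insertNone (P n),
        (i.elim (V n) (fun S => (((2 : ℂ) ^ n)⁻¹) • X n S)) * (i.elim (V' n) (fun S => Y n S)) =
        V n * V' n + X n ∅ * Y n ∅ := by
      intro n
      rw [Finset.sum_insertNone]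
      simp only [Option.elim_none, Option.elim_some]
      congr 1
      have h1 : ∀ S ∈ P n, (((2 : ℂ) ^ n)⁻¹) • X n S * Y n S =
          (((2 : ℂ) ^ n)⁻¹) • (X n ∅ * Y n ∅) := by
        intro S _
        rw [smul_mul_assoc]
        congr 1
        apply Subtype.ext
        show U (q n) * W S * (U (l n) * W S) = U (q n) * W ∅ * (U (l n) * W ∅)
        rw [hW0]
        linear_combination (U (q n) * U (l n)) * hWW S
      rw [Finset.sum_congr rfl h1, Finset.sum_const, ← Nat.cast_smul_eq_nsmul ℂ, smul_smul,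
        hcardC, mul_inv_cancel₀ (pow_ne_zero n two_ne_zero), one_smul]
    simp only [hval]
    rw [tendsto_iff_norm_sub_tendsto_zero]
    have hlim : Tendsto (fun n : ℕ => 2 * ((1 : ℝ) / 2) ^ n) atTop (𝓝 0) := by
      have := (tendsto_pow_atTop_nhds_zero_of_lt_one (show (0 : ℝ) ≤ 1 / 2 by norm_num)
        (show (1 : ℝ) / 2 < 1 by norm_num)).const_mul 2
      rwa [mul_zero] at this
    refine squeeze_zero (fun _ => norm_nonneg _) (fun n => ?_) hlim
    have h1 : ‖V n * V' n + X n ∅ * Y n ∅ - 1‖ =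
        ‖(1 - U n) * (1 - U (q n)) + U (q n) * W ∅ * (U (l n) * W ∅) - 1‖ := rfl
    rw [h1, hW0]
    have h2 : (1 - U n) * (1 - U (q n)) + U (q n) * 1 * (U (l n) * 1) - 1 =
        -(U n - U (q n) * U n) + -(U (q n) - U (l n) * U (q n)) := by ring
    rw [h2]
    refine (norm_add_le _ _).trans ?_
    rw [norm_neg, norm_neg]
    have := hq n
    have := hl n
    linarith
  · intro c ε hε
    obtain ⟨lam, hr⟩ := hD c c.2
    obtain ⟨δ, hδ0, hδ⟩ : ∃ δ : ℝ, 0 < δ ∧ 2 * (δ * (C * C)) ≤ ε / 2 := by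
      refine ⟨ε / (4 * (C * C) + 1), by positivity, ?_⟩
      rw [div_mul_eq_mul_div, mul_div_assoc', div_le_iff₀ (by positivity)]
      nlinarith
    obtain ⟨m, s, α, hs, hρ⟩ := hdense (c : B) δ hδ0
    set ρ : B := (c : B) - ∑ S ∈ s, α S • W S with hρdef
    set r : B := (c : B) - algebraMap ℂ B lam with hrdef
    have hlim1 : Tendsto (fun n => (1 + C) * ‖r - U n * r‖) atTop (𝓝 0) := by
      have := (hap r hr).const_mul (1 + C)
      rwa [mul_zero] at this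
    have hlim2 : Tendsto (fun n => (1 + C) * ‖r - U (q n) * r‖) atTop (𝓝 0) := hlim1.comp hqt
    filter_upwards [eventually_ge_atTop m, (tendsto_order.1 hlim1).2 (ε / 4) (by linarith),
      (tendsto_order.1 hlim2).2 (ε / 4) (by linarith)] with n hn hn1 hn2
    rw [Finset.sum_insertNone]
    simp only [Option.elim_none, Option.elim_some]
    let rD : D := ⟨r, hID _ hr⟩
    let rX : Finset ℕ → D := fun S => ⟨ρ * (U (q n) * W S), hID _ (I.mul_mem_left _ (I.mul_mem_right _ (hUI _)))⟩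
    let rY : Finset ℕ → D := fun S => ⟨ρ * (U (l n) * W S), hID _ (I.mul_mem_left _ (I.mul_mem_right _ (hUI _)))⟩
    have hcoe : ∀ (f : Finset ℕ → D), ((∑ T ∈ s, α T • f T : D) : B) = ∑ T ∈ s, α T • (f T : B) := by
      intro f
      rw [AddSubmonoidClass.coe_finsetSum]
      rfl
    have hc : (c : B) = ∑ S ∈ s, α S • W S + ρ := by rw [hρdef]; ring
    have hcX : ∀ S, c * X n S = ∑ T ∈ s, α T • X n (symmDiff S T) + rX S := by
      intro S
      apply Subtype.ext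
      show (c : B) * (U (q n) * W S) = ((∑ T ∈ s, α T • X n (symmDiff S T) : D) : B) +
        ρ * (U (q n) * W S)
      rw [hcoe]
      conv_lhs => rw [hc]
      rw [add_mul, Finset.sum_mul]
      congr 1
      refine Finset.sum_congr rfl fun T _ => ?_
      show α T • W T * (U (q n) * W S) = α T • (U (q n) * W (symmDiff S T))
      rw [smul_mul_assoc, hW]
      congr 1
      ring
    have hYc : ∀ S, Y n S * c = ∑ T ∈ s, α T • Y n (symmDiff S T) + rY S := by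
      intro S
      apply Subtype.ext
      show (U (l n) * W S) * (c : B) = ((∑ T ∈ s, α T • Y n (symmDiff S T) : D) : B) +
        ρ * (U (l n) * W S)
      rw [hcoe]
      conv_lhs => rw [hc]
      rw [mul_add, Finset.mul_sum]
      congr 1
      · refine Finset.sum_congr rfl fun T _ => ?_
        show U (l n) * W S * α T • W T = α T • (U (l n) * W (symmDiff S T))
        rw [mul_smul_comm, hW]
        congr 1
        ring
      · ring
    have hP : ∀ T ∈ s, ∀ S ∈ P n, symmDiff S T ∈ P n := by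
      intro T hT S hS
      show symmDiff S T ∈ (Finset.range n).powerset
      have hS' : S ∈ (Finset.range n).powerset := hS
      rw [Finset.mem_powerset] at hS' ⊢
      intro i hi
      rw [Finset.mem_symmDiff] at hi
      rcases hi with h | h
      · exact hS' h.1
      · exact Finset.mem_range.2 (lt_of_lt_of_le (hs T hT i h.1) hn)
    rw [comm_tensor (P n) s α (X n) (Y n) rX rY (((2 : ℂ) ^ n)⁻¹) c hcX hYc hP]
    -- the first term
    have hnone : (c * V n) ⊗ₜ[ℂ] V' n - V n ⊗ₜ[ℂ] (V' n * c) =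
        (rD * V n) ⊗ₜ[ℂ] V' n + (-V n) ⊗ₜ[ℂ] (V' n * rD) := by
      have h1 : c = lam • (1 : D) + rD := by
        apply Subtype.ext
        show (c : B) = lam • (1 : B) + r
        rw [hrdef, Algebra.smul_def, mul_one]
        ring
      conv_lhs => rw [h1]
      rw [add_mul, mul_add, TensorProduct.add_tmul, TensorProduct.tmul_add, smul_mul_assoc,
        one_mul, mul_smul_comm, mul_one, TensorProduct.smul_tmul, TensorProduct.neg_tmul]
      abel
    rw [hnone]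
    have hnorm1 : ‖rD * V n‖ = ‖r - U n * r‖ := by
      show ‖r * (1 - U n)‖ = _
      congr 1
      ring
    have hnorm2 : ‖V' n * rD‖ = ‖r - U (q n) * r‖ := by
      show ‖(1 - U (q n)) * r‖ = _
      congr 1
      ring
    have hpn1 : PN ((rD * V n) ⊗ₜ[ℂ] V' n + (-V n) ⊗ₜ[ℂ] (V' n * rD)) (ε / 2) := by
      refine PN_mono (PN_add (PN_tmul _ _) (PN_tmul _ _)) ?_
      rw [norm_neg, hnorm1, hnorm2]
      have e1 := mul_le_mul_of_nonneg_left (hV'n n) (norm_nonneg (r - U n * r))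
      have e2 := mul_le_mul_of_nonneg_right (hVn n) (norm_nonneg (r - U (q n) * r))
      linarith
    have hrXn : ∀ S, ‖rX S‖ ≤ δ * C := by
      intro S
      show ‖ρ * (U (q n) * W S)‖ ≤ δ * C
      exact (norm_mul_le _ _).trans (mul_le_mul hρ (hXn n S) (norm_nonneg _) hδ0.le)
    have hrYn : ∀ S, ‖rY S‖ ≤ δ * C := by
      intro S
      show ‖ρ * (U (l n) * W S)‖ ≤ δ * C
      exact (norm_mul_le _ _).trans (mul_le_mul hρ (hYn n S) (norm_nonneg _) hδ0.le)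
    have hpn2 : PN (∑ S ∈ P n, ((((2 : ℂ) ^ n)⁻¹ • rX S) ⊗ₜ[ℂ] Y n S +
        (-((((2 : ℂ) ^ n)⁻¹) • X n S)) ⊗ₜ[ℂ] rY S)) (ε / 2) := by
      refine PN_mono (PN_sum (P n) _ (fun _ => ((2 : ℝ) ^ n)⁻¹ * (2 * (δ * (C * C)))) fun S _ =>
        PN_mono (PN_add (PN_tmul _ _) (PN_tmul _ _)) ?_) ?_
      · rw [norm_neg, norm_smul, norm_smul, h2n]
        have e1 : ‖rX S‖ * ‖Y n S‖ ≤ δ * C * C :=
          mul_le_mul (hrXn S) (hYn n S) (norm_nonneg _) (by positivity)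
        have e2 : ‖X n S‖ * ‖rY S‖ ≤ C * (δ * C) :=
          mul_le_mul (hXn n S) (hrYn S) (norm_nonneg _) hC0
        have e3 : (0 : ℝ) ≤ ((2 : ℝ) ^ n)⁻¹ := by positivity
        nlinarith
      · rw [Finset.sum_const, nsmul_eq_mul, hcard, ← mul_assoc, mul_inv_cancel₀ (by positivity),
          one_mul]
        exact hδ
    exact PN_mono (PN_add hpn1 hpn2) (by linarith)

end Am
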