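import Mathlib

set_option autoImplicit false

namespace WD

theorem cube_convex {ι : Type} [Fintype ι] (P : Set (ι → ℝ)) (hP : Convex ℝ P)
    (h : ∀ s : ι → ℝ, (∀ i, s i = 1 ∨ s i = -1) → s ∈ P) :
    ∀ u : ι → ℝ, (∀ i, |u i| ≤ 1) → u ∈ P := by
  classical
  have key : ∀ (S : Finset ι) (u : ι → ℝ), (∀ i ∉ S, u i = 1 ∨ u i = -1) → (∀ i, |u i| ≤ 1) → u ∈ P := by
    intro S
    induction S using Finset.induction_on with
    | empty =>
      intro u hu _
      exact h u (fun i => hu i (Finset.notMem_empty i))
    | insert a S ha ih =>
      intro u hu hb
      have h1 : Function.update u a 1 ∈ P := by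
        apply ih
        · intro i hi
          by_cases hia : i = a
          · subst hia; simp
          · rw [Function.update_of_ne hia]
            exact hu i (by simp [hia, hi])
        · intro i
          by_cases hia : i = a
          · subst hia; simp
          · rw [Function.update_of_ne hia]; exact hb i
      have h2 : Function.update u a (-1) ∈ P := by
        apply ih
        · intro i hi
          by_cases hia : i = a
          · subst hia; simp
          · rw [Function.update_of_ne hia]
            exact hu i (by simp [hia, hi])
        · intro i
          by_cases hia : i = a
          · subst hia; simp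
          · rw [Function.update_of_ne hia]; exact hb i
      have hba := abs_le.1 (hb a)
      have h3 := hP h1 h2 (show (0 : ℝ) ≤ (1 + u a) / 2 by linarith) (show (0 : ℝ) ≤ (1 - u a) / 2 by linarith)
        (by ring)
      convert h3 using 1
      funext i
      by_cases hia : i = a
      · subst hia
        simp
        ring
      · simp [Function.update_of_ne hia]
        ring
  intro u hu
  exact key Finset.univ u (fun i hi => absurd (Finset.mem_univ i) hi) hu

end WD
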