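import Mathlib

set_option autoImplicit false

namespace WD

theorem iterate_approx {X Y : Type} [NormedAddCommGroup X] [NormedSpace ℝ X] [CompleteSpace X]
    [NormedAddCommGroup Y] [NormedSpace ℝ Y] (T : X →L[ℝ] Y) (ρ : ℝ) (h0 : 0 ≤ ρ) (h1 : ρ < 1)
    (H : ∀ y : Y, ‖y‖ ≤ 1 → ∃ x : X, ‖x‖ ≤ 1 ∧ ‖y - T x‖ ≤ ρ) :
    ∀ y : Y, ∃ x : X, T x = y ∧ ‖x‖ ≤ (1 - ρ)⁻¹ * ‖y‖ := by
  have H' : ∀ y : Y, ∃ x : X, ‖x‖ ≤ ‖y‖ ∧ ‖y - T x‖ ≤ ρ * ‖y‖ := by
    intro y
    by_cases hy : y = 0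
    · exact ⟨0, by simp [hy], by simp [hy]⟩
    · have hy' : 0 < ‖y‖ := norm_pos_iff.2 hy
      obtain ⟨x, hx, hxy⟩ := H (‖y‖⁻¹ • y) (by
        rw [norm_smul, norm_inv, norm_norm, inv_mul_cancel₀ hy'.ne'])
      refine ⟨‖y‖ • x, ?_, ?_⟩
      · rw [norm_smul, norm_norm]
        exact mul_le_of_le_one_right hy'.le hx
      · have e : y - T (‖y‖ • x) = ‖y‖ • (‖y‖⁻¹ • y - T x) := by
          rw [map_smul, smul_sub, smul_smul, mul_inv_cancel₀ hy'.ne', one_smul]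
        rw [e, norm_smul, norm_norm, mul_comm]
        exact mul_le_mul_of_nonneg_right hxy hy'.le
  choose f hf1 hf2 using H'
  intro y
  let g : ℕ → Y := fun n => (fun z => z - T (f z))^[n] y
  have hg0 : g 0 = y := rfl
  have hgs : ∀ n, g (n + 1) = g n - T (f (g n)) := by
    intro n
    simp only [g, Function.iterate_succ_apply']
  have hgn : ∀ n, ‖g n‖ ≤ ρ ^ n * ‖y‖ := by
    intro n
    induction n with
    | zero => simp [hg0]
    | succ n ih =>
      rw [hgs]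
      calc ‖g n - T (f (g n))‖ ≤ ρ * ‖g n‖ := hf2 _
        _ ≤ ρ * (ρ ^ n * ‖y‖) := mul_le_mul_of_nonneg_left ih h0
        _ = ρ ^ (n + 1) * ‖y‖ := by ring
  have hxn : ∀ n, ‖f (g n)‖ ≤ ρ ^ n * ‖y‖ := fun n => (hf1 _).trans (hgn n)
  have hgeo : HasSum (fun n => ρ ^ n * ‖y‖) ((1 - ρ)⁻¹ * ‖y‖) :=
    (hasSum_geometric_of_lt_one h0 h1).mul_right _
  have hsum : Summable fun n => f (g n) := Summable.of_norm_bounded hgeo.summable hxn
  refine ⟨∑' n, f (g n), ?_, ?_⟩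
  · have h2 : HasSum (fun n => T (f (g n))) (T (∑' n, f (g n))) := hsum.hasSum.mapL T
    have h3 := h2.tendsto_sum_nat
    have h4 : ∀ n, ∑ i ∈ Finset.range n, T (f (g i)) = y - g n := by
      intro n
      induction n with
      | zero => simp [hg0]
      | succ n ih => rw [Finset.sum_range_succ, ih, hgs]; abel
    have h5 : Filter.Tendsto g Filter.atTop (nhds 0) := by
      rw [tendsto_zero_iff_norm_tendsto_zero]
      refine squeeze_zero (fun n => norm_nonneg _) hgn ?_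
      have := (tendsto_pow_atTop_nhds_zero_of_lt_one h0 h1).mul_const ‖y‖
      rwa [zero_mul] at this
    have h6 : Filter.Tendsto (fun n => ∑ i ∈ Finset.range n, T (f (g i))) Filter.atTop (nhds y) := by
      simp only [h4]
      have := h5.const_sub y
      rwa [sub_zero] at this
    exact tendsto_nhds_unique h3 h6
  · exact tsum_of_norm_bounded hgeo hxn

end WD
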