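import Pool.Agent.Helper348.WDBase

set_option autoImplicit false

open MeasureTheory

namespace WD

lemma nhds_cyl (x : G) (U : Set G) (hU : U ∈ nhds x) :
    ∃ m : ℕ, ∀ y : G, (∀ i, i < m → x i = y i) → y ∈ U := by
  rw [(PiNat.isTopologicalBasis_cylinders (fun _ : ℕ => ℤˣ)).mem_nhds_iff] at hU
  obtain ⟨v, ⟨z, n, rfl⟩, hx, hv⟩ := hU
  refine ⟨n, fun y hy => hv fun i hi => ?_⟩
  rw [← hy i hi]
  exact hx i hi

lemma cover_aux (Q : G → G → Prop) (h : ∀ z : G, ∃ m : ℕ, ∀ y : G, (∀ i, i < m → z i = y i) → Q z y) :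
    ∃ m : ℕ, ∀ x y : G, (∀ i, i < m → x i = y i) → ∃ z, Q z x ∧ Q z y := by
  choose m hm using h
  obtain ⟨t, ht⟩ := (isCompact_univ : IsCompact (Set.univ : Set G)).elim_finite_subcover
    (fun z : G => PiNat.cylinder z (m z)) (fun z => PiNat.isOpen_cylinder _ z (m z))
    (fun z _ => Set.mem_iUnion.2 ⟨z, PiNat.self_mem_cylinder z _⟩)
  refine ⟨t.sup m, fun x y hxy => ?_⟩
  obtain ⟨z, hz, hxz⟩ := Set.mem_iUnion₂.1 (ht (Set.mem_univ x))
  refine ⟨z, hm z x fun i hi => (hxz i hi).symm, hm z y fun i hi => ?_⟩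
  rw [← hxy i (hi.trans_le (Finset.le_sup (f := m) hz))]
  exact (hxz i hi).symm

theorem exists_lev_approx (u : G → ℝ) (hu : Continuous u) (ε : ℝ) (hε : 0 < ε) :
    ∃ m : ℕ, ∀ x y : G, (∀ i, i < m → x i = y i) → |u x - u y| < ε := by
  obtain ⟨m, hm⟩ := cover_aux (fun z y => |u z - u y| < ε / 2) (fun z => by
    refine nhds_cyl z {y | |u z - u y| < ε / 2} ?_
    have h1 := Metric.continuousAt_iff'.1 (hu.continuousAt (x := z)) (ε / 2) (by positivity)
    filter_upwards [h1] with y hy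
    rw [dist_comm] at hy
    exact hy)
  refine ⟨m, fun x y hxy => ?_⟩
  obtain ⟨z, h1, h2⟩ := hm x y hxy
  have h3 := abs_sub_le (u x) (u z) (u y)
  rw [abs_sub_comm (u x) (u z)] at h3
  linarith

/-- a clopen subset of the Cantor group depends on finitely many coordinates -/
theorem clopen_lev (V : Set G) (hV : IsClopen V) :
    ∃ m : ℕ, ∀ x y : G, (∀ i, i < m → x i = y i) → (x ∈ V ↔ y ∈ V) := by
  obtain ⟨m, hm⟩ := cover_aux (fun z y => (z ∈ V ↔ y ∈ V)) (fun z => by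
    by_cases hz : z ∈ V
    · obtain ⟨m, hm⟩ := nhds_cyl z V (hV.isOpen.mem_nhds hz)
      exact ⟨m, fun y hy => iff_of_true hz (hm y hy)⟩
    · obtain ⟨m, hm⟩ := nhds_cyl z Vᶜ (hV.compl.isOpen.mem_nhds hz)
      exact ⟨m, fun y hy => iff_of_false hz (hm y hy)⟩)
  refine ⟨m, fun x y hxy => ?_⟩
  obtain ⟨z, h1, h2⟩ := hm x y hxy
  exact h1.symm.trans h2

/-- a function depending on finitely many coordinates is continuous -/
theorem Lev.continuous {α : Type} [TopologicalSpace α] {m : ℕ} {u : G → α} (h : Lev m u) :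
    Continuous u := by
  rw [continuous_iff_continuousAt]
  intro x
  refine (continuousAt_const (y := u x)).congr ?_
  have h1 : PiNat.cylinder x m ∈ nhds x :=
    (PiNat.isOpen_cylinder _ x m).mem_nhds (PiNat.self_mem_cylinder x m)
  filter_upwards [h1] with y hy
  exact h x y fun i hi => (hy i hi).symm

end WD
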