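import Pool.Agent.Helper348.WDSplit2
import Pool.Agent.Helper348.WDLev
import Pool.Agent.Helper348.WDCube
import Pool.Agent.Helper348.WDIter

set_option autoImplicit false

open MeasureTheory

namespace WD



/-- restriction to the first `m` coordinates -/
def rs (m : ℕ) (x : G) : Fin m → ℤˣ := fun i => x i

/-- extension by one -/
def xt (m : ℕ) (y : Fin m → ℤˣ) : G := fun i => if h : i < m then y ⟨i, h⟩ else 1

lemma real_approx (E : Set G) (h : ℕ → G → ℂ)
    (hh : ∀ n, ∀ x ∈ E, ‖h n x - 1 / 8‖ ≤ (1 / 2) ^ n)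
    (hσ : ∀ (m : ℕ) (σ : G → ℝ), Lev m σ → (∀ x, σ x = 1 ∨ σ x = -1) →
      ∀ᶠ n in Filter.atTop, Q E 1 (fun x => ((σ x : ℝ) : ℂ) * h n x))
    (g : G → ℝ) (hg : Continuous g) (hb : ∀ x, |g x| ≤ 1) :
    ∃ F : G → ℂ, R 8 F ∧ ∀ x ∈ E, ‖((g x : ℝ) : ℂ) - F x‖ ≤ 1 / 8 := by
  obtain ⟨m, hm⟩ := exists_lev_approx g hg (1 / 32) (by norm_num)
  have hev : ∀ᶠ n in Filter.atTop, ∀ t : (Fin m → ℤˣ) → ℤˣ,
      Q E 1 (fun x => ((((t (rs m x) : ℤˣ) : ℤ) : ℝ) : ℂ) * h n x) := by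
    rw [Filter.eventually_all]
    intro t
    refine hσ m (fun x => (((t (rs m x) : ℤˣ) : ℤ) : ℝ)) ?_ ?_
    · intro x y hxy
      have : rs m x = rs m y := funext fun i => hxy i i.2
      simp only [this]
    · intro x
      rcases Int.units_eq_one_or (t (rs m x)) with h | h <;> simp [h]
  obtain ⟨n, hn, hn7⟩ := (hev.and (Filter.eventually_ge_atTop 7)).exists
  let P : Set ((Fin m → ℤˣ) → ℝ) :=
    {a | ∃ F : G → ℂ, R 8 F ∧ ∀ x ∈ E, ‖((a (rs m x) : ℝ) : ℂ) - F x‖ ≤ 1 / 16}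
  have hP : Convex ℝ P := by
    rintro a ⟨F, hF1, hF2⟩ b ⟨F', hF1', hF2'⟩ s t hs ht hst
    refine ⟨fun x => (s : ℂ) * F x + (t : ℂ) * F' x, ?_, ?_⟩
    · refine R_mono (R_add (R_smul (s : ℂ) hF1) (R_smul (t : ℂ) hF1')) ?_
      rw [Complex.norm_real, Complex.norm_real, Real.norm_of_nonneg hs, Real.norm_of_nonneg ht]
      nlinarith
    · intro x hx
      have e : (((s • a + t • b) (rs m x) : ℝ) : ℂ) - ((s : ℂ) * F x + (t : ℂ) * F' x) =
          (s : ℂ) * (((a (rs m x) : ℝ) : ℂ) - F x) + (t : ℂ) * (((b (rs m x) : ℝ) : ℂ) - F' x) := by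
        simp only [Pi.add_apply, Pi.smul_apply, smul_eq_mul]
        push_cast
        ring
      rw [e]
      have h1 := hF2 x hx
      have h2 := hF2' x hx
      calc ‖(s : ℂ) * (((a (rs m x) : ℝ) : ℂ) - F x) + (t : ℂ) * (((b (rs m x) : ℝ) : ℂ) - F' x)‖
          ≤ ‖(s : ℂ) * (((a (rs m x) : ℝ) : ℂ) - F x)‖ +
            ‖(t : ℂ) * (((b (rs m x) : ℝ) : ℂ) - F' x)‖ := norm_add_le _ _
        _ = s * ‖((a (rs m x) : ℝ) : ℂ) - F x‖ + t * ‖((b (rs m x) : ℝ) : ℂ) - F' x‖ := by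
            rw [norm_mul, norm_mul, Complex.norm_real, Complex.norm_real,
              Real.norm_of_nonneg hs, Real.norm_of_nonneg ht]
        _ ≤ s * (1 / 16) + t * (1 / 16) := by gcongr
        _ = 1 / 16 := by rw [← add_mul, hst, one_mul]
  have hsign : ∀ s : (Fin m → ℤˣ) → ℝ, (∀ i, s i = 1 ∨ s i = -1) → s ∈ P := by
    classical
    intro s hs
    let t : (Fin m → ℤˣ) → ℤˣ := fun i => if s i = 1 then 1 else -1
    have hst : ∀ i, (((t i : ℤˣ) : ℤ) : ℝ) = s i := by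
      intro i
      rcases hs i with h | h
      · simp [t, h]
      · have h' : ¬ (s i = 1) := by rw [h]; norm_num
        simp only [t, if_neg h']
        rw [h]; simp
    obtain ⟨F, hF, U, -, hEU, hU⟩ := hn t
    refine ⟨fun x => (8 : ℂ) * F x, ?_, ?_⟩
    · refine R_mono (R_smul 8 hF) ?_
      simp
    · intro x hx
      have h1 := hU x (hEU hx)
      simp only [hst] at h1
      show ‖((s (rs m x) : ℝ) : ℂ) - 8 * F x‖ ≤ 1 / 16
      rw [← h1]
      have e : ((s (rs m x) : ℝ) : ℂ) - 8 * (((s (rs m x) : ℝ) : ℂ) * h n x) =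
          ((s (rs m x) : ℝ) : ℂ) * (8 * (-(h n x - 1 / 8))) := by ring
      have h2 : ‖((s (rs m x) : ℝ) : ℂ)‖ = 1 := by
        rcases hs (rs m x) with h | h <;> simp [h]
      have h8 : ‖(8 : ℂ)‖ = 8 := by simp
      rw [e, norm_mul, norm_mul, norm_neg, h2, one_mul, h8]
      have h3 := hh n x hx
      have h4 : (1 / 2 : ℝ) ^ n ≤ (1 / 2) ^ 7 := pow_le_pow_of_le_one (by norm_num) (by norm_num) hn7
      norm_num at h4 ⊢
      norm_num at h3
      linarith
  obtain ⟨F, hF1, hF2⟩ := cube_convex P hP hsign (fun y => g (xt m y)) (fun y => hb _)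
  refine ⟨F, hF1, fun x hx => ?_⟩
  have h1 := hm x (xt m (rs m x)) (by intro i hi; simp [xt, rs, hi])
  have h2 := hF2 x hx
  calc ‖((g x : ℝ) : ℂ) - F x‖ = ‖(((g x : ℝ) : ℂ) - ((g (xt m (rs m x)) : ℝ) : ℂ)) +
        (((g (xt m (rs m x)) : ℝ) : ℂ) - F x)‖ := by congr 1; ring
    _ ≤ ‖((g x : ℝ) : ℂ) - ((g (xt m (rs m x)) : ℝ) : ℂ)‖ +
        ‖((g (xt m (rs m x)) : ℝ) : ℂ) - F x‖ := norm_add_le _ _
    _ ≤ 1 / 32 + 1 / 16 := by
        refine add_le_add ?_ h2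
        rw [← Complex.ofReal_sub, Complex.norm_real, Real.norm_eq_abs]
        exact h1.le
    _ ≤ 1 / 8 := by norm_num

lemma cplx_approx (E : Set G) (hE : IsClosed E) (h : ℕ → G → ℂ)
    (hh : ∀ n, ∀ x ∈ E, ‖h n x - 1 / 8‖ ≤ (1 / 2) ^ n)
    (hσ : ∀ (m : ℕ) (σ : G → ℝ), Lev m σ → (∀ x, σ x = 1 ∨ σ x = -1) →
      ∀ᶠ n in Filter.atTop, Q E 1 (fun x => ((σ x : ℝ) : ℂ) * h n x))
    (v : C(E, ℂ)) (hv : ∀ x, ‖v x‖ ≤ 1) :
    ∃ F : G → ℂ, R 16 F ∧ ∀ x : E, ‖v x - F x‖ ≤ 1 / 2 := by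
  obtain ⟨g1, h11, h12⟩ := ContinuousMap.exists_restrict_eq_forall_mem_of_closed
    (⟨fun x => (v x).re, Complex.continuous_re.comp v.continuous⟩ : C(E, ℝ))
    (t := Set.Icc (-1) 1)
    (fun x => by
      have h1 := (Complex.abs_re_le_norm (v x)).trans (hv x)
      exact abs_le.1 h1) ⟨0, by norm_num, by norm_num⟩ hE
  obtain ⟨g2, h21, h22⟩ := ContinuousMap.exists_restrict_eq_forall_mem_of_closed
    (⟨fun x => (v x).im, Complex.continuous_im.comp v.continuous⟩ : C(E, ℝ))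
    (t := Set.Icc (-1) 1)
    (fun x => by
      have h1 := (Complex.abs_im_le_norm (v x)).trans (hv x)
      exact abs_le.1 h1) ⟨0, by norm_num, by norm_num⟩ hE
  obtain ⟨F1, hF1, hF1'⟩ := real_approx E h hh hσ g1 g1.continuous (fun x => abs_le.2 (h11 x))
  obtain ⟨F2, hF2, hF2'⟩ := real_approx E h hh hσ g2 g2.continuous (fun x => abs_le.2 (h21 x))
  refine ⟨fun x => F1 x + Complex.I * F2 x, ?_, ?_⟩
  · refine R_mono (R_add hF1 (R_smul Complex.I hF2)) ?_
    rw [Complex.norm_I]; norm_num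
  · intro x
    have e1 : g1 x = (v x).re := by
      have := congrArg (fun f : C(E, ℝ) => f x) h12
      exact this
    have e2 : g2 x = (v x).im := by
      have := congrArg (fun f : C(E, ℝ) => f x) h22
      exact this
    have h1 := hF1' x x.2
    have h2 := hF2' x x.2
    rw [e1] at h1
    rw [e2] at h2
    have e : v x - (F1 x + Complex.I * F2 x) = (((v x).re : ℝ) - F1 x) +
        Complex.I * ((((v x).im : ℝ) : ℂ) - F2 x) := by
      conv_lhs => rw [← Complex.re_add_im (v x)]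
      ring
    rw [e]
    refine (norm_add_le _ _).trans ?_
    rw [norm_mul, Complex.norm_I, one_mul]
    linarith

/-- TARGET: every continuous function on `E` extends to an element of the Fourier algebra, with control
of the norm -/
theorem helsonB (E : Set G) (hE : IsClosed E) (h : ℕ → G → ℂ)
    (hh : ∀ n, ∀ x ∈ E, ‖h n x - 1 / 8‖ ≤ (1 / 2) ^ n)
    (hσ : ∀ (m : ℕ) (σ : G → ℝ), Lev m σ → (∀ x, σ x = 1 ∨ σ x = -1) →
      ∀ᶠ n in Filter.atTop, Q E 1 (fun x => ((σ x : ℝ) : ℂ) * h n x))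
    (u : C(E, ℂ)) (δ : ℝ) (hδ : 0 ≤ δ) (hu : ∀ x, ‖u x‖ ≤ δ) :
    ∃ f : G → ℂ, R (64 * δ) f ∧ ∀ x : E, f x = u x := by
  have : CompactSpace E := isCompact_iff_compactSpace.1 hE.isCompact
  have hsum : ∀ a : lp (fun _ : Finset ℕ => ℂ) 1, Summable (fun S => ‖a S‖) := by
    intro a
    have := lp.memℓp a
    rw [memℓp_gen_iff (by norm_num)] at this
    simpa using this
  have hnorm : ∀ a : lp (fun _ : Finset ℕ => ℂ) 1, ‖a‖ = ∑' S, ‖a S‖ := by
    intro a
    rw [lp.norm_eq_tsum_rpow (by norm_num)]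
    simp
  have hbound : ∀ (a : lp (fun _ : Finset ℕ => ℂ) 1) (x : G) (S : Finset ℕ),
      ‖a S * ((w S x : ℝ) : ℂ)‖ = ‖a S‖ := by
    intro a x S
    rw [norm_mul, Complex.norm_real, Real.norm_eq_abs, abs_w, mul_one]
  have hsumx : ∀ (a : lp (fun _ : Finset ℕ => ℂ) 1) (x : G),
      Summable (fun S => a S * ((w S x : ℝ) : ℂ)) := by
    intro a x
    refine Summable.of_norm ?_
    simp_rw [hbound]
    exact hsum a
  have hcont : ∀ a : lp (fun _ : Finset ℕ => ℂ) 1,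
      Continuous (fun x : G => ∑' S, a S * ((w S x : ℝ) : ℂ)) := by
    intro a
    refine continuous_tsum (fun S => continuous_const.mul
      (Complex.continuous_ofReal.comp (continuous_w S))) (hsum a) ?_
    intro S x
    exact (hbound a x S).le
  let T0 : lp (fun _ : Finset ℕ => ℂ) 1 →ₗ[ℝ] C(E, ℂ) :=
    { toFun := fun a => ⟨fun x => 16 * ∑' S, a S * ((w S x : ℝ) : ℂ),
        continuous_const.mul ((hcont a).comp continuous_subtype_val)⟩
      map_add' := by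
        intro a b
        ext x
        show 16 * ∑' S, (a + b) S * ((w S x : ℝ) : ℂ) =
          16 * ∑' S, a S * ((w S x : ℝ) : ℂ) + 16 * ∑' S, b S * ((w S x : ℝ) : ℂ)
        rw [← mul_add, ← (hsumx a x).tsum_add (hsumx b x)]
        congr 2
        funext S
        rw [lp.coeFn_add, Pi.add_apply, add_mul]
      map_smul' := by
        intro r a
        ext x
        show 16 * ∑' S, (r • a) S * ((w S x : ℝ) : ℂ) =
          r • (16 * ∑' S, a S * ((w S x : ℝ) : ℂ))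
        have e : (fun S => (r • a) S * ((w S (x : G) : ℝ) : ℂ)) =
            fun S => (r : ℂ) * (a S * ((w S (x : G) : ℝ) : ℂ)) := by
          funext S
          rw [lp.coeFn_smul, Pi.smul_apply, Complex.real_smul, mul_assoc]
        rw [e, tsum_mul_left, Complex.real_smul]
        ring }
  have hT0 : ∀ a (x : E), T0 a x = 16 * ∑' S, a S * ((w S x : ℝ) : ℂ) := fun a x => rfl
  let T : lp (fun _ : Finset ℕ => ℂ) 1 →L[ℝ] C(E, ℂ) := T0.mkContinuous 16 (by
    intro a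
    rw [ContinuousMap.norm_le _ (by positivity)]
    intro x
    rw [hT0, norm_mul]
    have h8 : ‖(16 : ℂ)‖ = 16 := by simp
    rw [h8]
    refine mul_le_mul_of_nonneg_left ?_ (by norm_num)
    refine (norm_tsum_le_tsum_norm ?_).trans ?_
    · simp_rw [hbound]; exact hsum a
    · simp_rw [hbound]; rw [hnorm])
  have hT : ∀ a (x : E), T a x = 16 * ∑' S, a S * ((w S x : ℝ) : ℂ) := fun a x => rfl
  have H : ∀ y : C(E, ℂ), ‖y‖ ≤ 1 → ∃ x : lp (fun _ : Finset ℕ => ℂ) 1, ‖x‖ ≤ 1 ∧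
      ‖y - T x‖ ≤ 1 / 2 := by
    intro y hy
    obtain ⟨F, ⟨b, hb1, hb2, hb3⟩, hF⟩ := cplx_approx E hE h hh hσ y
      (fun x => (ContinuousMap.norm_coe_le_norm y x).trans hy)
    have hmem : Memℓp (fun S => b S / 16) (1 : ENNReal) := by
      rw [memℓp_gen_iff (by norm_num)]
      simp only [ENNReal.toReal_one, Real.rpow_one, norm_div]
      exact hb1.div_const _
    let a : lp (fun _ : Finset ℕ => ℂ) 1 := ⟨fun S => b S / 16, hmem⟩
    have ha : ∀ S, a S = b S / 16 := fun S => rfl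
    refine ⟨a, ?_, ?_⟩
    · rw [hnorm]
      simp_rw [ha, norm_div]
      rw [tsum_div_const]
      have h8 : ‖(16 : ℂ)‖ = 16 := by simp
      rw [h8, div_le_one (by norm_num)]
      exact hb2
    · rw [ContinuousMap.norm_le _ (by norm_num)]
      intro x
      rw [ContinuousMap.sub_apply, hT]
      have e : (16 : ℂ) * ∑' S, a S * ((w S x : ℝ) : ℂ) = F x := by
        rw [hb3 x, ← tsum_mul_left]
        congr 1
        funext S
        rw [ha]; ring
      rw [e]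
      exact hF x
  obtain ⟨a, ha1, ha2⟩ := iterate_approx T (1 / 2) (by norm_num) (by norm_num) H u
  have hun : ‖u‖ ≤ δ := (ContinuousMap.norm_le _ hδ).2 hu
  refine ⟨fun x => 16 * ∑' S, a S * ((w S x : ℝ) : ℂ), ?_, ?_⟩
  · refine ⟨fun S => 16 * a S, ?_, ?_, ?_⟩
    · simp_rw [norm_mul]
      exact (hsum a).mul_left _
    · simp_rw [norm_mul]
      rw [tsum_mul_left, ← hnorm]
      have h8 : ‖(16 : ℂ)‖ = 16 := by simp
      rw [h8]
      have h2 : ‖a‖ ≤ 2 * δ := ha2.trans (by norm_num; linarith)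
      linarith
    · intro x
      show 16 * ∑' S, a S * ((w S x : ℝ) : ℂ) = ∑' S, 16 * a S * ((w S x : ℝ) : ℂ)
      rw [← tsum_mul_left]
      congr 1
      funext S
      ring
  · intro x
    show 16 * ∑' S, a S * ((w S x : ℝ) : ℂ) = u x
    rw [← hT, ha1]

end WD
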