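import Pool.Agent.Helper348.AmEB
import Pool.Agent.Helper348.AmHelson
import Pool.Agent.Helper348.WDCube

set_option autoImplicit false

open MeasureTheory

namespace WD

lemma A_cont {f : G → ℂ} (hf : A f) : Continuous f := by
  obtain ⟨c, a, h1, _, h3⟩ := hf
  have h4 : f = fun x => ∑' S, a S * ((w S x : ℝ) : ℂ) := funext h3
  rw [h4]
  refine continuous_tsum (fun S => ?_) h1 (fun S x => ?_)
  · exact continuous_const.mul (Complex.continuous_ofReal.comp (continuous_w S))
  · exact (norm_term a S x).le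

/-- real functions of the first `m` coordinates bounded by one, multiplied by `h n`, are bounded in
the quotient norm -/
lemma Q_real {E : Set G} {h : ℕ → G → ℂ}
    (hσ : ∀ (m : ℕ) (σ : G → ℝ), Lev m σ → (∀ x, σ x = 1 ∨ σ x = -1) →
      ∀ᶠ n in Filter.atTop, Q E 1 (fun x => ((σ x : ℝ) : ℂ) * h n x))
    {m : ℕ} {g : G → ℝ} (hg : Lev m g) (hb : ∀ x, |g x| ≤ 1) :
    ∀ᶠ n in Filter.atTop, Q E 1 (fun x => ((g x : ℝ) : ℂ) * h n x) := by
  classical
  -- all sign functions of level m at once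
  have h1 : ∀ᶠ n in Filter.atTop, ∀ s : (Fin m → ℤˣ) → ℤˣ,
      Q E 1 (fun x => (((((s fun i => x i : ℤˣ) : ℤ) : ℝ)) : ℂ) * h n x) := by
    rw [Filter.eventually_all]
    intro s
    apply hσ m (fun x => (((s fun i => x i : ℤˣ) : ℤ) : ℝ))
    · intro x y hxy
      have : (fun i : Fin m => x i) = fun i : Fin m => y i := funext fun i => hxy i i.2
      simp only [this]
    · intro x
      rcases Int.units_eq_one_or (s fun i => x i) with h | h <;> simp [h]
  filter_upwards [h1] with n hn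
  let P : Set ((Fin m → ℤˣ) → ℝ) := {c | Q E 1 (fun x => ((c (fun i => x i) : ℝ) : ℂ) * h n x)}
  have hP : Convex ℝ P := by
    intro c hc d hd α β hα hβ hαβ
    have h2 := Q_add (Q_smul (α : ℂ) hc) (Q_smul (β : ℂ) hd)
    rw [Complex.norm_real, Complex.norm_real, Real.norm_eq_abs, Real.norm_eq_abs,
      abs_of_nonneg hα, abs_of_nonneg hβ, mul_one, mul_one, hαβ] at h2
    show Q E 1 (fun x => (((α • c + β • d) (fun i => x i) : ℝ) : ℂ) * h n x)
    refine Q_congr h2 isOpen_univ (Set.subset_univ _) fun x _ => ?_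
    simp only [Pi.add_apply, Pi.smul_apply, smul_eq_mul]
    push_cast
    ring
  have h3 := cube_convex P hP (by
    intro c hc
    have h4 := hn (fun y => if c y = 1 then 1 else -1)
    show Q E 1 (fun x => ((c (fun i => x i) : ℝ) : ℂ) * h n x)
    refine Q_congr h4 isOpen_univ (Set.subset_univ _) fun x _ => ?_
    rcases hc (fun i => x i) with h5 | h5
    · simp [h5]
    · simp [h5]; norm_num) (fun y => g (ext y)) (fun y => hb _)
  have h4 : Q E 1 (fun x => ((g (ext (fun i : Fin m => x i)) : ℝ) : ℂ) * h n x) := h3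
  refine Q_congr h4 isOpen_univ (Set.subset_univ _) fun x _ => ?_
  have h5 : g x = g (ext (fun i : Fin m => x i)) := by
    apply hg
    intro i hi
    simp [ext, hi]
  rw [h5]

lemma Q_complex {E : Set G} {h : ℕ → G → ℂ}
    (hσ : ∀ (m : ℕ) (σ : G → ℝ), Lev m σ → (∀ x, σ x = 1 ∨ σ x = -1) →
      ∀ᶠ n in Filter.atTop, Q E 1 (fun x => ((σ x : ℝ) : ℂ) * h n x))
    {m : ℕ} {g : G → ℂ} (hg : Lev m g) {η : ℝ} (hη : 0 < η) (hb : ∀ x, ‖g x‖ ≤ η) :
    ∀ᶠ n in Filter.atTop, Q E (2 * η) (fun x => g x * h n x) := by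
  have h1 : Lev m (fun x => (g x).re / η) := fun x y hxy => by
    show (g x).re / η = (g y).re / η
    rw [hg x y hxy]
  have h2 : Lev m (fun x => (g x).im / η) := fun x y hxy => by
    show (g x).im / η = (g y).im / η
    rw [hg x y hxy]
  filter_upwards [Q_real hσ h1 (fun x => by
      rw [abs_div, abs_of_pos hη, div_le_one hη]
      exact (Complex.abs_re_le_norm _).trans (hb x)),
    Q_real hσ h2 (fun x => by
      rw [abs_div, abs_of_pos hη, div_le_one hη]
      exact (Complex.abs_im_le_norm _).trans (hb x))] with n hn1 hn2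
  have h3 := Q_add (Q_smul (η : ℂ) hn1) (Q_smul ((η : ℂ) * Complex.I) hn2)
  rw [norm_mul, Complex.norm_I, Complex.norm_real, Real.norm_eq_abs, abs_of_pos hη] at h3
  refine Q_congr (Q_mono h3 (by linarith)) isOpen_univ (Set.subset_univ _) fun x _ => ?_
  have h4 : (η : ℂ) ≠ 0 := by exact_mod_cast hη.ne'
  rw [← Complex.re_add_im (g x)]
  push_cast
  simp only [Complex.add_re, Complex.ofReal_re, Complex.mul_re, Complex.I_re, Complex.I_im,
    Complex.ofReal_im, Complex.add_im, Complex.mul_im]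
  field_simp
  push_cast
  ring_nf

/-- there is a closed set of non-synthesis whose radical algebra has a bounded approximate
identity -/
theorem bai_package : ∃ E : Set G, IsClosed E ∧
    (∃ f, A f ∧ (∀ x ∈ E, f x = 0) ∧ ¬ JE E f) ∧
    ∃ (C : ℝ) (u : ℕ → G → ℂ), (∀ n, R C (u n)) ∧ (∀ n, ∀ x ∈ E, u n x = 0) ∧
      ∀ f, A f → (∀ x ∈ E, f x = 0) → ∀ ε : ℝ, 0 < ε →
        ∀ᶠ n in Filter.atTop, Q E ε (fun x => f x - u n x * f x) := by
  classical
  obtain ⟨E, s, h, hE, hs1, hs2, hs4, hh1, hh2, hσ⟩ := exists_EB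
  have hcpt : CompactSpace E := isCompact_iff_compactSpace.1 hE.isCompact
  have hR1 : ∀ n, R 1 (h n) := by
    intro n
    obtain ⟨a, h1, h2, h3, _⟩ := hh1 n
    exact ⟨a, h1, h2, h3⟩
  -- correction terms
  have hv : ∀ n, ∃ v : G → ℂ, R (64 * (8 * (1 / 2) ^ n)) v ∧ ∀ x ∈ E, v x = 1 - 8 * h n x := by
    intro n
    have hc : Continuous (h n) := A_cont ⟨_, hR1 n⟩
    obtain ⟨v, hv1, hv2⟩ := helsonB E hE h hh2 hσ
      ⟨fun x : E => 1 - 8 * h n x, by fun_prop⟩ (8 * (1 / 2) ^ n) (by positivity) (by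
        intro x
        show ‖1 - 8 * h n x‖ ≤ 8 * (1 / 2) ^ n
        have h1 : 1 - 8 * h n x = (-8) * (h n x - 1 / 8) := by ring
        rw [h1, norm_mul]
        have h2 := hh2 n x x.2
        have h3 : ‖(-8 : ℂ)‖ = 8 := by simp
        rw [h3]
        linarith)
    exact ⟨v, hv1, fun x hx => hv2 ⟨x, hx⟩⟩
  choose v hv1 hv2 using hv
  -- the approximate identity
  have hu1 : ∀ n, R (1 + ‖(-8 : ℂ)‖ * 1 + ‖(-1 : ℂ)‖ * (64 * (8 * (1 / 2) ^ n)))
      (fun x => 1 + (-8) * h n x + (-1) * v n x) := by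
    intro n
    exact R_add (R_add R_one (R_smul _ (hR1 n))) (R_smul _ (hv1 n))
  have h8 : ‖(-8 : ℂ)‖ = 8 := by simp
  have hpow : ∀ n : ℕ, ((1 : ℝ) / 2) ^ n ≤ 1 := fun n => pow_le_one₀ (by norm_num) (by norm_num)
  refine ⟨E, hE, ?_, 521, fun n x => 1 + (-8) * h n x + (-1) * v n x, ?_, ?_, ?_⟩
  · -- non-synthesis
    refine ⟨fun x => 1 + (-8) * h 13 x + (-1) * v 13 x, ⟨_, hu1 13⟩, ?_, ?_⟩
    · intro x hx
      show 1 + (-8) * h 13 x + (-1) * v 13 x = 0
      rw [hv2 13 x hx]; ring
    · intro hJ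
      obtain ⟨a, ha1, ha2, ha3, ha4⟩ := hh1 13
      obtain ⟨b, hb1, hb2, hb3⟩ := hv1 13
      obtain ⟨g, ⟨c, hc1, hc2, hc3⟩, U, hU, hEU, hg⟩ := hJ (1 / 16) (by norm_num)
      have hsumC : ∀ (v : Finset ℕ → ℂ), Summable (fun S => ‖v S‖) → ∀ (t : Finset ℕ → ℝ) (C : ℝ),
          (∀ S, |t S| ≤ C) → Summable (fun S => v S * ((t S : ℝ) : ℂ)) := by
        intro v hv t C ht
        apply Summable.of_norm
        refine Summable.of_nonneg_of_le (fun _ => norm_nonneg _) (fun S => ?_) (hv.mul_right C)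
        rw [norm_mul, Complex.norm_real, Real.norm_eq_abs]
        exact mul_le_mul_of_nonneg_left (ht _) (norm_nonneg _)
      have hδ : Summable (fun S : Finset ℕ => ‖(if S = ∅ then (1 : ℂ) else 0)‖) := by
        apply summable_of_ne_finset_zero (s := {∅})
        intro T hT
        simp at hT
        simp [hT]
      have hbound : ∀ (v : Finset ℕ → ℂ) (K : ℝ), Summable (fun S => ‖v S‖) → (∑' S, ‖v S‖) ≤ K →
          ‖∑' S, v S * ((s S : ℝ) : ℂ)‖ ≤ K * (3 / 2) := by
        intro v K hv hK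
        have h6 : Summable (fun S => ‖v S * ((s S : ℝ) : ℂ)‖) := by
          refine Summable.of_nonneg_of_le (fun _ => norm_nonneg _) (fun S => ?_)
            (hv.mul_right (3 / 2))
          rw [norm_mul, Complex.norm_real, Real.norm_eq_abs]
          exact mul_le_mul_of_nonneg_left (hs1 _) (norm_nonneg _)
        refine (norm_tsum_le_tsum_norm h6).trans ?_
        calc ∑' S, ‖v S * ((s S : ℝ) : ℂ)‖ ≤ ∑' S, ‖v S‖ * (3 / 2) := by
              refine h6.tsum_le_tsum (fun S => ?_) (hv.mul_right (3 / 2))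
              rw [norm_mul, Complex.norm_real, Real.norm_eq_abs]
              exact mul_le_mul_of_nonneg_left (hs1 _) (norm_nonneg _)
          _ = (∑' S, ‖v S‖) * (3 / 2) := tsum_mul_right
          _ ≤ K * (3 / 2) := by linarith
      -- linear combination of the coefficients
      have hlin : ∀ (t : Finset ℕ → ℝ) (C : ℝ), (∀ S, |t S| ≤ C) →
          ∑' S, ((if S = ∅ then (1 : ℂ) else 0) + (-8) * a S + (-1) * b S + (-1) * c S) *
            ((t S : ℝ) : ℂ) = ((t ∅ : ℝ) : ℂ) + (-8) * ∑' S, a S * ((t S : ℝ) : ℂ) +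
              (-1) * ∑' S, b S * ((t S : ℝ) : ℂ) + (-1) * ∑' S, c S * ((t S : ℝ) : ℂ) := by
        intro t C ht
        have e0 := hsumC _ hδ t C ht
        have e1 := hsumC a ha1 t C ht
        have e2 := hsumC b hb1 t C ht
        have e3 := hsumC c hc1 t C ht
        have e4 : ∑' S, (if S = ∅ then (1 : ℂ) else 0) * ((t S : ℝ) : ℂ) = ((t ∅ : ℝ) : ℂ) := by
          rw [tsum_eq_single ∅]
          · simp
          · intro S hS; simp [hS]
        rw [← e4, ← tsum_mul_left, ← tsum_mul_left, ← tsum_mul_left,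
          ← e0.tsum_add (e1.mul_left _), ← (e0.add (e1.mul_left _)).tsum_add (e2.mul_left _),
          ← ((e0.add (e1.mul_left _)).add (e2.mul_left _)).tsum_add (e3.mul_left _)]
        exact tsum_congr fun S => by ring
      have hcomb : Summable (fun S => ‖(if S = ∅ then (1 : ℂ) else 0) + (-8) * a S + (-1) * b S +
          (-1) * c S‖) := by
        have k1 : Summable (fun S => ‖(-8 : ℂ) * a S‖) := by simpa using ha1.mul_left 8
        have k2 : Summable (fun S => ‖(-1 : ℂ) * b S‖) := by simpa using hb1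
        have k3 : Summable (fun S => ‖(-1 : ℂ) * c S‖) := by simpa using hc1
        refine Summable.of_nonneg_of_le (fun _ => norm_nonneg _) (fun S => ?_)
          (((hδ.add k1).add k2).add k3)
        refine (norm_add_le _ _).trans (add_le_add_left ?_ _)
        refine (norm_add_le _ _).trans (add_le_add_left ?_ _)
        exact norm_add_le _ _
      have h0 := hs4 _ hcomb ⟨U, hU, hEU, fun x hx => by
        rw [hlin (fun S => w S x) 1 (fun S => (abs_w S x).le)]
        have h1 : 1 + (-8) * h 13 x + (-1) * v 13 x = g x := hg x hx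
        rw [hc3 x, ha3 x, hb3 x] at h1
        have h2 : ((w ∅ x : ℝ) : ℂ) = 1 := by simp [w]
        rw [h2]
        linear_combination h1⟩
      rw [hlin s (3 / 2) hs1] at h0
      have hb4 := hbound b _ hb1 hb2
      have hc4 := hbound c _ hc1 hc2
      have h5 : ((s ∅ : ℝ) : ℂ) = 8 * ∑' S, a S * ((s S : ℝ) : ℂ) + ∑' S, b S * ((s S : ℝ) : ℂ) +
          ∑' S, c S * ((s S : ℝ) : ℂ) := by
        linear_combination h0
      have h6 : ‖((s ∅ : ℝ) : ℂ)‖ ≤ 8 * (1 / 2) ^ 13 + 64 * (8 * (1 / 2) ^ 13) * (3 / 2) +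
          1 / 16 * (3 / 2) := by
        rw [h5]
        refine (norm_add_le _ _).trans (add_le_add ?_ hc4)
        refine (norm_add_le _ _).trans (add_le_add ?_ hb4)
        rw [norm_mul]
        have h7 : ‖(8 : ℂ)‖ = 8 := by simp
        rw [h7]
        exact mul_le_mul_of_nonneg_left ha4 (by norm_num)
      rw [Complex.norm_real, Real.norm_eq_abs, abs_of_nonneg (by linarith)] at h6
      norm_num at h6
      linarith
  · intro n
    refine R_mono (hu1 n) ?_
    rw [h8, norm_neg, norm_one]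
    have := hpow n
    linarith
  · intro n x hx
    show 1 + (-8) * h n x + (-1) * v n x = 0
    rw [hv2 n x hx]; ring
  · intro f hf h0 ε hε
    obtain ⟨c, hc⟩ := id hf
    have hc0 := R_nonneg hc
    -- approximate f by a function of finitely many coordinates
    set η := ε / 64 with hη
    have hη0 : 0 < η := by positivity
    obtain ⟨m, g, hg, hfg⟩ := finite_part hc hη0
    set g' : G → ℂ := fun x => if ‖g x‖ ≤ η then g x else 0 with hg'
    have hg'L : Lev m g' := by
      intro x y hxy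
      simp only [hg', hg x y hxy]
    have hg'b : ∀ x, ‖g' x‖ ≤ η := by
      intro x
      simp only [hg']
      split_ifs with h
      · exact h
      · simp; linarith
    have hlim : Filter.Tendsto (fun n : ℕ => 64 * (8 * ((1 : ℝ) / 2) ^ n) * c) Filter.atTop
        (nhds 0) := by
      have h1 := tendsto_pow_atTop_nhds_zero_of_lt_one (show (0 : ℝ) ≤ 1 / 2 by norm_num)
        (show (1 : ℝ) / 2 < 1 by norm_num)
      have h2 := h1.const_mul (64 * 8 * c)
      rw [mul_zero] at h2
      refine h2.congr fun n => ?_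
      ring
    filter_upwards [Q_complex hσ hg'L hη0 hg'b, (tendsto_order.1 hlim).2 (ε / 2) (by linarith)]
      with n hn1 hn2
    -- f - u f = 8 f h + v f
    have h1 : Q E (η * 1) (fun x => (f x - g x) * h n x) := Q_of_R (R_mul hfg (hR1 n))
    have h2 : Q E (2 * η) (fun x => g x * h n x) := by
      refine Q_congr hn1 (V := {x | ‖g x‖ ≤ η}) ?_ ?_ ?_
      · apply isOpen_of_lev (m := m)
        intro x y hxy
        show (‖g x‖ ≤ η) = (‖g y‖ ≤ η)
        rw [hg x y hxy]
      · intro x hx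
        have h1 := R_bound hfg x
        simp only [h0 x hx, zero_sub, norm_neg] at h1
        exact h1
      · intro x hx
        have h3 : ‖g x‖ ≤ η := hx
        show g x * h n x = g' x * h n x
        simp only [hg']
        rw [if_pos h3]
    have h3 : Q E (64 * (8 * (1 / 2) ^ n) * c) (fun x => v n x * f x) := Q_of_R (R_mul (hv1 n) hc)
    have h4 := Q_add (Q_smul 8 (Q_add h1 h2)) h3
    have h7 : ‖(8 : ℂ)‖ = 8 := by simp
    refine Q_congr (Q_mono h4 ?_) isOpen_univ (Set.subset_univ _) fun x _ => ?_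
    · rw [h7, hη]
      linarith
    · ring

end WD
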