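import Pool.Agent.Helper348.AmOneBlock

set_option autoImplicit false

open MeasureTheory

namespace WD


/-- density of one block of `L` coordinates starting at `M`: with weight `a` the block equals
`v(x)`, otherwise it is uniform -/
noncomputable def Bk (M L : ℕ) (v : ℕ → G → ℝ) (a : ℝ) (x : G) : ℝ :=
  1 - a + a * ∏ i ∈ Finset.range L, (1 + v i x * e (M + i) x)

/-- product of `N` consecutive blocks -/
noncomputable def DB (m L N : ℕ) (v : ℕ → G → ℝ) (a : ℝ) (x : G) : ℝ :=
  ∏ k ∈ Finset.range N, Bk (m + k * L) L v a x

/-- indicator that the first `t` coordinates of the block starting at `M` are all `1` -/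
noncomputable def fl (M t : ℕ) (x : G) : ℝ := ∏ i ∈ Finset.range t, ((1 + e (M + i) x) / 2)


lemma bc_flip_lev {m : ℕ} {u : G → ℝ} (hu : Lev m u) (j : ℕ) (hj : m ≤ j) (x : G) :
    u (flip j * x) = u x := by
  apply hu
  intro i hi
  show flip j i * x i = x i
  unfold flip
  rw [Pi.mulSingle_eq_of_ne (by omega), one_mul]

lemma bc_flip_w (S : Finset ℕ) (j : ℕ) (hj : j ∉ S) (x : G) : w S (flip j * x) = w S x := by
  unfold w
  apply Finset.prod_congr rfl
  intro i hi
  exact e_flip_ne j i (by rintro rfl; exact hj hi) x

lemma bc_flip_DB (m L N : ℕ) (v : ℕ → G → ℝ) (hv : ∀ i, Lev m (v i)) (a : ℝ) (j : ℕ)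
    (hj : m + N * L ≤ j) (x : G) : DB m L N v a (flip j * x) = DB m L N v a x := by
  unfold DB
  apply Finset.prod_congr rfl
  intro k hk
  rw [Finset.mem_range] at hk
  unfold Bk
  congr 2
  apply Finset.prod_congr rfl
  intro i hi
  rw [Finset.mem_range] at hi
  have h1 : (k + 1) * L ≤ N * L := Nat.mul_le_mul_right L hk
  rw [Nat.add_mul, Nat.one_mul] at h1
  have hmj : m ≤ j := le_trans (Nat.le_add_right _ _) hj
  rw [bc_flip_lev (hv i) j hmj, e_flip_ne j (m + k * L + i) (by omega)]

lemma bc_cont_Bk (M L : ℕ) (v : ℕ → G → ℝ) (hvc : ∀ i, Continuous (v i)) (a : ℝ) :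
    Continuous (Bk M L v a) := by
  unfold Bk
  refine continuous_const.add (continuous_const.mul ?_)
  exact continuous_finsetProd _ fun i _ => continuous_const.add ((hvc i).mul (continuous_e _))

lemma bc_cont_DB (m L N : ℕ) (v : ℕ → G → ℝ) (hvc : ∀ i, Continuous (v i)) (a : ℝ) :
    Continuous (DB m L N v a) := by
  unfold DB
  exact continuous_finsetProd _ fun k _ => bc_cont_Bk _ L v hvc a

lemma bc_int_Bk (ν : Measure G) [IsProbabilityMeasure ν] (M L : ℕ) (v : ℕ → G → ℝ)
    (hvc : ∀ i, Continuous (v i)) (a : ℝ) (f : G → ℝ) (hf : Continuous f) :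
    ∫ x, f x * Bk M L v a x ∂ν = (1 - a) * ∫ x, f x ∂ν +
      a * ∫ x, f x * ∏ i ∈ Finset.range L, (1 + v i x * e (M + i) x) ∂ν := by
  have hP : Continuous (fun x : G => ∏ i ∈ Finset.range L, (1 + v i x * e (M + i) x)) :=
    continuous_finsetProd _ fun i _ => continuous_const.add ((hvc i).mul (continuous_e _))
  have i1 : Integrable (fun x => (1 - a) * f x) ν := (int_cont ν hf).const_mul _
  have i2 : Integrable (fun x => a * (f x * ∏ i ∈ Finset.range L, (1 + v i x * e (M + i) x))) ν :=
    (int_cont ν (hf.mul hP)).const_mul _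
  rw [← integral_const_mul, ← integral_const_mul, ← integral_add i1 i2]
  congr 1
  funext x
  unfold Bk
  ring

lemma bc_abs (ν : Measure G) [IsProbabilityMeasure ν] (p : G → ℝ) (S : Finset ℕ) :
    |∫ x, p x * w S x ∂ν| ≤ ∫ x, |p x| ∂ν := by
  rw [← Real.norm_eq_abs]
  refine (norm_integral_le_integral_norm _).trans (le_of_eq ?_)
  congr 1
  funext x
  rw [Real.norm_eq_abs, abs_mul, abs_w, mul_one]

theorem block_coeff (ν : Measure G) [IsProbabilityMeasure ν] [ν.IsMulLeftInvariant]
    (m L N : ℕ) (v : ℕ → G → ℝ) (hv : ∀ i, Lev m (v i)) (hv1 : ∀ i x, v i x = 1 ∨ v i x = -1)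
    (p : G → ℝ) (hp : Lev m p) (S : Finset ℕ) :
    ∃ (κ : ℝ) (r : ℕ), |κ| ≤ ∫ x, |p x| ∂ν ∧
      (r = 0 → κ = ∫ x, p x * w S x ∂ν) ∧ (1 ≤ r → ∫ x, p x * w S x ∂ν = 0) ∧
      ∀ a : ℝ, ∫ x, p x * DB m L N v a x * w S x ∂ν = a ^ r * κ := by
  have hvc : ∀ i, Continuous (v i) := fun i => (hv i).continuous
  induction N generalizing p S with
  | zero =>
    refine ⟨∫ x, p x * w S x ∂ν, 0, bc_abs ν p S, fun _ => rfl, fun h => absurd h (by norm_num),
      fun a => ?_⟩
    rw [pow_zero, one_mul]
    congr 1
    funext x
    simp [DB]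
  | succ N ih =>
    set M : ℕ := m + N * L with hM
    have hpc : Continuous p := hp.continuous
    have hDB : ∀ (a : ℝ) (x : G), DB m L (N + 1) v a x = DB m L N v a x * Bk M L v a x := by
      intro a x
      unfold DB
      rw [Finset.prod_range_succ]
    have hvi : ∀ j i, i < L → ∀ x, v j (flip (M + i) * x) = v j x := fun j i _ x =>
      bc_flip_lev (hv j) (M + i) (by omega) x
    by_cases hT : S ∩ Finset.Ico M (M + L) = ∅
    · obtain ⟨κ, r, h1, h2, h3, h4⟩ := ih p hp S
      refine ⟨κ, r, h1, h2, h3, fun a => ?_⟩
      rw [← h4 a]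
      have hnot : ∀ i, i < L → M + i ∉ S := by
        intro i hi hmem
        have : M + i ∈ S ∩ Finset.Ico M (M + L) :=
          Finset.mem_inter.mpr ⟨hmem, Finset.mem_Ico.mpr ⟨by omega, by omega⟩⟩
        rw [hT] at this
        exact Finset.notMem_empty _ this
      have hfc : Continuous (fun x => p x * DB m L N v a x * w S x) :=
        (hpc.mul (bc_cont_DB m L N v hvc a)).mul (continuous_w S)
      have hfi : ∀ i, i < L → ∀ x, (fun x => p x * DB m L N v a x * w S x) (flip (M + i) * x)
          = (fun x => p x * DB m L N v a x * w S x) x := by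
        intro i hi x
        beta_reduce
        rw [bc_flip_lev hp (M + i) (by omega), bc_flip_DB m L N v hv a (M + i) (by omega),
          bc_flip_w S (M + i) (hnot i hi)]
      have hA := bc_int_Bk ν M L v hvc a _ hfc
      have hB := one_block ν M L v hvc hvi _ hfc hfi ∅ (Finset.empty_subset _)
      have hB' : ∫ x, (fun x => p x * DB m L N v a x * w S x) x *
          ∏ i ∈ Finset.range L, (1 + v i x * e (M + i) x) ∂ν =
          ∫ x, (fun x => p x * DB m L N v a x * w S x) x ∂ν := by
        have e1 : ∀ x : G, w ∅ x = 1 := fun x => by simp [w]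
        simpa [e1] using hB
      calc ∫ x, p x * DB m L (N + 1) v a x * w S x ∂ν
          = ∫ x, (fun x => p x * DB m L N v a x * w S x) x * Bk M L v a x ∂ν := by
            congr 1
            funext x
            rw [hDB]
            ring
        _ = _ := hA
        _ = (1 - a) * ∫ x, (fun x => p x * DB m L N v a x * w S x) x ∂ν +
            a * ∫ x, (fun x => p x * DB m L N v a x * w S x) x ∂ν := by rw [hB']
        _ = ∫ x, p x * DB m L N v a x * w S x ∂ν := by ring
    · -- the nonempty case
      set T : Finset ℕ := S ∩ Finset.Ico M (M + L) with hTdef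
      set S2 : Finset ℕ := S \ Finset.Ico M (M + L) with hS2
      have hTne : T.Nonempty := Finset.nonempty_iff_ne_empty.mpr hT
      have hTsub : T ⊆ Finset.Ico M (M + L) := Finset.inter_subset_right
      have hw : ∀ x, w S x = w S2 x * w T x := by
        intro x
        have hdisj : Disjoint S2 T := by
          rw [Finset.disjoint_left]
          intro i hi hi2
          exact (Finset.mem_sdiff.mp hi).2 (hTsub hi2)
        have hun : S = S2 ∪ T := by
          ext i
          rw [Finset.mem_union, hS2, hTdef, Finset.mem_sdiff, Finset.mem_inter]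
          tauto
        unfold w
        conv_lhs => rw [hun]
        rw [Finset.prod_union hdisj]
      set Vf : G → ℝ := fun x => ∏ i ∈ (Finset.range L).filter (fun i => M + i ∈ T), v i x with hVf
      have hVabs : ∀ x, |Vf x| = 1 := by
        intro x
        rw [hVf]
        beta_reduce
        rw [Finset.abs_prod]
        apply Finset.prod_eq_one
        intro i _
        rcases hv1 i x with h | h <;> simp [h]
      have hVlev : Lev m (fun x => p x * Vf x) := by
        intro x y hxy
        beta_reduce
        rw [hp x y hxy]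
        congr 1
        rw [hVf]
        beta_reduce
        apply Finset.prod_congr rfl
        intro i _
        exact hv i x y hxy
      obtain ⟨κ, r, h1, h2, h3, h4⟩ := ih (fun x => p x * Vf x) hVlev S2
      refine ⟨κ, r + 1, ?_, fun h => absurd h (by omega), fun _ => ?_, fun a => ?_⟩
      · refine h1.trans (le_of_eq ?_)
        congr 1
        funext x
        rw [abs_mul, hVabs, mul_one]
      · obtain ⟨j, hj⟩ := hTne
        have hjS : j ∈ S := (Finset.mem_inter.mp hj).1
        have hjM : M ≤ j := (Finset.mem_Ico.mp (hTsub hj)).1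
        have hodd := int_odd ν (u := fun x => p x * w (S.erase j) x) j (by
          intro x
          beta_reduce
          rw [bc_flip_lev hp j (by omega), bc_flip_w _ j (Finset.notMem_erase j S)])
        rw [← hodd]
        congr 1
        funext x
        have : w S x = w (S.erase j) x * e j x := by
          unfold w
          rw [Finset.prod_erase_mul _ _ hjS]
        rw [this]
        ring
      · have hnot : ∀ i, i < L → M + i ∉ S2 := by
          intro i hi hmem
          exact (Finset.mem_sdiff.mp hmem).2 (Finset.mem_Ico.mpr ⟨by omega, by omega⟩)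
        set u : G → ℝ := fun x => p x * DB m L N v a x * w S2 x with hu
        have huc : Continuous u :=
          (hpc.mul (bc_cont_DB m L N v hvc a)).mul (continuous_w S2)
        have hui : ∀ i, i < L → ∀ x, u (flip (M + i) * x) = u x := by
          intro i hi x
          rw [hu]
          beta_reduce
          rw [bc_flip_lev hp (M + i) (by omega), bc_flip_DB m L N v hv a (M + i) (by omega),
            bc_flip_w S2 (M + i) (hnot i hi)]
        have hA := bc_int_Bk ν M L v hvc a (fun x => u x * w T x) (huc.mul (continuous_w T))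
        have hB := one_block ν M L v hvc hvi u huc hui T hTsub
        have hC := one_block_unif ν M L u hui T hTsub hTne
        beta_reduce at hA
        calc ∫ x, p x * DB m L (N + 1) v a x * w S x ∂ν
            = ∫ x, u x * w T x * Bk M L v a x ∂ν := by
              congr 1
              funext x
              rw [hDB, hw, hu]
              ring
          _ = _ := hA
          _ = a * ∫ x, u x * Vf x ∂ν := by rw [hB, hC]; ring
          _ = a * ∫ x, (p x * Vf x) * DB m L N v a x * w S2 x ∂ν := by
              congr 2
              funext x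
              rw [hu]
              ring
          _ = a ^ (r + 1) * κ := by
              have := h4 a
              beta_reduce at this
              rw [this]
              ring

end WD
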