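import Pool.Agent.Helper348.AmDefs

set_option autoImplicit false

/-!
# Completeness of the Fourier algebra and of its quotients
-/

namespace Am

variable {Γ : Type} [CommGroup Γ] [TopologicalSpace Γ]

theorem tail_bound {ι : Type} {a : ℕ → ι → ℂ}
    (hd : Summable (fun p : ℕ × ι => ‖a p.1 p.2‖)) (N : ℕ) :
    Summable (fun χ => ‖∑' n, a (n + N) χ‖) ∧
      ∑' χ, ‖∑' n, a (n + N) χ‖ ≤ ∑' n, ∑' χ, ‖a (n + N) χ‖ := by
  have h1 : Summable (fun p : ℕ × ι => ‖a (p.1 + N) p.2‖) :=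
    hd.comp_injective (i := fun p : ℕ × ι => (p.1 + N, p.2)) (by
      rintro ⟨n, χ⟩ ⟨m, ψ⟩ h
      simp only [Prod.mk.injEq] at h ⊢
      exact ⟨by omega, h.2⟩)
  have h2 : Summable (fun p : ι × ℕ => ‖a (p.2 + N) p.1‖) := h1.prod_symm
  have h3 : ∀ χ, ‖∑' n, a (n + N) χ‖ ≤ ∑' n, ‖a (n + N) χ‖ := fun χ =>
    norm_tsum_le_tsum_norm (h2.prod_factor χ)
  have h4 : Summable (fun χ => ‖∑' n, a (n + N) χ‖) :=
    Summable.of_nonneg_of_le (fun _ => norm_nonneg _) h3 h2.prod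
  refine ⟨h4, (h4.tsum_le_tsum h3 h2.prod).trans (le_of_eq ?_)⟩
  exact Summable.tsum_comm (f := fun n χ => ‖a (n + N) χ‖) h1

instance fa_complete : CompleteSpace (FA Γ) := by
  apply NormedAddCommGroup.completeSpace_of_summable_imp_tendsto
  intro u hu
  have h1 : ∀ n, ∃ a : PontryaginDual Γ → ℂ, Rep a (u n : Γ → ℂ) ∧
      ∑' χ, ‖a χ‖ < ‖u n‖ + (1 / 2 : ℝ) ^ n := fun n =>
    exists_rep_lt (u n).2 (lt_add_of_pos_right _ (by positivity))
  choose a ha hlt using h1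
  have hb : Summable (fun n => ‖u n‖ + (1 / 2 : ℝ) ^ n) := hu.add summable_geometric_two
  have hs : Summable (fun n => ∑' χ, ‖a n χ‖) :=
    Summable.of_nonneg_of_le (fun n => tsum_nonneg fun _ => norm_nonneg _)
      (fun n => (hlt n).le) hb
  have hd : Summable (fun p : ℕ × PontryaginDual Γ => ‖a p.1 p.2‖) := by
    rw [summable_prod_of_nonneg (fun _ => norm_nonneg _)]
    exact ⟨fun n => (ha n).1, hs⟩
  have hd2 : Summable (fun p : PontryaginDual Γ × ℕ => ‖a p.2 p.1‖) := hd.prod_symm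
  have hcol : ∀ χ, Summable (fun n => a n χ) := fun χ =>
    Summable.of_norm (hd2.prod_factor χ)
  have h0 := tail_bound hd 0
  simp only [add_zero] at h0
  have hrep : Rep (fun χ => ∑' n, a n χ) (fun x => ∑' χ, (∑' n, a n χ) * ((χ x : Circle) : ℂ)) :=
    ⟨h0.1, fun x => rfl⟩
  obtain ⟨F, hF⟩ : ∃ F : FA Γ, (F : Γ → ℂ) =
      fun x => ∑' χ, (∑' n, a n χ) * ((χ x : Circle) : ℂ) := ⟨⟨_, ⟨_, hrep⟩⟩, rfl⟩
  rw [← hF] at hrep
  refine ⟨F, ?_⟩
  rw [tendsto_iff_norm_sub_tendsto_zero]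
  have htail : Filter.Tendsto (fun N => ∑' n, ∑' χ, ‖a (n + N) χ‖) Filter.atTop (nhds 0) :=
    tendsto_sum_nat_add (fun n => ∑' χ, ‖a n χ‖)
  refine squeeze_zero (fun _ => norm_nonneg _) (fun N => ?_) htail
  -- the difference is represented by minus the tail
  have hfin : ∀ N, ∃ b : PontryaginDual Γ → ℂ, (∀ χ, b χ = ∑ i ∈ Finset.range N, a i χ) ∧
      Rep b ((∑ i ∈ Finset.range N, u i : FA Γ) : Γ → ℂ) := by
    intro N
    induction N with
    | zero =>
      refine ⟨fun _ => 0, fun χ => by simp, ?_⟩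
      simp only [Finset.range_zero, Finset.sum_empty]
      exact ⟨by simp [summable_zero], fun x => by
        show (0 : ℂ) = _
        simp⟩
    | succ N ih =>
      obtain ⟨b, hb1, hb2⟩ := ih
      refine ⟨fun χ => b χ + a N χ, fun χ => by
        show b χ + a N χ = _
        rw [hb1, Finset.sum_range_succ], ?_⟩
      rw [Finset.sum_range_succ]
      exact hb2.add (ha N)
  obtain ⟨b, hb1, hb2⟩ := hfin N
  have h5 : Rep (fun χ => b χ + (-1) * ∑' n, a n χ)
      (((∑ i ∈ Finset.range N, u i : FA Γ) : Γ → ℂ) + ((-1 : ℂ) • (F : Γ → ℂ))) :=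
    hb2.add (hrep.smul (-1))
  have h6 : ∀ χ, b χ + (-1) * ∑' n, a n χ = -∑' n, a (n + N) χ := by
    intro χ
    have := (hcol χ).sum_add_tsum_nat_add N
    rw [hb1, ← this]
    ring
  rw [fa_norm_def]
  have h7 := nrm_le h5
  simp only [h6, norm_neg] at h7
  have h8 := (tail_bound hd N).2
  refine le_trans (le_of_eq ?_) (h7.trans h8)
  congr 1
  rw [neg_one_smul, ← sub_eq_add_neg]
  rfl

instance ae_complete (E : Set Γ) : CompleteSpace (AE E) := by
  exact QuotientAddGroup.completeSpace_left (FA Γ) ((JEi E).closure).toAddSubgroup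

end Am
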