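import Mathlib

set_option autoImplicit false

/-!
# The Fourier algebra of a compact abelian group, the algebras `A_E` and `R_E`, and amenability
-/

namespace Am

section Fourier

variable {Γ : Type} [CommGroup Γ] [TopologicalSpace Γ]

/-- `f` is the sum of the absolutely convergent series of characters with coefficients `a`.
For compact `Γ` (so that `G = PontryaginDual Γ` is discrete and `a ∈ ℓ¹(G) = L¹(G)`) this says
that `f` is the Fourier transform of `a`. -/
def Rep (a : PontryaginDual Γ → ℂ) (f : Γ → ℂ) : Prop :=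
  Summable (fun χ => ‖a χ‖) ∧ ∀ x, f x = ∑' χ, a χ * ((χ x : Circle) : ℂ)

/-- the `L¹(G)`-norm of the Fourier coefficients of `f` (an infimum over all representations; the
representation is unique when `Γ` is compact) -/
noncomputable def nrm (f : Γ → ℂ) : ℝ := sInf {c : ℝ | ∃ a, Rep a f ∧ ∑' χ, ‖a χ‖ = c}

theorem norm_char (χ : PontryaginDual Γ) (x : Γ) : ‖((χ x : Circle) : ℂ)‖ = 1 := by
  exact Circle.norm_coe _

theorem Rep.summable {a : PontryaginDual Γ → ℂ} {f : Γ → ℂ} (h : Rep a f) (x : Γ) :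
    Summable (fun χ => a χ * ((χ x : Circle) : ℂ)) := by
  apply Summable.of_norm
  refine h.1.congr fun χ => ?_
  rw [norm_mul, norm_char, mul_one]

theorem Rep.norm_le {a : PontryaginDual Γ → ℂ} {f : Γ → ℂ} (h : Rep a f) (x : Γ) :
    ‖f x‖ ≤ ∑' χ, ‖a χ‖ := by
  rw [h.2 x]
  refine (norm_tsum_le_tsum_norm ?_).trans (le_of_eq ?_)
  · exact h.1.congr fun χ => by rw [norm_mul, norm_char, mul_one]
  · exact tsum_congr fun χ => by rw [norm_mul, norm_char, mul_one]

theorem Rep.add {a b : PontryaginDual Γ → ℂ} {f g : Γ → ℂ} (hf : Rep a f) (hg : Rep b g) :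
    Rep (fun χ => a χ + b χ) (f + g) := by
  refine ⟨Summable.of_nonneg_of_le (fun _ => norm_nonneg _) (fun S => norm_add_le _ _)
    (hf.1.add hg.1), fun x => ?_⟩
  rw [Pi.add_apply, hf.2 x, hg.2 x, ← (hf.summable x).tsum_add (hg.summable x)]
  exact tsum_congr fun χ => by ring

theorem Rep.smul {a : PontryaginDual Γ → ℂ} {f : Γ → ℂ} (k : ℂ) (hf : Rep a f) :
    Rep (fun χ => k * a χ) (k • f) := by
  refine ⟨by simpa only [norm_mul] using hf.1.mul_left ‖k‖, fun x => ?_⟩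
  rw [Pi.smul_apply, smul_eq_mul, hf.2 x, ← tsum_mul_left]
  exact tsum_congr fun χ => by ring

theorem Rep.one : Rep (fun χ : PontryaginDual Γ => by classical exact if χ = 1 then (1 : ℂ) else 0)
    (1 : Γ → ℂ) := by
  classical
  constructor
  · apply summable_of_ne_finset_zero (s := {1})
    intro T hT
    simp at hT
    simp [hT]
  · intro x
    rw [tsum_eq_single 1]
    · simp
    · intro T hT; simp [hT]

/-- auxiliary change of variables for the convolution product -/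
noncomputable def convEquiv (Γ : Type) [CommGroup Γ] [TopologicalSpace Γ] :
    PontryaginDual Γ × PontryaginDual Γ ≃ PontryaginDual Γ × PontryaginDual Γ where
  toFun p := (p.1 * p.2⁻¹, p.2)
  invFun p := (p.1 * p.2, p.2)
  left_inv p := by simp
  right_inv p := by simp

/-- the product is represented by the convolution of the coefficients -/
theorem Rep.mul {a b : PontryaginDual Γ → ℂ} {f g : Γ → ℂ} (hf : Rep a f) (hg : Rep b g) :
    ∃ c : PontryaginDual Γ → ℂ, Rep c (f * g) ∧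
      ∑' χ, ‖c χ‖ ≤ (∑' χ, ‖a χ‖) * (∑' χ, ‖b χ‖) := by
  have hS : Summable (fun p : PontryaginDual Γ × PontryaginDual Γ => ‖a p.1‖ * ‖b p.2‖) :=
    hf.1.mul_of_nonneg hg.1 (fun _ => norm_nonneg _) (fun _ => norm_nonneg _)
  obtain ⟨F, hF⟩ : ∃ F : PontryaginDual Γ × PontryaginDual Γ → ℂ,
    F = fun p => a (p.1 * p.2⁻¹) * b p.2 := ⟨_, rfl⟩
  have hFn : ∀ p, ‖F p‖ = ‖a (convEquiv Γ p).1‖ * ‖b (convEquiv Γ p).2‖ := by
    intro p
    rw [hF, norm_mul]
    rfl
  have hFs : Summable (fun p => ‖F p‖) := by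
    simp only [hFn]
    exact (convEquiv Γ).summable_iff.2 hS
  have hFt : ∑' p, ‖F p‖ = (∑' χ, ‖a χ‖) * (∑' χ, ‖b χ‖) := by
    simp only [hFn]
    rw [(convEquiv Γ).tsum_eq (fun p : PontryaginDual Γ × PontryaginDual Γ => ‖a p.1‖ * ‖b p.2‖),
      hf.1.tsum_mul_tsum hg.1 hS]
  have hc : ∀ χ, ‖∑' ψ, F (χ, ψ)‖ ≤ ∑' ψ, ‖F (χ, ψ)‖ := fun χ =>
    norm_tsum_le_tsum_norm (hFs.prod_factor χ)
  have hcs : Summable (fun χ => ‖∑' ψ, F (χ, ψ)‖) :=
    Summable.of_nonneg_of_le (fun _ => norm_nonneg _) hc hFs.prod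
  refine ⟨fun χ => ∑' ψ, F (χ, ψ), ⟨hcs, fun x => ?_⟩, ?_⟩
  · have h1 : Summable (fun χ => ‖a χ * ((χ x : Circle) : ℂ)‖) :=
      hf.1.congr fun χ => by rw [norm_mul, norm_char, mul_one]
    have h2 : Summable (fun χ => ‖b χ * ((χ x : Circle) : ℂ)‖) :=
      hg.1.congr fun χ => by rw [norm_mul, norm_char, mul_one]
    rw [Pi.mul_apply, hf.2 x, hg.2 x, tsum_mul_tsum_of_summable_norm h1 h2,
      ← (convEquiv Γ).tsum_eq]
    have h3 : ∀ p : PontryaginDual Γ × PontryaginDual Γ,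
        a (convEquiv Γ p).1 * (((convEquiv Γ p).1 x : Circle) : ℂ) *
          (b (convEquiv Γ p).2 * (((convEquiv Γ p).2 x : Circle) : ℂ)) =
        F p * ((p.1 x : Circle) : ℂ) := by
      intro p
      have h4 : (p.1 x : Circle) = (convEquiv Γ p).1 x * (convEquiv Γ p).2 x := by
        have h5 : (p.1 * p.2⁻¹) * p.2 = p.1 := by simp
        have h6 : ((p.1 * p.2⁻¹) * p.2) x = (p.1 * p.2⁻¹) x * p.2 x := rfl
        rw [h5] at h6
        exact h6
      rw [h4, Circle.coe_mul, hF]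
      show _ = a (convEquiv Γ p).1 * b (convEquiv Γ p).2 * _
      ring
    simp only [h3]
    have h7 : Summable (fun p : PontryaginDual Γ × PontryaginDual Γ =>
        F p * ((p.1 x : Circle) : ℂ)) := by
      apply Summable.of_norm
      refine hFs.congr fun p => ?_
      rw [norm_mul, norm_char, mul_one]
    rw [h7.tsum_prod]
    apply tsum_congr
    intro χ
    exact tsum_mul_right (f := fun ψ => F (χ, ψ)) (a := ((χ x : Circle) : ℂ))
  · rw [← hFt, hFs.tsum_prod]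
    exact hcs.tsum_le_tsum hc hFs.prod

end Fourier

variable (Γ : Type) [CommGroup Γ] [TopologicalSpace Γ]

/-- The Fourier algebra `A(Γ)` of a compact abelian group `Γ`, as an algebra of functions on `Γ`
with pointwise operations. -/
def fourierSubalgebra : Subalgebra ℂ (Γ → ℂ) where
  carrier := {f | ∃ a : PontryaginDual Γ → ℂ, Rep a f}
  mul_mem' := by
    rintro f g ⟨a, ha⟩ ⟨b, hb⟩
    obtain ⟨c, hc, _⟩ := ha.mul hb
    exact ⟨c, hc⟩
  one_mem' := ⟨_, Rep.one⟩
  add_mem' := by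
    rintro f g ⟨a, ha⟩ ⟨b, hb⟩
    exact ⟨_, ha.add hb⟩
  zero_mem' := ⟨fun _ => 0, by simp [summable_zero], fun x => by simp⟩
  algebraMap_mem' := by
    intro k
    have h := (Rep.one (Γ := Γ)).smul k
    refine ⟨_, h.1, fun x => ?_⟩
    have h2 := h.2 x
    rw [← h2]
    simp

section Norm

variable {Γ}

theorem bddBelow_nrm (f : Γ → ℂ) : BddBelow {c : ℝ | ∃ a, Rep a f ∧ ∑' χ, ‖a χ‖ = c} := by
  refine ⟨0, ?_⟩
  rintro c ⟨a, _, rfl⟩
  exact tsum_nonneg fun _ => norm_nonneg _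

theorem nrm_nonneg (f : Γ → ℂ) : 0 ≤ nrm f := by
  apply Real.sInf_nonneg
  rintro c ⟨a, _, rfl⟩
  exact tsum_nonneg fun _ => norm_nonneg _

theorem nrm_le {a : PontryaginDual Γ → ℂ} {f : Γ → ℂ} (h : Rep a f) : nrm f ≤ ∑' χ, ‖a χ‖ :=
  csInf_le (bddBelow_nrm f) ⟨a, h, rfl⟩

theorem exists_rep_lt {f : Γ → ℂ} (hf : f ∈ fourierSubalgebra Γ) {c : ℝ} (h : nrm f < c) :
    ∃ a, Rep a f ∧ ∑' χ, ‖a χ‖ < c := by
  obtain ⟨a₀, ha₀⟩ := hf
  have hne : {c : ℝ | ∃ a, Rep a f ∧ ∑' χ, ‖a χ‖ = c}.Nonempty := ⟨_, a₀, ha₀, rfl⟩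
  obtain ⟨d, ⟨a, ha, rfl⟩, hd⟩ := exists_lt_of_csInf_lt hne h
  exact ⟨a, ha, hd⟩

theorem norm_apply_le {f : Γ → ℂ} (hf : f ∈ fourierSubalgebra Γ) (x : Γ) : ‖f x‖ ≤ nrm f := by
  refine le_of_forall_pos_le_add fun ε hε => ?_
  obtain ⟨a, ha, hlt⟩ := exists_rep_lt hf (lt_add_of_pos_right (nrm f) hε)
  exact (ha.norm_le x).trans hlt.le

theorem nrm_add_le {f g : Γ → ℂ} (hf : f ∈ fourierSubalgebra Γ) (hg : g ∈ fourierSubalgebra Γ) :
    nrm (f + g) ≤ nrm f + nrm g := by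
  refine le_of_forall_pos_le_add fun ε hε => ?_
  obtain ⟨a, ha, h1⟩ := exists_rep_lt hf (lt_add_of_pos_right (nrm f) (half_pos hε))
  obtain ⟨b, hb, h2⟩ := exists_rep_lt hg (lt_add_of_pos_right (nrm g) (half_pos hε))
  refine (nrm_le (ha.add hb)).trans ?_
  have h3 : ∑' χ, ‖a χ + b χ‖ ≤ ∑' χ, ‖a χ‖ + ∑' χ, ‖b χ‖ := by
    rw [← ha.1.tsum_add hb.1]
    exact (ha.add hb).1.tsum_le_tsum (fun _ => norm_add_le _ _) (ha.1.add hb.1)
  linarith

theorem nrm_smul_le (k : ℂ) {f : Γ → ℂ} (hf : f ∈ fourierSubalgebra Γ) :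
    nrm (k • f) ≤ ‖k‖ * nrm f := by
  refine le_of_forall_pos_le_add fun ε hε => ?_
  have hk : 0 < ε / (‖k‖ + 1) := by positivity
  obtain ⟨a, ha, h1⟩ := exists_rep_lt hf (lt_add_of_pos_right (nrm f) hk)
  refine (nrm_le (ha.smul k)).trans ?_
  simp only [norm_mul]
  rw [tsum_mul_left]
  have h3 : ‖k‖ * (ε / (‖k‖ + 1)) ≤ ε := by
    rw [mul_div_assoc', div_le_iff₀ (by positivity)]
    nlinarith [norm_nonneg k]
  calc ‖k‖ * ∑' χ, ‖a χ‖ ≤ ‖k‖ * (nrm f + ε / (‖k‖ + 1)) :=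
        mul_le_mul_of_nonneg_left h1.le (norm_nonneg _)
    _ = ‖k‖ * nrm f + ‖k‖ * (ε / (‖k‖ + 1)) := by ring
    _ ≤ ‖k‖ * nrm f + ε := by linarith

theorem nrm_mul_le {f g : Γ → ℂ} (hf : f ∈ fourierSubalgebra Γ) (hg : g ∈ fourierSubalgebra Γ) :
    nrm (f * g) ≤ nrm f * nrm g := by
  have h0 := nrm_nonneg f
  have h0' := nrm_nonneg g
  refine le_of_forall_pos_le_add fun ε hε => ?_
  set a := nrm f
  set b := nrm g
  obtain ⟨δ, hδ, h3⟩ : ∃ δ : ℝ, 0 < δ ∧ (a + δ) * (b + δ) ≤ a * b + ε := by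
    refine ⟨min 1 (ε / (a + b + 1)), ?_, ?_⟩
    · have : 0 < ε / (a + b + 1) := by positivity
      exact lt_min one_pos this
    · set δ := min 1 (ε / (a + b + 1))
      have hδ0 : 0 < δ := lt_min one_pos (by positivity)
      have h1 : δ ≤ 1 := min_le_left _ _
      have h2 : δ ≤ ε / (a + b + 1) := min_le_right _ _
      have h4 : δ * (a + b + 1) ≤ ε := by
        rwa [le_div_iff₀ (by positivity)] at h2
      nlinarith
  obtain ⟨u, hu, h1⟩ := exists_rep_lt hf (lt_add_of_pos_right (nrm f) hδ)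
  obtain ⟨v, hv, h2⟩ := exists_rep_lt hg (lt_add_of_pos_right (nrm g) hδ)
  obtain ⟨c, hc, h4⟩ := hu.mul hv
  have h5 : 0 ≤ ∑' χ, ‖u χ‖ := tsum_nonneg fun _ => norm_nonneg _
  have h6 : 0 ≤ ∑' χ, ‖v χ‖ := tsum_nonneg fun _ => norm_nonneg _
  have h7 : (∑' χ, ‖u χ‖) * (∑' χ, ‖v χ‖) ≤ (a + δ) * (b + δ) :=
    mul_le_mul h1.le h2.le h6 (by linarith)
  exact ((nrm_le hc).trans h4).trans (h7.trans h3)

end Norm

/-- The Fourier algebra `A(Γ)` of a compact abelian group `Γ`, as a type of its own. -/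
def FA : Type := fourierSubalgebra Γ

noncomputable instance : CommRing (FA Γ) := Subalgebra.toCommRing (fourierSubalgebra Γ)

noncomputable instance : Algebra ℂ (FA Γ) := Subalgebra.algebra (fourierSubalgebra Γ)

instance : CoeFun (FA Γ) (fun _ => Γ → ℂ) := ⟨fun f => Subtype.val f⟩

/-- the norm of `A(Γ)` -/
noncomputable def faNorm : RingNorm (FA Γ) where
  toFun f := nrm (f : Γ → ℂ)
  map_zero' := by
    refine le_antisymm ?_ (nrm_nonneg _)
    have h := nrm_smul_le (Γ := Γ) 0 (f := 0) (zero_mem _)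
    rw [norm_zero, zero_mul, zero_smul] at h
    exact h
  add_le' f g := nrm_add_le f.2 g.2
  neg' f := by
    have key : ∀ f : FA Γ, nrm ((-f : FA Γ) : Γ → ℂ) ≤ nrm (f : Γ → ℂ) := by
      intro f
      have h := nrm_smul_le (Γ := Γ) (-1) f.2
      have h2 : ((-1 : ℂ) • (f : Γ → ℂ)) = ((-f : FA Γ) : Γ → ℂ) := by
        rw [neg_one_smul]; rfl
      rw [h2] at h
      simpa using h
    refine le_antisymm (key f) ?_
    have := key (-f)
    rwa [neg_neg] at this
  mul_le' f g := nrm_mul_le f.2 g.2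
  eq_zero_of_map_eq_zero' f hf := by
    apply Subtype.ext
    funext x
    have h := norm_apply_le f.2 x
    have h2 : nrm (f : Γ → ℂ) = 0 := hf
    rw [h2] at h
    exact norm_le_zero_iff.1 h

/-- `A(Γ)` is a commutative normed algebra with the norm `‖f̂‖ = ‖f‖₁`. -/
noncomputable instance : NormedCommRing (FA Γ) :=
  { (faNorm Γ).toNormedRing with
    mul_comm := mul_comm }

theorem fa_norm_def (f : FA Γ) : ‖f‖ = nrm (f : Γ → ℂ) := rfl

noncomputable instance : NormedAlgebra ℂ (FA Γ) where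
  norm_smul_le k f := nrm_smul_le k f.2

variable {Γ}

/-- the ideal `I(E)` of the functions in `A(Γ)` vanishing on `E` -/
def IE (E : Set Γ) : Ideal (FA Γ) where
  carrier := {f | ∀ x ∈ E, f x = 0}
  add_mem' := by
    intro f g hf hg x hx
    show f x + g x = 0
    rw [hf x hx, hg x hx, add_zero]
  zero_mem' := fun _ _ => rfl
  smul_mem' := by
    intro c f hf x hx
    show c x * f x = 0
    rw [hf x hx, mul_zero]

/-- the ideal `J(E)` of the functions in `A(Γ)` vanishing on a neighbourhood of `E` -/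
def JEi (E : Set Γ) : Ideal (FA Γ) where
  carrier := {f | ∃ U : Set Γ, IsOpen U ∧ E ⊆ U ∧ ∀ x ∈ U, f x = 0}
  add_mem' := by
    rintro f g ⟨U, hU, hEU, hf⟩ ⟨V, hV, hEV, hg⟩
    refine ⟨U ∩ V, hU.inter hV, Set.subset_inter hEU hEV, fun x hx => ?_⟩
    show f x + g x = 0
    rw [hf x hx.1, hg x hx.2, add_zero]
  zero_mem' := ⟨Set.univ, isOpen_univ, Set.subset_univ _, fun _ _ => rfl⟩
  smul_mem' := by
    rintro c f ⟨U, hU, hEU, hf⟩
    refine ⟨U, hU, hEU, fun x hx => ?_⟩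
    show c x * f x = 0
    rw [hf x hx, mul_zero]

instance isClosed_closure_JEi (E : Set Γ) : IsClosed (((JEi E).closure : Ideal (FA Γ)) : Set (FA Γ)) := by
  exact isClosed_closure

/-- `E` fails spectral synthesis: the closure of `J(E)` in `A(Γ)` is not `I(E)` -/
def FailsSynthesis (E : Set Γ) : Prop := (JEi E).closure ≠ IE E

/-- `A_E = A(Γ) / closure J(E)` -/
def AE (E : Set Γ) : Type := FA Γ ⧸ (JEi E).closure

noncomputable instance (E : Set Γ) : NormedCommRing (AE E) :=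
  Ideal.Quotient.normedCommRing ((JEi E).closure)

noncomputable instance (E : Set Γ) : NormedAlgebra ℂ (AE E) :=
  Ideal.Quotient.normedAlgebra ((JEi E).closure) ℂ

/-- the class in `A_E` of a function in `A(Γ)` -/
noncomputable def toAE (E : Set Γ) (f : FA Γ) : AE E := Ideal.Quotient.mk ((JEi E).closure) f

/-- the subalgebra `I(E) / closure J(E)` of `A_E`: the image of `I(E)` -/
noncomputable def subRE (E : Set Γ) : NonUnitalSubalgebra ℂ (AE E) where
  carrier := {y | ∃ f ∈ IE E, toAE E f = y}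
  add_mem' := by
    rintro _ _ ⟨f, hf, rfl⟩ ⟨g, hg, rfl⟩
    exact ⟨f + g, (IE E).add_mem hf hg, map_add (Ideal.Quotient.mk _) _ _⟩
  zero_mem' := ⟨0, (IE E).zero_mem, map_zero (Ideal.Quotient.mk _)⟩
  mul_mem' := by
    rintro _ _ ⟨f, hf, rfl⟩ ⟨g, hg, rfl⟩
    exact ⟨f * g, (IE E).mul_mem_left f hg, map_mul (Ideal.Quotient.mk _) _ _⟩
  smul_mem' := by
    rintro c _ ⟨f, hf, rfl⟩
    refine ⟨c • f, ?_, rfl⟩
    intro x hx
    show c * f x = 0
    rw [hf x hx, mul_zero]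

noncomputable instance instNormedSpaceRE (E : Set Γ) : NormedSpace ℂ (subRE E) where
  norm_smul_le c x := norm_smul_le c (x : AE E)

/-- `R_E = I(E) / closure J(E)`, a closed ideal of `A_E`, as a type of its own -/
def RE (E : Set Γ) : Type := subRE E

/-- the algebra structure and the norm of `R_E` are those of `A_E` -/
noncomputable instance (E : Set Γ) : NonUnitalNormedRing (RE E) :=
  NonUnitalSubalgebra.nonUnitalNormedRing (subRE E)

noncomputable instance (E : Set Γ) : NormedSpace ℂ (RE E) := instNormedSpaceRE E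

/-- the quotient map `A(Γ) → A_E` -/
noncomputable def mk (E : Set Γ) : FA Γ →+* AE E := Ideal.Quotient.mk ((JEi E).closure)

theorem mk_smul {E : Set Γ} (k : ℂ) (f : FA Γ) : mk E (k • f) = k • mk E f := rfl

/-- Johnson's amenability of a (possibly non-unital) Banach algebra `R`: for every Banach
`R`-bimodule `X`, with actions `l a x = a · x` and `r a x = x · a`, every bounded derivation
`D : R → X*` into the dual bimodule (`(a·ξ)(x) = ξ(x·a)`, `(ξ·a)(x) = ξ(a·x)`) is inner. The map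
`D` is given as the bounded bilinear form `D a x = D(a)(x)`. -/
def Amenable.{u} (R : Type) [NonUnitalNormedRing R] [NormedSpace ℂ R] : Prop :=
  ∀ (X : Type u) [NormedAddCommGroup X] [NormedSpace ℂ X] [CompleteSpace X]
    (l r : R → X → X),
    IsBoundedBilinearMap ℂ (fun p : R × X => l p.1 p.2) →
    IsBoundedBilinearMap ℂ (fun p : R × X => r p.1 p.2) →
    (∀ a b x, l (a * b) x = l a (l b x)) → (∀ a b x, r (a * b) x = r b (r a x)) →
    (∀ a b x, l a (r b x) = r b (l a x)) →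
    ∀ D : R → X → ℂ, IsBoundedBilinearMap ℂ (fun p : R × X => D p.1 p.2) →
      (∀ a b x, D (a * b) x = D b (r a x) + D a (l b x)) →
      ∃ ξ : X →L[ℂ] ℂ, ∀ a x, D a x = ξ (r a x) - ξ (l a x)

end Am
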