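import Pool.Agent.Helper348.AmDefs

set_option autoImplicit false

namespace Am

/-- amenability with bounded bilinear maps written as continuous linear maps -/
def AmenableL.{u} (R : Type) [NonUnitalNormedRing R] [NormedSpace ℂ R] : Prop :=
  ∀ (X : Type u) [NormedAddCommGroup X] [NormedSpace ℂ X] [CompleteSpace X]
    (l r : R →L[ℂ] X →L[ℂ] X),
    (∀ a b x, l (a * b) x = l a (l b x)) → (∀ a b x, r (a * b) x = r b (r a x)) →
    (∀ a b x, l a (r b x) = r b (l a x)) →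
    ∀ D : R →L[ℂ] (X →L[ℂ] ℂ),
      (∀ a b x, D (a * b) x = D b (r a x) + D a (l b x)) →
      ∃ ξ : X →L[ℂ] ℂ, ∀ a x, D a x = ξ (r a x) - ξ (l a x)

theorem AmenableL.amenable.{u} {R : Type} [NonUnitalNormedRing R] [NormedSpace ℂ R]
    (h : AmenableL.{u} R) : Amenable.{u} R := by
  intro X _ _ _ l r hl hr hll hrr hlr D hD hDD
  exact h X hl.toContinuousLinearMap hr.toContinuousLinearMap hll hrr hlr
    hD.toContinuousLinearMap hDD

/-- bounded sequences in the dual have ultrafilter limits -/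
theorem exists_ultralimit {X : Type*} [NormedAddCommGroup X] [NormedSpace ℂ X]
    (U : Ultrafilter ℕ) (φ : ℕ → (X →L[ℂ] ℂ)) (C : ℝ) (hC : ∀ n, ‖φ n‖ ≤ C) :
    ∃ ξ : X →L[ℂ] ℂ, ∀ x, Filter.Tendsto (fun n => φ n x) U (nhds (ξ x)) := by
  have h1 : ∀ x : X, ∃ y : ℂ, ‖y‖ ≤ C * ‖x‖ ∧ Filter.Tendsto (fun n => φ n x) U (nhds y) := by
    intro x
    have hc : IsCompact (Metric.closedBall (0 : ℂ) (C * ‖x‖)) := isCompact_closedBall _ _
    obtain ⟨y, hy, hy2⟩ := hc.ultrafilter_le_nhds (U.map (fun n => φ n x)) (by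
      rw [Filter.le_principal_iff]
      have hev : ∀ᶠ n in (U : Filter ℕ), φ n x ∈ Metric.closedBall (0 : ℂ) (C * ‖x‖) := by
        refine Filter.Eventually.of_forall (fun n => ?_)
        rw [mem_closedBall_zero_iff]
        exact ((φ n).le_opNorm x).trans (mul_le_mul_of_nonneg_right (hC n) (norm_nonneg _))
      exact hev)
    exact ⟨y, mem_closedBall_zero_iff.mp hy, hy2⟩
  choose y hy1 hy2 using h1
  let ξ : X →ₗ[ℂ] ℂ :=
    { toFun := y
      map_add' := fun x x' => by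
        refine tendsto_nhds_unique (hy2 (x + x')) ?_
        have := (hy2 x).add (hy2 x')
        refine this.congr (fun n => ?_)
        rw [map_add]
      map_smul' := fun c x => by
        refine tendsto_nhds_unique (hy2 (c • x)) ?_
        have := (hy2 x).const_smul c
        refine this.congr (fun n => ?_)
        rw [map_smul] }
  exact ⟨ξ.mkContinuous C hy1, fun x => hy2 x⟩

/-- a Banach algebra with a bounded approximate diagonal is amenable (Johnson) -/
theorem amenable_of_diag.{u} {R : Type} [NonUnitalNormedRing R] [NormedSpace ℂ R]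
    {κ : Type} (s : ℕ → Finset κ) (a b : ℕ → κ → R) (C : ℝ)
    (hC : ∀ n, ∑ i ∈ s n, ‖a n i‖ * ‖b n i‖ ≤ C)
    (hdiag : ∀ c : R, ∀ ε : ℝ, 0 < ε → ∀ᶠ n in Filter.atTop, ∀ Φ : R →L[ℂ] R →L[ℂ] ℂ,
      ‖∑ i ∈ s n, (Φ (c * a n i) (b n i) - Φ (a n i) (b n i * c))‖ ≤ ε * ‖Φ‖)
    (hl : ∀ c : R, Filter.Tendsto (fun n => (∑ i ∈ s n, a n i * b n i) * c) Filter.atTop (nhds c))
    (hr : ∀ c : R, Filter.Tendsto (fun n => c * (∑ i ∈ s n, a n i * b n i)) Filter.atTop (nhds c)) :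
    Amenable.{u} R := by
  apply AmenableL.amenable
  intro X _ _ _ l r hll hrr hlr D hD
  obtain ⟨g, hg⟩ : ∃ g : ℕ → R, g = fun n => ∑ i ∈ s n, a n i * b n i := ⟨_, rfl⟩
  have hgn : ∀ n, g n = ∑ i ∈ s n, a n i * b n i := fun n => by rw [hg]
  have hC0 : 0 ≤ C := le_trans (Finset.sum_nonneg (fun i _ => by positivity)) (hC 0)
  have hgC : ∀ n, ‖g n‖ ≤ C := fun n => by
    rw [hgn]
    exact (norm_sum_le _ _).trans ((Finset.sum_le_sum (fun i _ => norm_mul_le _ _)).trans (hC n))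
  obtain ⟨U, hU⟩ : ∃ U : Ultrafilter ℕ, (U : Filter ℕ) ≤ Filter.atTop :=
    ⟨Filter.hyperfilter ℕ, Nat.hyperfilter_le_atTop⟩
  have hl' : ∀ c : R, Filter.Tendsto (fun n => g n * c) U (nhds c) := fun c => by
    have := (hl c).mono_left hU
    refine this.congr (fun n => ?_)
    rw [hgn]
  have hr' : ∀ c : R, Filter.Tendsto (fun n => c * g n) U (nhds c) := fun c => by
    have := (hr c).mono_left hU
    refine this.congr (fun n => ?_)
    rw [hgn]
  -- the operator P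
  have hbound : ∀ (φ : X →L[ℂ] ℂ) (n : ℕ), ‖φ.comp (r (g n))‖ ≤ ‖r‖ * C * ‖φ‖ := by
    intro φ n
    refine (ContinuousLinearMap.opNorm_comp_le _ _).trans ?_
    have h1 : ‖r (g n)‖ ≤ ‖r‖ * C :=
      (r.le_opNorm _).trans (mul_le_mul_of_nonneg_left (hgC n) (norm_nonneg _))
    calc ‖φ‖ * ‖r (g n)‖ ≤ ‖φ‖ * (‖r‖ * C) := mul_le_mul_of_nonneg_left h1 (norm_nonneg _)
      _ = _ := by ring
  have hPex : ∀ φ : X →L[ℂ] ℂ, ∃ ξ : X →L[ℂ] ℂ, ∀ x,
      Filter.Tendsto (fun n => φ (r (g n) x)) U (nhds (ξ x)) := fun φ =>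
    exists_ultralimit U (fun n => φ.comp (r (g n))) (‖r‖ * C * ‖φ‖) (hbound φ)
  choose P hP using hPex
  let Plin : (X →L[ℂ] ℂ) →ₗ[ℂ] (X →L[ℂ] ℂ) :=
    { toFun := P
      map_add' := fun φ ψ => by
        ext x
        refine tendsto_nhds_unique (hP (φ + ψ) x) ?_
        exact (hP φ x).add (hP ψ x)
      map_smul' := fun c φ => by
        ext x
        refine tendsto_nhds_unique (hP (c • φ) x) ?_
        exact (hP φ x).const_smul c }
  have hPn : ∀ φ, ‖Plin φ‖ ≤ ‖r‖ * C * ‖φ‖ := by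
    intro φ
    refine ContinuousLinearMap.opNorm_le_bound _ (by positivity) (fun x => ?_)
    refine le_of_tendsto (hP φ x).norm (Filter.Eventually.of_forall (fun n => ?_))
    exact ((φ.comp (r (g n))).le_opNorm x).trans
      (mul_le_mul_of_nonneg_right (hbound φ n) (norm_nonneg _))
  let PL : (X →L[ℂ] ℂ) →L[ℂ] (X →L[ℂ] ℂ) := Plin.mkContinuous (‖r‖ * C) hPn
  have hPL : ∀ φ x, Filter.Tendsto (fun n => φ (r (g n) x)) U (nhds (PL φ x)) := hP
  have hF1 : ∀ φ c x, PL φ (r c x) = φ (r c x) := by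
    intro φ c x
    refine tendsto_nhds_unique (hPL φ (r c x)) ?_
    have hcont : Continuous (fun d : R => φ (r d x)) := by fun_prop
    have h1 := (hcont.tendsto c).comp (hr' c)
    refine h1.congr (fun n => ?_)
    show φ (r (c * g n) x) = _
    rw [hrr]
  have hF2 : ∀ c d x, PL (D (c * d)) x = D d (r c x) + PL (D c) (l d x) := by
    intro c d x
    refine tendsto_nhds_unique (hPL (D (c * d)) x) ?_
    have hcont : Continuous (fun e : R => D d (r e x)) := by fun_prop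
    have h1 := (hcont.tendsto c).comp (hl' c)
    have h2 := h1.add (hPL (D c) (l d x))
    refine h2.congr (fun n => ?_)
    show D d (r (g n * c) x) + D c (r (g n) (l d x)) = _
    rw [hrr, hD, hlr]
  let D2 : R →L[ℂ] (X →L[ℂ] ℂ) := PL.comp D
  have hD2 : ∀ c x, D2 c x = PL (D c) x := fun _ _ => rfl
  let D1 : R →L[ℂ] (X →L[ℂ] ℂ) := D - D2
  have hD1 : ∀ c x, D1 c x = D c x - D2 c x := fun _ _ => rfl
  have hD1mul : ∀ c d x, D1 (c * d) x = D1 c (l d x) := by
    intro c d x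
    rw [hD1, hD1, hD2, hD2, hF2, hD]
    ring
  obtain ⟨ξ1, hξ1⟩ := exists_ultralimit U (fun n => D1 (g n)) (‖D1‖ * C) (fun n =>
    (D1.le_opNorm _).trans (mul_le_mul_of_nonneg_left (hgC n) (norm_nonneg _)))
  have hD1a : ∀ c x, D1 c x = ξ1 (l c x) := by
    intro c x
    have hcont : Continuous (fun e : R => D1 e x) := by fun_prop
    have h1 := (hcont.tendsto c).comp (hl' c)
    refine tendsto_nhds_unique h1 ?_
    refine (hξ1 (l c x)).congr (fun n => ?_)
    show _ = D1 (g n * c) x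
    rw [hD1mul]
  have hD1b : ∀ c x, ξ1 (r c x) = 0 := by
    intro c x
    refine tendsto_nhds_unique (hξ1 (r c x)) ?_
    refine tendsto_const_nhds.congr (fun n => ?_)
    rw [hD1, hD2, hF1, sub_self]
  have hD2mul : ∀ c d x, D2 (c * d) x = D2 d (r c x) + D2 c (l d x) := by
    intro c d x
    rw [hD2, hD2, hD2, hF2, hF1]
  have hD2lim : ∀ c x, Filter.Tendsto (fun n => D2 c (r (g n) x)) U (nhds (D2 c x)) := by
    intro c x
    rw [hD2]
    refine (hPL (D c) x).congr (fun n => ?_)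
    rw [hD2, hF1]
  obtain ⟨ξ, hξ⟩ := exists_ultralimit U (fun n => ∑ i ∈ s n, (D2 (b n i)).comp (r (a n i)))
    (‖D2‖ * ‖r‖ * C) (fun n => by
      refine (norm_sum_le _ _).trans ?_
      have h1 : ∀ i ∈ s n, ‖(D2 (b n i)).comp (r (a n i))‖ ≤ (‖D2‖ * ‖r‖) * (‖a n i‖ * ‖b n i‖) := by
        intro i _
        refine (ContinuousLinearMap.opNorm_comp_le _ _).trans ?_
        calc ‖D2 (b n i)‖ * ‖r (a n i)‖ ≤ (‖D2‖ * ‖b n i‖) * (‖r‖ * ‖a n i‖) :=
              mul_le_mul (D2.le_opNorm _) (r.le_opNorm _) (norm_nonneg _) (by positivity)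
          _ = _ := by ring
      refine (Finset.sum_le_sum h1).trans ?_
      rw [← Finset.mul_sum]
      exact mul_le_mul_of_nonneg_left (hC n) (by positivity))
  have hD2in : ∀ c x, D2 c x = ξ (r c x) - ξ (l c x) := by
    intro c x
    let Φ : R →L[ℂ] R →L[ℂ] ℂ := D2.flip.comp (r.flip x)
    have hΦ : ∀ u v, Φ u v = D2 v (r u x) := fun _ _ => rfl
    have h0 : Filter.Tendsto (fun n => ∑ i ∈ s n, (Φ (c * a n i) (b n i) - Φ (a n i) (b n i * c)))
        U (nhds 0) := by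
      refine Filter.Tendsto.mono_left ?_ hU
      rw [Metric.tendsto_nhds]
      intro ε hε
      have h1 := hdiag c (ε / (‖Φ‖ + 1)) (by positivity)
      filter_upwards [h1] with n hn
      rw [dist_zero_right]
      refine lt_of_le_of_lt (hn Φ) ?_
      rw [div_mul_eq_mul_div, div_lt_iff₀ (by positivity)]
      nlinarith [norm_nonneg Φ]
    have h1 := h0.add (hD2lim c x)
    rw [zero_add] at h1
    have h2 := (hξ (r c x)).sub (hξ (l c x))
    refine tendsto_nhds_unique (h1.congr (fun n => ?_)) h2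
    show _ = (∑ i ∈ s n, (D2 (b n i)).comp (r (a n i))) (r c x) -
      (∑ i ∈ s n, (D2 (b n i)).comp (r (a n i))) (l c x)
    rw [sum_apply, sum_apply, ← Finset.sum_sub_distrib]
    have h3 : D2 c (r (g n) x) = ∑ i ∈ s n, D2 c (r (a n i * b n i) x) := by
      rw [hgn, map_sum, sum_apply, map_sum]
    rw [h3, ← Finset.sum_add_distrib]
    refine Finset.sum_congr rfl (fun i _ => ?_)
    have e1 : ∀ y, ((D2 (b n i)).comp (r (a n i))) y = D2 (b n i) (r (a n i) y) := fun _ => rfl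
    rw [hΦ, hΦ, hD2mul, e1, e1, hrr, hrr, hlr]
    ring
  refine ⟨ξ - ξ1, fun c x => ?_⟩
  have h1 : D c x = D1 c x + D2 c x := by rw [hD1]; ring
  rw [h1, hD1a, hD2in]
  show _ = (ξ (r c x) - ξ1 (r c x)) - (ξ (l c x) - ξ1 (l c x))
  rw [hD1b]
  ring

end Am
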