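import Pool.Agent.Helper348.WDSplit

set_option autoImplicit false

open MeasureTheory

namespace WD

lemma Lev_mono {m n : ℕ} {α : Type} {u : G → α} (h : Lev m u) (hmn : m ≤ n) : Lev n u :=
  fun x y hxy => h x y fun i hi => hxy i (lt_of_lt_of_le hi hmn)

lemma R_one : R 1 (fun _ => (1 : ℂ)) := by simpa using R_const 1

lemma R_pow {c : ℝ} {f : G → ℂ} (hf : R c f) (n : ℕ) : R (c ^ n) (fun x => f x ^ n) := by
  induction n with
  | zero => simpa using R_one
  | succ n ih =>
    have := R_mul ih hf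
    simpa only [pow_succ] using this

lemma A_pow {f : G → ℂ} (hf : A f) (n : ℕ) : A (fun x => f x ^ n) := by
  obtain ⟨c, hc⟩ := hf
  exact ⟨_, R_pow hc n⟩

lemma isOpen_of_lev {m : ℕ} {P : G → Prop} (h : Lev m P) : IsOpen {x | P x} := by
  classical
  have h1 : Lev m (fun x => decide (P x)) := by
    intro x y hxy
    have := h x y hxy
    simp only [this]
  have h2 := h1.continuous
  have h3 : {x | P x} = (fun x => decide (P x)) ⁻¹' {true} := by
    ext x; simp
  rw [h3]
  exact (isOpen_discrete _).preimage h2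

lemma quasi_nil {E : Set G} {f : G → ℂ} (hf : A f) (h0 : ∀ x ∈ E, f x = 0) {ρ : ℝ}
    (hρ : 0 < ρ) : ∃ C : ℝ, ∀ n : ℕ, Q E (C * ρ ^ n) (fun x => f x ^ n) := by
  classical
  obtain ⟨c, hc⟩ := hf
  obtain ⟨m, g, hg, hh⟩ := finite_part hc (half_pos hρ)
  refine ⟨2 ^ m, fun n => ?_⟩
  set g' : G → ℂ := fun x => if ‖g x‖ ≤ ρ / 2 then g x else 0 with hg'
  have hg'L : Lev m g' := by
    intro x y hxy
    simp only [hg', hg x y hxy]
  have hg'b : ∀ x, ‖g' x‖ ≤ ρ / 2 := by
    intro x
    simp only [hg']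
    split_ifs with h
    · exact h
    · simp; linarith
  have hk : ∀ k : ℕ, R (2 ^ m * (ρ / 2) ^ k) (fun x => g' x ^ k) := by
    intro k
    apply R_lev (m := m)
    · intro x y hxy
      show g' x ^ k = g' y ^ k
      rw [hg'L x y hxy]
    · intro x
      rw [norm_pow]
      exact pow_le_pow_left₀ (norm_nonneg _) (hg'b x) k
  have hsum : R (2 ^ m * ρ ^ n) (fun x => (g' x + (f x - g x)) ^ n) := by
    have h1 : (fun x => (g' x + (f x - g x)) ^ n) = fun x => ∑ k ∈ Finset.range (n + 1),
        ((n.choose k : ℕ) : ℂ) * (g' x ^ k * (f x - g x) ^ (n - k)) := by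
      funext x
      rw [add_pow]
      exact Finset.sum_congr rfl fun k _ => by ring
    rw [h1]
    have h2 := R_sum (Finset.range (n + 1))
      (fun k => ‖((n.choose k : ℕ) : ℂ)‖ * ((2 ^ m * (ρ / 2) ^ k) * (ρ / 2) ^ (n - k)))
      (fun k x => ((n.choose k : ℕ) : ℂ) * (g' x ^ k * (f x - g x) ^ (n - k)))
      (fun k _ => R_smul _ (R_mul (hk k) (R_pow hh (n - k))))
    refine R_mono h2 (le_of_eq ?_)
    have h3 : ρ ^ n = (ρ / 2 + ρ / 2) ^ n := by rw [add_halves]
    rw [h3, add_pow, Finset.mul_sum]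
    refine Finset.sum_congr rfl fun k _ => ?_
    rw [Complex.norm_natCast]
    ring
  refine ⟨_, hsum, {x | ‖g x‖ ≤ ρ / 2}, ?_, ?_, ?_⟩
  · apply isOpen_of_lev (m := m)
    intro x y hxy
    show (‖g x‖ ≤ ρ / 2) = (‖g y‖ ≤ ρ / 2)
    rw [hg x y hxy]
  · intro x hx
    have h1 := R_bound hh x
    simp only [h0 x hx, zero_sub, norm_neg] at h1
    exact h1
  · intro x hx
    have h1 : g' x = g x := by
      have h2 : ‖g x‖ ≤ ρ / 2 := hx
      simp only [hg']
      rw [if_pos h2]
    show f x ^ n = (g' x + (f x - g x)) ^ n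
    rw [h1]
    congr 1
    ring

/-- an algebra splitting of `A(G)/J_E → C(E)` -/
structure Split (E : Set G) (θ : C(E, ℂ) → (G → ℂ)) : Prop where
  mem : ∀ u, A (θ u)
  res : ∀ u (x : G) (hx : x ∈ E), θ u x = u ⟨x, hx⟩
  add : ∀ u v, JE E (fun x => θ (u + v) x - θ u x - θ v x)
  smul : ∀ (c : ℂ) u, JE E (fun x => θ (c • u) x - c * θ u x)
  mul : ∀ u v, JE E (fun x => θ (u * v) x - θ u x * θ v x)

lemma JE_congr {E : Set G} {f g : G → ℂ} (h : JE E f) (hfg : ∀ x, g x = f x) : JE E g := by
  have : g = f := funext hfg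
  rwa [this]

lemma A_one : A (fun _ => (1 : ℂ)) := ⟨_, R_one⟩

lemma A_const (k : ℂ) : A (fun _ => k) := ⟨_, R_const k⟩

variable {E : Set G} {θ : C(E, ℂ) → (G → ℂ)}

lemma split_idem (h : Split E θ) (φ : C(G, ℂ)) (hφ : ∀ x, φ x * φ x = φ x) (hA : A φ) :
    JE E (fun x => θ (φ.restrict E) x - φ x) := by
  set H := θ (φ.restrict E) with hH
  have hHA : A H := h.mem _
  have h1 : JE E (fun x => H x - H x * H x) := by
    have h2 := h.mul (φ.restrict E) (φ.restrict E)
    have h3 : φ.restrict E * φ.restrict E = φ.restrict E := by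
      ext x
      exact hφ x
    rw [h3] at h2
    exact h2
  set X : G → ℂ := fun x => H x - φ x with hX
  have hXA : A X := A_sub hHA hA
  have hX0 : ∀ x ∈ E, X x = 0 := by
    intro x hx
    show H x - φ x = 0
    rw [hH, h.res _ x hx]
    exact sub_self _
  -- `X^3 - X` is in the ideal
  have h3 : JE E (fun x => X x ^ 3 - X x) := by
    have h4 : A (fun x => (-1) * (H x + 1 + (-3) * φ x)) :=
      A_smul _ (A_add (A_add hHA A_one) (A_smul _ hA))
    refine JE_congr (JE_mul h1 h4) fun x => ?_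
    have h5 := hφ x
    show (H x - φ x) ^ 3 - (H x - φ x) = (H x - H x * H x) * ((-1) * (H x + 1 + (-3) * φ x))
    linear_combination (3 * H x - φ x - 1) * h5
  have h6 : ∀ n : ℕ, JE E (fun x => X x ^ (2 * n + 1) - X x) := by
    intro n
    induction n with
    | zero =>
      intro ε hε
      have h7 : Q E ε (fun _ => (0 : ℂ)) := Q_mono (Q_of_R R_zero) hε.le
      exact Q_congr h7 isOpen_univ (Set.subset_univ _) fun x _ => by simp
    | succ n ih =>
      refine JE_congr (JE_add (JE_mul ih (A_pow hXA 2)) h3) fun x => ?_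
      ring
  intro ε hε
  obtain ⟨C, hC⟩ := quasi_nil hXA hX0 (show (0 : ℝ) < 1 / 2 by norm_num)
  have hC0 : 0 ≤ C := by
    have := Q_nonneg (hC 0)
    simpa using this
  obtain ⟨n, hn⟩ : ∃ n : ℕ, C * (1 / 2 : ℝ) ^ n ≤ ε / 2 := by
    obtain ⟨n, hn⟩ := exists_pow_lt_of_lt_one (show 0 < ε / (2 * (C + 1)) by positivity)
      (show (1 / 2 : ℝ) < 1 by norm_num)
    refine ⟨n, ?_⟩
    have h7 : C * (1 / 2 : ℝ) ^ n ≤ C * (ε / (2 * (C + 1))) := by gcongr
    refine h7.trans ?_
    rw [mul_div_assoc', div_le_div_iff₀ (by positivity) (by positivity)]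
    nlinarith
  have h8 : Q E (ε / 2) (fun x => X x ^ (2 * n + 1)) := by
    refine Q_mono (hC (2 * n + 1)) (le_trans ?_ hn)
    apply mul_le_mul_of_nonneg_left _ hC0
    apply pow_le_pow_of_le_one (by norm_num) (by norm_num)
    omega
  have h9 := Q_add h8 (Q_smul (-1) (h6 n (ε / 2) (by linarith)))
  have h10 : Q E ε (fun x => X x ^ (2 * n + 1) + -1 * (X x ^ (2 * n + 1) - X x)) := by
    refine Q_mono h9 ?_
    rw [norm_neg, norm_one]; linarith
  exact Q_congr h10 isOpen_univ (Set.subset_univ _) fun x _ => by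
    show X x = X x ^ (2 * n + 1) + -1 * (X x ^ (2 * n + 1) - X x)
    ring

lemma split_add (h : Split E θ) {φ ψ : C(G, ℂ)} (h1 : JE E (fun x => θ (φ.restrict E) x - φ x))
    (h2 : JE E (fun x => θ (ψ.restrict E) x - ψ x)) :
    JE E (fun x => θ ((φ + ψ).restrict E) x - (φ + ψ) x) := by
  have h3 := h.add (φ.restrict E) (ψ.restrict E)
  refine JE_congr (JE_add h3 (JE_add h1 h2)) fun x => ?_
  have h4 : (φ + ψ).restrict E = φ.restrict E + ψ.restrict E := by
    ext y; rfl
  rw [h4, ContinuousMap.add_apply]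
  ring

lemma split_smul (h : Split E θ) {φ : C(G, ℂ)} (c : ℂ)
    (h1 : JE E (fun x => θ (φ.restrict E) x - φ x)) :
    JE E (fun x => θ ((c • φ).restrict E) x - (c • φ) x) := by
  have h3 := h.smul c (φ.restrict E)
  refine JE_congr (JE_add h3 (JE_smul c h1)) fun x => ?_
  have h4 : (c • φ).restrict E = c • φ.restrict E := by
    ext y; rfl
  rw [h4, ContinuousMap.smul_apply, smul_eq_mul]
  ring

lemma JE_zero : JE E (fun _ => (0 : ℂ)) := fun _ hε => Q_mono (Q_of_R R_zero) hε.le

lemma cyl_lev (m : ℕ) (y : G) : Lev m (cyl m y) := by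
  intro x z hxz
  unfold cyl e
  exact Finset.prod_congr rfl fun i hi => by rw [hxz i (Finset.mem_range.1 hi)]

lemma cyl_idem (m : ℕ) (y x : G) : cyl m y x * cyl m y x = cyl m y x := by
  classical
  rw [cyl_eq]; split_ifs <;> simp

/-- bundled cylinder indicator -/
noncomputable def cylC (m : ℕ) (y : G) : C(G, ℂ) := ⟨cyl m y, (cyl_lev m y).continuous⟩

lemma split_lev (h : Split E θ) {m : ℕ} (φ : C(G, ℂ)) (hφ : Lev m φ) :
    JE E (fun x => θ (φ.restrict E) x - φ x) := by
  classical
  have key : ∀ s : Finset (Fin m → ℤˣ), JE E (fun x =>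
      θ ((∑ y ∈ s, φ (ext y) • cylC m (ext y)).restrict E) x -
        (∑ y ∈ s, φ (ext y) • cylC m (ext y)) x) := by
    intro s
    induction s using Finset.induction_on with
    | empty =>
      have h1 := split_smul h (φ := (1 : C(G, ℂ))) 0
        (split_idem h 1 (fun x => by simp) A_one)
      simpa using h1
    | insert y s hy ih =>
      rw [Finset.sum_insert hy]
      refine split_add h (split_smul h _ (split_idem h _ ?_ ?_)) ih
      · intro x; exact cyl_idem m _ x
      · exact ⟨1, R_cyl m _⟩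
  have h2 := key Finset.univ
  have h3 : φ = ∑ y : Fin m → ℤˣ, φ (ext y) • cylC m (ext y) := by
    ext x
    rw [ContinuousMap.sum_apply]
    have := lev_decomp hφ x
    rw [this]
    rfl
  rw [← h3] at h2
  exact h2

lemma ditkin_pt {f : G → ℂ} (hf : A f) {x : G} (hx : f x = 0) {ε : ℝ} (hε : 0 < ε) :
    ∃ m, R ε (fun z => f z * cyl m x z) := by
  classical
  obtain ⟨c, hc⟩ := hf
  obtain ⟨m, g, hg, hh⟩ := finite_part hc (half_pos hε)
  refine ⟨m, ?_⟩
  have h1 : (fun z => f z * cyl m x z) =
      fun z => (f z - g z) * cyl m x z + g x * cyl m x z := by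
    funext z
    by_cases hz : ∀ i, i < m → z i = x i
    · rw [cyl_eq, if_pos hz, hg z x hz]; ring
    · rw [cyl_eq, if_neg hz]; ring
  rw [h1]
  have h2 : ‖g x‖ ≤ ε / 2 := by
    have := R_bound hh x
    simpa [hx] using this
  refine R_mono (R_add (R_mul hh (R_cyl m x)) (R_smul (g x) (R_cyl m x))) ?_
  linarith

lemma ditkin {F : Set G} (hF : F.Finite) : ∀ {f : G → ℂ}, A f → (∀ x ∈ F, f x = 0) →
    ∀ {ε : ℝ}, 0 < ε → ∃ (m : ℕ) (v : G → ℂ), Lev m v ∧ (∀ x, v x = 0 ∨ v x = 1) ∧
      (∀ x ∈ F, v x = 0) ∧ R ε (fun z => f z * (1 - v z)) := by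
  classical
  induction F, hF using Set.Finite.induction_on with
  | empty =>
    intro f hf _ ε hε
    refine ⟨0, fun _ => 1, fun _ _ _ => rfl, fun _ => Or.inr rfl, fun x hx => absurd hx (by simp), ?_⟩
    have : (fun z => f z * (1 - 1)) = fun _ => (0 : ℂ) := by funext z; ring
    rw [this]
    exact R_mono R_zero hε.le
  | @insert a F _ _ ih =>
    intro f hf h0 ε hε
    obtain ⟨m, v, hv, hv01, hvF, hR⟩ := ih hf (fun x hx => h0 x (Set.mem_insert_of_mem a hx))
      (half_pos hε)
    have hfv : A (fun z => f z * v z) := A_mul hf (A_lev hv)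
    obtain ⟨m', hm'⟩ := ditkin_pt hfv (x := a)
      (by rw [h0 a (Set.mem_insert a F), zero_mul]) (half_pos hε)
    refine ⟨max m m', fun z => v z * (1 - cyl m' a z), ?_, ?_, ?_, ?_⟩
    · intro x y hxy
      show v x * (1 - cyl m' a x) = v y * (1 - cyl m' a y)
      rw [Lev_mono hv (le_max_left m m') x y hxy,
        Lev_mono (cyl_lev m' a) (le_max_right m m') x y hxy]
    · intro x
      show v x * (1 - cyl m' a x) = 0 ∨ v x * (1 - cyl m' a x) = 1
      rw [cyl_eq]
      rcases hv01 x with h | h <;> rw [h] <;> split_ifs <;> simp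
    · intro x hx
      show v x * (1 - cyl m' a x) = 0
      rcases Set.mem_insert_iff.1 hx with h | h
      · subst h
        rw [cyl_eq, if_pos (fun _ _ => rfl)]; ring
      · rw [hvF x h, zero_mul]
    · have h1 : (fun z => f z * (1 - v z * (1 - cyl m' a z))) =
          fun z => f z * (1 - v z) + f z * v z * cyl m' a z := by
        funext z; ring
      show R ε (fun z => f z * (1 - v z * (1 - cyl m' a z)))
      rw [h1]
      exact R_mono (R_add hR hm') (by linarith)

theorem split_synth (hE : IsClosed E) (h : Split E θ) {f : G → ℂ} (hf : A f)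
    (h0 : ∀ x ∈ E, f x = 0) : JE E f := by
  classical
  have : CompactSpace E := isCompact_iff_compactSpace.1 hE.isCompact
  obtain ⟨F, hF, hC⟩ := bade_curtis (fun u : C(E, ℂ) => q E (θ u)) (fun u => q_nonneg E _)
    (by
      intro u v
      have h1 : q E (θ (u + v)) = q E (fun x => θ u x + θ v x) := by
        refine q_congr (h.mem _) (A_add (h.mem _) (h.mem _)) (JE_congr (h.add u v) fun x => ?_)
        ring
      rw [h1]
      exact q_add (h.mem _) (h.mem _))
    (by
      intro c u
      have h1 : q E (θ (c • u)) = q E (fun x => c * θ u x) :=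
        q_congr (h.mem _) (A_smul _ (h.mem _)) (h.smul c u)
      rw [h1]
      exact q_smul c (h.mem _))
    (by
      intro u v
      have h1 : q E (θ (u * v)) = q E (fun x => θ u x * θ v x) :=
        q_congr (h.mem _) (A_mul (h.mem _) (h.mem _)) (h.mul u v)
      rw [h1]
      exact q_mul (h.mem _) (h.mem _))
  apply JE_of_q hf
  refine le_of_forall_pos_le_add fun ε hε => ?_
  rw [zero_add]
  obtain ⟨m, v, hv, hv01, hvF, hR⟩ := ditkin (hF.image Subtype.val) hf
    (fun x hx => by
      obtain ⟨y, _, rfl⟩ := hx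
      exact h0 y y.2) hε
  have hvA : A v := A_lev hv
  obtain ⟨cv, hcv⟩ := id hvA
  have hcv0 := R_nonneg hcv
  -- bound on the good part
  obtain ⟨C, hC0, hCb⟩ := hC {x : E | v x = 1} (by
      have h1 : IsOpen {x : G | v x = 1} := by
        apply isOpen_of_lev (m := m)
        intro x y hxy
        show (v x = 1) = (v y = 1)
        rw [hv x y hxy]
      have h2 : IsOpen {x : G | ¬ v x = 1} := by
        apply isOpen_of_lev (m := m)
        intro x y hxy
        show (¬ v x = 1) = (¬ v y = 1)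
        rw [hv x y hxy]
      refine ⟨⟨?_⟩, h1.preimage continuous_subtype_val⟩
      exact h2.preimage continuous_subtype_val)
    (by
      rw [Set.disjoint_left]
      intro x hx hxF
      have h1 := hvF x ⟨x, hxF, rfl⟩
      have h2 : v x = 1 := hx
      rw [h1] at h2
      exact zero_ne_one h2)
  have hfv : A (fun z => f z * v z) := A_mul hf hvA
  have hq : q E (fun z => f z * v z) ≤ 0 := by
    refine le_of_forall_pos_le_add fun δ hδ => ?_
    rw [zero_add]
    obtain ⟨c, hc⟩ := id hf
    set η := δ / (cv + C + 1) with hη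
    have hη0 : 0 < η := by positivity
    obtain ⟨m', g, hg, hh⟩ := finite_part hc hη0
    have hgv : Lev (max m m') (fun z => g z * v z) := by
      intro x y hxy
      show g x * v x = g y * v y
      rw [Lev_mono hv (le_max_left m m') x y hxy, Lev_mono hg (le_max_right m m') x y hxy]
    have h1 : q E (fun z => g z * v z) ≤ C * η := by
      set φ : C(G, ℂ) := ⟨fun z => g z * v z, hgv.continuous⟩ with hφ
      have h2 := split_lev h φ hgv
      have h3 : q E (θ (φ.restrict E)) = q E (fun z => g z * v z) :=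
        q_congr (h.mem _) (A_lev hgv) h2
      rw [← h3]
      refine (hCb _ ?_).trans ?_
      · intro x hx
        show g x * v x = 0
        rcases hv01 x with h4 | h4
        · rw [h4, mul_zero]
        · exact absurd h4 hx
      · apply mul_le_mul_of_nonneg_left _ hC0
        rw [ContinuousMap.norm_le _ hη0.le]
        intro x
        show ‖g x * v x‖ ≤ η
        have h4 := R_bound hh x
        rw [h0 x x.2, zero_sub, norm_neg] at h4
        rcases hv01 x with h5 | h5
        · rw [h5, mul_zero, norm_zero]; exact hη0.le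
        · rw [h5, mul_one]; exact h4
    have h2 : q E (fun z => (f z - g z) * v z) ≤ η * cv := q_le (Q_of_R (R_mul hh hcv))
    have h3 : (fun z => f z * v z) = fun z => (f z - g z) * v z + g z * v z := by
      funext z; ring
    rw [h3]
    refine (q_add (A_mul ⟨_, hh⟩ hvA) (A_lev hgv)).trans ?_
    have h4 : η * cv + C * η ≤ δ := by
      have h5 : η * (cv + C + 1) = δ := by
        rw [hη]; field_simp
      nlinarith
    linarith
  have h3 : f = fun z => f z * v z + f z * (1 - v z) := by
    funext z; ring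
  rw [h3]
  refine (q_add hfv ⟨_, hR⟩).trans ?_
  have := q_le (Q_of_R (E := E) hR)
  linarith

end WD
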