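import Pool.Agent.Helper348.AmSeq
import Pool.Agent.Helper348.WDSplit2

set_option autoImplicit false

open MeasureTheory

namespace WD



theorem j8606_sum {a : Finset ℕ → ℂ} {s : Finset ℕ → ℝ} {B : ℝ}
    (ha : Summable (fun S => ‖a S‖)) (hs : ∀ S, |s S| ≤ B) :
    Summable (fun S => a S * ((s S : ℝ) : ℂ)) := by
  apply Summable.of_norm_bounded (g := fun S => ‖a S‖ * B) (ha.mul_right B)
  intro S
  rw [norm_mul, Complex.norm_real]
  exact mul_le_mul_of_nonneg_left (hs S) (norm_nonneg _)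

theorem j8606_abs (ν : Measure G) [IsProbabilityMeasure ν] {p : G → ℝ} (hp : Continuous p)
    (a : Finset ℕ → ℂ) (ha : Summable (fun S => ‖a S‖))
    (hz : ∀ x, p x ≠ 0 → ∑' S, a S * ((w S x : ℝ) : ℂ) = 0) :
    ∑' S, a S * (((∫ x, p x * w S x ∂ν : ℝ)) : ℂ) = 0 := by
  have hint : ∀ S, Integrable (fun x => p x * w S x) ν := fun S =>
    int_cont ν (hp.mul (continuous_w S))
  have h1 : ∀ S, Integrable (fun x => a S * ((p x * w S x : ℝ) : ℂ)) ν := fun S =>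
    (hint S).ofReal.const_mul (a S)
  have hn : ∀ S x, ‖a S * ((p x * w S x : ℝ) : ℂ)‖ = ‖a S‖ * |p x| := by
    intro S x
    rw [norm_mul, Complex.norm_real, Real.norm_eq_abs, abs_mul, abs_w, mul_one]
  have h2 : Summable fun S => ∫ x, ‖a S * ((p x * w S x : ℝ) : ℂ)‖ ∂ν := by
    have : (fun S => ∫ x, ‖a S * ((p x * w S x : ℝ) : ℂ)‖ ∂ν) =
        fun S => ‖a S‖ * ∫ x, |p x| ∂ν := by
      funext S
      rw [← integral_const_mul]
      refine integral_congr_ae (Filter.Eventually.of_forall fun x => ?_)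
      exact hn S x
    rw [this]
    exact ha.mul_right _
  have h3 := integral_tsum_of_summable_integral_norm h1 h2
  have h4 : ∀ S, ∫ x, a S * ((p x * w S x : ℝ) : ℂ) ∂ν =
      a S * (((∫ x, p x * w S x ∂ν : ℝ)) : ℂ) := by
    intro S
    rw [integral_const_mul, integral_complex_ofReal]
  have h5 : (fun x => ∑' S, a S * ((p x * w S x : ℝ) : ℂ)) = fun _ => (0 : ℂ) := by
    funext x
    by_cases hx : p x = 0
    · simp [hx]
    · have h6 : (fun S => a S * ((p x * w S x : ℝ) : ℂ)) =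
          fun S => ((p x : ℝ) : ℂ) * (a S * ((w S x : ℝ) : ℂ)) := by
        funext S
        push_cast
        ring
      rw [h6, tsum_mul_left, hz x hx, mul_zero]
  simp only [h4] at h3
  rw [h3, h5, integral_zero]

theorem j8606_clopen {m : ℕ} {p : G → ℝ} (hp : Lev m p) :
    IsClosed {x | p x ≠ 0} ∧ IsOpen {x | p x ≠ 0} := by
  classical
  refine ⟨?_, isOpen_ne_fun hp.continuous continuous_const⟩
  have h1 : Lev m (fun x => decide (p x ≠ 0)) := by
    intro x y hxy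
    simp only [hp x y hxy]
  have h2 : IsClosed ((fun x => decide (p x ≠ 0)) ⁻¹' {true}) :=
    (isClosed_discrete _).preimage h1.continuous
  have h3 : {x | p x ≠ 0} = (fun x => decide (p x ≠ 0)) ⁻¹' {true} := by
    ext x
    simp
  rw [h3]
  exact h2

theorem j8606_zero (ν : Measure G) [IsProbabilityMeasure ν] [ν.IsMulLeftInvariant]
    {m : ℕ} {p : G → ℝ} (hp : Lev m p) (S : Finset ℕ) (i : ℕ) (hi : i ∈ S) (hm : m ≤ i) :
    ∫ x, p x * w S x ∂ν = 0 := by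
  have h1 : (fun x => p x * w S x) = fun x => (p x * w (S.erase i) x) * e i x := by
    funext x
    have : w S x = w (S.erase i) x * e i x := by
      unfold w
      rw [mul_comm, Finset.mul_prod_erase S (fun j => e j x) hi]
    rw [this, mul_assoc]
  rw [h1]
  apply int_odd ν i
  intro x
  have h2 : p (flip i * x) = p x := by
    apply hp
    intro j hj
    have hji : j ≠ i := by omega
    simp [flip, Pi.mulSingle_eq_of_ne hji]
  have h3 : w (S.erase i) (flip i * x) = w (S.erase i) x := by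
    unfold w
    refine Finset.prod_congr rfl fun j hj => ?_
    exact e_flip_ne i j (Finset.ne_of_mem_erase hj).symm x
  rw [h2, h3]

theorem j8606_bd {a : Finset ℕ → ℂ} {s : Finset ℕ → ℝ} {c : ℝ} (hc : 0 ≤ c)
    (ha : Summable (fun S => ‖a S‖)) (ha1 : (∑' S, ‖a S‖) ≤ 1) (hs : ∀ S, |s S| ≤ 3 / 2)
    (h0 : ‖a ∅‖ ≤ c / 2) (hS : ∀ S, a S ≠ 0 → S ≠ ∅ → |s S| ≤ c) :
    ‖∑' S, a S * ((s S : ℝ) : ℂ)‖ ≤ 2 * c := by
  classical
  have hb : ∀ S, ‖a S * ((s S : ℝ) : ℂ)‖ ≤ (if S = ∅ then c / 2 * (3 / 2) else 0) + ‖a S‖ * c := by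
    intro S
    rw [norm_mul, Complex.norm_real, Real.norm_eq_abs]
    by_cases h : S = ∅
    · rw [if_pos h, h]
      have h1 : ‖a ∅‖ * |s ∅| ≤ c / 2 * (3 / 2) :=
        mul_le_mul h0 (hs ∅) (abs_nonneg _) (by linarith)
      have h2 : 0 ≤ ‖a ∅‖ * c := mul_nonneg (norm_nonneg _) hc
      linarith
    · rw [if_neg h, zero_add]
      by_cases h' : a S = 0
      · rw [h', norm_zero, zero_mul, zero_mul]
      · exact mul_le_mul_of_nonneg_left (hS S h' h) (norm_nonneg _)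
  have hsum1 : HasSum (fun S : Finset ℕ => if S = ∅ then c / 2 * (3 / 2) else 0)
      (c / 2 * (3 / 2)) := hasSum_ite_eq ∅ _
  have hsum2 := (ha.hasSum.mul_right c)
  have h1 := tsum_of_norm_bounded (hsum1.add hsum2) hb
  refine h1.trans ?_
  have : (∑' S, ‖a S‖) * c ≤ 1 * c := mul_le_mul_of_nonneg_right ha1 hc
  linarith

theorem exists_EB : ∃ (E : Set G) (s : Finset ℕ → ℝ) (h : ℕ → G → ℂ), IsClosed E ∧
    (∀ S, |s S| ≤ 3 / 2) ∧ 1 / 2 ≤ s ∅ ∧
    (∀ a : Finset ℕ → ℂ, Summable (fun S => ‖a S‖) →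
      (∃ U : Set G, IsOpen U ∧ E ⊆ U ∧ ∀ x ∈ U, ∑' S, a S * ((w S x : ℝ) : ℂ) = 0) →
      ∑' S, a S * ((s S : ℝ) : ℂ) = 0) ∧
    (∀ n, ∃ a : Finset ℕ → ℂ, Summable (fun S => ‖a S‖) ∧ (∑' S, ‖a S‖) ≤ 1 ∧
      (∀ x, h n x = ∑' S, a S * ((w S x : ℝ) : ℂ)) ∧
      ‖∑' S, a S * ((s S : ℝ) : ℂ)‖ ≤ (1 / 2) ^ n) ∧
    (∀ n, ∀ x ∈ E, ‖h n x - 1 / 8‖ ≤ (1 / 2) ^ n) ∧
    (∀ (m : ℕ) (σ : G → ℝ), Lev m σ → (∀ x, σ x = 1 ∨ σ x = -1) →
      ∀ᶠ n in Filter.atTop, Q E 1 (fun x => ((σ x : ℝ) : ℂ) * h n x)) := by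
  obtain ⟨ν, hν1, hν2⟩ := exists_haar
  obtain ⟨m, p, s, h, hm, hL, hp0, hs, hs1, hs2, ha, hh, hF⟩ := seqB ν
  have hK : ∀ n, IsClosed {x | p n x ≠ 0} ∧ IsOpen {x | p n x ≠ 0} := fun n => j8606_clopen (hL n)
  have hanti : Antitone (fun n => {x | p n x ≠ 0}) :=
    antitone_nat_of_succ_le fun n x hx hx' => hx (hp0 n x hx')
  have hpow : ∀ (n k : ℕ), ((1 : ℝ) / 2) ^ (n + k) ≤ (1 / 2) ^ n := fun n k =>
    pow_le_pow_of_le_one (by norm_num) (by norm_num) (Nat.le_add_right n k)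
  refine ⟨⋂ n, {x | p n x ≠ 0}, s, h, isClosed_iInter fun n => (hK n).1, hs2, hs1, ?_, ?_, ?_, ?_⟩
  · rintro a hasum ⟨U, hU, hEU, hz⟩
    obtain ⟨n1, hn1⟩ : ∃ n, {x | p n x ≠ 0} ⊆ U := by
      apply exists_subset_nhds_of_isCompact' (V := fun n => {x | p n x ≠ 0})
        (hanti.directed_ge) (fun n => (hK n).1.isCompact) (fun n => (hK n).1)
      intro x hx
      exact hU.mem_nhds (hEU hx)
    have h1 : ∀ n, n1 ≤ n → ‖∑' S, a S * ((s S : ℝ) : ℂ)‖ ≤
        (∑' S, ‖a S‖) * (1 / 2) ^ (n + 3) := by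
      intro n hn
      have h2 := j8606_abs ν (hL n).continuous a hasum (fun x hx => hz x (hn1 (hanti hn hx)))
      have hcb : ∀ S, |∫ x, p n x * w S x ∂ν| ≤ 5 / 2 := by
        intro S
        have h3 := hs n S
        have h4 := hs2 S
        have h5 : ((1 : ℝ) / 2) ^ (n + 3) ≤ 1 := pow_le_one₀ (by norm_num) (by norm_num)
        have h6 := abs_sub_abs_le_abs_sub (∫ x, p n x * w S x ∂ν) (s S)
        rw [abs_sub_comm] at h6
        linarith
      have h3 := (j8606_sum hasum hs2).tsum_sub (j8606_sum hasum hcb)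
      rw [h2, sub_zero] at h3
      rw [← h3]
      refine tsum_of_norm_bounded (hasum.hasSum.mul_right _) fun S => ?_
      rw [← mul_sub, ← Complex.ofReal_sub, norm_mul, Complex.norm_real, Real.norm_eq_abs]
      exact mul_le_mul_of_nonneg_left (hs n S) (norm_nonneg _)
    have h2 : Filter.Tendsto (fun n : ℕ => (∑' S, ‖a S‖) * ((1 : ℝ) / 2) ^ (n + 3)) Filter.atTop
        (nhds ((∑' S, ‖a S‖) * 0)) := by
      apply Filter.Tendsto.const_mul
      exact (tendsto_pow_atTop_nhds_zero_of_lt_one (by norm_num) (by norm_num)).comp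
        (Filter.tendsto_add_atTop_nat 3)
    rw [mul_zero] at h2
    have h3 : ‖∑' S, a S * ((s S : ℝ) : ℂ)‖ ≤ 0 :=
      ge_of_tendsto h2 (Filter.eventually_atTop.2 ⟨n1, h1⟩)
    exact norm_le_zero_iff.1 h3
  · intro n
    obtain ⟨a, ha1, ha2, ha3, ha4, ha5⟩ := ha n
    refine ⟨a, ha1, ha2, ha3, ?_⟩
    have h1 := j8606_bd (a := a) (s := s) (c := (1 / 2) ^ (n + 3)) (by positivity) ha1 ha2 hs2
      (by rw [pow_succ] at ha4; linarith) (by
        intro S hS1 hS2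
        obtain ⟨i, hi, hmi⟩ := ha5 S hS1 hS2
        have h2 := hs n S
        rw [j8606_zero ν (hL n) S i hi hmi, sub_zero] at h2
        exact h2)
    refine h1.trans ?_
    have h2 := hpow n 2
    have h3 : 2 * ((1 : ℝ) / 2) ^ (n + 3) = (1 / 2) ^ (n + 2) := by
      rw [pow_succ _ (n + 2)]; ring
    rw [h3]
    exact h2
  · intro n x hx
    rw [Set.mem_iInter] at hx
    exact (hh n x (hx (n + 1))).trans (hpow n 4)
  · intro m0 σ hσ hσ1
    rw [Filter.eventually_atTop]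
    refine ⟨m0, fun n hn => ?_⟩
    have h1 : m0 ≤ m n := hn.trans (hm.id_le n)
    have h2 : Lev (m n) σ := fun x y hxy => hσ x y fun i hi => hxy i (hi.trans_le h1)
    obtain ⟨F, hF1, hF2⟩ := hF n σ h2 hσ1
    exact ⟨F, hF1, {x | p (n + 1) x ≠ 0}, (hK (n + 1)).2, Set.iInter_subset _ (n + 1), hF2⟩

end WD
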