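import Pool.Agent.Helper348.AmTrans
import Pool.Agent.Helper348.AmBai

set_option autoImplicit false

/-!
# The radical algebra of the constructed set is amenable
-/

open WD

namespace Am

section

variable {E : Set G} {C : ℝ} {u : ℕ → G → ℂ}

/-- the elements `u_n w_S` of `A(Γ)` -/
noncomputable def uw (hu : ∀ n, R C (u n)) (n : ℕ) (S : Finset ℕ) : FA G :=
  toFA (fun x => u n x * ((w S x : ℝ) : ℂ)) (R_mul (hu n) (R_w S))

lemma uw_mem (hu : ∀ n, R C (u n)) (h0 : ∀ n, ∀ x ∈ E, u n x = 0) (n : ℕ) (S : Finset ℕ) :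
    uw hu n S ∈ IE E := by
  intro x hx
  show u n x * ((w S x : ℝ) : ℂ) = 0
  rw [h0 n x hx, zero_mul]

/-- the elements `u_n w_S` of `R_E` -/
noncomputable def X (hu : ∀ n, R C (u n)) (h0 : ∀ n, ∀ x ∈ E, u n x = 0) (n : ℕ)
    (S : Finset ℕ) : subRE E := ⟨mk E (uw hu n S), uw hu n S, uw_mem hu h0 n S, rfl⟩

lemma norm_X (hu : ∀ n, R C (u n)) (h0 : ∀ n, ∀ x ∈ E, u n x = 0) (n : ℕ) (S : Finset ℕ) :
    ‖X hu h0 n S‖ ≤ C := by
  have h1 : ‖X hu h0 n S‖ = ‖mk E (uw hu n S)‖ := rfl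
  rw [h1]
  refine (norm_mk_le E _).trans ((norm_toFA _ _).trans ?_)
  rw [mul_one]

lemma mem_closure_IE {f : FA G} {y : subRE E} (h : (y : AE E) = mk E f) : f ∈ IE E := by
  obtain ⟨y, g, hg, rfl⟩ := y
  have h1 : g - f ∈ (JEi E).closure := Ideal.Quotient.eq.1 h
  intro x hx
  have h2 : ‖(g - f : FA G) x‖ ≤ 0 := by
    refine le_of_forall_pos_le_add fun ε hε => ?_
    rw [zero_add]
    exact Q_bound (JE_of_closure h1 ε hε) hx
  have h3 : (g - f : FA G) x = g x - f x := rfl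
  rw [h3, hg x hx, zero_sub, norm_neg] at h2
  exact norm_le_zero_iff.1 h2

/-- multiplication of an element of `R_E` by an element of `A(Γ)` -/
noncomputable def act (r : FA G) (y : subRE E) : subRE E := ⟨mk E r * (y : AE E), by
  obtain ⟨y, g, hg, rfl⟩ := y
  exact ⟨r * g, (IE E).mul_mem_left r hg, map_mul _ _ _⟩⟩

lemma norm_act (r : FA G) (y : subRE E) : ‖act r y‖ ≤ ‖r‖ * ‖y‖ := by
  show ‖mk E r * (y : AE E)‖ ≤ _
  exact (norm_mul_le _ _).trans (mul_le_mul_of_nonneg_right (norm_mk_le E r) (norm_nonneg _))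

/-- `act` is linear in the first variable -/
noncomputable def actHom (y : subRE E) : FA G →ₗ[ℂ] subRE E where
  toFun r := act r y
  map_add' r r' := by
    apply Subtype.ext
    show mk E (r + r') * (y : AE E) = mk E r * (y : AE E) + mk E r' * (y : AE E)
    rw [map_add, add_mul]
  map_smul' k r := by
    apply Subtype.ext
    show mk E (k • r) * (y : AE E) = k • (mk E r * (y : AE E))
    rw [mk_smul, smul_mul_assoc]

/-- evaluation at a point -/
noncomputable def ev (x : G) : FA G →+ ℂ where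
  toFun f := f x
  map_zero' := rfl
  map_add' _ _ := rfl

open scoped Classical in
/-- the product of `w_T` and `u_n w_S` -/
lemma act_w (hu : ∀ n, R C (u n)) (h0 : ∀ n, ∀ x ∈ E, u n x = 0) (n : ℕ)
    (S T : Finset ℕ) :
    act (toFA (fun x => ((w T x : ℝ) : ℂ)) (R_w T)) (X hu h0 n S) =
      X hu h0 n (symmDiff S T) := by
  apply Subtype.ext
  show mk E _ * mk E _ = mk E _
  rw [← map_mul]
  congr 1
  apply Subtype.ext
  funext x
  show ((w T x : ℝ) : ℂ) * (u n x * ((w S x : ℝ) : ℂ)) = u n x * ((w (symmDiff S T) x : ℝ) : ℂ)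
  rw [w_symm]
  push_cast
  ring

/-- exact commutation for Walsh functions -/
lemma comm_w (hu : ∀ n, R C (u n)) (h0 : ∀ n, ∀ x ∈ E, u n x = 0) {n m : ℕ} (hm : m ≤ n)
    (T : Finset ℕ) (hT : ∀ i ∈ T, i < m) (Φ : subRE E → subRE E → ℂ) :
    ∑ S ∈ (Finset.range n).powerset, Φ (X hu h0 n (symmDiff S T)) (X hu h0 n S) =
      ∑ S ∈ (Finset.range n).powerset, Φ (X hu h0 n S) (X hu h0 n (symmDiff S T)) := by
  have hmem : ∀ S ∈ (Finset.range n).powerset, symmDiff S T ∈ (Finset.range n).powerset := by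
    intro S hS
    rw [Finset.mem_powerset] at hS ⊢
    intro i hi
    rw [Finset.mem_symmDiff] at hi
    rcases hi with h | h
    · exact hS h.1
    · exact Finset.mem_range.2 (lt_of_lt_of_le (hT i h.1) hm)
  refine Finset.sum_bij' (fun S _ => symmDiff S T) (fun S _ => symmDiff S T) hmem hmem ?_ ?_ ?_
  · intro S _
    exact symmDiff_symmDiff_cancel_right T S
  · intro S _
    exact symmDiff_symmDiff_cancel_right T S
  · intro S _
    show _ = Φ (X hu h0 n (symmDiff S T)) (X hu h0 n (symmDiff (symmDiff S T) T))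
    rw [symmDiff_symmDiff_cancel_right]

open scoped Classical in
lemma comm_sum {R : Type} [NonUnitalNormedRing R] [NormedSpace ℂ R] (P s : Finset (Finset ℕ))
    (α : Finset ℕ → ℂ) (X r : Finset ℕ → R) (k : ℂ) (Φ : R →L[ℂ] R →L[ℂ] ℂ)
    (hcomm : ∀ T ∈ s, ∑ S ∈ P, Φ (X (symmDiff S T)) (X S) =
      ∑ S ∈ P, Φ (X S) (X (symmDiff S T))) :
    ∑ S ∈ P, (Φ (k • (∑ T ∈ s, α T • X (symmDiff S T) + r S)) (X S) -
      Φ (k • X S) (∑ T ∈ s, α T • X (symmDiff S T) + r S)) =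
    k * ∑ S ∈ P, (Φ (r S) (X S) - Φ (X S) (r S)) := by
  have h1 : ∀ S ∈ P, (Φ (k • (∑ T ∈ s, α T • X (symmDiff S T) + r S)) (X S) -
      Φ (k • X S) (∑ T ∈ s, α T • X (symmDiff S T) + r S)) =
      k * (∑ T ∈ s, α T * (Φ (X (symmDiff S T)) (X S) - Φ (X S) (X (symmDiff S T))) +
        (Φ (r S) (X S) - Φ (X S) (r S))) := by
    intro S _
    have e1 : Φ (k • (∑ T ∈ s, α T • X (symmDiff S T) + r S)) (X S) =
        k * (∑ T ∈ s, α T * Φ (X (symmDiff S T)) (X S) + Φ (r S) (X S)) := by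
      rw [map_smul, smul_apply, map_add, add_apply,
        map_sum, sum_apply, smul_eq_mul]
      congr 2
      refine Finset.sum_congr rfl fun T _ => ?_
      rw [map_smul, smul_apply, smul_eq_mul]
    have e2 : Φ (k • X S) (∑ T ∈ s, α T • X (symmDiff S T) + r S) =
        k * (∑ T ∈ s, α T * Φ (X S) (X (symmDiff S T)) + Φ (X S) (r S)) := by
      rw [map_smul, smul_apply, map_add, map_sum, smul_eq_mul]
      congr 2
      refine Finset.sum_congr rfl fun T _ => ?_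
      rw [map_smul, smul_eq_mul]
    rw [e1, e2]
    simp only [mul_sub, Finset.sum_sub_distrib]
    ring
  rw [Finset.sum_congr rfl h1, ← Finset.mul_sum, Finset.sum_add_distrib]
  have h2 : ∑ S ∈ P, ∑ T ∈ s,
      α T * (Φ (X (symmDiff S T)) (X S) - Φ (X S) (X (symmDiff S T))) = 0 := by
    rw [Finset.sum_comm]
    refine Finset.sum_eq_zero fun T hT => ?_
    rw [← Finset.mul_sum, Finset.sum_sub_distrib, hcomm T hT, sub_self, mul_zero]
  rw [h2, zero_add]

open scoped Classical in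
lemma diag_est {R : Type} [NonUnitalNormedRing R] [NormedSpace ℂ R] [SMulCommClass ℂ R R]
    (P s : Finset (Finset ℕ)) (α : Finset ℕ → ℂ) (X r : Finset ℕ → R) (k : ℂ) (c : R)
    {C δ : ℝ} (hC0 : 0 ≤ C) (hδ0 : 0 ≤ δ)
    (hcX : ∀ S, c * X S = ∑ T ∈ s, α T • X (symmDiff S T) + r S)
    (hXc : ∀ S, X S * c = ∑ T ∈ s, α T • X (symmDiff S T) + r S)
    (hX : ∀ S, ‖X S‖ ≤ C) (hr : ∀ S, ‖r S‖ ≤ δ * C) (hk : ‖k‖ * (P.card : ℝ) = 1)
    (Φ : R →L[ℂ] R →L[ℂ] ℂ)
    (hcomm : ∀ T ∈ s, ∑ S ∈ P, Φ (X (symmDiff S T)) (X S) =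
      ∑ S ∈ P, Φ (X S) (X (symmDiff S T))) :
    ‖∑ S ∈ P, (Φ (c * (k • X S)) (X S) - Φ (k • X S) (X S * c))‖ ≤ 2 * (δ * (C * C)) * ‖Φ‖ := by
  have hgoal : ∑ S ∈ P, (Φ (c * (k • X S)) (X S) - Φ (k • X S) (X S * c)) =
      k * ∑ S ∈ P, (Φ (r S) (X S) - Φ (X S) (r S)) := by
    rw [← comm_sum P s α X r k Φ hcomm]
    refine Finset.sum_congr rfl fun S _ => ?_
    rw [mul_smul_comm, hcX S, hXc S]
  rw [hgoal, norm_mul]
  have hΦ : 0 ≤ ‖Φ‖ := Φ.opNorm_nonneg
  have hb : ∀ S ∈ P, ‖Φ (r S) (X S) - Φ (X S) (r S)‖ ≤ 2 * (δ * (C * C)) * ‖Φ‖ := by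
    intro S _
    have k3 : ‖Φ (r S) (X S)‖ ≤ ‖Φ‖ * (δ * C) * C :=
      (Φ.le_opNorm₂ _ _).trans (mul_le_mul (mul_le_mul_of_nonneg_left (hr S) hΦ)
        (hX S) (norm_nonneg _) (mul_nonneg hΦ (mul_nonneg hδ0 hC0)))
    have k4 : ‖Φ (X S) (r S)‖ ≤ ‖Φ‖ * C * (δ * C) :=
      (Φ.le_opNorm₂ _ _).trans (mul_le_mul (mul_le_mul_of_nonneg_left (hX S) hΦ)
        (hr S) (norm_nonneg _) (mul_nonneg hΦ hC0))
    refine (norm_sub_le _ _).trans ?_
    linarith
  have hb2 := (norm_sum_le_of_le _ hb)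
  rw [Finset.sum_const, nsmul_eq_mul] at hb2
  calc ‖k‖ * ‖∑ S ∈ P, (Φ (r S) (X S) - Φ (X S) (r S))‖
      ≤ ‖k‖ * ((P.card : ℝ) * (2 * (δ * (C * C)) * ‖Φ‖)) :=
        mul_le_mul_of_nonneg_left hb2 (norm_nonneg _)
    _ = (2 * (δ * (C * C))) * ‖Φ‖ := by rw [← mul_assoc, hk, one_mul]

theorem amenable_RE.{v} (hu : ∀ n, R C (u n)) (h0 : ∀ n, ∀ x ∈ E, u n x = 0)
    (hap : ∀ f, A f → (∀ x ∈ E, f x = 0) → ∀ ε : ℝ, 0 < ε →
        ∀ᶠ n in Filter.atTop, Q E ε (fun x => f x - u n x * f x)) :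
    Amenable.{v} (subRE E) := by
  classical
  have hC0 : 0 ≤ C := R_nonneg (hu 0)
  have h2n : ∀ n : ℕ, ‖(((2 : ℂ) ^ n)⁻¹)‖ = ((2 : ℝ) ^ n)⁻¹ := by
    intro n; rw [norm_inv, norm_pow]; simp
  have hcard : ∀ n : ℕ, ((((Finset.range n).powerset).card : ℕ) : ℝ) = 2 ^ n := by
    intro n; rw [Finset.card_powerset, Finset.card_range]; push_cast; ring
  have hcardC : ∀ n : ℕ, ((((Finset.range n).powerset).card : ℕ) : ℂ) = 2 ^ n := by
    intro n; rw [Finset.card_powerset, Finset.card_range]; push_cast; ring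
  -- approximate units
  have hau : ∀ y : subRE E, Filter.Tendsto (fun n => ‖(y : AE E) - mk E (toFA (u n) (hu n)) * (y : AE E)‖)
      Filter.atTop (nhds 0) := by
    rintro ⟨y, f, hf, rfl⟩
    rw [tendsto_order]
    refine ⟨fun b hb => Filter.Eventually.of_forall fun n => lt_of_lt_of_le hb (norm_nonneg _), ?_⟩
    intro b hb
    filter_upwards [hap (f : G → ℂ) (A_of_FA f) hf (b / 2) (by linarith)] with n hn
    have h1 : mk E f - mk E (toFA (u n) (hu n)) * mk E f =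
        mk E (f - toFA (u n) (hu n) * f) := by
      rw [map_sub, map_mul]
    show ‖mk E f - mk E (toFA (u n) (hu n)) * mk E f‖ < b
    rw [h1]
    have h2 : ‖mk E (f - toFA (u n) (hu n) * f)‖ ≤ b / 2 := norm_mk_of_Q hn
    linarith
  have hsum : ∀ n, ∑ S ∈ (Finset.range n).powerset, ((((2 : ℂ) ^ n)⁻¹) • X hu h0 n S) * X hu h0 n S
      = act (toFA (u n) (hu n)) (X hu h0 n ∅) := by
    intro n
    have h1 : ∀ S ∈ (Finset.range n).powerset,
        ((((2 : ℂ) ^ n)⁻¹) • X hu h0 n S) * X hu h0 n S =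
          (((2 : ℂ) ^ n)⁻¹) • act (toFA (u n) (hu n)) (X hu h0 n ∅) := by
      intro S _
      rw [smul_mul_assoc]
      congr 1
      apply Subtype.ext
      show mk E _ * mk E _ = mk E _ * mk E _
      rw [← map_mul, ← map_mul]
      congr 1
      apply Subtype.ext
      funext x
      show u n x * ((w S x : ℝ) : ℂ) * (u n x * ((w S x : ℝ) : ℂ)) =
        u n x * (u n x * ((w ∅ x : ℝ) : ℂ))
      have h2 : w S x * w S x = 1 := by
        have h3 := abs_w S x
        rw [← abs_mul_abs_self, h3]; norm_num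
      have h4 : w ∅ x = 1 := by simp [w]
      have h5 : ((w S x : ℝ) : ℂ) * ((w S x : ℝ) : ℂ) = 1 := by exact_mod_cast h2
      rw [h4]
      push_cast
      linear_combination (u n x * u n x) * h5
    rw [Finset.sum_congr rfl h1, Finset.sum_const, ← Nat.cast_smul_eq_nsmul ℂ, smul_smul,
      hcardC, mul_inv_cancel₀ (pow_ne_zero n two_ne_zero), one_smul]
  -- `u_n² y → y`
  have hU : ∀ n, ‖mk E (toFA (u n) (hu n))‖ ≤ C := fun n => (norm_mk_le E _).trans (norm_toFA _ _)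
  have hlim : ∀ c : subRE E, Filter.Tendsto (fun n => act (toFA (u n) (hu n)) (X hu h0 n ∅) * c)
      Filter.atTop (nhds c) := by
    intro c
    rw [tendsto_iff_norm_sub_tendsto_zero]
    have h1 := ((hau c).const_mul (1 + C))
    rw [mul_zero] at h1
    refine squeeze_zero (fun n => norm_nonneg _) (fun n => ?_) h1
    set U : AE E := mk E (toFA (u n) (hu n)) with hUdef
    have h2 : mk E (uw hu n ∅) = U := by
      rw [hUdef]
      congr 1
      apply Subtype.ext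
      funext x
      show u n x * ((w ∅ x : ℝ) : ℂ) = u n x
      have h4 : w ∅ x = 1 := by simp [w]
      rw [h4]; push_cast; ring
    have h3 : ‖act (toFA (u n) (hu n)) (X hu h0 n ∅) * c - c‖ =
        ‖U * mk E (uw hu n ∅) * (c : AE E) - (c : AE E)‖ := rfl
    rw [h3, h2]
    have h4 : U * U * (c : AE E) - (c : AE E) =
        -(((c : AE E) - U * c) + U * ((c : AE E) - U * c)) := by ring
    rw [h4, norm_neg]
    refine (norm_add_le _ _).trans ?_
    have h5 := norm_mul_le U ((c : AE E) - U * c)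
    have h6 := mul_le_mul_of_nonneg_right (hU n) (norm_nonneg ((c : AE E) - U * c))
    rw [← hUdef] at h6
    linarith
  refine amenable_of_diag (κ := Finset ℕ) (fun n => (Finset.range n).powerset)
    (fun n S => (((2 : ℂ) ^ n)⁻¹) • X hu h0 n S) (fun n S => X hu h0 n S) (C * C) ?_ ?_ ?_ ?_
  · -- boundedness
    intro n
    have h1 : ∀ S ∈ (Finset.range n).powerset,
        ‖(((2 : ℂ) ^ n)⁻¹) • X hu h0 n S‖ * ‖X hu h0 n S‖ ≤ ((2 : ℝ) ^ n)⁻¹ * (C * C) := by
      intro S _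
      rw [norm_smul, h2n, mul_assoc]
      refine mul_le_mul_of_nonneg_left ?_ (by positivity)
      exact mul_le_mul (norm_X hu h0 n S) (norm_X hu h0 n S) (norm_nonneg _) hC0
    refine (Finset.sum_le_sum h1).trans ?_
    rw [Finset.sum_const, nsmul_eq_mul, hcard, ← mul_assoc, mul_inv_cancel₀ (by positivity),
      one_mul]
  · -- asymptotic commutation
    rintro ⟨c, f, hf, rfl⟩ ε hε
    obtain ⟨δ, hδ0, hδ⟩ : ∃ δ : ℝ, 0 < δ ∧ 2 * (δ * (C * C)) ≤ ε := by
      refine ⟨ε / (2 * (C * C) + 1), by positivity, ?_⟩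
      rw [div_mul_eq_mul_div, mul_div_assoc', div_le_iff₀ (by positivity)]
      nlinarith
    obtain ⟨d, hd⟩ := A_of_FA f
    obtain ⟨m, s, α, hs, hr⟩ := walsh_part hd hδ0
    filter_upwards [Filter.eventually_ge_atTop m] with n hn
    intro Φ
    obtain ⟨r, hrdef⟩ : ∃ r : FA G, r = toFA _ hr := ⟨_, rfl⟩
    have hrn : ‖r‖ ≤ δ := by rw [hrdef]; exact norm_toFA _ _
    have hf1 : f = ∑ T ∈ s, α T • toFA (fun x => ((w T x : ℝ) : ℂ)) (R_w T) + r := by
      apply Subtype.ext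
      funext x
      show ev x f = ev x (∑ T ∈ s, α T • toFA (fun x => ((w T x : ℝ) : ℂ)) (R_w T) + r)
      rw [map_add, map_sum, hrdef]
      show f x = ∑ T ∈ s, α T * ((w T x : ℝ) : ℂ) + (f x - ∑ T ∈ s, α T * ((w T x : ℝ) : ℂ))
      ring
    -- decomposition of the product
    have hdec : ∀ S, (⟨mk E f, f, hf, rfl⟩ : subRE E) * X hu h0 n S =
        ∑ T ∈ s, α T • X hu h0 n (symmDiff S T) + act r (X hu h0 n S) := by
      intro S
      have h1 : (⟨mk E f, f, hf, rfl⟩ : subRE E) * X hu h0 n S = actHom (X hu h0 n S) f := rfl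
      rw [h1]
      conv_lhs => rw [hf1]
      rw [map_add, map_sum]
      congr 1
      refine Finset.sum_congr rfl fun T _ => ?_
      rw [map_smul]
      congr 1
      exact act_w hu h0 n S T
    have hdec' : ∀ S, X hu h0 n S * (⟨mk E f, f, hf, rfl⟩ : subRE E) =
        ∑ T ∈ s, α T • X hu h0 n (symmDiff S T) + act r (X hu h0 n S) := by
      intro S
      rw [← hdec S]
      apply Subtype.ext
      exact mul_comm _ _
    have hk : ‖(((2 : ℂ) ^ n)⁻¹)‖ * ((((Finset.range n).powerset).card : ℕ) : ℝ) = 1 := by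
      rw [h2n, hcard, inv_mul_cancel₀ (by positivity)]
    exact (diag_est (Finset.range n).powerset s α (fun S => X hu h0 n S)
        (fun S => act r (X hu h0 n S)) (((2 : ℂ) ^ n)⁻¹) (⟨mk E f, f, hf, rfl⟩ : subRE E) hC0 hδ0.le
        hdec hdec' (fun S => norm_X hu h0 n S)
        (fun S => (norm_act r _).trans (mul_le_mul hrn (norm_X hu h0 n S) (norm_nonneg _) hδ0.le))
        hk Φ (fun T hT => comm_w hu h0 hn T (hs T hT) (fun a b => Φ a b))).trans
      (mul_le_mul_of_nonneg_right hδ Φ.opNorm_nonneg)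
  · intro c
    refine (hlim c).congr fun n => ?_
    rw [hsum n]
  · intro c
    refine (hlim c).congr fun n => ?_
    rw [hsum n]
    apply Subtype.ext
    exact mul_comm _ _

/-- there is a compact subset of the Cantor group failing spectral synthesis whose radical algebra
is amenable -/
theorem exists_amenable.{v} : ∃ E : Set G, IsCompact E ∧ FailsSynthesis E ∧
    Amenable.{v} (RE E) := by
  obtain ⟨E, hE, ⟨f, hf, hf0, hfJ⟩, C, u, hu, h0, hap⟩ := bai_package
  refine ⟨E, hE.isCompact, ?_, amenable_RE hu h0 hap⟩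
  intro heq
  obtain ⟨c, hc⟩ := hf
  apply hfJ
  have h1 : toFA f hc ∈ IE E := hf0
  rw [← heq] at h1
  exact JE_of_closure h1

end

end Am
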