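import Pool.Agent.Helper348.WDHaar
import Pool.Agent.Helper348.WDLev

set_option autoImplicit false

open MeasureTheory

namespace WD



lemma w_flip_not_mem (T : Finset ℕ) (k : ℕ) (hk : k ∉ T) (x : G) : w T (flip k * x) = w T x := by
  unfold w
  refine Finset.prod_congr rfl fun i hi => ?_
  exact e_flip_ne k i (fun h => hk (h ▸ hi)) x

lemma w_erase (T : Finset ℕ) (k : ℕ) (hk : k ∈ T) (x : G) : w T x = w (T.erase k) x * e k x := by
  unfold w
  exact (Finset.prod_erase_mul T (fun i => e i x) hk).symm

theorem one_block (ν : Measure G) [IsProbabilityMeasure ν] [ν.IsMulLeftInvariant]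
    (M L : ℕ) (v : ℕ → G → ℝ) (hvc : ∀ i, Continuous (v i))
    (hvi : ∀ j i, i < L → ∀ x, v j (flip (M + i) * x) = v j x)
    (u : G → ℝ) (hu : Continuous u) (hui : ∀ i, i < L → ∀ x, u (flip (M + i) * x) = u x)
    (T : Finset ℕ) (hT : T ⊆ Finset.Ico M (M + L)) :
    ∫ x, u x * w T x * ∏ i ∈ Finset.range L, (1 + v i x * e (M + i) x) ∂ν =
      ∫ x, u x * ∏ i ∈ (Finset.range L).filter (fun i => M + i ∈ T), v i x ∂ν := by
  induction L generalizing T u with
  | zero =>
    have hT0 : T = ∅ := by
      rw [Nat.add_zero, Finset.Ico_self] at hT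
      exact Finset.subset_empty.mp hT
    subst hT0
    simp [w]
  | succ L ih =>
    have hP : ∀ x, (∏ i ∈ Finset.range L, (1 + v i (flip (M + L) * x) * e (M + i) (flip (M + L) * x)))
        = ∏ i ∈ Finset.range L, (1 + v i x * e (M + i) x) := by
      intro x
      refine Finset.prod_congr rfl fun i hi => ?_
      have hi' := Finset.mem_range.mp hi
      rw [hvi i L (Nat.lt_succ_self L), e_flip_ne (M + L) (M + i) (by omega)]
    have hPc : Continuous (fun x : G => ∏ i ∈ Finset.range L, (1 + v i x * e (M + i) x)) :=
      continuous_finsetProd _ fun i _ => continuous_const.add ((hvc i).mul (continuous_e _))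
    by_cases hM : M + L ∈ T
    · have hT' : T.erase (M + L) ⊆ Finset.Ico M (M + L) := by
        intro i hi
        have h1 := Finset.mem_erase.mp hi
        have h2 := Finset.mem_Ico.mp (hT h1.2)
        exact Finset.mem_Ico.mpr ⟨h2.1, by omega⟩
      have e1 : ∀ x, u x * w T x * ∏ i ∈ Finset.range (L + 1), (1 + v i x * e (M + i) x)
          = (u x * w (T.erase (M + L)) x * ∏ i ∈ Finset.range L, (1 + v i x * e (M + i) x))
              * e (M + L) x
            + (u x * v L x) * w (T.erase (M + L)) x *
              ∏ i ∈ Finset.range L, (1 + v i x * e (M + i) x) := by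
        intro x
        rw [Finset.prod_range_succ, w_erase T (M + L) hM]
        have := e_mul_self (M + L) x
        generalize (∏ i ∈ Finset.range L, (1 + v i x * e (M + i) x)) = P at *
        generalize w (T.erase (M + L)) x = W at *
        linear_combination (u x * W * P * v L x) * this
      have hc1 : Continuous (fun x => (u x * w (T.erase (M + L)) x *
          ∏ i ∈ Finset.range L, (1 + v i x * e (M + i) x)) * e (M + L) x) :=
        ((hu.mul (continuous_w _)).mul hPc).mul (continuous_e _)
      have hc2 : Continuous (fun x => (u x * v L x) * w (T.erase (M + L)) x *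
              ∏ i ∈ Finset.range L, (1 + v i x * e (M + i) x)) :=
        ((hu.mul (hvc L)).mul (continuous_w _)).mul hPc
      simp only [e1]
      rw [integral_add (int_cont ν hc1) (int_cont ν hc2)]
      rw [int_odd ν (u := fun x => u x * w (T.erase (M + L)) x *
          ∏ i ∈ Finset.range L, (1 + v i x * e (M + i) x)) (M + L) ?_, zero_add]
      · rw [ih (fun j i hi => hvi j i (Nat.lt_succ_of_lt hi)) (fun x => u x * v L x)
          (hu.mul (hvc L)) (fun i hi x => by
            simp only [hui i (Nat.lt_succ_of_lt hi) x, hvi L i (Nat.lt_succ_of_lt hi) x])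
          (T.erase (M + L)) hT']
        congr 1
        funext x
        rw [Finset.range_add_one, Finset.filter_insert, if_pos hM, Finset.prod_insert (by simp)]
        rw [mul_assoc]
        congr 2
        refine Finset.prod_congr ?_ fun _ _ => rfl
        refine Finset.filter_congr fun i hi => ?_
        have hi' := Finset.mem_range.mp hi
        rw [Finset.mem_erase]
        constructor
        · exact fun h => h.2
        · exact fun h => ⟨by omega, h⟩
      · intro x
        rw [hP, hui L (Nat.lt_succ_self L), w_flip_not_mem _ _ (Finset.notMem_erase _ _)]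
    · have hT' : T ⊆ Finset.Ico M (M + L) := by
        intro i hi
        have h2 := Finset.mem_Ico.mp (hT hi)
        have h3 : i ≠ M + L := fun h => hM (h ▸ hi)
        exact Finset.mem_Ico.mpr ⟨h2.1, by omega⟩
      have e1 : ∀ x, u x * w T x * ∏ i ∈ Finset.range (L + 1), (1 + v i x * e (M + i) x)
          = (u x * w T x * (∏ i ∈ Finset.range L, (1 + v i x * e (M + i) x)) * v L x)
              * e (M + L) x
            + u x * w T x * ∏ i ∈ Finset.range L, (1 + v i x * e (M + i) x) := by
        intro x
        rw [Finset.prod_range_succ]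
        ring
      have hc1 : Continuous (fun x => (u x * w T x *
          (∏ i ∈ Finset.range L, (1 + v i x * e (M + i) x)) * v L x) * e (M + L) x) :=
        (((hu.mul (continuous_w _)).mul hPc).mul (hvc L)).mul (continuous_e _)
      have hc2 : Continuous (fun x => u x * w T x *
              ∏ i ∈ Finset.range L, (1 + v i x * e (M + i) x)) :=
        (hu.mul (continuous_w _)).mul hPc
      simp only [e1]
      rw [integral_add (int_cont ν hc1) (int_cont ν hc2)]
      rw [int_odd ν (u := fun x => u x * w T x *
          (∏ i ∈ Finset.range L, (1 + v i x * e (M + i) x)) * v L x) (M + L) ?_, zero_add]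
      · rw [ih (fun j i hi => hvi j i (Nat.lt_succ_of_lt hi)) u hu
          (fun i hi x => hui i (Nat.lt_succ_of_lt hi) x) T hT']
        congr 1
        funext x
        rw [Finset.range_add_one, Finset.filter_insert, if_neg hM]
      · intro x
        rw [hP, hui L (Nat.lt_succ_self L), w_flip_not_mem _ _ hM, hvi L L (Nat.lt_succ_self L)]

theorem one_block_unif (ν : Measure G) [IsProbabilityMeasure ν] [ν.IsMulLeftInvariant]
    (M L : ℕ) (u : G → ℝ) (hui : ∀ i, i < L → ∀ x, u (flip (M + i) * x) = u x)
    (T : Finset ℕ) (hT : T ⊆ Finset.Ico M (M + L)) (hne : T.Nonempty) :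
    ∫ x, u x * w T x ∂ν = 0 := by
  obtain ⟨k, hk⟩ := hne
  have hk' := Finset.mem_Ico.mp (hT hk)
  obtain ⟨j, rfl⟩ : ∃ j, k = M + j := ⟨k - M, by omega⟩
  have e1 : ∀ x, u x * w T x = (u x * w (T.erase (M + j)) x) * e (M + j) x := fun x => by
    rw [w_erase T (M + j) hk, mul_assoc]
  simp only [e1]
  refine int_odd ν (u := fun x => u x * w (T.erase (M + j)) x) (M + j) fun x => ?_
  rw [hui j (by omega), w_flip_not_mem _ _ (Finset.notMem_erase _ _)]

end WD
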