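import Pool.Agent.Helper348.AmComplete
import Pool.Agent.Helper348.AmFinal

set_option autoImplicit false

/-!
# `R_E` is a closed ideal consisting of quasi-regular elements
-/

open WD

namespace Am

variable {E : Set G}

lemma apply_closure {f : FA G} (h : f ∈ (JEi E).closure) {x : G} (hx : x ∈ E) : f x = 0 := by
  have h2 : ‖f x‖ ≤ 0 := by
    refine le_of_forall_pos_le_add fun ε hε => ?_
    rw [zero_add]
    exact Q_bound (JE_of_closure h ε hε) hx
  exact norm_le_zero_iff.1 h2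

lemma apply_le_norm_mk {x : G} (hx : x ∈ E) (f : FA G) : ‖f x‖ ≤ ‖mk E f‖ := by
  refine le_of_forall_pos_le_add fun ε hε => ?_
  obtain ⟨r, hr, hlt⟩ := Ideal.Quotient.norm_mk_lt (I := (JEi E).closure) (mk E f) hε
  have h1 : r - f ∈ (JEi E).closure := Ideal.Quotient.eq.1 hr
  have h2 : r x - f x = 0 := apply_closure h1 hx
  have h3 : f x = r x := by linear_combination -h2
  rw [h3]
  exact (norm_apply_le r.2 x).trans hlt.le

/-- evaluation at a point as a ring homomorphism -/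
noncomputable def evR (x : G) : FA G →+* ℂ where
  toFun f := f x
  map_one' := rfl
  map_mul' _ _ := rfl
  map_zero' := rfl
  map_add' _ _ := rfl

/-- the character of `A_E` given by a point of `E` -/
noncomputable def chi {x : G} (hx : x ∈ E) : AE E →+* ℂ :=
  Ideal.Quotient.lift ((JEi E).closure) (evR x) fun _ ha => apply_closure ha hx

lemma chi_mk {x : G} (hx : x ∈ E) (f : FA G) : chi hx (mk E f) = f x := rfl

lemma mk_surj (y : AE E) : ∃ f, mk E f = y := Ideal.Quotient.mk_surjective y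

lemma norm_chi {x : G} (hx : x ∈ E) (y : AE E) : ‖chi hx y‖ ≤ ‖y‖ := by
  obtain ⟨f, rfl⟩ := mk_surj y
  exact apply_le_norm_mk hx f

lemma chi_smul {x : G} (hx : x ∈ E) (k : ℂ) (y : AE E) : chi hx (k • y) = k * chi hx y := by
  obtain ⟨f, rfl⟩ := mk_surj y
  rfl

lemma continuous_chi {x : G} (hx : x ∈ E) : Continuous (chi hx) := by
  refine AddMonoidHomClass.continuous_of_bound (chi hx) 1 fun y => ?_
  rw [one_mul]
  exact norm_chi hx y

lemma mem_subRE_iff (y : AE E) : y ∈ subRE E ↔ ∀ (x : G) (hx : x ∈ E), chi hx y = 0 := by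
  constructor
  · rintro ⟨f, hf, rfl⟩ x hx
    exact hf x hx
  · intro h
    obtain ⟨f, rfl⟩ := mk_surj y
    exact ⟨f, fun x hx => h x hx, rfl⟩

lemma isClosed_subRE : IsClosed ((subRE E : NonUnitalSubalgebra ℂ (AE E)) : Set (AE E)) := by
  have h1 : ((subRE E : NonUnitalSubalgebra ℂ (AE E)) : Set (AE E)) =
      ⋂ (x : G) (hx : x ∈ E), {y | chi hx y = 0} := by
    ext y
    simp only [Set.mem_iInter, Set.mem_setOf_eq]
    exact mem_subRE_iff y
  rw [h1]
  exact isClosed_iInter fun x => isClosed_iInter fun hx =>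
    isClosed_eq (continuous_chi hx) continuous_const

instance complete_subRE : CompleteSpace (subRE E) :=
  (isClosed_subRE (E := E)).completeSpace_coe

lemma mul_mem_subRE (z : AE E) {y : AE E} (hy : y ∈ subRE E) : z * y ∈ subRE E := by
  rw [mem_subRE_iff] at hy ⊢
  intro x hx
  rw [map_mul, hy x hx, mul_zero]

lemma pow_add_bound {B : Type} [NormedCommRing B] (a b : B) (C s t : ℝ) (hC : 1 ≤ C)
    (hs : 0 ≤ s) (ht : 0 ≤ t) (ha : ∀ j, ‖a ^ j‖ ≤ C * s ^ j) (hb : ∀ j, ‖b ^ j‖ ≤ C * t ^ j)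
    (k : ℕ) : ‖(a + b) ^ k‖ ≤ C * C * (s + t) ^ k := by
  rw [add_pow, add_pow, Finset.mul_sum]
  refine norm_sum_le_of_le _ fun j _ => ?_
  have h1 : a ^ j * b ^ (k - j) * (k.choose j : B) = k.choose j • (a ^ j * b ^ (k - j)) := by
    rw [nsmul_eq_mul, mul_comm]
  rw [h1]
  refine (norm_nsmul_le).trans ?_
  have h2 : ‖a ^ j * b ^ (k - j)‖ ≤ (C * s ^ j) * (C * t ^ (k - j)) :=
    (norm_mul_le _ _).trans (mul_le_mul (ha j) (hb _) (norm_nonneg _) (by positivity))
  calc (k.choose j : ℝ) * ‖a ^ j * b ^ (k - j)‖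
      ≤ (k.choose j : ℝ) * ((C * s ^ j) * (C * t ^ (k - j))) :=
        mul_le_mul_of_nonneg_left h2 (by positivity)
    _ = C * C * (s ^ j * t ^ (k - j) * (k.choose j : ℝ)) := by ring

/-- elements of `R_E` have a power of norm less than one -/
lemma exists_pow_lt {y : AE E} (hy : y ∈ subRE E) : ∃ k : ℕ, ‖y ^ k‖ < 1 := by
  classical
  obtain ⟨f, hf, rfl⟩ := hy
  obtain ⟨c, hc⟩ := A_of_FA f
  obtain ⟨m, g, hg, hr⟩ := finite_part hc (show (0 : ℝ) < 1 / 8 by norm_num)
  set g' : G → ℂ := fun x => if ‖g x‖ ≤ 1 / 8 then g x else 0 with hg'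
  have hg'L : Lev m g' := by
    intro x y hxy
    simp only [hg', hg x y hxy]
  have hg'b : ∀ x, ‖g' x‖ ≤ 1 / 8 := by
    intro x
    simp only [hg']
    split_ifs with h
    · exact h
    · simp
  obtain ⟨d, hd⟩ := A_lev hg'L
  -- the classes of `g'` and of the remainder
  have hpow : ∀ (a : FA G) (j : ℕ) (x : G), (a ^ j : FA G) x = (a x) ^ j := by
    intro a j x
    exact map_pow (evR x) a j
  have h1 : mk E f = mk E (toFA g' hd + toFA _ hr) := by
    apply mk_eq
    refine ⟨{x | ‖g x‖ ≤ 1 / 8}, ?_, ?_, ?_⟩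
    · apply isOpen_of_lev (m := m)
      intro x y hxy
      show (‖g x‖ ≤ 1 / 8) = (‖g y‖ ≤ 1 / 8)
      rw [hg x y hxy]
    · intro x hx
      have h1 := R_bound hr x
      have h0 : f x = 0 := hf x hx
      simp only [h0, zero_sub, norm_neg] at h1
      exact h1
    · intro x hx
      have h3 : ‖g x‖ ≤ 1 / 8 := hx
      show f x - (g' x + (f x - g x)) = 0
      simp only [hg']
      rw [if_pos h3]
      ring
  have h2 : ∀ j, ‖(mk E (toFA g' hd)) ^ j‖ ≤ 2 ^ m * (1 / 8) ^ j := by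
    intro j
    rw [← map_pow]
    refine (norm_mk_le E _).trans ?_
    have h3 : R (2 ^ m * (1 / 8) ^ j) (fun x => (g' x) ^ j) := by
      apply R_lev (m := m)
      · intro x y hxy
        show g' x ^ j = g' y ^ j
        rw [hg'L x y hxy]
      · intro x
        rw [norm_pow]
        exact pow_le_pow_left₀ (norm_nonneg _) (hg'b x) j
    have h4 : (toFA g' hd) ^ j = toFA _ h3 := by
      apply Subtype.ext
      funext x
      exact hpow _ j x
    rw [h4]
    exact norm_toFA _ _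
  have h3 : ∀ j, ‖(mk E (toFA _ hr)) ^ j‖ ≤ 2 ^ m * (1 / 8) ^ j := by
    intro j
    have h4 : ‖(mk E (toFA _ hr))‖ ≤ 1 / 8 := (norm_mk_le E _).trans (norm_toFA _ _)
    have h6 : (1 : ℝ) ≤ 2 ^ m := one_le_pow₀ (by norm_num)
    rcases j with _ | j
    · rw [pow_zero, pow_zero, mul_one]
      have h5 : ‖(1 : AE E)‖ ≤ 1 := by
        have h7 : (1 : AE E) = mk E (toFA _ R_one) := rfl
        rw [h7]
        exact (norm_mk_le E _).trans (norm_toFA _ _)
      linarith
    · have h5 : ‖(mk E (toFA _ hr)) ^ (j + 1)‖ ≤ (1 / 8) ^ (j + 1) :=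
        (norm_pow_le' _ (Nat.succ_pos j)).trans (pow_le_pow_left₀ (norm_nonneg _) h4 _)
      have h7 : (0 : ℝ) ≤ (1 / 8) ^ (j + 1) := by positivity
      nlinarith
  refine ⟨2 * m + 1, ?_⟩
  have h4 := pow_add_bound (mk E (toFA g' hd)) (mk E (toFA _ hr)) (2 ^ m) (1 / 8) (1 / 8)
    (one_le_pow₀ (by norm_num)) (by norm_num) (by norm_num) h2 h3 (2 * m + 1)
  rw [← map_add, ← h1] at h4
  refine lt_of_le_of_lt h4 ?_
  have h5 : (2 : ℝ) ^ m * 2 ^ m * (1 / 8 + 1 / 8) ^ (2 * m + 1) = (1 / 4) ^ m * (1 / 4) := by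
    have h6 : (1 / 8 + 1 / 8 : ℝ) = 1 / 4 := by norm_num
    rw [h6, ← mul_pow, pow_succ, pow_mul, ← mul_assoc, ← mul_pow]
    norm_num
  rw [h5]
  have h6 : ((1 : ℝ) / 4) ^ m ≤ 1 := pow_le_one₀ (by norm_num) (by norm_num)
  linarith

lemma isUnit_one_add {y : AE E} (hy : y ∈ subRE E) : IsUnit (1 + y) := by
  obtain ⟨k, hk⟩ := exists_pow_lt hy
  have h1 : ‖(-y) ^ k‖ < 1 := by
    rw [neg_pow]
    rcases neg_one_pow_eq_or (AE E) k with h | h
    · rw [h, one_mul]; exact hk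
    · rw [h, neg_one_mul, norm_neg]; exact hk
  have h2 : IsUnit (1 - (-y) ^ k) := (Units.oneSub _ h1).isUnit
  have h3 : (1 + y) ∣ (1 - (-y) ^ k) := by
    have h4 := sub_dvd_pow_sub_pow (1 : AE E) (-y) k
    rw [one_pow, sub_neg_eq_add] at h4
    exact h4
  exact isUnit_of_dvd_unit h3 h2

/-- every element of `R_E` is quasi-regular in `R_E` -/
lemma exists_quasi {y : AE E} (hy : y ∈ subRE E) : ∃ z ∈ subRE E, y + z + y * z = 0 := by
  obtain ⟨u, hu⟩ := isUnit_one_add hy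
  refine ⟨-((↑u⁻¹ : AE E) * y), (subRE E).neg_mem (mul_mem_subRE _ hy), ?_⟩
  have h1 : (1 + y) * (↑u⁻¹ : AE E) = 1 := by rw [← hu]; exact u.mul_inv
  linear_combination -y * h1

end Am
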