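import Pool.Agent.Helper348.AmStep

set_option autoImplicit false

open MeasureTheory

namespace WD



theorem seqB (ν : Measure G) [IsProbabilityMeasure ν] [ν.IsMulLeftInvariant] :
    ∃ (m : ℕ → ℕ) (p : ℕ → G → ℝ) (s : Finset ℕ → ℝ) (h : ℕ → G → ℂ), StrictMono m ∧
      (∀ n, Lev (m n) (p n)) ∧ (∀ n x, p n x = 0 → p (n + 1) x = 0) ∧
      (∀ n S, |s S - ∫ x, p n x * w S x ∂ν| ≤ (1 / 2) ^ (n + 3)) ∧
      1 / 2 ≤ s ∅ ∧ (∀ S, |s S| ≤ 3 / 2) ∧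
      (∀ n, ∃ a : Finset ℕ → ℂ, Summable (fun S => ‖a S‖) ∧ (∑' S, ‖a S‖) ≤ 1 ∧
        (∀ x, h n x = ∑' S, a S * ((w S x : ℝ) : ℂ)) ∧ ‖a ∅‖ ≤ (1 / 2) ^ (n + 4) ∧
        ∀ S, a S ≠ 0 → S ≠ ∅ → ∃ i ∈ S, m n ≤ i) ∧
      (∀ n x, p (n + 1) x ≠ 0 → ‖h n x - 1 / 8‖ ≤ (1 / 2) ^ (n + 4)) ∧
      (∀ n (σ : G → ℝ), Lev (m n) σ → (∀ x, σ x = 1 ∨ σ x = -1) →
        ∃ F : G → ℂ, R 1 F ∧ ∀ x, p (n + 1) x ≠ 0 → ((σ x : ℝ) : ℂ) * h n x = F x) := by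
  classical
  have step := fun (n : ℕ) (q : {q : ℕ × (G → ℝ) // Lev q.1 q.2}) =>
    stepB ν q.1.1 q.1.2 q.2 ((1 / 2) ^ (n + 4)) (by positivity) (by
      have h1 : ((1:ℝ) / 2) ^ (n + 4) = (1 / 2) ^ n * (1 / 16) := by rw [pow_add]; norm_num
      have h2 : ((1:ℝ) / 2) ^ n ≤ 1 := pow_le_one₀ (by norm_num) (by norm_num)
      rw [h1]; linarith)
  choose m' p' h' H using step
  obtain ⟨Q, hQ0, hQs⟩ : ∃ Q : ℕ → {q : ℕ × (G → ℝ) // Lev q.1 q.2},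
      Q 0 = ⟨(0, fun _ => 1), fun _ _ _ => rfl⟩ ∧
      ∀ n, Q (n + 1) = ⟨(m' n (Q n), p' n (Q n)), (H n (Q n)).2.1⟩ :=
    ⟨fun n => Nat.rec ⟨(0, fun _ => 1), fun _ _ _ => rfl⟩
      (fun n q => ⟨(m' n q, p' n q), (H n q).2.1⟩) n, rfl, fun _ => rfl⟩
  have hm : ∀ n, (Q (n + 1)).1.1 = m' n (Q n) := fun n => by rw [hQs]
  have hp : ∀ n, (Q (n + 1)).1.2 = p' n (Q n) := fun n => by rw [hQs]
  have hdist : ∀ S n, dist (∫ x, (Q n).1.2 x * w S x ∂ν) (∫ x, (Q (n + 1)).1.2 x * w S x ∂ν) ≤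
      (1 / 16) * (1 / 2) ^ n := by
    intro S n
    rw [dist_comm, Real.dist_eq, hp]
    have h1 := (H n (Q n)).2.2.2.1 S
    have h2 : ((1:ℝ) / 2) ^ (n + 4) = (1 / 16) * (1 / 2) ^ n := by rw [pow_add]; norm_num; ring
    rw [← h2]
    exact h1
  have hlim : ∀ S, ∃ t : ℝ, Filter.Tendsto (fun n => ∫ x, (Q n).1.2 x * w S x ∂ν) Filter.atTop
      (nhds t) := by
    intro S
    exact cauchySeq_tendsto_of_complete
      (cauchySeq_of_le_geometric (1 / 2) (1 / 16) (by norm_num) (hdist S))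
  choose s hs using hlim
  have hsd : ∀ n S, |s S - ∫ x, (Q n).1.2 x * w S x ∂ν| ≤ (1 / 2) ^ (n + 3) := by
    intro n S
    have h1 := dist_le_of_le_geometric_of_tendsto (1 / 2) (1 / 16) (by norm_num) (hdist S) (hs S) n
    rw [dist_comm, Real.dist_eq] at h1
    refine h1.trans (le_of_eq ?_)
    rw [pow_add]
    ring
  have hQ02 : (Q 0).1.2 = fun _ => 1 := by rw [hQ0]
  refine ⟨fun n => (Q n).1.1, fun n => (Q n).1.2, s, fun n => h' n (Q n), ?_, fun n => (Q n).2,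
    ?_, hsd, ?_, ?_, ?_, ?_, ?_⟩
  · refine strictMono_nat_of_lt_succ fun n => ?_
    show (Q n).1.1 < (Q (n + 1)).1.1
    rw [hm]
    exact (H n (Q n)).1
  · intro n x hx
    show (Q (n + 1)).1.2 x = 0
    rw [hp]
    exact (H n (Q n)).2.2.1 x hx
  · have h1 := hsd 0 ∅
    rw [hQ02] at h1
    have h2 : ∫ x, (1:ℝ) * w ∅ x ∂ν = 1 := by
      have h3 : ∀ x : G, (1:ℝ) * w ∅ x = 1 := fun x => by simp [w]
      simp only [h3]
      simp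
    rw [h2, abs_le] at h1
    have := h1.1
    norm_num at this
    linarith
  · intro S
    have h1 := hsd 0 S
    rw [hQ02] at h1
    have h2 : |∫ x, (1:ℝ) * w S x ∂ν| ≤ 1 := by
      have h3 := norm_integral_le_of_norm_le_const (μ := ν) (f := fun x : G => (1:ℝ) * w S x)
        (C := 1) (Filter.Eventually.of_forall fun x => by
          rw [one_mul, Real.norm_eq_abs, abs_w])
      rw [Real.norm_eq_abs] at h3
      simpa using h3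
    have h4 : |s S| ≤ |s S - ∫ x, (1:ℝ) * w S x ∂ν| + |∫ x, (1:ℝ) * w S x ∂ν| := by
      calc |s S| = |(s S - ∫ x, (1:ℝ) * w S x ∂ν) + ∫ x, (1:ℝ) * w S x ∂ν| := by ring_nf
        _ ≤ _ := abs_add_le _ _
    have h5 : ((1:ℝ) / 2) ^ (0 + 3) = 1 / 8 := by norm_num
    rw [h5] at h1
    have h1' : |s S - ∫ x, (1:ℝ) * w S x ∂ν| ≤ 1 / 8 := h1
    linarith
  · intro n
    exact (H n (Q n)).2.2.2.2.1
  · intro n x hx
    change (Q (n + 1)).1.2 x ≠ 0 at hx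
    rw [hp] at hx
    exact (H n (Q n)).2.2.2.2.2.1 x hx
  · intro n σ h1 h2
    obtain ⟨F, hF1, hF2⟩ := (H n (Q n)).2.2.2.2.2.2 σ h1 h2
    refine ⟨F, hF1, fun x hx => ?_⟩
    change (Q (n + 1)).1.2 x ≠ 0 at hx
    rw [hp] at hx
    exact hF2 x hx

end WD
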