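import Mathlib

set_option autoImplicit false

namespace WD

noncomputable def wdA2 (lo hi : ℝ) (j : ℕ) : ℝ := lo + (hi - lo) / ((j : ℝ) + 1)

theorem wdA2_lo {lo hi : ℝ} (h : lo < hi) (j : ℕ) : lo ≤ wdA2 lo hi j := by
  unfold wdA2
  have : (0 : ℝ) ≤ (hi - lo) / ((j : ℝ) + 1) := by
    apply div_nonneg (by linarith) (by positivity)
  linarith

theorem wdA2_hi {lo hi : ℝ} (h : lo < hi) (j : ℕ) : wdA2 lo hi j ≤ hi := by
  unfold wdA2
  have hj : (0 : ℝ) ≤ (j : ℝ) := Nat.cast_nonneg j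
  have : (hi - lo) / ((j : ℝ) + 1) ≤ hi - lo := by
    apply div_le_self (by linarith)
    linarith
  linarith

theorem wdA2_inj {lo hi : ℝ} (h : lo < hi) {i j : ℕ} (hij : i < j) :
    wdA2 lo hi j - wdA2 lo hi i ≠ 0 := by
  unfold wdA2
  have hi' : (0 : ℝ) ≤ (i : ℝ) := Nat.cast_nonneg i
  have hij' : (i : ℝ) < (j : ℝ) := by exact_mod_cast hij
  have : (hi - lo) / ((j : ℝ) + 1) < (hi - lo) / ((i : ℝ) + 1) := by
    apply div_lt_div_of_pos_left
    · linarith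
    · linarith
    · linarith
  intro h0
  linarith

noncomputable def wdC2 (lo hi : ℝ) : ℕ → ℕ → ℝ
  | 0, _ => 1
  | M + 1, j => if j ≤ M then wdC2 lo hi M j * wdA2 lo hi (M + 1) / (wdA2 lo hi (M + 1) - wdA2 lo hi j)
      else 1 - ∑ i ∈ Finset.range (M + 1), wdC2 lo hi M i * wdA2 lo hi (M + 1) / (wdA2 lo hi (M + 1) - wdA2 lo hi i)

noncomputable def wdE2 (lo hi : ℝ) (M r : ℕ) : ℝ :=
  ∑ j ∈ Finset.range (M + 1), wdC2 lo hi M j * wdA2 lo hi j ^ r

theorem wdE2_zero (lo hi : ℝ) (M : ℕ) : wdE2 lo hi M 0 = 1 := by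
  cases M with
  | zero => simp [wdE2, wdC2]
  | succ M =>
    unfold wdE2
    rw [Finset.sum_range_succ]
    have h1 : wdC2 lo hi (M + 1) (M + 1) = 1 - ∑ i ∈ Finset.range (M + 1),
        wdC2 lo hi M i * wdA2 lo hi (M + 1) / (wdA2 lo hi (M + 1) - wdA2 lo hi i) := by
      rw [wdC2, if_neg (by omega)]
    have h2 : ∑ x ∈ Finset.range (M + 1), wdC2 lo hi (M + 1) x * wdA2 lo hi x ^ 0 =
        ∑ i ∈ Finset.range (M + 1), wdC2 lo hi M i * wdA2 lo hi (M + 1) / (wdA2 lo hi (M + 1) - wdA2 lo hi i) := by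
      apply Finset.sum_congr rfl
      intro x hx
      rw [Finset.mem_range] at hx
      rw [wdC2, if_pos (by omega)]
      ring
    rw [h1, h2]
    ring

theorem wdE2_succ {lo hi : ℝ} (h : lo < hi) (M r : ℕ) :
    wdE2 lo hi (M + 1) (r + 1) = wdA2 lo hi (M + 1) * (wdE2 lo hi (M + 1) r - wdE2 lo hi M r) := by
  have key : wdA2 lo hi (M + 1) * wdE2 lo hi (M + 1) r - wdE2 lo hi (M + 1) (r + 1) =
      wdA2 lo hi (M + 1) * wdE2 lo hi M r := by
    unfold wdE2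
    rw [Finset.mul_sum, Finset.mul_sum, ← Finset.sum_sub_distrib, Finset.sum_range_succ]
    have h0 : wdA2 lo hi (M + 1) * (wdC2 lo hi (M + 1) (M + 1) * wdA2 lo hi (M + 1) ^ r) -
        wdC2 lo hi (M + 1) (M + 1) * wdA2 lo hi (M + 1) ^ (r + 1) = 0 := by ring
    rw [h0, add_zero]
    apply Finset.sum_congr rfl
    intro x hx
    rw [Finset.mem_range] at hx
    have h1 : wdC2 lo hi (M + 1) x = wdC2 lo hi M x * wdA2 lo hi (M + 1) / (wdA2 lo hi (M + 1) - wdA2 lo hi x) := by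
      rw [wdC2, if_pos (by omega)]
    have h2 : wdA2 lo hi (M + 1) - wdA2 lo hi x ≠ 0 := wdA2_inj h (by omega)
    rw [h1]
    field_simp
    ring
  linarith

theorem wdE2_bound {lo hi : ℝ} (hlo : 0 < lo) (h : lo < hi) (hhi : hi ≤ 1 / 4) (M : ℕ) :
    ∀ r : ℕ, 1 ≤ r → |wdE2 lo hi M r| ≤ (1 / 2) ^ M := by
  induction M with
  | zero =>
    intro r _
    have h1 : wdE2 lo hi 0 r = wdA2 lo hi 0 ^ r := by
      simp [wdE2, wdC2]
    rw [h1, pow_zero, abs_of_nonneg (pow_nonneg (by linarith [wdA2_lo h 0]) r)]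
    exact pow_le_one₀ (by linarith [wdA2_lo h 0]) (by linarith [wdA2_hi h 0])
  | succ M ih =>
    intro r hr
    induction r with
    | zero => omega
    | succ r ihr =>
      rw [wdE2_succ h, abs_mul, abs_of_nonneg (by linarith [wdA2_lo h (M + 1)] : (0 : ℝ) ≤ wdA2 lo hi (M + 1))]
      rcases Nat.eq_zero_or_pos r with h0 | h0
      · subst h0
        rw [wdE2_zero, wdE2_zero, sub_self, abs_zero, mul_zero]
        positivity
      · have e1 := ihr h0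
        have e2 := ih r h0
        have e3 : |wdE2 lo hi (M + 1) r - wdE2 lo hi M r| ≤ |wdE2 lo hi (M + 1) r| + |wdE2 lo hi M r| := abs_sub _ _
        have e4 : (0 : ℝ) ≤ |wdE2 lo hi (M + 1) r - wdE2 lo hi M r| := abs_nonneg _
        have e5 := wdA2_hi h (M + 1)
        have e6 : wdA2 lo hi (M + 1) * |wdE2 lo hi (M + 1) r - wdE2 lo hi M r| ≤
            1 / 4 * |wdE2 lo hi (M + 1) r - wdE2 lo hi M r| := mul_le_mul_of_nonneg_right (by linarith) e4
        have e7 : ((1 : ℝ) / 2) ^ (M + 1) = (1 / 2) ^ M * (1 / 2) := pow_succ _ _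
        have e8 : (0 : ℝ) ≤ (1 / 2) ^ M := by positivity
        rw [e7] at e1 ⊢
        nlinarith

theorem moment_interval (lo hi : ℝ) (h0 : 0 < lo) (h1 : lo < hi) (h2 : hi ≤ 1 / 4) (M : ℕ) :
    ∃ (a c : Fin (M + 1) → ℝ), (∀ j, lo ≤ a j ∧ a j ≤ hi) ∧
    ∑ j, c j = 1 ∧ ∀ r : ℕ, 1 ≤ r → |∑ j, c j * a j ^ r| ≤ (1 / 2) ^ M := by
  refine ⟨fun j => wdA2 lo hi j, fun j => wdC2 lo hi M j, fun j => ⟨wdA2_lo h1 _, wdA2_hi h1 _⟩, ?_, ?_⟩
  · have h := wdE2_zero lo hi M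
    unfold wdE2 at h
    rw [Finset.sum_range] at h
    simpa using h
  · intro r hr
    have h := wdE2_bound h0 h1 h2 M r hr
    unfold wdE2 at h
    rw [Finset.sum_range] at h
    exact h

end WD
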