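import Pool.Agent.Helper348.WDBase

set_option autoImplicit false

open MeasureTheory

namespace WD

theorem w_ite (S A : Finset ℕ) (h : S ⊆ A) (x : G) :
    w S x = ∏ i ∈ A, if i ∈ S then e i x else 1 := by
  rw [Finset.prod_ite_mem, Finset.inter_eq_right.2 h]
  rfl

theorem w_symm (S T : Finset ℕ) (x : G) : w (symmDiff S T) x = w S x * w T x := by
  have h1 : symmDiff S T ⊆ S ∪ T := by
    intro i hi
    rw [Finset.mem_symmDiff] at hi
    rw [Finset.mem_union]
    tauto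
  rw [w_ite (symmDiff S T) (S ∪ T) h1, w_ite S (S ∪ T) Finset.subset_union_left,
    w_ite T (S ∪ T) Finset.subset_union_right, ← Finset.prod_mul_distrib]
  apply Finset.prod_congr rfl
  intro i _
  by_cases hS : i ∈ S <;> by_cases hT : i ∈ T <;>
    simp [Finset.mem_symmDiff, hS, hT, e_mul_self]

/-- the reindexing -/
def EQ : Finset ℕ × Finset ℕ ≃ Finset ℕ × Finset ℕ where
  toFun p := (symmDiff p.1 p.2, p.2)
  invFun p := (symmDiff p.1 p.2, p.2)
  left_inv p := by
    ext1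
    · exact symmDiff_symmDiff_cancel_right p.2 p.1
    · rfl
  right_inv p := by
    ext1
    · exact symmDiff_symmDiff_cancel_right p.2 p.1
    · rfl

theorem norm_w (S : Finset ℕ) (x : G) : ‖((w S x : ℝ) : ℂ)‖ = 1 := by
  rw [Complex.norm_real, Real.norm_eq_abs, abs_w]

theorem R_mul {c d : ℝ} {f g : G → ℂ} (hf : R c f) (hg : R d g) :
    R (c * d) (fun x => f x * g x) := by
  obtain ⟨a, ha, hac, hfa⟩ := hf
  obtain ⟨b, hb, hbd, hgb⟩ := hg
  have hΦ : Summable (fun p : Finset ℕ × Finset ℕ => ‖a p.1 * b p.2‖) := ha.mul_norm hb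
  have hF : Summable (fun p : Finset ℕ × Finset ℕ => ‖a (symmDiff p.1 p.2) * b p.2‖) :=
    (EQ.summable_iff (f := fun p : Finset ℕ × Finset ℕ => ‖a p.1 * b p.2‖)).2 hΦ
  have hFU : ∀ U, Summable (fun T => ‖a (symmDiff U T) * b T‖) := fun U => hF.prod_factor U
  have hle : ∀ U, ‖∑' T, a (symmDiff U T) * b T‖ ≤ ∑' T, ‖a (symmDiff U T) * b T‖ :=
    fun U => norm_tsum_le_tsum_norm (hFU U)
  have hS : Summable (fun U => ∑' T, ‖a (symmDiff U T) * b T‖) := hF.prod
  have hS2 : Summable (fun U => ‖∑' T, a (symmDiff U T) * b T‖) :=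
    Summable.of_nonneg_of_le (fun _ => norm_nonneg _) hle hS
  refine ⟨fun U => ∑' T, a (symmDiff U T) * b T, hS2, ?_, ?_⟩
  · calc ∑' U, ‖∑' T, a (symmDiff U T) * b T‖
        ≤ ∑' U, ∑' T, ‖a (symmDiff U T) * b T‖ := hS2.tsum_le_tsum hle hS
      _ = ∑' p : Finset ℕ × Finset ℕ, ‖a (symmDiff p.1 p.2) * b p.2‖ := (hF.tsum_prod).symm
      _ = ∑' p : Finset ℕ × Finset ℕ, ‖a p.1 * b p.2‖ :=
          EQ.tsum_eq (fun p : Finset ℕ × Finset ℕ => ‖a p.1 * b p.2‖)
      _ = ∑' p : Finset ℕ × Finset ℕ, ‖a p.1‖ * ‖b p.2‖ := by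
          congr 1
          funext p
          rw [norm_mul]
      _ = (∑' S, ‖a S‖) * ∑' T, ‖b T‖ := by
          have h1 : Summable (fun p : Finset ℕ × Finset ℕ => ‖a p.1‖ * ‖b p.2‖) := by
            refine hΦ.congr ?_
            intro p
            rw [norm_mul]
          exact (ha.tsum_mul_tsum hb h1).symm
      _ ≤ c * d := by
          have h0 : 0 ≤ ∑' S, ‖a S‖ := tsum_nonneg (fun _ => norm_nonneg _)
          have h1 : 0 ≤ ∑' S, ‖b S‖ := tsum_nonneg (fun _ => norm_nonneg _)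
          exact mul_le_mul hac hbd h1 (h0.trans hac)
  · intro x
    have ha' : Summable (fun S => ‖a S * ((w S x : ℝ) : ℂ)‖) := by
      refine ha.congr ?_
      intro S
      rw [norm_mul, norm_w, mul_one]
    have hb' : Summable (fun S => ‖b S * ((w S x : ℝ) : ℂ)‖) := by
      refine hb.congr ?_
      intro S
      rw [norm_mul, norm_w, mul_one]
    have hF' : Summable (fun p : Finset ℕ × Finset ℕ =>
        a (symmDiff p.1 p.2) * b p.2 * ((w p.1 x : ℝ) : ℂ)) := by
      apply Summable.of_norm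
      refine hF.congr ?_
      intro p
      rw [norm_mul (a (symmDiff p.1 p.2) * b p.2), norm_w, mul_one]
    change f x * g x = _
    rw [hfa, hgb]
    calc (∑' S, a S * ((w S x : ℝ) : ℂ)) * ∑' T, b T * ((w T x : ℝ) : ℂ)
        = ∑' p : Finset ℕ × Finset ℕ, (a p.1 * ((w p.1 x : ℝ) : ℂ)) * (b p.2 * ((w p.2 x : ℝ) : ℂ)) :=
          tsum_mul_tsum_of_summable_norm ha' hb'
      _ = ∑' p : Finset ℕ × Finset ℕ, (a (EQ p).1 * ((w (EQ p).1 x : ℝ) : ℂ)) *
            (b (EQ p).2 * ((w (EQ p).2 x : ℝ) : ℂ)) :=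
          (EQ.tsum_eq (fun p : Finset ℕ × Finset ℕ =>
            (a p.1 * ((w p.1 x : ℝ) : ℂ)) * (b p.2 * ((w p.2 x : ℝ) : ℂ)))).symm
      _ = ∑' p : Finset ℕ × Finset ℕ, a (symmDiff p.1 p.2) * b p.2 * ((w p.1 x : ℝ) : ℂ) := by
          congr 1
          funext p
          change (a (symmDiff p.1 p.2) * ((w (symmDiff p.1 p.2) x : ℝ) : ℂ)) *
            (b p.2 * ((w p.2 x : ℝ) : ℂ)) = _
          have h2 : w (symmDiff p.1 p.2) x * w p.2 x = w p.1 x := by
            rw [← w_symm, symmDiff_symmDiff_cancel_right]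
          have h3 : ((w (symmDiff p.1 p.2) x : ℝ) : ℂ) * ((w p.2 x : ℝ) : ℂ)
              = ((w p.1 x : ℝ) : ℂ) := by
            rw [← Complex.ofReal_mul, h2]
          rw [← h3]
          ring
      _ = ∑' U, ∑' T, a (symmDiff U T) * b T * ((w U x : ℝ) : ℂ) := hF'.tsum_prod
      _ = ∑' U, (∑' T, a (symmDiff U T) * b T) * ((w U x : ℝ) : ℂ) := by
          congr 1
          funext U
          rw [tsum_mul_right]


end WD
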