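import Pool.Agent.Helper348.AmVar
import Pool.Agent.Helper348.WDMoment2
import Pool.Agent.Helper348.WDMul

set_option autoImplicit false

open MeasureTheory

namespace WD




/-! ### auxiliary lemmas -/

theorem sb_signs (m : ℕ) : ∃ (l : ℕ) (s : ℕ → G → ℝ), (∀ j, Lev m (s j)) ∧
    (∀ j x, s j x = 1 ∨ s j x = -1) ∧
    ∀ σ : G → ℝ, Lev m σ → (∀ x, σ x = 1 ∨ σ x = -1) → ∃ j < l, σ = s j := by
  classical
  obtain ⟨φ, hφ⟩ : ∃ φ : ((Fin m → ℤˣ) → Bool) → G → ℝ,
      φ = fun τ x => if τ (fun i => x i) = true then 1 else -1 := ⟨_, rfl⟩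
  have hφL : ∀ τ, Lev m (φ τ) := by
    intro τ x y hxy
    have e : (fun i : Fin m => x i) = fun i : Fin m => y i := by
      funext i
      exact hxy i i.2
    rw [hφ]
    simp only [e]
  have hφ1 : ∀ τ x, φ τ x = 1 ∨ φ τ x = -1 := by
    intro τ x
    rw [hφ]
    by_cases h : τ (fun i => x i) = true
    · left; simp only [h, if_true]
    · right; simp only [h]; simp
  obtain ⟨E⟩ : Nonempty (((Fin m → ℤˣ) → Bool) ≃ Fin (Fintype.card ((Fin m → ℤˣ) → Bool))) :=
    ⟨Fintype.equivFin _⟩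
  refine ⟨Fintype.card ((Fin m → ℤˣ) → Bool), fun j =>
    if h : j < Fintype.card ((Fin m → ℤˣ) → Bool) then φ (E.symm ⟨j, h⟩) else fun _ => 1,
    fun j => ?_, fun j x => ?_, fun σ hσ hσ1 => ?_⟩
  · by_cases h : j < Fintype.card ((Fin m → ℤˣ) → Bool)
    · simp only [h, dif_pos]
      exact hφL _
    · simp only [h, dif_neg, not_false_eq_true]
      intro x y _
      rfl
  · by_cases h : j < Fintype.card ((Fin m → ℤˣ) → Bool)
    · simp only [h, dif_pos]
      exact hφ1 _ x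
    · simp only [h, dif_neg, not_false_eq_true]
      exact Or.inl trivial
  · obtain ⟨ext, hext⟩ : ∃ ext : (Fin m → ℤˣ) → G,
        ext = fun y i => if h : i < m then y ⟨i, h⟩ else 1 := ⟨_, rfl⟩
    obtain ⟨τ, hτ⟩ : ∃ τ : (Fin m → ℤˣ) → Bool, τ = fun y => decide (σ (ext y) = 1) := ⟨_, rfl⟩
    have hσe : ∀ x : G, σ (ext (fun i => x i)) = σ x := by
      intro x
      apply hσ
      intro i hi
      rw [hext]
      simp only [hi, dif_pos]
    have hστ : σ = φ τ := by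
      funext x
      rw [hφ, hτ]
      simp only [hσe, decide_eq_true_eq]
      rcases hσ1 x with h | h
      · rw [h, if_pos rfl]
      · rw [h, if_neg (by norm_num)]
    refine ⟨E τ, (E τ).2, ?_⟩
    beta_reduce
    rw [dif_pos (E τ).2, hστ]
    congr 1
    exact (E.symm_apply_apply τ).symm

theorem sb_coeff {ι : Type} (s : Finset ι) (b : ℝ) (hb : 0 ≤ b)
    (hbs : (s.card : ℝ) * b ≤ 1) (Sf : ι → Finset ℕ) :
    ∃ a : Finset ℕ → ℂ, Summable (fun S => ‖a S‖) ∧ (∑' S, ‖a S‖) ≤ 1 ∧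
      (∀ x, ((∑ i ∈ s, b * w (Sf i) x : ℝ) : ℂ) = ∑' S, a S * ((w S x : ℝ) : ℂ)) ∧
      ∀ S, a S = ((((s.filter (fun i => Sf i = S)).card : ℝ) * b : ℝ) : ℂ) := by
  classical
  obtain ⟨a, ha⟩ : ∃ a : Finset ℕ → ℂ,
      a = fun S => ((((s.filter (fun i => Sf i = S)).card : ℝ) * b : ℝ) : ℂ) := ⟨_, rfl⟩
  have haS : ∀ S, a S = ((((s.filter (fun i => Sf i = S)).card : ℝ) * b : ℝ) : ℂ) := by
    intro S; rw [ha]
  have hzero : ∀ S ∉ s.image Sf, a S = 0 := by
    intro S hS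
    have h1 : s.filter (fun i => Sf i = S) = ∅ := by
      apply Finset.filter_eq_empty_iff.2
      intro i hi hiS
      exact hS (hiS ▸ Finset.mem_image_of_mem Sf hi)
    rw [haS, h1]
    simp
  have hnorm : ∀ S, ‖a S‖ = ((s.filter (fun i => Sf i = S)).card : ℝ) * b := by
    intro S
    rw [haS, Complex.norm_real, Real.norm_eq_abs, abs_of_nonneg (by positivity)]
  have hmaps : ∀ i ∈ s, Sf i ∈ s.image Sf := fun i hi => Finset.mem_image_of_mem Sf hi
  refine ⟨a, ?_, ?_, ?_, haS⟩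
  · exact summable_of_ne_finset_zero (s := s.image Sf) (fun S hS => by rw [hzero S hS, norm_zero])
  · rw [tsum_eq_sum (s := s.image Sf) (fun S hS => by rw [hzero S hS, norm_zero])]
    have h1 : ∑ S ∈ s.image Sf, ‖a S‖ = ∑ S ∈ s.image Sf, ∑ i ∈ s with Sf i = S, b := by
      refine Finset.sum_congr rfl fun S _ => ?_
      rw [hnorm, Finset.sum_const, nsmul_eq_mul]
    rw [h1, Finset.sum_fiberwise_of_maps_to hmaps, Finset.sum_const, nsmul_eq_mul]
    exact hbs
  · intro x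
    rw [tsum_eq_sum (s := s.image Sf) (fun S hS => by rw [hzero S hS, zero_mul])]
    have h1 : ∑ S ∈ s.image Sf, a S * ((w S x : ℝ) : ℂ) =
        ((∑ S ∈ s.image Sf, ∑ i ∈ s with Sf i = S, b * w S x : ℝ) : ℂ) := by
      rw [Complex.ofReal_sum]
      refine Finset.sum_congr rfl fun S _ => ?_
      rw [haS, Finset.sum_const, nsmul_eq_mul]
      push_cast
      ring
    rw [h1, Finset.sum_fiberwise_of_maps_to' hmaps (fun S => b * w S x)]

theorem sb_fl01 (M t : ℕ) (x : G) : fl M t x = 0 ∨ fl M t x = 1 := by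
  unfold fl
  induction t with
  | zero => right; simp
  | succ t ih =>
    rw [Finset.prod_range_succ]
    rcases ih with h | h
    · left; rw [h, zero_mul]
    · rw [h, one_mul]
      rcases e_eq (M + t) x with h | h
      · right; rw [h]; norm_num
      · left; rw [h]; norm_num

theorem sb_ve {v : ℕ → G → ℝ} (hv1 : ∀ i x, v i x = 1 ∨ v i x = -1) (i j : ℕ) (x : G) :
    (v i x * e j x = 1 ∧ e j x = v i x) ∨ (v i x * e j x = -1 ∧ e j x ≠ v i x) := by
  rcases hv1 i x with h | h <;> rcases e_eq j x with h' | h' <;> rw [h, h'] <;> norm_num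

theorem sb_pr {v : ℕ → G → ℝ} (hv1 : ∀ i x, v i x = 1 ∨ v i x = -1) (M L : ℕ) (x : G) :
    0 ≤ 1 - ∏ i ∈ Finset.range L, ((1 + v i x * e (M + i) x) / 2) ∧
    ((∃ i < L, e (M + i) x ≠ v i x) →
      ∏ i ∈ Finset.range L, ((1 + v i x * e (M + i) x) / 2) = 0) := by
  constructor
  · have h : ∏ i ∈ Finset.range L, ((1 + v i x * e (M + i) x) / 2) ≤ 1 := by
      refine Finset.prod_le_one (fun i _ => ?_) (fun i _ => ?_)
      · rcases sb_ve hv1 i (M + i) x with ⟨h, _⟩ | ⟨h, _⟩ <;> rw [h] <;> norm_num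
      · rcases sb_ve hv1 i (M + i) x with ⟨h, _⟩ | ⟨h, _⟩ <;> rw [h] <;> norm_num
    linarith
  · rintro ⟨i, hi, hne⟩
    apply Finset.prod_eq_zero (Finset.mem_range.2 hi)
    rcases sb_ve hv1 i (M + i) x with ⟨_, h⟩ | ⟨h, _⟩
    · exact absurd h hne
    · rw [h]; norm_num

theorem sb_DB_nonneg {v : ℕ → G → ℝ} (hv1 : ∀ i x, v i x = 1 ∨ v i x = -1) (m L N : ℕ)
    {a : ℝ} (ha0 : 0 ≤ a) (ha1 : a ≤ 1) (x : G) : 0 ≤ DB m L N v a x := by
  unfold DB
  refine Finset.prod_nonneg fun k _ => ?_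
  unfold Bk
  have h : 0 ≤ ∏ i ∈ Finset.range L, (1 + v i x * e (m + k * L + i) x) := by
    refine Finset.prod_nonneg fun i _ => ?_
    rcases sb_ve hv1 i (m + k * L + i) x with ⟨h, _⟩ | ⟨h, _⟩ <;> rw [h] <;> norm_num
  have := mul_nonneg ha0 h
  linarith

/-- the bad-set majorant -/
noncomputable def sbQ (m L N t : ℕ) (v : ℕ → G → ℝ) (ε a : ℝ) (x : G) : ℝ :=
  4 / ((N : ℝ) ^ 2 * ε ^ 2) *
    (∑ k ∈ Finset.range N, (fl (m + k * L) t x - (a + (1 - a) * (1 / 2) ^ t))) ^ 2 +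
  ∑ k ∈ Finset.range N, fl (m + k * L) t x *
        (1 - ∏ i ∈ Finset.range L, ((1 + v i x * e (m + k * L + i) x) / 2))

/-- average of the flags -/
noncomputable def sbh (m L N t : ℕ) (x : G) : ℝ :=
  (1 / (N : ℝ)) * ∑ k ∈ Finset.range N, fl (m + k * L) t x

def sbG (m L N t : ℕ) (v : ℕ → G → ℝ) (ε : ℝ) (x : G) : Prop :=
  |sbh m L N t x - 1 / 8| ≤ ε ∧
    ∀ k < N, fl (m + k * L) t x = 1 → ∀ i < L, e (m + k * L + i) x = v i x

theorem sbQ_nonneg {v : ℕ → G → ℝ} (hv1 : ∀ i x, v i x = 1 ∨ v i x = -1) (m L N t : ℕ)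
    (ε a : ℝ) (x : G) : 0 ≤ sbQ m L N t v ε a x ∧
      0 ≤ ∑ k ∈ Finset.range N, fl (m + k * L) t x *
        (1 - ∏ i ∈ Finset.range L, ((1 + v i x * e (m + k * L + i) x) / 2)) := by
  have h : 0 ≤ ∑ k ∈ Finset.range N, fl (m + k * L) t x *
        (1 - ∏ i ∈ Finset.range L, ((1 + v i x * e (m + k * L + i) x) / 2)) := by
    refine Finset.sum_nonneg fun k _ => mul_nonneg ?_ (sb_pr hv1 _ _ _).1
    rcases sb_fl01 (m + k * L) t x with h | h <;> rw [h]; norm_num
  refine ⟨?_, h⟩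
  unfold sbQ
  have : 0 ≤ 4 / ((N : ℝ) ^ 2 * ε ^ 2) *
    (∑ k ∈ Finset.range N, (fl (m + k * L) t x - (a + (1 - a) * (1 / 2) ^ t))) ^ 2 := by
    positivity
  linarith

theorem sb_bad {v : ℕ → G → ℝ} (hv1 : ∀ i x, v i x = 1 ∨ v i x = -1) {m L N t : ℕ}
    (hN : 1 ≤ N) {ε a : ℝ} (hε : 0 < ε) (ha : |a + (1 - a) * (1 / 2) ^ t - 1 / 8| ≤ ε / 2) (x : G)
    (hbad : ¬ sbG m L N t v ε x) : 1 ≤ sbQ m L N t v ε a x := by
  obtain ⟨a2, ha2⟩ : ∃ a2, a2 = a + (1 - a) * (1 / 2) ^ t := ⟨_, rfl⟩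
  have hNr : (1 : ℝ) ≤ N := by exact_mod_cast hN
  have hN0 : (0 : ℝ) < N := by linarith
  obtain ⟨_, hsn⟩ := sbQ_nonneg hv1 m L N t ε a x
  by_cases h1 : |sbh m L N t x - 1 / 8| ≤ ε
  · have h2 : ∃ k < N, fl (m + k * L) t x = 1 ∧ ∃ i < L, e (m + k * L + i) x ≠ v i x := by
      by_contra hcon
      apply hbad
      refine ⟨h1, fun k hk hf i hi => ?_⟩
      by_contra hne
      exact hcon ⟨k, hk, hf, i, hi, hne⟩
    obtain ⟨k, hk, hf, hi⟩ := h2
    have h3 : 1 ≤ ∑ k ∈ Finset.range N, fl (m + k * L) t x *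
        (1 - ∏ i ∈ Finset.range L, ((1 + v i x * e (m + k * L + i) x) / 2)) := by
      have h4 := Finset.single_le_sum (f := fun k => fl (m + k * L) t x *
        (1 - ∏ i ∈ Finset.range L, ((1 + v i x * e (m + k * L + i) x) / 2)))
        (s := Finset.range N) (fun k _ => by
          refine mul_nonneg ?_ (sb_pr hv1 _ _ _).1
          rcases sb_fl01 (m + k * L) t x with h | h <;> rw [h]; norm_num) (Finset.mem_range.2 hk)
      beta_reduce at h4
      rw [hf, (sb_pr hv1 (m + k * L) L x).2 hi] at h4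
      linarith
    unfold sbQ
    have : 0 ≤ 4 / ((N : ℝ) ^ 2 * ε ^ 2) *
      (∑ k ∈ Finset.range N, (fl (m + k * L) t x - (a + (1 - a) * (1 / 2) ^ t))) ^ 2 := by
      positivity
    linarith
  · push Not at h1
    unfold sbQ
    rw [← ha2] at ha ⊢
    have e1 : ∑ k ∈ Finset.range N, (fl (m + k * L) t x - a2) =
        N * (sbh m L N t x - a2) := by
      rw [Finset.sum_sub_distrib, Finset.sum_const, Finset.card_range, nsmul_eq_mul]
      unfold sbh
      field_simp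
    rw [e1]
    have h2 : ε / 2 ≤ |sbh m L N t x - a2| := by
      have h3 : |sbh m L N t x - 1 / 8| ≤ |sbh m L N t x - a2| + |a2 - 1 / 8| := by
        have e : sbh m L N t x - 1 / 8 = (sbh m L N t x - a2) + (a2 - 1 / 8) := by ring
        rw [e]
        exact abs_add_le _ _
      linarith
    have h3 : (ε / 2) ^ 2 ≤ (sbh m L N t x - a2) ^ 2 := by
      rw [← sq_abs (sbh m L N t x - a2)]
      exact pow_le_pow_left₀ (by positivity) h2 2
    have h4 : 1 ≤ 4 / ((N : ℝ) ^ 2 * ε ^ 2) * (N * (sbh m L N t x - a2)) ^ 2 := by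
      have e2 : 4 / ((N : ℝ) ^ 2 * ε ^ 2) * (N * (sbh m L N t x - a2)) ^ 2 =
          4 / ε ^ 2 * (sbh m L N t x - a2) ^ 2 := by
        field_simp
      rw [e2]
      calc (1 : ℝ) = 4 / ε ^ 2 * (ε / 2) ^ 2 := by field_simp; norm_num
        _ ≤ 4 / ε ^ 2 * (sbh m L N t x - a2) ^ 2 := by gcongr
    linarith

theorem sb_cont_fl (M t : ℕ) : Continuous (fl M t) := by
  unfold fl
  exact continuous_finsetProd _ fun i _ => (continuous_const.add (continuous_e _)).div_const _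

theorem sb_cont_DB {v : ℕ → G → ℝ} (hvc : ∀ i, Continuous (v i)) (m L N : ℕ) (a : ℝ) :
    Continuous (DB m L N v a) := by
  unfold DB
  refine continuous_finsetProd _ fun k _ => ?_
  unfold Bk
  exact continuous_const.add (continuous_const.mul (continuous_finsetProd _ fun i _ =>
    continuous_const.add ((hvc i).mul (continuous_e _))))

theorem sb_cont_q1 (m L N t : ℕ) (a2 : ℝ) :
    Continuous fun x => (∑ k ∈ Finset.range N, (fl (m + k * L) t x - a2)) ^ 2 :=
  (continuous_finsetSum _ fun k _ => (sb_cont_fl _ _).sub continuous_const).pow 2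

theorem sb_cont_q2 {v : ℕ → G → ℝ} (hvc : ∀ i, Continuous (v i)) (m L N t : ℕ) :
    Continuous fun x => ∑ k ∈ Finset.range N, fl (m + k * L) t x *
        (1 - ∏ i ∈ Finset.range L, ((1 + v i x * e (m + k * L + i) x) / 2)) :=
  continuous_finsetSum _ fun k _ => (sb_cont_fl _ _).mul (continuous_const.sub
    (continuous_finsetProd _ fun i _ =>
      (continuous_const.add ((hvc i).mul (continuous_e _))).div_const _))

theorem sb_cont_Q {v : ℕ → G → ℝ} (hvc : ∀ i, Continuous (v i)) (m L N t : ℕ) (ε a : ℝ) :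
    Continuous (sbQ m L N t v ε a) := by
  unfold sbQ
  exact (continuous_const.mul (sb_cont_q1 m L N t _)).add (sb_cont_q2 hvc m L N t)

theorem sb_int_bad (ν : Measure G) [IsProbabilityMeasure ν] [ν.IsMulLeftInvariant]
    (m L N t : ℕ) (htL : t ≤ L) (hN : 1 ≤ N) (v : ℕ → G → ℝ) (hv : ∀ i, Lev m (v i))
    (hv1 : ∀ i x, v i x = 1 ∨ v i x = -1) (hvt : ∀ i x, i < t → v i x = 1)
    (p : G → ℝ) (hp : Lev m p) (a : ℝ) (ha0 : 0 ≤ a) (ha1 : a ≤ 1) {ε : ℝ} (hε : 0 < ε) :
    ∫ x, |p x| * DB m L N v a x * sbQ m L N t v ε a x ∂ν ≤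
      (4 / (N * ε ^ 2) + N * (1 / 2) ^ t) * ∫ x, |p x| ∂ν := by
  have hpa : Lev m (fun x => |p x|) := by
    intro x y hxy
    change |p x| = |p y|
    rw [hp x y hxy]
  have hNr : (1 : ℝ) ≤ N := by exact_mod_cast hN
  have hN0 : (0 : ℝ) < N := by linarith
  have h1 := block_var ν m L N t htL v hv hv1 hvt (fun x => |p x|) hpa (fun x => abs_nonneg _) a ha0 ha1
  have h2 := block_bad ν m L N t htL v hv hv1 hvt (fun x => |p x|) hpa (fun x => abs_nonneg _) a ha0 ha1
  have hvc : ∀ i, Continuous (v i) := fun i => (hv i).continuous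
  have hpc : Continuous fun x => |p x| := hpa.continuous
  have hDc := sb_cont_DB hvc m L N a
  have i1 : Integrable (fun x => |p x| * DB m L N v a x *
      (∑ k ∈ Finset.range N, (fl (m + k * L) t x - (a + (1 - a) * (1 / 2) ^ t))) ^ 2) ν :=
    int_cont ν ((hpc.mul hDc).mul (sb_cont_q1 m L N t _))
  have i2 : Integrable (fun x => |p x| * DB m L N v a x *
      (∑ k ∈ Finset.range N, fl (m + k * L) t x *
        (1 - ∏ i ∈ Finset.range L, ((1 + v i x * e (m + k * L + i) x) / 2)))) ν :=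
    int_cont ν ((hpc.mul hDc).mul (sb_cont_q2 hvc m L N t))
  have e1 : (fun x => |p x| * DB m L N v a x * sbQ m L N t v ε a x) =
      fun x => 4 / ((N : ℝ) ^ 2 * ε ^ 2) * (|p x| * DB m L N v a x *
        (∑ k ∈ Finset.range N, (fl (m + k * L) t x - (a + (1 - a) * (1 / 2) ^ t))) ^ 2) +
        |p x| * DB m L N v a x * (∑ k ∈ Finset.range N, fl (m + k * L) t x *
        (1 - ∏ i ∈ Finset.range L, ((1 + v i x * e (m + k * L + i) x) / 2))) := by
    funext x
    unfold sbQ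
    ring
  rw [e1, integral_add (i1.const_mul _) i2, integral_const_mul]
  have hI : 0 ≤ ∫ x, |p x| ∂ν := integral_nonneg fun x => abs_nonneg _
  have h3 : 4 / ((N : ℝ) ^ 2 * ε ^ 2) * (∫ x, |p x| * DB m L N v a x *
        (∑ k ∈ Finset.range N, (fl (m + k * L) t x - (a + (1 - a) * (1 / 2) ^ t))) ^ 2 ∂ν) ≤
      4 / ((N : ℝ) ^ 2 * ε ^ 2) * (N * ∫ x, |p x| ∂ν) :=
    mul_le_mul_of_nonneg_left h1 (by positivity)
  have e2 : 4 / ((N : ℝ) ^ 2 * ε ^ 2) * (N * ∫ x, |p x| ∂ν) =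
      4 / (N * ε ^ 2) * ∫ x, |p x| ∂ν := by
    field_simp
  rw [e2] at h3
  calc _ ≤ 4 / (N * ε ^ 2) * (∫ x, |p x| ∂ν) + N * (1 / 2) ^ t * ∫ x, |p x| ∂ν := add_le_add h3 h2
    _ = _ := by ring

/-- Fourier coefficients -/
theorem sb_fourier (ν : Measure G) [IsProbabilityMeasure ν] [ν.IsMulLeftInvariant]
    (m L N t : ℕ) (htL : t ≤ L) (hN : 1 ≤ N) (v : ℕ → G → ℝ) (hv : ∀ i, Lev m (v i))
    (hv1 : ∀ i x, v i x = 1 ∨ v i x = -1) (hvt : ∀ i x, i < t → v i x = 1)
    (p : G → ℝ) (hp : Lev m p) {ε : ℝ} (hε : 0 < ε) (hε1 : ε ≤ 1 / 8) {M : ℕ}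
    (a c : Fin (M + 1) → ℝ) (ha : ∀ j, 1 / 8 ≤ a j ∧ a j ≤ 1 / 8 + ε / 4)
    (hc : ∑ j, c j = 1) (hc2 : ∀ r : ℕ, 1 ≤ r → |∑ j, c j * a j ^ r| ≤ (1 / 2) ^ M)
    (hM : (1 / 2) ^ M * ∫ x, |p x| ∂ν ≤ ε / 2) (ht : (1 / 2) ^ t ≤ ε / 4)
    (hNt : (∑ j, |c j|) * ((4 / (N * ε ^ 2) + N * (1 / 2) ^ t) * ∫ x, |p x| ∂ν) ≤ ε / 2)
    (p2 : G → ℝ) (hp2c : Continuous p2)
    (hp2 : ∀ x, (sbG m L N t v ε x ∧ p2 x = p x * ∑ j, c j * DB m L N v (a j) x) ∨
      (¬ sbG m L N t v ε x ∧ p2 x = 0)) (S : Finset ℕ) :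
    |∫ x, p2 x * w S x ∂ν - ∫ x, p x * w S x ∂ν| ≤ ε := by
  have hvc : ∀ i, Continuous (v i) := fun i => (hv i).continuous
  have hpc : Continuous p := hp.continuous
  have haj : ∀ j, 0 ≤ a j ∧ a j ≤ 1 := fun j => ⟨by linarith [(ha j).1], by linarith [(ha j).2]⟩
  obtain ⟨κ, r, hκ1, hκ2, hκ3, hκ4⟩ := block_coeff ν m L N v hv hv1 p hp S
  have hTc : Continuous fun x => ∑ j, c j * DB m L N v (a j) x :=
    continuous_finsetSum _ fun j _ => continuous_const.mul (sb_cont_DB hvc m L N (a j))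
  have hpT : ∫ x, p x * (∑ j, c j * DB m L N v (a j) x) * w S x ∂ν =
      (∑ j, c j * a j ^ r) * κ := by
    have e1 : (fun x => p x * (∑ j, c j * DB m L N v (a j) x) * w S x) =
        fun x => ∑ j, c j * (p x * DB m L N v (a j) x * w S x) := by
      funext x
      rw [Finset.mul_sum, Finset.sum_mul]
      refine Finset.sum_congr rfl fun j _ => ?_
      ring
    have i0 : ∀ j, Integrable (fun x => c j * (p x * DB m L N v (a j) x * w S x)) ν := fun j =>
      (int_cont ν ((hpc.mul (sb_cont_DB hvc m L N (a j))).mul (continuous_w S))).const_mul _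
    rw [e1, integral_finsetSum _ (fun j _ => i0 j), Finset.sum_mul]
    refine Finset.sum_congr rfl fun j _ => ?_
    rw [integral_const_mul, hκ4]
    ring
  have hfirst : |∫ x, p x * (∑ j, c j * DB m L N v (a j) x) * w S x ∂ν -
      ∫ x, p x * w S x ∂ν| ≤ ε / 2 := by
    rw [hpT]
    rcases Nat.eq_zero_or_pos r with h0 | h0
    · subst h0
      have : ∑ j, c j * a j ^ 0 = 1 := by simpa using hc
      rw [this, one_mul, hκ2 rfl, sub_self, abs_zero]
      linarith
    · rw [hκ3 h0, sub_zero, abs_mul]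
      have hI : 0 ≤ ∫ x, |p x| ∂ν := integral_nonneg fun x => abs_nonneg _
      calc |∑ j, c j * a j ^ r| * |κ| ≤ (1 / 2) ^ M * ∫ x, |p x| ∂ν :=
            mul_le_mul (hc2 r h0) hκ1 (abs_nonneg _) (by positivity)
        _ ≤ ε / 2 := hM
  have hsecond : |∫ x, p2 x * w S x ∂ν -
      ∫ x, p x * (∑ j, c j * DB m L N v (a j) x) * w S x ∂ν| ≤ ε / 2 := by
    have i1 : Integrable (fun x => p2 x * w S x) ν := int_cont ν (hp2c.mul (continuous_w S))
    have i2 : Integrable (fun x => p x * (∑ j, c j * DB m L N v (a j) x) * w S x) ν :=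
      int_cont ν ((hpc.mul hTc).mul (continuous_w S))
    rw [← integral_sub i1 i2]
    refine (abs_integral_le_integral_abs).trans ?_
    have hpw : ∀ x, |p2 x * w S x - p x * (∑ j, c j * DB m L N v (a j) x) * w S x| ≤
        ∑ j, |c j| * (|p x| * DB m L N v (a j) x * sbQ m L N t v ε (a j) x) := by
      intro x
      have hnn : 0 ≤ ∑ j, |c j| * (|p x| * DB m L N v (a j) x * sbQ m L N t v ε (a j) x) := by
        refine Finset.sum_nonneg fun j _ => ?_
        have h1 := sb_DB_nonneg hv1 m L N (haj j).1 (haj j).2 x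
        have h2 := (sbQ_nonneg hv1 m L N t ε (a j) x).1
        positivity
      rw [← sub_mul, abs_mul, abs_w, mul_one]
      rcases hp2 x with ⟨_, h⟩ | ⟨hb, h⟩
      · rw [h, sub_self, abs_zero]
        exact hnn
      · rw [h, zero_sub, abs_neg, abs_mul]
        calc |p x| * |∑ j, c j * DB m L N v (a j) x|
            ≤ |p x| * ∑ j, |c j * DB m L N v (a j) x| :=
              mul_le_mul_of_nonneg_left (Finset.abs_sum_le_sum_abs _ _) (abs_nonneg _)
          _ = ∑ j, |c j| * (|p x| * DB m L N v (a j) x * 1) := by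
              rw [Finset.mul_sum]
              refine Finset.sum_congr rfl fun j _ => ?_
              rw [abs_mul, abs_of_nonneg (sb_DB_nonneg hv1 m L N (haj j).1 (haj j).2 x)]
              ring
          _ ≤ _ := by
              refine Finset.sum_le_sum fun j _ => ?_
              have h1 := sb_DB_nonneg hv1 m L N (haj j).1 (haj j).2 x
              have h2 : |a j + (1 - a j) * (1 / 2) ^ t - 1 / 8| ≤ ε / 2 := by
                have h3 := ha j
                have h4 : (0 : ℝ) ≤ (1 / 2) ^ t := by positivity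
                have h5 : (1 - a j) * (1 / 2) ^ t ≤ 1 * (1 / 2) ^ t :=
                  mul_le_mul_of_nonneg_right (by linarith) h4
                have h6 : 0 ≤ (1 - a j) * (1 / 2) ^ t :=
                  mul_nonneg (by linarith [(haj j).2]) h4
                rw [abs_le]
                constructor <;> linarith
              have h3 := sb_bad hv1 hN hε h2 x hb
              gcongr
    have hint : ∀ j, Integrable (fun x => |c j| * (|p x| * DB m L N v (a j) x *
        sbQ m L N t v ε (a j) x)) ν := fun j =>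
      (int_cont ν ((hpc.abs.mul (sb_cont_DB hvc m L N (a j))).mul
        (sb_cont_Q hvc m L N t ε (a j)))).const_mul _
    calc ∫ x, |p2 x * w S x - p x * (∑ j, c j * DB m L N v (a j) x) * w S x| ∂ν
        ≤ ∫ x, ∑ j, |c j| * (|p x| * DB m L N v (a j) x * sbQ m L N t v ε (a j) x) ∂ν := by
          refine integral_mono ?_ (integrable_finsetSum _ fun j _ => hint j) hpw
          exact (i1.sub i2).abs
      _ = ∑ j, |c j| * ∫ x, |p x| * DB m L N v (a j) x * sbQ m L N t v ε (a j) x ∂ν := by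
          rw [integral_finsetSum _ fun j _ => hint j]
          refine Finset.sum_congr rfl fun j _ => ?_
          rw [integral_const_mul]
      _ ≤ ∑ j, |c j| * ((4 / (N * ε ^ 2) + N * (1 / 2) ^ t) * ∫ x, |p x| ∂ν) := by
          refine Finset.sum_le_sum fun j _ => mul_le_mul_of_nonneg_left ?_ (abs_nonneg _)
          exact sb_int_bad ν m L N t htL hN v hv hv1 hvt p hp (a j) (haj j).1 (haj j).2 hε
      _ = (∑ j, |c j|) * ((4 / (N * ε ^ 2) + N * (1 / 2) ^ t) * ∫ x, |p x| ∂ν) := by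
          rw [Finset.sum_mul]
      _ ≤ ε / 2 := hNt
  have e : ∫ x, p2 x * w S x ∂ν - ∫ x, p x * w S x ∂ν =
      (∫ x, p2 x * w S x ∂ν - ∫ x, p x * (∑ j, c j * DB m L N v (a j) x) * w S x ∂ν) +
      (∫ x, p x * (∑ j, c j * DB m L N v (a j) x) * w S x ∂ν - ∫ x, p x * w S x ∂ν) := by ring
  rw [e]
  refine (abs_add_le _ _).trans ?_
  linarith

/-- expansion of a flag -/
theorem sb_fl_exp (M t : ℕ) (x : G) : fl M t x = ∑ V ∈ (Finset.range t).powerset,
    (1 / 2) ^ t * w (V.map (addLeftEmbedding M)) x := by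
  unfold fl
  have e1 : ∏ i ∈ Finset.range t, ((1 + e (M + i) x) / 2) =
      (1 / 2) ^ t * ∏ i ∈ Finset.range t, (1 + e (M + i) x) := by
    have : ∏ i ∈ Finset.range t, ((1 + e (M + i) x) / 2) =
        ∏ i ∈ Finset.range t, ((1 / 2) * (1 + e (M + i) x)) :=
      Finset.prod_congr rfl fun i _ => by ring
    rw [this, Finset.prod_mul_distrib, Finset.prod_const, Finset.card_range]
  rw [e1, Finset.prod_one_add, Finset.mul_sum]
  refine Finset.sum_congr rfl fun V _ => ?_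
  unfold w
  rw [Finset.prod_map]
  rfl

theorem sb_lev_e {m i : ℕ} (hi : i < m) {x y : G} (h : ∀ i, i < m → x i = y i) : e i x = e i y := by
  unfold e
  rw [h i hi]

/-- everything depends on the first `m + N * L` coordinates -/
theorem sb_lev {m L N t : ℕ} (htL : t ≤ L) {v : ℕ → G → ℝ} (hv : ∀ i, Lev m (v i)) {x y : G}
    (h : ∀ i, i < m + N * L → x i = y i) :
    (∀ k < N, ∀ i < L, e (m + k * L + i) x = e (m + k * L + i) y) ∧ (∀ i, v i x = v i y) ∧
      (∀ k < N, fl (m + k * L) t x = fl (m + k * L) t y) ∧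
      (∀ a, DB m L N v a x = DB m L N v a y) := by
  have h1 : ∀ k < N, ∀ i < L, e (m + k * L + i) x = e (m + k * L + i) y := by
    intro k hk i hi
    apply sb_lev_e _ h
    have : (k + 1) * L ≤ N * L := Nat.mul_le_mul_right L hk
    have e : (k + 1) * L = k * L + L := by ring
    omega
  have h2 : ∀ i, v i x = v i y := fun i => hv i x y fun j hj => h j (by omega)
  refine ⟨h1, h2, ?_, ?_⟩
  · intro k hk
    unfold fl
    refine Finset.prod_congr rfl fun i hi => ?_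
    rw [h1 k hk i (lt_of_lt_of_le (Finset.mem_range.1 hi) htL)]
  · intro a
    unfold DB
    refine Finset.prod_congr rfl fun k hk => ?_
    unfold Bk
    congr 2
    refine Finset.prod_congr rfl fun i hi => ?_
    rw [h1 k (Finset.mem_range.1 hk) i (Finset.mem_range.1 hi), h2]

/-- TARGET: one stage of the construction -/
theorem stepB (ν : Measure G) [IsProbabilityMeasure ν] [ν.IsMulLeftInvariant]
    (m : ℕ) (p : G → ℝ) (hp : Lev m p) (ε : ℝ) (hε : 0 < ε) (hε1 : ε ≤ 1 / 8) :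
    ∃ (m' : ℕ) (p' : G → ℝ) (h : G → ℂ), m < m' ∧ Lev m' p' ∧ (∀ x, p x = 0 → p' x = 0) ∧
      (∀ S : Finset ℕ, |∫ x, p' x * w S x ∂ν - ∫ x, p x * w S x ∂ν| ≤ ε) ∧
      (∃ a : Finset ℕ → ℂ, Summable (fun S => ‖a S‖) ∧ (∑' S, ‖a S‖) ≤ 1 ∧
        (∀ x, h x = ∑' S, a S * ((w S x : ℝ) : ℂ)) ∧ ‖a ∅‖ ≤ ε ∧
        ∀ S, a S ≠ 0 → S ≠ ∅ → ∃ i ∈ S, m ≤ i) ∧
      (∀ x, p' x ≠ 0 → ‖h x - 1 / 8‖ ≤ ε) ∧
      (∀ σ : G → ℝ, Lev m σ → (∀ x, σ x = 1 ∨ σ x = -1) →
        ∃ F : G → ℂ, R 1 F ∧ ∀ x, p' x ≠ 0 → ((σ x : ℝ) : ℂ) * h x = F x) := by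
  classical
  obtain ⟨l, s, hs1, hs2, hs3⟩ := sb_signs m
  obtain ⟨I, hI⟩ : ∃ I, I = ∫ x, |p x| ∂ν := ⟨_, rfl⟩
  have hI0 : 0 ≤ I := by rw [hI]; exact integral_nonneg fun x => abs_nonneg _
  -- M
  obtain ⟨M, hM⟩ : ∃ M : ℕ, (1 / 2 : ℝ) ^ M * I ≤ ε / 2 := by
    obtain ⟨M, hM⟩ := exists_pow_lt_of_lt_one (x := ε / (2 * (I + 1))) (y := (1 / 2 : ℝ))
      (by positivity) (by norm_num)
    refine ⟨M, ?_⟩
    calc (1 / 2 : ℝ) ^ M * I ≤ ε / (2 * (I + 1)) * (I + 1) := by
          apply mul_le_mul hM.le (by linarith) hI0 (by positivity)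
      _ = ε / 2 := by field_simp
  obtain ⟨a, c, ha, hc, hc2⟩ := moment_interval (1 / 8) (1 / 8 + ε / 4) (by norm_num)
    (by linarith) (by linarith) M
  obtain ⟨Cs, hCs⟩ : ∃ Cs, Cs = ∑ j, |c j| := ⟨_, rfl⟩
  have hCs0 : 0 ≤ Cs := by rw [hCs]; exact Finset.sum_nonneg fun j _ => abs_nonneg _
  -- N
  obtain ⟨N, hN1, hN2⟩ : ∃ N : ℕ, 1 ≤ N ∧ Cs * (4 / (N * ε ^ 2) * I) ≤ ε / 4 := by
    obtain ⟨n, hn⟩ := exists_nat_ge (16 * Cs * I / ε ^ 3)
    refine ⟨n + 1, by omega, ?_⟩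
    have hn1 : 16 * Cs * I / ε ^ 3 ≤ ((n + 1 : ℕ) : ℝ) := by push_cast; linarith
    have hnp : (0 : ℝ) < ((n + 1 : ℕ) : ℝ) := by positivity
    rw [div_le_iff₀ (by positivity)] at hn1
    have e : Cs * (4 / (((n + 1 : ℕ) : ℝ) * ε ^ 2) * I) =
        (4 * Cs * I) / (((n + 1 : ℕ) : ℝ) * ε ^ 2) := by ring
    rw [e, div_le_iff₀ (by positivity)]
    have e2 : ε / 4 * (((n + 1 : ℕ) : ℝ) * ε ^ 2) = (((n + 1 : ℕ) : ℝ) * ε ^ 3) / 4 := by ring
    rw [e2]
    linarith
  have hNr : (1 : ℝ) ≤ N := by exact_mod_cast hN1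
  have hN0 : (0 : ℝ) < N := by linarith
  -- t
  obtain ⟨t, ht1, ht2, ht3⟩ : ∃ t : ℕ, 1 ≤ t ∧ (1 / 2 : ℝ) ^ t ≤ ε / 4 ∧
      Cs * (N * (1 / 2) ^ t * I) ≤ ε / 4 := by
    obtain ⟨n, hn⟩ := exists_pow_lt_of_lt_one
      (x := min (ε / 4) (ε / (4 * (Cs * N * I + 1)))) (y := (1 / 2 : ℝ))
      (by positivity) (by norm_num)
    have hn1 : (1 / 2 : ℝ) ^ (n + 1) ≤ min (ε / 4) (ε / (4 * (Cs * N * I + 1))) := by
      refine le_trans ?_ hn.le
      exact pow_le_pow_of_le_one (by norm_num) (by norm_num) (by omega)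
    refine ⟨n + 1, by omega, hn1.trans (min_le_left _ _), ?_⟩
    have h1 := hn1.trans (min_le_right _ _)
    have h2 : 0 ≤ Cs * N * I := by positivity
    calc Cs * (N * (1 / 2) ^ (n + 1) * I) = (1 / 2) ^ (n + 1) * (Cs * N * I) := by ring
      _ ≤ ε / (4 * (Cs * N * I + 1)) * (Cs * N * I + 1) := by
          apply mul_le_mul h1 (by linarith) h2 (by positivity)
      _ = ε / 4 := by field_simp
  obtain ⟨L, hL⟩ : ∃ L, L = t + l := ⟨_, rfl⟩
  have htL : t ≤ L := by omega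
  obtain ⟨v, hvdef⟩ : ∃ v : ℕ → G → ℝ, v = fun i => if i < t then fun _ => 1 else s (i - t) :=
    ⟨_, rfl⟩
  have hvt : ∀ i x, i < t → v i x = 1 := by
    intro i x hi
    rw [hvdef]
    simp only [hi, if_true]
  have hvs : ∀ j x, v (t + j) x = s j x := by
    intro j x
    rw [hvdef]
    simp
  have hv : ∀ i, Lev m (v i) := by
    intro i
    by_cases hi : i < t
    · intro x y _
      rw [hvt i x hi, hvt i y hi]
    · intro x y hxy
      obtain ⟨j, rfl⟩ := Nat.exists_eq_add_of_le (not_lt.1 hi)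
      rw [hvs, hvs, hs1 j x y hxy]
  have hv1 : ∀ i x, v i x = 1 ∨ v i x = -1 := by
    intro i x
    by_cases hi : i < t
    · exact Or.inl (hvt i x hi)
    · obtain ⟨j, rfl⟩ := Nat.exists_eq_add_of_le (not_lt.1 hi)
      rw [hvs]
      exact hs2 j x
  obtain ⟨p2, hp2⟩ : ∃ p2 : G → ℝ, p2 = fun x => if sbG m L N t v ε x then
      p x * ∑ j, c j * DB m L N v (a j) x else 0 := ⟨_, rfl⟩
  have hp2' : ∀ x, (sbG m L N t v ε x ∧ p2 x = p x * ∑ j, c j * DB m L N v (a j) x) ∨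
      (¬ sbG m L N t v ε x ∧ p2 x = 0) := by
    intro x
    rw [hp2]
    by_cases h : sbG m L N t v ε x
    · exact Or.inl ⟨h, if_pos h⟩
    · exact Or.inr ⟨h, if_neg h⟩
  have hlev2 : Lev (m + N * L) p2 := by
    intro x y hxy
    obtain ⟨g1, g2, g3, g4⟩ := sb_lev htL hv hxy
    have hpxy : p x = p y := hp x y fun i hi => hxy i (by omega)
    have hh : sbh m L N t x = sbh m L N t y := by
      unfold sbh
      congr 1
      exact Finset.sum_congr rfl fun k hk => g3 k (Finset.mem_range.1 hk)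
    have hG : sbG m L N t v ε x ↔ sbG m L N t v ε y := by
      unfold sbG
      rw [hh]
      refine and_congr Iff.rfl ?_
      constructor
      · intro H k hk hf i hi
        rw [← g1 k hk i hi, ← g2 i]
        exact H k hk (by rw [g3 k hk]; exact hf) i hi
      · intro H k hk hf i hi
        rw [g1 k hk i hi, g2 i]
        exact H k hk (by rw [← g3 k hk]; exact hf) i hi
    rw [hp2]
    simp only [hG, hpxy, g4]
  have hgood : ∀ x, p2 x ≠ 0 → sbG m L N t v ε x := by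
    intro x hx
    rcases hp2' x with h | h
    · exact h.1
    · exact absurd h.2 hx
  obtain ⟨b, hb⟩ : ∃ b : ℝ, b = 1 / N * (1 / 2) ^ t := ⟨_, rfl⟩
  have hb0 : 0 ≤ b := by rw [hb]; positivity
  have hcard : (((Finset.range N ×ˢ (Finset.range t).powerset).card : ℕ) : ℝ) * b ≤ 1 := by
    rw [Finset.card_product, Finset.card_range, Finset.card_powerset, Finset.card_range, hb]
    push_cast
    apply le_of_eq
    rw [one_div_pow]
    field_simp
  refine ⟨m + N * L, p2, fun x => ((sbh m L N t x : ℝ) : ℂ), ?_, hlev2, ?_, ?_, ?_, ?_, ?_⟩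
  · have : 1 ≤ N * L := Nat.one_le_iff_ne_zero.2 (Nat.mul_ne_zero (by omega) (by omega))
    omega
  · intro x hx
    rcases hp2' x with h | h
    · rw [h.2, hx, zero_mul]
    · exact h.2
  · intro S
    refine sb_fourier ν m L N t htL hN1 v hv hv1 hvt p hp hε hε1 a c ha hc hc2 (by rw [← hI]; exact hM)
      ht2 ?_ p2 hlev2.continuous hp2' S
    rw [← hI, ← hCs]
    have e : Cs * ((4 / (N * ε ^ 2) + N * (1 / 2) ^ t) * I) =
        Cs * (4 / (N * ε ^ 2) * I) + Cs * (N * (1 / 2) ^ t * I) := by ring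
    rw [e]
    linarith
  · obtain ⟨A, hA1, hA2, hA3, hA4⟩ := sb_coeff (Finset.range N ×ˢ (Finset.range t).powerset) b hb0
      hcard (fun q => q.2.map (addLeftEmbedding (m + q.1 * L)))
    refine ⟨A, hA1, hA2, ?_, ?_, ?_⟩
    · intro x
      rw [← hA3]
      beta_reduce
      congr 1
      unfold sbh
      rw [Finset.sum_product, Finset.mul_sum]
      refine Finset.sum_congr rfl fun k _ => ?_
      rw [sb_fl_exp, Finset.mul_sum]
      refine Finset.sum_congr rfl fun V _ => ?_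
      rw [hb]
      ring
    · rw [hA4, Complex.norm_real, Real.norm_eq_abs, abs_of_nonneg (by positivity)]
      have hsub : (Finset.range N ×ˢ (Finset.range t).powerset).filter
          (fun q : ℕ × Finset ℕ => q.2.map (addLeftEmbedding (m + q.1 * L)) = ∅) ⊆
          Finset.range N ×ˢ {∅} := by
        intro q hq
        rw [Finset.mem_filter, Finset.mem_product] at hq
        rw [Finset.mem_product, Finset.mem_singleton]
        exact ⟨hq.1.1, Finset.map_eq_empty.1 hq.2⟩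
      have hle := Finset.card_le_card hsub
      rw [Finset.card_product, Finset.card_singleton, Finset.card_range, mul_one] at hle
      have hle' : ((((Finset.range N ×ˢ (Finset.range t).powerset).filter
          (fun q : ℕ × Finset ℕ => q.2.map (addLeftEmbedding (m + q.1 * L)) = ∅)).card : ℕ) : ℝ) ≤
          N := by exact_mod_cast hle
      calc _ ≤ (N : ℝ) * b := mul_le_mul_of_nonneg_right hle' hb0
        _ = (1 / 2) ^ t := by rw [hb]; field_simp
        _ ≤ ε := by linarith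
    · intro S hS hSne
      rw [hA4] at hS
      have hne : ((Finset.range N ×ˢ (Finset.range t).powerset).filter
          (fun q : ℕ × Finset ℕ => q.2.map (addLeftEmbedding (m + q.1 * L)) = S)).Nonempty := by
        rw [Finset.nonempty_iff_ne_empty]
        intro h0
        rw [h0] at hS
        simp at hS
      obtain ⟨q, hq⟩ := hne
      rw [Finset.mem_filter] at hq
      obtain ⟨i, hi⟩ := Finset.nonempty_iff_ne_empty.2 hSne
      refine ⟨i, hi, ?_⟩
      rw [← hq.2, Finset.mem_map] at hi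
      obtain ⟨j, _, rfl⟩ := hi
      rw [addLeftEmbedding_apply]
      omega
  · intro x hx
    have h1 := (hgood x hx).1
    have e : ((sbh m L N t x : ℝ) : ℂ) - 1 / 8 = ((sbh m L N t x - 1 / 8 : ℝ) : ℂ) := by
      push_cast
      ring
    rw [e, Complex.norm_real, Real.norm_eq_abs]
    exact h1
  · intro σ hσ hσ1
    obtain ⟨j, hj, rfl⟩ := hs3 σ hσ hσ1
    obtain ⟨A, hA1, hA2, hA3, hA4⟩ := sb_coeff (Finset.range N ×ˢ (Finset.range t).powerset) b hb0
      hcard (fun q => insert (m + q.1 * L + (t + j)) (q.2.map (addLeftEmbedding (m + q.1 * L))))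
    refine ⟨fun x => ((∑ q ∈ Finset.range N ×ˢ (Finset.range t).powerset,
      b * w (insert (m + q.1 * L + (t + j)) (q.2.map (addLeftEmbedding (m + q.1 * L)))) x : ℝ) : ℂ),
      ⟨A, hA1, hA2, hA3⟩, ?_⟩
    intro x hx
    have h2 := (hgood x hx).2
    rw [← Complex.ofReal_mul]
    congr 1
    unfold sbh
    have e0 : s j x * (1 / (N : ℝ) * ∑ k ∈ Finset.range N, fl (m + k * L) t x) =
        ∑ k ∈ Finset.range N, 1 / (N : ℝ) * (s j x * fl (m + k * L) t x) := by
      rw [Finset.mul_sum, Finset.mul_sum]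
      exact Finset.sum_congr rfl fun k _ => by ring
    rw [Finset.sum_product, e0]
    refine Finset.sum_congr rfl fun k hk => ?_
    have hk' := Finset.mem_range.1 hk
    have e1 : s j x * fl (m + k * L) t x = e (m + k * L + (t + j)) x * fl (m + k * L) t x := by
      rcases sb_fl01 (m + k * L) t x with h | h
      · rw [h, mul_zero, mul_zero]
      · rw [h2 k hk' h (t + j) (by omega), hvs]
    rw [e1, sb_fl_exp, Finset.mul_sum, Finset.mul_sum]
    refine Finset.sum_congr rfl fun V hV => ?_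
    have hni : m + k * L + (t + j) ∉ V.map (addLeftEmbedding (m + k * L)) := by
      intro hmem
      rw [Finset.mem_map] at hmem
      obtain ⟨i, hi, hie⟩ := hmem
      rw [addLeftEmbedding_apply] at hie
      have := Finset.mem_range.1 (Finset.mem_powerset.1 hV hi)
      omega
    have e2 : w (insert (m + k * L + (t + j)) (V.map (addLeftEmbedding (m + k * L)))) x =
        e (m + k * L + (t + j)) x * w (V.map (addLeftEmbedding (m + k * L))) x := by
      unfold w
      rw [Finset.prod_insert hni]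
    rw [e2, hb]
    ring

end WD
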