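import Pool.Agent.Helper348.AmUnit

set_option autoImplicit false

/-!
# Two consequences for commutative amenable Banach algebras
-/

open WD Filter Topology
open scoped TensorProduct

namespace Am

section

variable {E : Set G}

lemma isUnit_UE {y : UE E} (hy : (y : AE E) ∈ RI E) : IsUnit (1 + y) := by
  obtain ⟨z, hz, hyz⟩ := exists_quasi hy
  have h1 : (1 + y) * (1 + ⟨z, RI_le_UE hz⟩) = 1 := by
    apply Subtype.ext
    show (1 + (y : AE E)) * (1 + z) = 1
    linear_combination hyz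
  exact IsUnit.of_mul_eq_one _ h1

/-- the character of `ℂ1 + R_E` -/
noncomputable def chiA {x : G} (hx : x ∈ E) : UE E →ₐ[ℂ] ℂ where
  toFun y := chi hx (y : AE E)
  map_one' := map_one (chi hx)
  map_mul' _ _ := map_mul (chi hx) _ _
  map_zero' := map_zero (chi hx)
  map_add' _ _ := map_add (chi hx) _ _
  commutes' c := chi_algebraMap hx c

lemma continuous_chiA {x : G} (hx : x ∈ E) : Continuous (chiA hx) :=
  (continuous_chi hx).comp continuous_subtype_val

lemma sub_mem {x : G} (hx : x ∈ E) (y : UE E) :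
    ((y - algebraMap ℂ (UE E) (chiA hx y) : UE E) : AE E) ∈ RI E :=
  (UE_iff hx (y : AE E)).1 y.2

lemma chiA_of_mem {x : G} (hx : x ∈ E) {y : UE E} (hy : (y : AE E) ∈ RI E) : chiA hx y = 0 :=
  (mem_subRE_iff (y : AE E)).1 hy x hx

lemma mem_jacobson {x : G} (hx : x ∈ E) (y : UE E) :
    y ∈ Ideal.jacobson (⊥ : Ideal (UE E)) ↔ (y : AE E) ∈ RI E := by
  rw [Ideal.mem_jacobson_bot]
  constructor
  · intro h
    by_contra hy
    have h1 : chiA hx y ≠ 0 := by
      intro h2
      apply hy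
      have h3 := sub_mem hx y
      rw [h2, map_zero, sub_zero] at h3
      exact h3
    have h2 := (h (algebraMap ℂ (UE E) (-(chiA hx y)⁻¹))).map (chiA hx)
    have e : ∀ k : ℂ, chiA hx (y * algebraMap ℂ (UE E) k + 1) = chiA hx y * k + 1 := by
      intro k
      show chi hx ((y : AE E) * algebraMap ℂ (AE E) k + 1) = chi hx (y : AE E) * k + 1
      rw [map_add, map_mul, chi_algebraMap, map_one]
    have h3 : chiA hx y * -(chiA hx y)⁻¹ + 1 = 0 := by
      rw [mul_neg, mul_inv_cancel₀ h1]; ring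
    have h4 : IsUnit (0 : ℂ) := by
      rw [← h3, ← e]
      exact h2
    exact not_isUnit_zero h4
  · intro hy z
    rw [add_comm]
    apply isUnit_UE
    show (y : AE E) * (z : AE E) ∈ RI E
    exact (RI E).mul_mem_right _ hy

lemma quasi_UE {y : UE E} (hy : (y : AE E) ∈ RI E) : quasispectrum ℂ y ⊆ {0} := by
  intro lam hlam
  rw [Set.mem_singleton_iff]
  by_contra hne
  refine hlam (IsUnit.mk0 lam hne) ?_
  set a : UE E := -((IsUnit.mk0 lam hne).unit⁻¹ • y) with ha
  have ha' : (a : AE E) ∈ RI E := by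
    have h1 : (a : AE E) = -(((IsUnit.mk0 lam hne).unit⁻¹ : ℂˣ) : ℂ) • (y : AE E) := by
      rw [ha, neg_smul]; rfl
    rw [h1]
    exact (subRE E).smul_mem _ hy
  obtain ⟨z, hz, hyz⟩ := exists_quasi ha'
  rw [isQuasiregular_iff]
  refine ⟨⟨z, RI_le_UE hz⟩, ?_, ?_⟩
  · apply Subtype.ext
    show z + (a : AE E) + (a : AE E) * z = 0
    linear_combination hyz
  · apply Subtype.ext
    show (a : AE E) + z + z * (a : AE E) = 0
    linear_combination hyz

theorem amenable_UE {C : ℝ} {U : ℕ → AE E} (hUI : ∀ n, U n ∈ RI E) (hU : ∀ n, ‖U n‖ ≤ C)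
    (hap : ∀ y ∈ RI E, Tendsto (fun n => ‖y - U n * y‖) atTop (𝓝 0)) :
    AmenableL.{0} (UE E) := by
  obtain ⟨K, s, a, b, h1, h2, h3⟩ := UE_diag hUI hU hap
  have h4 : Amenable.{0} (UE E) := by
    refine amenable_of_diag s a b K h1 ?_ ?_ ?_
    · intro c ε hε
      filter_upwards [h3 c ε hε] with n hn
      intro Φ
      have h5 := PN_apply hn Φ
      rw [map_sum] at h5
      simpa only [map_sub, TensorProduct.lift.tmul, LinearMap.mk₂_apply] using h5
    · intro c
      have h5 := h2.mul_const c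
      rwa [one_mul] at h5
    · intro c
      have h5 := h2.const_mul c
      rwa [mul_one] at h5
  intro X _ _ _ l r hl hr hlr D hD
  exact h4 X (fun a x => l a x) (fun a x => r a x) l.isBoundedBilinearMap r.isBoundedBilinearMap
    hl hr hlr (fun a x => D a x) D.isBoundedBilinearMap hD

end

/-- a non-radical commutative amenable Banach algebra without the homomorphism property -/
theorem not_hom_property :
    ¬ (∀ (A : Type) [NonUnitalNormedCommRing A] [NormedSpace ℂ A] [IsScalarTower ℂ A A]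
      [SMulCommClass ℂ A A] [CompleteSpace A],
      (∃ a : A, ¬ quasispectrum ℂ a ⊆ {0}) →
      (∀ (E : Type) [NormedAddCommGroup E] [NormedSpace ℂ E] [CompleteSpace E]
        (l r : A →L[ℂ] (E →L[ℂ] E)),
        (∀ a b : A, l (a * b) = (l a).comp (l b)) →
        (∀ a b : A, r (a * b) = (r b).comp (r a)) →
        (∀ a b : A, (l a).comp (r b) = (r b).comp (l a)) →
        ∀ D : A →L[ℂ] (E →L[ℂ] ℂ),
          (∀ (a b : A) (x : E), D (a * b) x = D b (r a x) + D a (l b x)) →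
          ∃ f : E →L[ℂ] ℂ, ∀ (a : A) (x : E), D a x = f (r a x) - f (l a x)) →
      ∀ (B : Type) [NonUnitalNormedCommRing B] [NormedSpace ℂ B] [IsScalarTower ℂ B B]
        [SMulCommClass ℂ B B] [CompleteSpace B]
        (φ ψ : A →ₙₐ[ℂ] B), Continuous φ → Continuous ψ →
        (∀ a : A, quasispectrum ℂ (φ a - ψ a) ⊆ {0}) → φ = ψ) := by
  intro h
  obtain ⟨E, x₀, hx₀, r, hr, hr0, C, U, hUI, hU, hap⟩ := exists_data
  have := complete_UE hx₀
  have hone : ∃ a : UE E, ¬ quasispectrum ℂ a ⊆ {0} := by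
    refine ⟨1, fun hsub => ?_⟩
    have h1 : (1 : ℂ) ∈ quasispectrum ℂ (1 : UE E) := by
      intro hu hq
      obtain ⟨y, hy, _⟩ := isQuasiregular_iff.1 hq
      have h2 : (-(hu.unit⁻¹ • (1 : UE E))) = -1 := by
        have h3 : hu.unit = 1 := by
          ext; simp
        rw [h3, inv_one, one_smul]
      rw [h2] at hy
      have h4 : (1 : UE E) = 0 := by linear_combination -hy
      apply hr0
      have h5 : (1 : AE E) = 0 := congrArg Subtype.val h4
      rw [← mul_one r, h5, mul_zero]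
    have h2 := hsub h1
    exact one_ne_zero (Set.mem_singleton_iff.1 h2)
  have key := h (UE E) hone (fun X _ _ _ l r hl hr hlr D hD =>
    amenable_UE hUI hU hap X l r (fun a b x => by rw [hl]; rfl) (fun a b x => by rw [hr]; rfl)
      (fun a b x => by
        have := congrArg (fun f => f x) (hlr a b)
        exact this) D hD) (UE E)
    ((AlgHom.id ℂ (UE E) : UE E →ₐ[ℂ] UE E) : UE E →ₙₐ[ℂ] UE E)
    (((Algebra.ofId ℂ (UE E)).comp (chiA hx₀) : UE E →ₐ[ℂ] UE E) : UE E →ₙₐ[ℂ] UE E)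
    continuous_id ((continuous_algebraMap ℂ (UE E)).comp (continuous_chiA hx₀))
    (fun a => quasi_UE (sub_mem hx₀ a))
  have h1 := congrArg (fun f : UE E →ₙₐ[ℂ] UE E => f ⟨r, RI_le_UE hr⟩) key
  have h2 : (⟨r, RI_le_UE hr⟩ : UE E) = algebraMap ℂ (UE E) (chiA hx₀ ⟨r, RI_le_UE hr⟩) := h1
  rw [chiA_of_mem hx₀ (y := ⟨r, RI_le_UE hr⟩) hr, map_zero] at h2
  exact hr0 (congrArg Subtype.val h2)

/-- a commutative amenable Banach algebra whose radical is non-zero and complemented -/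
theorem complemented_radical :
    ∃ (A : Type) (_ : NormedCommRing A) (_ : NormedAlgebra ℂ A), CompleteSpace A ∧
      (∃ C : ℝ, ∀ F : Finset A, ∀ ε : ℝ, 0 < ε →
        ∃ (n : ℕ) (a b : Fin n → A),
          (∑ i, ‖a i‖ * ‖b i‖) ≤ C ∧
          ∀ c ∈ F,
            ‖c * (∑ i, a i * b i) - c‖ < ε ∧
            ∃ (m : ℕ) (x y : Fin m → A),
              (∑ i, ((c * a i) ⊗ₜ[ℂ] b i - a i ⊗ₜ[ℂ] (b i * c))) =
                  ∑ j, x j ⊗ₜ[ℂ] y j ∧
              (∑ j, ‖x j‖ * ‖y j‖) < ε) ∧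
      Ideal.jacobson (⊥ : Ideal A) ≠ ⊥ ∧
      (Submodule.restrictScalars ℂ (Ideal.jacobson (⊥ : Ideal A))).ClosedComplemented := by
  classical
  obtain ⟨E, x₀, hx₀, r, hr, hr0, C, U, hUI, hU, hap⟩ := exists_data
  have := complete_UE hx₀
  refine ⟨UE E, inferInstance, inferInstance, this, ?_, ?_, ?_⟩
  · obtain ⟨K, s, a, b, h1, h2, h3⟩ := UE_diag hUI hU hap
    refine ⟨K, fun F ε hε => ?_⟩
    have h4 : ∀ᶠ n in atTop, ∀ c ∈ F, ‖c * (∑ i ∈ s n, a n i * b n i) - c‖ < ε ∧
        PN (∑ i ∈ s n, ((c * a n i) ⊗ₜ[ℂ] b n i - a n i ⊗ₜ[ℂ] (b n i * c))) (ε / 2) := by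
      rw [Filter.eventually_all_finset]
      intro c _
      refine Filter.Eventually.and ?_ (h3 c (ε / 2) (by linarith))
      have h5 := h2.const_mul c
      rw [mul_one, tendsto_iff_norm_sub_tendsto_zero] at h5
      exact (tendsto_order.1 h5).2 ε hε
    obtain ⟨n, hn⟩ := h4.exists
    have hre : ∀ {M : Type} [AddCommMonoid M] (g : Option (Finset ℕ) → M),
        ∑ i : Fin (s n).card, g ((s n).equivFin.symm i) = ∑ i ∈ s n, g i := by
      intro M _ g
      rw [← Finset.sum_coe_sort (s n) g]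
      exact ((s n).equivFin.symm.sum_comp (fun x : s n => g x))
    refine ⟨(s n).card, fun i => a n ((s n).equivFin.symm i), fun i => b n ((s n).equivFin.symm i),
      ?_, ?_⟩
    · rw [hre (fun i => ‖a n i‖ * ‖b n i‖)]
      exact h1 n
    · intro c hc
      obtain ⟨e1, m, x, y, e2, e3⟩ := hn c hc
      rw [hre (fun i => a n i * b n i), hre (fun i => (c * a n i) ⊗ₜ[ℂ] b n i -
        a n i ⊗ₜ[ℂ] (b n i * c))]
      exact ⟨e1, m, x, y, e2, by linarith⟩
  · intro hbot
    have h1 : (⟨r, RI_le_UE hr⟩ : UE E) ∈ Ideal.jacobson (⊥ : Ideal (UE E)) :=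
      (mem_jacobson hx₀ _).2 hr
    rw [hbot] at h1
    exact hr0 (congrArg Subtype.val ((Submodule.mem_bot _).1 h1))
  · let chiL : UE E →L[ℂ] ℂ := ⟨(chiA hx₀).toLinearMap, continuous_chiA hx₀⟩
    let f0 : UE E →L[ℂ] UE E := ContinuousLinearMap.id ℂ (UE E) - chiL.smulRight (1 : UE E)
    have hf0 : ∀ y, f0 y = y - algebraMap ℂ (UE E) (chiA hx₀ y) := by
      intro y
      rw [Algebra.algebraMap_eq_smul_one]
      rfl
    refine ⟨f0.codRestrict _ ?_, ?_⟩
    · intro y
      rw [hf0]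
      exact (mem_jacobson hx₀ _).2 (sub_mem hx₀ y)
    · intro y
      apply Subtype.ext
      show f0 (y : UE E) = y
      rw [hf0, chiA_of_mem hx₀ ((mem_jacobson hx₀ _).1 y.2), map_zero, sub_zero]

end Am
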