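import Pool.Agent.Helper348.WDBase

set_option autoImplicit false

open MeasureTheory

namespace WD

lemma w_flip (S : Finset ℕ) (i : ℕ) : w S (flip i) = if i ∈ S then -1 else 1 := by
  unfold w
  have h : ∀ j, e j (flip i) = if j = i then -1 else 1 := by
    intro j
    unfold e flip
    by_cases hj : j = i
    · subst hj; simp
    · rw [Pi.mulSingle_eq_of_ne hj, if_neg hj]; simp
  simp only [h]
  rw [Finset.prod_ite_eq']

lemma w_circle (S : Finset ℕ) (x : G) : ((w S x : ℝ) : ℂ) ∈ Submonoid.unitSphere ℂ := by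
  show ((w S x : ℝ) : ℂ) ∈ Metric.sphere (0 : ℂ) 1
  rw [mem_sphere_zero_iff_norm, Complex.norm_real, Real.norm_eq_abs, abs_w]

/-- Walsh function as a character -/
noncomputable def wchar (S : Finset ℕ) : G →ₜ* Circle where
  toFun x := ⟨((w S x : ℝ) : ℂ), w_circle S x⟩
  map_one' := by
    apply Circle.ext
    show ((w S 1 : ℝ) : ℂ) = 1
    have : w S 1 = 1 := by unfold w e; simp
    rw [this]; simp
  map_mul' x y := by
    apply Circle.ext
    show ((w S (x * y) : ℝ) : ℂ) = ((w S x : ℝ) : ℂ) * ((w S y : ℝ) : ℂ)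
    rw [w_mul]; push_cast; rfl
  continuous_toFun := by
    apply Continuous.subtype_mk
    exact Complex.continuous_ofReal.comp (continuous_w S)

lemma wchar_coe (S : Finset ℕ) (x : G) : ((wchar S x : Circle) : ℂ) = ((w S x : ℝ) : ℂ) := rfl

lemma chi_pm (χ : G →ₜ* Circle) (x : G) : ((χ x : Circle) : ℂ) = 1 ∨ ((χ x : Circle) : ℂ) = -1 := by
  have h1 : x * x = 1 := by
    funext i
    exact Int.units_mul_self (x i)
  have h2 : χ x * χ x = 1 := by rw [← map_mul, h1, map_one]
  have h3 : ((χ x : Circle) : ℂ) * ((χ x : Circle) : ℂ) = 1 := by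
    rw [← Circle.coe_mul, h2, Circle.coe_one]
  exact mul_self_eq_one_iff.1 h3

lemma chi_surj (χ : G →ₜ* Circle) : ∃ S : Finset ℕ, ∀ x, ((χ x : Circle) : ℂ) = ((w S x : ℝ) : ℂ) := by
  classical
  have hcont : Continuous fun x : G => ((χ x : Circle) : ℂ) :=
    continuous_subtype_val.comp χ.continuous_toFun
  have hopen : IsOpen {x : G | ((χ x : Circle) : ℂ) ≠ -1} :=
    isOpen_ne_fun hcont continuous_const
  have h1mem : (1 : G) ∈ {x : G | ((χ x : Circle) : ℂ) ≠ -1} := by
    show ((χ 1 : Circle) : ℂ) ≠ -1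
    rw [map_one, Circle.coe_one]
    norm_num
  obtain ⟨I, u, hu, hsub⟩ := isOpen_pi_iff.1 hopen 1 h1mem
  have hI : ∀ z : G, (∀ i ∈ I, z i = 1) → χ z = 1 := by
    intro z hz
    have hz' : z ∈ {x : G | ((χ x : Circle) : ℂ) ≠ -1} := by
      apply hsub
      intro i hi
      rw [hz i hi]
      exact (hu i hi).2
    apply Circle.ext
    rw [Circle.coe_one]
    exact (chi_pm χ z).resolve_right hz'
  refine ⟨I.filter (fun i => ((χ (flip i) : Circle) : ℂ) = -1), fun x => ?_⟩
  have hxy : χ x = χ (∏ i ∈ I, (Pi.mulSingle i (x i) : G)) := by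
    have h2 : χ ((∏ i ∈ I, (Pi.mulSingle i (x i) : G))⁻¹ * x) = 1 := by
      apply hI
      intro j hj
      rw [Pi.mul_apply, Pi.inv_apply, Finset.prod_apply]
      have : ∏ i ∈ I, (Pi.mulSingle i (x i) : G) j = x j := by
        rw [Finset.prod_eq_single j]
        · exact Pi.mulSingle_eq_same (M := fun _ : ℕ => ℤˣ) j (x j)
        · intro b _ hb
          exact Pi.mulSingle_eq_of_ne (M := fun _ : ℕ => ℤˣ) hb.symm (x b)
        · intro h; exact absurd hj h
      rw [this, inv_mul_cancel]
    rw [map_mul, map_inv, inv_mul_eq_one] at h2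
    exact h2.symm
  rw [hxy, map_prod]
  have e1 : ((∏ i ∈ I, χ (Pi.mulSingle i (x i) : G) : Circle) : ℂ) =
      ∏ i ∈ I, ((χ (Pi.mulSingle i (x i) : G) : Circle) : ℂ) :=
    map_prod Circle.coeHom _ _
  rw [e1]
  unfold w
  rw [Finset.prod_filter]
  push_cast
  apply Finset.prod_congr rfl
  intro i _
  rcases Int.units_eq_one_or (x i) with h | h
  · rw [h, Pi.mulSingle_one, map_one, Circle.coe_one]
    have : e i x = 1 := by unfold e; rw [h]; simp
    rw [this]
    split_ifs <;> simp
  · rw [h]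
    have : e i x = -1 := by unfold e; rw [h]; simp
    rw [this]
    show ((χ (flip i) : Circle) : ℂ) = _
    split_ifs with hc
    · rw [hc]; simp
    · exact (chi_pm χ (flip i)).resolve_right hc

/-- the characters of the Cantor group are exactly the Walsh functions -/
theorem exists_dual_equiv : ∃ E : Finset ℕ ≃ PontryaginDual G,
    ∀ S x, (((E S) x : Circle) : ℂ) = ((w S x : ℝ) : ℂ) := by
  have hinj : Function.Injective (fun S : Finset ℕ => (wchar S : PontryaginDual G)) := by
    intro S T hST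
    have h : ∀ x, w S x = w T x := by
      intro x
      have h1 : ((wchar S x : Circle) : ℂ) = ((wchar T x : Circle) : ℂ) := by
        have : wchar S = wchar T := hST
        rw [this]
      rw [wchar_coe, wchar_coe] at h1
      exact_mod_cast h1
    ext i
    have h2 := h (flip i)
    rw [w_flip, w_flip] at h2
    by_cases hS : i ∈ S <;> by_cases hT : i ∈ T
    · exact ⟨fun _ => hT, fun _ => hS⟩
    · rw [if_pos hS, if_neg hT] at h2; norm_num at h2
    · rw [if_neg hS, if_pos hT] at h2; norm_num at h2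
    · exact ⟨fun h => absurd h hS, fun h => absurd h hT⟩
  have hsurj : Function.Surjective (fun S : Finset ℕ => (wchar S : PontryaginDual G)) := by
    intro χ
    obtain ⟨S, hS⟩ := chi_surj χ
    refine ⟨S, ?_⟩
    apply ContinuousMonoidHom.ext
    intro x
    apply Circle.ext
    exact (hS x).symm
  exact ⟨Equiv.ofBijective _ ⟨hinj, hsurj⟩, fun S x => rfl⟩

end WD
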