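import Pool.Agent.Helper348.AmDiag
import Pool.Agent.Helper348.WDSplit2
import Pool.Agent.Helper348.WDDual

set_option autoImplicit false

/-!
# Transfer of the concrete estimates to the normed algebras `A(Γ)`, `A_E`, `R_E`
-/

open WD

namespace Am

lemma rep_of_R {c : ℝ} {f : G → ℂ} (h : R c f) :
    ∃ a : PontryaginDual G → ℂ, Rep a f ∧ ∑' χ, ‖a χ‖ ≤ c := by
  obtain ⟨Φ, hΦ⟩ := exists_dual_equiv
  obtain ⟨a, h1, h2, h3⟩ := h
  have e1 : ∀ S, a (Φ.symm (Φ S)) = a S := fun S => by rw [Equiv.symm_apply_apply]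
  refine ⟨fun χ => a (Φ.symm χ), ⟨?_, fun x => ?_⟩, ?_⟩
  · exact (Φ.summable_iff (f := fun χ => ‖a (Φ.symm χ)‖)).1 (h1.congr fun S => by simp)
  · rw [h3 x, ← Φ.tsum_eq]
    refine tsum_congr fun S => ?_
    show a S * ((w S x : ℝ) : ℂ) = a (Φ.symm (Φ S)) * ((Φ S x : Circle) : ℂ)
    rw [e1, hΦ]
  · rw [← Φ.tsum_eq]
    simp only [e1]
    exact h2

lemma R_of_rep {a : PontryaginDual G → ℂ} {f : G → ℂ} (h : Rep a f) : R (∑' χ, ‖a χ‖) f := by
  obtain ⟨Φ, hΦ⟩ := exists_dual_equiv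
  refine ⟨fun S => a (Φ S), (Φ.summable_iff (f := fun χ => ‖a χ‖)).2 h.1, ?_, fun x => ?_⟩
  · rw [← Φ.tsum_eq]
  · rw [h.2 x, ← Φ.tsum_eq]
    exact tsum_congr fun S => by rw [hΦ]

lemma mem_of_R {c : ℝ} {f : G → ℂ} (h : R c f) : f ∈ fourierSubalgebra G := by
  obtain ⟨a, ha, _⟩ := rep_of_R h
  exact ⟨a, ha⟩

lemma nrm_of_R {c : ℝ} {f : G → ℂ} (h : R c f) : nrm f ≤ c := by
  obtain ⟨a, ha, hc⟩ := rep_of_R h
  exact (nrm_le ha).trans hc

/-- an element of `A(Γ)` from the concrete description -/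
noncomputable def toFA {c : ℝ} (f : G → ℂ) (h : R c f) : FA G := ⟨f, mem_of_R h⟩

lemma toFA_apply {c : ℝ} (f : G → ℂ) (h : R c f) (x : G) : toFA f h x = f x := rfl

lemma norm_toFA {c : ℝ} (f : G → ℂ) (h : R c f) : ‖toFA f h‖ ≤ c := nrm_of_R h

lemma R_of_lt {f : FA G} {c : ℝ} (h : ‖f‖ < c) : R c (f : G → ℂ) := by
  obtain ⟨a, ha, hlt⟩ := exists_rep_lt f.2 h
  exact R_mono (R_of_rep ha) hlt.le

lemma A_of_FA (f : FA G) : A (f : G → ℂ) := ⟨_, R_of_lt (lt_add_one _)⟩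

lemma norm_mk_le (E : Set G) (f : FA G) : ‖mk E f‖ ≤ ‖f‖ := Ideal.Quotient.norm_mk_le _ f

lemma mk_eq {E : Set G} {f g : FA G} (h : f - g ∈ JEi E) : mk E f = mk E g := by
  apply Ideal.Quotient.eq.2
  exact subset_closure h

lemma norm_mk_of_Q {E : Set G} {ε : ℝ} {f : FA G} (h : Q E ε (f : G → ℂ)) : ‖mk E f‖ ≤ ε := by
  obtain ⟨g, hg, U, hU, hEU, hfg⟩ := h
  have h1 : mk E f = mk E (toFA g hg) := by
    apply mk_eq
    refine ⟨U, hU, hEU, fun x hx => ?_⟩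
    show f x - g x = 0
    rw [hfg x hx, sub_self]
  rw [h1]
  exact (norm_mk_le E _).trans (norm_toFA g hg)

lemma JE_of_closure {E : Set G} {f : FA G} (h : f ∈ (JEi E).closure) : JE E (f : G → ℂ) := by
  intro ε hε
  have h1 : f ∈ closure ((JEi E : Ideal (FA G)) : Set (FA G)) := h
  obtain ⟨g, hg, hfg⟩ := Metric.mem_closure_iff.1 h1 ε hε
  obtain ⟨U, hU, hEU, hg0⟩ := hg
  rw [dist_eq_norm] at hfg
  refine ⟨((f - g : FA G) : G → ℂ), R_of_lt hfg, U, hU, hEU, fun x hx => ?_⟩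
  show f x = f x - g x
  rw [hg0 x hx, sub_zero]

/-- a Walsh polynomial close to `f` -/
lemma walsh_part {c η : ℝ} {f : G → ℂ} (hf : R c f) (hη : 0 < η) :
    ∃ (m : ℕ) (s : Finset (Finset ℕ)) (a : Finset ℕ → ℂ), (∀ S ∈ s, ∀ i ∈ S, i < m) ∧
      R η (fun x => f x - ∑ S ∈ s, a S * ((w S x : ℝ) : ℂ)) := by
  classical
  obtain ⟨a, h1, h2, h3⟩ := hf
  have h4 := (tendsto_order.1 h1.hasSum).1 (∑' S, ‖a S‖ - η) (by linarith)
  obtain ⟨s, hs⟩ := h4.exists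
  obtain ⟨m, hm⟩ : ∃ m, ∀ S ∈ s, ∀ i ∈ S, i < m := by
    refine ⟨(s.biUnion id).sup id + 1, ?_⟩
    intro S hS i hi
    have : i ≤ (s.biUnion id).sup id :=
      Finset.le_sup (f := id) (Finset.mem_biUnion.2 ⟨S, hS, hi⟩)
    omega
  refine ⟨m, s, a, hm, ?_⟩
  have h5 : Summable (fun S => ‖if S ∈ s then 0 else a S‖) := by
    refine Summable.of_nonneg_of_le (fun _ => norm_nonneg _) (fun S => ?_) h1
    split_ifs <;> simp
  have h6 : Summable (fun S => ‖if S ∈ s then a S else 0‖) := by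
    refine Summable.of_nonneg_of_le (fun _ => norm_nonneg _) (fun S => ?_) h1
    split_ifs <;> simp
  refine ⟨fun S => if S ∈ s then 0 else a S, h5, ?_, ?_⟩
  · have h7 : ∑' S, ‖if S ∈ s then a S else 0‖ = ∑ S ∈ s, ‖a S‖ := by
      rw [tsum_eq_sum (s := s)]
      · exact Finset.sum_congr rfl fun S hS => by simp [hS]
      · intro S hS; simp [hS]
    have h8 : ∑' S, ‖a S‖ = ∑' S, ‖if S ∈ s then a S else 0‖ + ∑' S, ‖if S ∈ s then 0 else a S‖ := by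
      rw [← h6.tsum_add h5]
      exact tsum_congr fun S => by split_ifs <;> simp
    linarith
  · intro x
    have h9 : f x = ∑' S, (if S ∈ s then a S else 0) * ((w S x : ℝ) : ℂ)
        + ∑' S, (if S ∈ s then 0 else a S) * ((w S x : ℝ) : ℂ) := by
      rw [h3, ← (summable_term h6 x).tsum_add (summable_term h5 x)]
      exact tsum_congr fun S => by split_ifs <;> simp
    have h10 : ∑' S, (if S ∈ s then a S else 0) * ((w S x : ℝ) : ℂ)
        = ∑ S ∈ s, a S * ((w S x : ℝ) : ℂ) := by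
      rw [tsum_eq_sum (s := s)]
      · exact Finset.sum_congr rfl fun S hS => by simp [hS]
      · intro S hS; simp [hS]
    show f x - ∑ S ∈ s, a S * ((w S x : ℝ) : ℂ) = _
    rw [h9, h10]; ring

end Am
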