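import Pool.Agent.Helper348.AmRad
import Pool.Agent.Helper348.AmAbs

set_option autoImplicit false

/-!
# The unital algebra `ℂ1 + R_E`
-/

open WD Filter Topology
open scoped TensorProduct

namespace Am

variable {E : Set G}

/-- `R_E` as an ideal of `A_E` -/
noncomputable def RI (E : Set G) : Ideal (AE E) where
  carrier := {y | y ∈ subRE E}
  add_mem' := (subRE E).add_mem
  zero_mem' := (subRE E).zero_mem
  smul_mem' := fun c _ hy => mul_mem_subRE c hy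

lemma mem_RI {y : AE E} : y ∈ RI E ↔ y ∈ subRE E := Iff.rfl

/-- `ℂ1 + R_E` -/
noncomputable def UE (E : Set G) : Subalgebra ℂ (AE E) where
  carrier := {y | ∃ c : ℂ, y - algebraMap ℂ (AE E) c ∈ RI E}
  mul_mem' := by
    rintro y z ⟨c, hc⟩ ⟨d, hd⟩
    refine ⟨c * d, ?_⟩
    have h1 : y * z - algebraMap ℂ (AE E) (c * d) =
        z * (y - algebraMap ℂ (AE E) c) +
          algebraMap ℂ (AE E) c * (z - algebraMap ℂ (AE E) d) := by
      rw [map_mul]; ring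
    rw [h1]
    exact (RI E).add_mem ((RI E).mul_mem_left _ hc) ((RI E).mul_mem_left _ hd)
  add_mem' := by
    rintro y z ⟨c, hc⟩ ⟨d, hd⟩
    refine ⟨c + d, ?_⟩
    have h1 : y + z - algebraMap ℂ (AE E) (c + d) =
        (y - algebraMap ℂ (AE E) c) + (z - algebraMap ℂ (AE E) d) := by
      rw [map_add]; ring
    rw [h1]
    exact (RI E).add_mem hc hd
  algebraMap_mem' := fun c => ⟨c, by rw [sub_self]; exact (RI E).zero_mem⟩

lemma mem_UE {y : AE E} : y ∈ UE E ↔ ∃ c : ℂ, y - algebraMap ℂ (AE E) c ∈ RI E := Iff.rfl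

lemma RI_le_UE {y : AE E} (hy : y ∈ RI E) : y ∈ UE E := ⟨0, by rwa [map_zero, sub_zero]⟩

lemma chi_algebraMap {x : G} (hx : x ∈ E) (c : ℂ) : chi hx (algebraMap ℂ (AE E) c) = c := by
  rw [Algebra.algebraMap_eq_smul_one, chi_smul, map_one, mul_one]

lemma UE_iff {x : G} (hx : x ∈ E) (y : AE E) :
    y ∈ UE E ↔ y - algebraMap ℂ (AE E) (chi hx y) ∈ RI E := by
  constructor
  · rintro ⟨c, hc⟩
    have h1 : chi hx (y - algebraMap ℂ (AE E) c) = 0 :=
      (mem_subRE_iff _).1 hc x hx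
    rw [map_sub, chi_algebraMap, sub_eq_zero] at h1
    rw [h1]
    exact hc
  · intro h
    exact ⟨_, h⟩

lemma isClosed_UE {x : G} (hx : x ∈ E) : IsClosed ((UE E : Subalgebra ℂ (AE E)) : Set (AE E)) := by
  have h1 : ((UE E : Subalgebra ℂ (AE E)) : Set (AE E)) =
      (fun y => y - algebraMap ℂ (AE E) (chi hx y)) ⁻¹' (subRE E : Set (AE E)) := by
    ext y
    exact UE_iff hx y
  rw [h1]
  refine isClosed_subRE.preimage ?_
  exact continuous_id.sub ((continuous_algebraMap ℂ (AE E)).comp (continuous_chi hx))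

lemma complete_UE {x : G} (hx : x ∈ E) : CompleteSpace (UE E) :=
  (isClosed_UE hx).completeSpace_coe

/-- the Walsh functions in `A_E` -/
noncomputable def Wt (E : Set G) (S : Finset ℕ) : AE E := mk E (toFA _ (R_w S))

open scoped Classical in
lemma Wt_symm (S T : Finset ℕ) : Wt E (symmDiff S T) = Wt E S * Wt E T := by
  unfold Wt
  rw [← map_mul]
  congr 1
  apply Subtype.ext
  funext x
  show ((w (symmDiff S T) x : ℝ) : ℂ) = ((w S x : ℝ) : ℂ) * ((w T x : ℝ) : ℂ)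
  rw [w_symm]
  push_cast
  ring

lemma Wt_empty : Wt E ∅ = 1 := by
  unfold Wt
  have h1 : toFA _ (R_w ∅) = (1 : FA G) := by
    apply Subtype.ext
    funext x
    show ((w ∅ x : ℝ) : ℂ) = 1
    simp [w]
  rw [h1, map_one]

lemma norm_Wt (S : Finset ℕ) : ‖Wt E S‖ ≤ 1 := (norm_mk_le E _).trans (norm_toFA _ _)

lemma Wt_dense (b : AE E) (δ : ℝ) (hδ : 0 < δ) :
    ∃ (m : ℕ) (s : Finset (Finset ℕ)) (α : Finset ℕ → ℂ),
      (∀ S ∈ s, ∀ i ∈ S, i < m) ∧ ‖b - ∑ S ∈ s, α S • Wt E S‖ ≤ δ := by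
  obtain ⟨f, rfl⟩ := mk_surj b
  obtain ⟨d, hd⟩ := A_of_FA f
  obtain ⟨m, s, α, hs, hr⟩ := walsh_part hd hδ
  refine ⟨m, s, α, hs, ?_⟩
  have h1 : mk E f - ∑ S ∈ s, α S • Wt E S = mk E (toFA _ hr) := by
    have h2 : ∑ S ∈ s, α S • Wt E S = mk E (∑ S ∈ s, α S • toFA _ (R_w S)) := by
      rw [map_sum]
      rfl
    rw [h2, ← map_sub]
    congr 1
    apply Subtype.ext
    funext x
    show ev x (f - ∑ S ∈ s, α S • toFA _ (R_w S)) = _
    rw [map_sub, map_sum]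
    rfl
  rw [h1]
  exact (norm_mk_le E _).trans (norm_toFA _ hr)

/-- the data: a set of non-synthesis and its approximate units -/
theorem exists_data : ∃ (E : Set G) (x₀ : G) (_ : x₀ ∈ E) (r : AE E) (_ : r ∈ RI E) (_ : r ≠ 0)
    (C : ℝ) (U : ℕ → AE E), (∀ n, U n ∈ RI E) ∧ (∀ n, ‖U n‖ ≤ C) ∧
      ∀ y ∈ RI E, Tendsto (fun n => ‖y - U n * y‖) atTop (𝓝 0) := by
  obtain ⟨E, hE, ⟨f, hf, hf0, hfJ⟩, C, u, hu, h0, hap⟩ := bai_package
  obtain ⟨c, hc⟩ := hf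
  have hne : E.Nonempty := by
    by_contra hne
    rw [Set.not_nonempty_iff_eq_empty] at hne
    apply hfJ
    intro ε hε
    refine ⟨fun _ => 0, R_mono R_zero hε.le, ∅, isOpen_empty, by rw [hne], fun x hx => hx.elim⟩
  obtain ⟨x₀, hx₀⟩ := hne
  refine ⟨E, x₀, hx₀, mk E (toFA f hc), ⟨toFA f hc, hf0, rfl⟩, ?_, C,
    fun n => mk E (toFA (u n) (hu n)), fun n => ⟨toFA (u n) (hu n), h0 n, rfl⟩,
    fun n => (norm_mk_le E _).trans (norm_toFA _ _), ?_⟩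
  · intro h
    apply hfJ
    exact JE_of_closure (f := toFA f hc) (Ideal.Quotient.eq_zero_iff_mem.1 h)
  · rintro y ⟨g, hg, rfl⟩
    rw [tendsto_order]
    refine ⟨fun b hb => Filter.Eventually.of_forall fun n => lt_of_lt_of_le hb (norm_nonneg _), ?_⟩
    intro b hb
    filter_upwards [hap (g : G → ℂ) (A_of_FA g) hg (b / 2) (by linarith)] with n hn
    have h1 : mk E g - mk E (toFA (u n) (hu n)) * mk E g =
        mk E (g - toFA (u n) (hu n) * g) := by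
      rw [map_sub, map_mul]
    show ‖mk E g - mk E (toFA (u n) (hu n)) * mk E g‖ < b
    rw [h1]
    have h2 : ‖mk E (g - toFA (u n) (hu n) * g)‖ ≤ b / 2 := norm_mk_of_Q hn
    linarith

/-- approximate diagonal of `ℂ1 + R_E` -/
theorem UE_diag {C : ℝ} {U : ℕ → AE E} (hUI : ∀ n, U n ∈ RI E) (hU : ∀ n, ‖U n‖ ≤ C)
    (hap : ∀ y ∈ RI E, Tendsto (fun n => ‖y - U n * y‖) atTop (𝓝 0)) :
    ∃ (K : ℝ) (s : ℕ → Finset (Option (Finset ℕ))) (a b : ℕ → Option (Finset ℕ) → UE E),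
      (∀ n, ∑ i ∈ s n, ‖a n i‖ * ‖b n i‖ ≤ K) ∧
      Tendsto (fun n => ∑ i ∈ s n, a n i * b n i) atTop (𝓝 1) ∧
      ∀ c : UE E, ∀ ε : ℝ, 0 < ε → ∀ᶠ n in atTop,
        PN (∑ i ∈ s n, ((c * a n i) ⊗ₜ[ℂ] b n i - a n i ⊗ₜ[ℂ] (b n i * c))) ε :=
  seq_diag (UE E) (RI E) (fun _ hy => RI_le_UE hy) (fun _ hy => hy) (Wt E)
    (fun S T => by convert Wt_symm (E := E) S T) Wt_empty norm_Wt
    (fun b δ hδ => Wt_dense b δ hδ) U hUI C hU hap

end Am
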