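import Pool.Agent.Helper348.AmCoeff

set_option autoImplicit false

open MeasureTheory

namespace WD



theorem Lev.mono' {m n : ℕ} {α : Type} {u : G → α} (h : Lev m u) (hmn : m ≤ n) : Lev n u :=
  fun x y hxy => h x y fun i hi => hxy i (lt_of_lt_of_le hi hmn)

theorem lev_e {i M : ℕ} (h : i < M) : Lev M (e i) := fun x y hxy => by
  unfold e; rw [hxy i h]

theorem Lev.inv_flip {M j : ℕ} {α : Type} {u : G → α} (h : Lev M u) (hj : M ≤ j) (x : G) :
    u (flip j * x) = u x := by
  apply h
  intro i hi
  have hne : i ≠ j := by omega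
  rw [Pi.mul_apply]
  unfold flip
  rw [Pi.mulSingle_eq_of_ne hne, one_mul]

theorem lev_Bk {M L m K : ℕ} {v : ℕ → G → ℝ} (hv : ∀ i, Lev m (v i)) (hm : m ≤ K)
    (hML : M + L ≤ K) (a : ℝ) : Lev K (Bk M L v a) := by
  intro x y hxy
  unfold Bk
  congr 2
  apply Finset.prod_congr rfl
  intro i hi
  rw [Finset.mem_range] at hi
  rw [(hv i).mono' hm x y hxy, lev_e (show M + i < K by omega) x y hxy]

theorem lev_DB {m L N : ℕ} {v : ℕ → G → ℝ} (hv : ∀ i, Lev m (v i)) (a : ℝ) :
    Lev (m + N * L) (DB m L N v a) := by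
  intro x y hxy
  unfold DB
  apply Finset.prod_congr rfl
  intro k hk
  rw [Finset.mem_range] at hk
  refine lev_Bk (K := m + N * L) hv (by omega) ?_ a x y hxy
  have : (k + 1) * L ≤ N * L := Nat.mul_le_mul_right L hk
  rw [add_mul] at this
  omega

theorem lev_fl {M t K : ℕ} (h : M + t ≤ K) : Lev K (fl M t) := by
  intro x y hxy
  unfold fl
  apply Finset.prod_congr rfl
  intro i hi
  rw [Finset.mem_range] at hi
  rw [lev_e (show M + i < K by omega) x y hxy]

theorem DB_succ (m L N : ℕ) (v : ℕ → G → ℝ) (a : ℝ) (x : G) :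
    DB m L (N + 1) v a x = DB m L N v a x * Bk (m + N * L) L v a x := by
  unfold DB
  rw [Finset.prod_range_succ]

theorem iadd (ν : Measure G) [IsProbabilityMeasure ν] {f g : G → ℝ} (hf : Continuous f) (hg : Continuous g) :
    ∫ x, (f x + g x) ∂ν = ∫ x, f x ∂ν + ∫ x, g x ∂ν :=
  integral_add (int_cont ν hf) (int_cont ν hg)

theorem int_prod_one (ν : Measure G) [IsProbabilityMeasure ν] [ν.IsMulLeftInvariant]
    (M s : ℕ) (c : ℕ → G → ℝ) (hcc : ∀ i, Continuous (c i))
    (hci : ∀ j i, i < s → ∀ x, c j (flip (M + i) * x) = c j x)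
    (u : G → ℝ) (hu : Continuous u) (hui : ∀ i, i < s → ∀ x, u (flip (M + i) * x) = u x) :
    ∫ x, u x * ∏ i ∈ Finset.range s, (1 + c i x * e (M + i) x) ∂ν = ∫ x, u x ∂ν := by
  induction s with
  | zero => simp
  | succ s ih =>
    have hP : Continuous (fun x => ∏ i ∈ Finset.range s, (1 + c i x * e (M + i) x)) :=
      continuous_finsetProd _ fun i _ => continuous_const.add ((hcc i).mul (continuous_e _))
    have e1 : (fun x => u x * ∏ i ∈ Finset.range (s + 1), (1 + c i x * e (M + i) x)) =
        fun x => u x * ∏ i ∈ Finset.range s, (1 + c i x * e (M + i) x) +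
          (u x * (∏ i ∈ Finset.range s, (1 + c i x * e (M + i) x)) * c s x) * e (M + s) x := by
      funext x
      rw [Finset.prod_range_succ]
      ring
    have cA : Continuous (fun x => u x * ∏ i ∈ Finset.range s, (1 + c i x * e (M + i) x)) := hu.mul hP
    have cB : Continuous (fun x => u x * (∏ i ∈ Finset.range s, (1 + c i x * e (M + i) x)) * c s x * e (M + s) x) :=
      ((hu.mul hP).mul (hcc s)).mul (continuous_e _)
    rw [e1, iadd ν cA cB,
      int_odd ν (M + s), add_zero]
    · exact ih (fun j i hi => hci j i (by omega)) (fun i hi => hui i (by omega))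
    · intro x
      rw [hui s (by omega), hci s s (by omega)]
      congr 2
      apply Finset.prod_congr rfl
      intro i hi
      rw [Finset.mem_range] at hi
      rw [hci i s (by omega), e_flip_ne _ _ (by omega)]

section block

variable (ν : Measure G) [IsProbabilityMeasure ν] [ν.IsMulLeftInvariant]

theorem continuous_fl (M t : ℕ) : Continuous (fl M t) := by
  unfold fl
  exact continuous_finsetProd _ fun i _ => (continuous_const.add (continuous_e _)).div_const _

theorem continuous_Pv (M L : ℕ) (v : ℕ → G → ℝ) (hvc : ∀ i, Continuous (v i)) :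
    Continuous (fun x => ∏ i ∈ Finset.range L, (1 + v i x * e (M + i) x)) :=
  continuous_finsetProd _ fun i _ => continuous_const.add ((hvc i).mul (continuous_e _))

theorem continuous_Bk (M L : ℕ) (v : ℕ → G → ℝ) (hvc : ∀ i, Continuous (v i)) (a : ℝ) :
    Continuous (Bk M L v a) :=
  continuous_const.add (continuous_const.mul (continuous_Pv M L v hvc))

theorem fl_eq (M t : ℕ) (x : G) : fl M t x = (1 / 2) ^ t * ∏ i ∈ Finset.range t, (1 + 1 * e (M + i) x) := by
  unfold fl
  rw [← Finset.card_range t, ← Finset.prod_const, Finset.card_range, ← Finset.prod_mul_distrib]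
  apply Finset.prod_congr rfl
  intro i _
  ring

theorem int_fl (M t : ℕ) (u : G → ℝ) (hu : Continuous u)
    (hui : ∀ i, i < t → ∀ x, u (flip (M + i) * x) = u x) :
    ∫ x, u x * fl M t x ∂ν = (1 / 2) ^ t * ∫ x, u x ∂ν := by
  have h1 := int_prod_one ν M t (fun _ _ => 1) (fun _ => continuous_const) (fun _ _ _ _ => rfl) u hu hui
  have e1 : (fun x => u x * fl M t x) = fun x => (1 / 2) ^ t *
      (u x * ∏ i ∈ Finset.range t, (1 + 1 * e (M + i) x)) := by
    funext x
    rw [fl_eq]
    ring
  rw [e1, integral_const_mul, h1]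

theorem int_Bk (M L : ℕ) (v : ℕ → G → ℝ) (hvc : ∀ i, Continuous (v i))
    (hvi : ∀ j i, i < L → ∀ x, v j (flip (M + i) * x) = v j x)
    (u : G → ℝ) (hu : Continuous u) (hui : ∀ i, i < L → ∀ x, u (flip (M + i) * x) = u x) (a : ℝ) :
    ∫ x, u x * Bk M L v a x ∂ν = ∫ x, u x ∂ν := by
  have h1 := int_prod_one ν M L v hvc hvi u hu hui
  have e1 : (fun x => u x * Bk M L v a x) = fun x => (1 - a) * u x +
      a * (u x * ∏ i ∈ Finset.range L, (1 + v i x * e (M + i) x)) := by
    funext x
    unfold Bk
    ring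
  have cA : Continuous (fun x => (1 - a) * u x) := continuous_const.mul hu
  have cB : Continuous (fun x => a * (u x * ∏ i ∈ Finset.range L, (1 + v i x * e (M + i) x))) :=
    continuous_const.mul (hu.mul (continuous_Pv M L v hvc))
  rw [e1, iadd ν cA cB, integral_const_mul,
    integral_const_mul, h1]
  ring

theorem fl_mul_P (M L t : ℕ) (htL : t ≤ L) (v : ℕ → G → ℝ) (hvt : ∀ i x, i < t → v i x = 1) (x : G) :
    fl M t x * ∏ i ∈ Finset.range L, (1 + v i x * e (M + i) x) =
      ∏ i ∈ Finset.range L, (1 + v i x * e (M + i) x) := by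
  obtain ⟨r, rfl⟩ := Nat.exists_eq_add_of_le htL
  rw [Finset.prod_range_add, ← mul_assoc]
  congr 1
  unfold fl
  rw [← Finset.prod_mul_distrib]
  apply Finset.prod_congr rfl
  intro i hi
  rw [Finset.mem_range] at hi
  rw [hvt i x hi]
  have := e_mul_self (M + i) x
  linear_combination (1 / 2) * this

theorem fl_zero_one (M t : ℕ) (x : G) : fl M t x = 0 ∨ fl M t x = 1 := by
  unfold fl
  induction t with
  | zero => right; simp
  | succ t ih =>
    rw [Finset.prod_range_succ]
    rcases ih with h | h
    · left; rw [h, zero_mul]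
    · rw [h]
      rcases e_eq (M + t) x with h2 | h2
      · right; rw [h2]; norm_num
      · left; rw [h2]; norm_num

theorem int_Bk_fl (M L t : ℕ) (htL : t ≤ L) (v : ℕ → G → ℝ) (hvc : ∀ i, Continuous (v i))
    (hvt : ∀ i x, i < t → v i x = 1)
    (hvi : ∀ j i, i < L → ∀ x, v j (flip (M + i) * x) = v j x)
    (u : G → ℝ) (hu : Continuous u) (hui : ∀ i, i < L → ∀ x, u (flip (M + i) * x) = u x) (a : ℝ) :
    ∫ x, u x * Bk M L v a x * fl M t x ∂ν = (a + (1 - a) * (1 / 2) ^ t) * ∫ x, u x ∂ν := by
  have h1 := int_prod_one ν M L v hvc hvi u hu hui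
  have h2 := int_fl ν M t u hu (fun i hi => hui i (by omega))
  have e1 : (fun x => u x * Bk M L v a x * fl M t x) = fun x => (1 - a) * (u x * fl M t x) +
      a * (u x * ∏ i ∈ Finset.range L, (1 + v i x * e (M + i) x)) := by
    funext x
    have h3 := fl_mul_P M L t htL v hvt x
    unfold Bk
    linear_combination (a * u x) * h3
  have cA : Continuous (fun x => (1 - a) * (u x * fl M t x)) :=
    continuous_const.mul (hu.mul (continuous_fl M t))
  have cB : Continuous (fun x => a * (u x * ∏ i ∈ Finset.range L, (1 + v i x * e (M + i) x))) :=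
    continuous_const.mul (hu.mul (continuous_Pv M L v hvc))
  rw [e1, iadd ν cA cB, integral_const_mul,
    integral_const_mul, h1, h2]
  ring

theorem P_bad (M L : ℕ) (v : ℕ → G → ℝ) (hv1 : ∀ i x, v i x = 1 ∨ v i x = -1) (x : G) :
    (∏ i ∈ Finset.range L, (1 + v i x * e (M + i) x)) *
      (1 - ∏ i ∈ Finset.range L, ((1 + v i x * e (M + i) x) / 2)) = 0 := by
  have hf : ∀ i, (1 + v i x * e (M + i) x) = 0 ∨ (1 + v i x * e (M + i) x) = 2 := by
    intro i
    rcases hv1 i x with h | h <;> rcases e_eq (M + i) x with h2 | h2 <;> rw [h, h2] <;> norm_num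
  by_cases hex : ∃ i ∈ Finset.range L, (1 + v i x * e (M + i) x) = 0
  · obtain ⟨i, hi, h0⟩ := hex
    rw [Finset.prod_eq_zero hi h0, zero_mul]
  · push Not at hex
    have : ∏ i ∈ Finset.range L, ((1 + v i x * e (M + i) x) / 2) = 1 := by
      apply Finset.prod_eq_one
      intro i hi
      rcases hf i with h | h
      · exact absurd h (hex i hi)
      · rw [h]; norm_num
    rw [this, sub_self, mul_zero]

theorem factor_nonneg (M i : ℕ) (v : ℕ → G → ℝ) (hv1 : ∀ i x, v i x = 1 ∨ v i x = -1) (x : G) :
    0 ≤ 1 + v i x * e (M + i) x := by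
  rcases hv1 i x with h | h <;> rcases e_eq (M + i) x with h2 | h2 <;> rw [h, h2] <;> norm_num

theorem Bk_nonneg (M L : ℕ) (v : ℕ → G → ℝ) (hv1 : ∀ i x, v i x = 1 ∨ v i x = -1) (a : ℝ)
    (ha0 : 0 ≤ a) (ha1 : a ≤ 1) (x : G) : 0 ≤ Bk M L v a x := by
  unfold Bk
  have : 0 ≤ ∏ i ∈ Finset.range L, (1 + v i x * e (M + i) x) :=
    Finset.prod_nonneg fun i _ => factor_nonneg M i v hv1 x
  have := mul_nonneg ha0 this
  linarith

theorem DB_nonneg (m L N : ℕ) (v : ℕ → G → ℝ) (hv1 : ∀ i x, v i x = 1 ∨ v i x = -1) (a : ℝ)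
    (ha0 : 0 ≤ a) (ha1 : a ≤ 1) (x : G) : 0 ≤ DB m L N v a x :=
  Finset.prod_nonneg fun _ _ => Bk_nonneg _ L v hv1 a ha0 ha1 x

theorem int_pDB (m L N : ℕ) (v : ℕ → G → ℝ) (hv : ∀ i, Lev m (v i))
    (p : G → ℝ) (hp : Lev m p) (a : ℝ) :
    ∫ x, p x * DB m L N v a x ∂ν = ∫ x, p x ∂ν := by
  induction N with
  | zero => simp [DB]
  | succ N ih =>
    have hU : Lev (m + N * L) (fun x => p x * DB m L N v a x) := by
      intro x y hxy
      simp only
      rw [hp.mono' (by omega) x y hxy, lev_DB hv a x y hxy]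
    have e1 : (fun x => p x * DB m L (N + 1) v a x) =
        fun x => (p x * DB m L N v a x) * Bk (m + N * L) L v a x := by
      funext x
      rw [DB_succ]
      ring
    rw [e1, int_Bk ν (m + N * L) L v (fun i => (hv i).continuous)
      (fun j i _ x => (hv j).inv_flip (by omega) x) _ hU.continuous
      (fun i _ x => hU.inv_flip (by omega) x) a, ih]

end block

/-- Chebyshev-type estimate for the number of flagged blocks -/
theorem block_var (ν : Measure G) [IsProbabilityMeasure ν] [ν.IsMulLeftInvariant]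
    (m L N t : ℕ) (htL : t ≤ L) (v : ℕ → G → ℝ) (hv : ∀ i, Lev m (v i))
    (hv1 : ∀ i x, v i x = 1 ∨ v i x = -1) (hvt : ∀ i x, i < t → v i x = 1)
    (p : G → ℝ) (hp : Lev m p) (hp0 : ∀ x, 0 ≤ p x) (a : ℝ) (ha0 : 0 ≤ a) (ha1 : a ≤ 1) :
    ∫ x, p x * DB m L N v a x *
      (∑ k ∈ Finset.range N, (fl (m + k * L) t x - (a + (1 - a) * (1 / 2) ^ t))) ^ 2 ∂ν
      ≤ N * ∫ x, p x ∂ν := by
  set b : ℝ := a + (1 - a) * (1 / 2) ^ t with hb
  have hpow0 : (0:ℝ) ≤ (1 / 2) ^ t := by positivity
  have hpow1 : ((1:ℝ) / 2) ^ t ≤ 1 := pow_le_one₀ (by norm_num) (by norm_num)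
  have hb0 : 0 ≤ b := add_nonneg ha0 (mul_nonneg (by linarith) hpow0)
  have hb1 : b ≤ 1 := by nlinarith
  induction N with
  | zero => simp
  | succ N ih =>
    set S : G → ℝ := fun x => ∑ k ∈ Finset.range N, (fl (m + k * L) t x - b) with hS
    have hSl : Lev (m + N * L) S := by
      intro x y hxy
      simp only [hS]
      apply Finset.sum_congr rfl
      intro k hk
      rw [Finset.mem_range] at hk
      rw [lev_fl (K := m + N * L) ?_ x y hxy]
      have : (k + 1) * L ≤ N * L := Nat.mul_le_mul_right L hk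
      rw [add_mul] at this
      omega
    have hpl : Lev (m + N * L) p := hp.mono' (by omega)
    have hDl : Lev (m + N * L) (DB m L N v a) := lev_DB hv a
    have hU2 : Lev (m + N * L) (fun x => p x * DB m L N v a x * S x ^ 2) := by
      intro x y hxy
      simp only
      rw [hpl x y hxy, hDl x y hxy, hSl x y hxy]
    have hU1 : Lev (m + N * L) (fun x => p x * DB m L N v a x * S x) := by
      intro x y hxy
      simp only
      rw [hpl x y hxy, hDl x y hxy, hSl x y hxy]
    have hU0 : Lev (m + N * L) (fun x => p x * DB m L N v a x) := by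
      intro x y hxy
      simp only
      rw [hpl x y hxy, hDl x y hxy]
    have hvc : ∀ i, Continuous (v i) := fun i => (hv i).continuous
    have hvi : ∀ j i, i < L → ∀ x, v j (flip (m + N * L + i) * x) = v j x :=
      fun j i _ x => (hv j).inv_flip (by omega) x
    have hflc := continuous_fl (m + N * L) t
    have hBc := continuous_Bk (m + N * L) L v hvc a
    have i2 := int_Bk ν (m + N * L) L v hvc hvi _ hU2.continuous (fun i _ x => hU2.inv_flip (by omega) x) a
    have i1 := int_Bk ν (m + N * L) L v hvc hvi _ hU1.continuous (fun i _ x => hU1.inv_flip (by omega) x) a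
    have i1f := int_Bk_fl ν (m + N * L) L t htL v hvc hvt hvi _ hU1.continuous (fun i _ x => hU1.inv_flip (by omega) x) a
    have i0 := int_Bk ν (m + N * L) L v hvc hvi _ hU0.continuous (fun i _ x => hU0.inv_flip (by omega) x) a
    have i0f := int_Bk_fl ν (m + N * L) L t htL v hvc hvt hvi _ hU0.continuous (fun i _ x => hU0.inv_flip (by omega) x) a
    rw [← hb] at i1f i0f
    have hI := int_pDB ν m L N v hv p hp a
    have e1 : (fun x => p x * DB m L (N + 1) v a x *
        (∑ k ∈ Finset.range (N + 1), (fl (m + k * L) t x - b)) ^ 2) = fun x =>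
        ((((p x * DB m L N v a x * S x ^ 2) * Bk (m + N * L) L v a x +
          2 * (p x * DB m L N v a x * S x * Bk (m + N * L) L v a x * fl (m + N * L) t x)) +
          (-2 * b) * (p x * DB m L N v a x * S x * Bk (m + N * L) L v a x)) +
          (1 - 2 * b) * (p x * DB m L N v a x * Bk (m + N * L) L v a x * fl (m + N * L) t x)) +
          b ^ 2 * (p x * DB m L N v a x * Bk (m + N * L) L v a x) := by
      funext x
      rw [Finset.sum_range_succ, DB_succ]
      have hf : fl (m + N * L) t x ^ 2 = fl (m + N * L) t x := by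
        rcases fl_zero_one (m + N * L) t x with h | h <;> rw [h] <;> norm_num
      have hSx : S x = ∑ k ∈ Finset.range N, (fl (m + k * L) t x - b) := rfl
      rw [← hSx]
      linear_combination (p x * DB m L N v a x * Bk (m + N * L) L v a x) * hf
    have c2 := hU2.continuous
    have c1 := hU1.continuous
    have c0 := hU0.continuous
    have cc1 : Continuous (fun x => (p x * DB m L N v a x * S x ^ 2) * Bk (m + N * L) L v a x) := c2.mul hBc
    have cc2 : Continuous (fun x => 2 * (p x * DB m L N v a x * S x * Bk (m + N * L) L v a x * fl (m + N * L) t x)) :=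
      continuous_const.mul ((c1.mul hBc).mul hflc)
    have cc3 : Continuous (fun x => (-2 * b) * (p x * DB m L N v a x * S x * Bk (m + N * L) L v a x)) :=
      continuous_const.mul (c1.mul hBc)
    have cc4 : Continuous (fun x => (1 - 2 * b) * (p x * DB m L N v a x * Bk (m + N * L) L v a x * fl (m + N * L) t x)) :=
      continuous_const.mul ((c0.mul hBc).mul hflc)
    have cc5 : Continuous (fun x => b ^ 2 * (p x * DB m L N v a x * Bk (m + N * L) L v a x)) :=
      continuous_const.mul (c0.mul hBc)
    have cc12 : Continuous (fun x => (p x * DB m L N v a x * S x ^ 2) * Bk (m + N * L) L v a x +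
      2 * (p x * DB m L N v a x * S x * Bk (m + N * L) L v a x * fl (m + N * L) t x)) := cc1.add cc2
    have cc123 : Continuous (fun x => ((p x * DB m L N v a x * S x ^ 2) * Bk (m + N * L) L v a x +
      2 * (p x * DB m L N v a x * S x * Bk (m + N * L) L v a x * fl (m + N * L) t x)) +
      (-2 * b) * (p x * DB m L N v a x * S x * Bk (m + N * L) L v a x)) := cc12.add cc3
    have cc1234 : Continuous (fun x => (((p x * DB m L N v a x * S x ^ 2) * Bk (m + N * L) L v a x +
      2 * (p x * DB m L N v a x * S x * Bk (m + N * L) L v a x * fl (m + N * L) t x)) +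
      (-2 * b) * (p x * DB m L N v a x * S x * Bk (m + N * L) L v a x)) +
      (1 - 2 * b) * (p x * DB m L N v a x * Bk (m + N * L) L v a x * fl (m + N * L) t x)) := cc123.add cc4
    rw [e1, iadd ν cc1234 cc5, iadd ν cc123 cc4, iadd ν cc12 cc3, iadd ν cc1 cc2,
      integral_const_mul, integral_const_mul, integral_const_mul, integral_const_mul,
      i2, i1f, i1, i0f, i0, hI]
    have hIp : 0 ≤ ∫ x, p x ∂ν := integral_nonneg hp0
    push_cast
    have hbb : 0 ≤ 1 - b * (1 - b) := by nlinarith
    have := mul_nonneg hbb hIp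
    linarith

/-- a flagged block is almost surely equal to `v(x)` -/
theorem block_bad (ν : Measure G) [IsProbabilityMeasure ν] [ν.IsMulLeftInvariant]
    (m L N t : ℕ) (htL : t ≤ L) (v : ℕ → G → ℝ) (hv : ∀ i, Lev m (v i))
    (hv1 : ∀ i x, v i x = 1 ∨ v i x = -1) (hvt : ∀ i x, i < t → v i x = 1)
    (p : G → ℝ) (hp : Lev m p) (hp0 : ∀ x, 0 ≤ p x) (a : ℝ) (ha0 : 0 ≤ a) (ha1 : a ≤ 1) :
    ∫ x, p x * DB m L N v a x *
      (∑ k ∈ Finset.range N, fl (m + k * L) t x *
        (1 - ∏ i ∈ Finset.range L, ((1 + v i x * e (m + k * L + i) x) / 2))) ∂ν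
      ≤ N * (1 / 2) ^ t * ∫ x, p x ∂ν := by
  induction N with
  | zero => simp
  | succ N ih =>
    set S : G → ℝ := fun x => ∑ k ∈ Finset.range N, fl (m + k * L) t x *
        (1 - ∏ i ∈ Finset.range L, ((1 + v i x * e (m + k * L + i) x) / 2)) with hS
    have hSl : Lev (m + N * L) S := by
      intro x y hxy
      simp only [hS]
      apply Finset.sum_congr rfl
      intro k hk
      rw [Finset.mem_range] at hk
      have hkN : (k + 1) * L ≤ N * L := Nat.mul_le_mul_right L hk
      rw [add_mul] at hkN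
      rw [lev_fl (K := m + N * L) (by omega) x y hxy]
      congr 2
      apply Finset.prod_congr rfl
      intro i hi
      rw [Finset.mem_range] at hi
      rw [(hv i).mono' (by omega : m ≤ m + N * L) x y hxy,
        lev_e (show m + k * L + i < m + N * L by omega) x y hxy]
    have hpl : Lev (m + N * L) p := hp.mono' (by omega)
    have hDl : Lev (m + N * L) (DB m L N v a) := lev_DB hv a
    have hU1 : Lev (m + N * L) (fun x => p x * DB m L N v a x * S x) := by
      intro x y hxy
      simp only
      rw [hpl x y hxy, hDl x y hxy, hSl x y hxy]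
    have hU0 : Lev (m + N * L) (fun x => p x * DB m L N v a x) := by
      intro x y hxy
      simp only
      rw [hpl x y hxy, hDl x y hxy]
    have hvc : ∀ i, Continuous (v i) := fun i => (hv i).continuous
    have hvi : ∀ j i, i < L → ∀ x, v j (flip (m + N * L + i) * x) = v j x :=
      fun j i _ x => (hv j).inv_flip (by omega) x
    have hflc := continuous_fl (m + N * L) t
    have hBc := continuous_Bk (m + N * L) L v hvc a
    have hPc : Continuous (fun x => ∏ i ∈ Finset.range L, ((1 + v i x * e (m + N * L + i) x) / 2)) :=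
      continuous_finsetProd _ fun i _ => (continuous_const.add ((hvc i).mul (continuous_e _))).div_const _
    have i1 := int_Bk ν (m + N * L) L v hvc hvi _ hU1.continuous (fun i _ x => hU1.inv_flip (by omega) x) a
    have i0f := int_fl ν (m + N * L) t _ hU0.continuous (fun i _ x => hU0.inv_flip (by omega) x)
    have hI := int_pDB ν m L N v hv p hp a
    have e1 : (fun x => p x * DB m L (N + 1) v a x *
        (∑ k ∈ Finset.range (N + 1), fl (m + k * L) t x *
        (1 - ∏ i ∈ Finset.range L, ((1 + v i x * e (m + k * L + i) x) / 2)))) = fun x =>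
        (p x * DB m L N v a x * S x) * Bk (m + N * L) L v a x +
        (p x * DB m L N v a x) * (Bk (m + N * L) L v a x * (fl (m + N * L) t x *
        (1 - ∏ i ∈ Finset.range L, ((1 + v i x * e (m + N * L + i) x) / 2)))) := by
      funext x
      rw [Finset.sum_range_succ, DB_succ]
      have hSx : S x = ∑ k ∈ Finset.range N, fl (m + k * L) t x *
        (1 - ∏ i ∈ Finset.range L, ((1 + v i x * e (m + k * L + i) x) / 2)) := rfl
      rw [← hSx]
      ring
    have cA : Continuous (fun x => (p x * DB m L N v a x * S x) * Bk (m + N * L) L v a x) :=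
      hU1.continuous.mul hBc
    have cB : Continuous (fun x => (p x * DB m L N v a x) * (Bk (m + N * L) L v a x * (fl (m + N * L) t x *
        (1 - ∏ i ∈ Finset.range L, ((1 + v i x * e (m + N * L + i) x) / 2))))) :=
      hU0.continuous.mul (hBc.mul (hflc.mul (continuous_const.sub hPc)))
    rw [e1, iadd ν cA cB, i1]
    have hle : ∫ x, (p x * DB m L N v a x) * (Bk (m + N * L) L v a x * (fl (m + N * L) t x *
        (1 - ∏ i ∈ Finset.range L, ((1 + v i x * e (m + N * L + i) x) / 2)))) ∂ν ≤
        ∫ x, (p x * DB m L N v a x) * fl (m + N * L) t x ∂ν := by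
      apply integral_mono (int_cont ν cB) (int_cont ν (hU0.continuous.mul hflc))
      intro x
      apply mul_le_mul_of_nonneg_left _ (mul_nonneg (hp0 x) (DB_nonneg m L N v hv1 a ha0 ha1 x))
      have hbad := P_bad (m + N * L) L v hv1 x
      set Q : ℝ := ∏ i ∈ Finset.range L, ((1 + v i x * e (m + N * L + i) x) / 2) with hQ
      have hQ0 : 0 ≤ Q := Finset.prod_nonneg fun i _ => div_nonneg (factor_nonneg _ i v hv1 x) (by norm_num)
      have e2 : Bk (m + N * L) L v a x * (fl (m + N * L) t x * (1 - Q)) =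
          (1 - a) * fl (m + N * L) t x * (1 - Q) := by
        unfold Bk
        linear_combination (a * fl (m + N * L) t x) * hbad
      rw [e2]
      rcases fl_zero_one (m + N * L) t x with h | h
      · rw [h]; simp
      · rw [h]
        nlinarith [mul_nonneg (sub_nonneg.2 ha1) hQ0]
    rw [i0f, hI] at hle
    push_cast
    linarith

end WD
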