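import Pool.Agent.Helper348.WDMul

set_option autoImplicit false

open MeasureTheory

namespace WD

lemma R_nonneg {c : ℝ} {f : G → ℂ} (h : R c f) : 0 ≤ c := by
  obtain ⟨a, _, h2, _⟩ := h
  exact le_trans (tsum_nonneg fun S => norm_nonneg _) h2

lemma R_mono {c d : ℝ} {f : G → ℂ} (h : R c f) (hcd : c ≤ d) : R d f := by
  obtain ⟨a, h1, h2, h3⟩ := h
  exact ⟨a, h1, h2.trans hcd, h3⟩

lemma norm_term (a : Finset ℕ → ℂ) (S : Finset ℕ) (x : G) :
    ‖a S * ((w S x : ℝ) : ℂ)‖ = ‖a S‖ := by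
  rw [norm_mul, Complex.norm_real, Real.norm_eq_abs, abs_w, mul_one]

lemma summable_term {a : Finset ℕ → ℂ} (h : Summable (fun S => ‖a S‖)) (x : G) :
    Summable (fun S => a S * ((w S x : ℝ) : ℂ)) := by
  apply Summable.of_norm
  simpa only [norm_term] using h

lemma R_add {c d : ℝ} {f g : G → ℂ} (hf : R c f) (hg : R d g) :
    R (c + d) (fun x => f x + g x) := by
  obtain ⟨a, h1, h2, h3⟩ := hf
  obtain ⟨b, k1, k2, k3⟩ := hg
  have hs : Summable (fun S => ‖a S + b S‖) :=
    Summable.of_nonneg_of_le (fun _ => norm_nonneg _) (fun S => norm_add_le _ _) (h1.add k1)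
  refine ⟨fun S => a S + b S, hs, ?_, ?_⟩
  · calc ∑' S, ‖a S + b S‖ ≤ ∑' S, (‖a S‖ + ‖b S‖) :=
        hs.tsum_le_tsum (fun S => norm_add_le _ _) (h1.add k1)
      _ = ∑' S, ‖a S‖ + ∑' S, ‖b S‖ := h1.tsum_add k1
      _ ≤ c + d := add_le_add h2 k2
  · intro x
    show f x + g x = ∑' S, (a S + b S) * ((w S x : ℝ) : ℂ)
    rw [h3, k3, ← (summable_term h1 x).tsum_add (summable_term k1 x)]
    exact tsum_congr fun S => by ring

lemma R_smul {c : ℝ} {f : G → ℂ} (k : ℂ) (hf : R c f) :
    R (‖k‖ * c) (fun x => k * f x) := by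
  obtain ⟨a, h1, h2, h3⟩ := hf
  have hs : Summable (fun S => ‖k * a S‖) := by
    simpa only [norm_mul] using h1.mul_left ‖k‖
  refine ⟨fun S => k * a S, hs, ?_, ?_⟩
  · simp only [norm_mul]
    rw [tsum_mul_left]
    exact mul_le_mul_of_nonneg_left h2 (norm_nonneg _)
  · intro x
    show k * f x = ∑' S, (k * a S) * ((w S x : ℝ) : ℂ)
    rw [h3, ← tsum_mul_left]
    exact tsum_congr fun S => by ring

lemma R_w (S : Finset ℕ) : R 1 (fun x => ((w S x : ℝ) : ℂ)) := by
  classical
  refine ⟨fun T => if T = S then 1 else 0, ?_, ?_, ?_⟩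
  · apply summable_of_ne_finset_zero (s := {S})
    intro T hT
    simp at hT
    simp [hT]
  · rw [tsum_eq_single S]
    · simp
    · intro T hT; simp [hT]
  · intro x
    rw [tsum_eq_single S]
    · simp
    · intro T hT; simp [hT]

lemma R_const (k : ℂ) : R ‖k‖ (fun _ => k) := by
  have h := R_smul k (R_w ∅)
  simpa [w] using h

lemma R_bound {c : ℝ} {f : G → ℂ} (h : R c f) (x : G) : ‖f x‖ ≤ c := by
  obtain ⟨a, h1, h2, h3⟩ := h
  rw [h3]
  refine le_trans (norm_tsum_le_tsum_norm ?_) ?_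
  · simpa only [norm_term] using h1
  · simpa only [norm_term] using h2

lemma R_e (i : ℕ) : R 1 (fun x => ((e i x : ℝ) : ℂ)) := by
  have h := R_w {i}
  simpa [w] using h

/-- indicator of the cylinder around `y` fixed by the first `m` coordinates -/
noncomputable def cyl (m : ℕ) (y x : G) : ℂ :=
  ∏ i ∈ Finset.range m, ((((1 / 2 : ℝ) : ℂ)) + (((e i y / 2 : ℝ)) : ℂ) * ((e i x : ℝ) : ℂ))

lemma R_cyl (m : ℕ) (y : G) : R 1 (cyl m y) := by
  induction m with
  | zero =>
    have h : cyl 0 y = fun _ => (1 : ℂ) := by funext x; simp [cyl]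
    rw [h]
    have := R_const 1
    simpa using this
  | succ m ih =>
    have h1 : R (1/2) (fun _ : G => (((1 / 2 : ℝ) : ℂ))) := by
      have := R_const (((1 / 2 : ℝ) : ℂ))
      rw [Complex.norm_real, Real.norm_eq_abs, abs_of_nonneg (by norm_num)] at this
      exact this
    have h2 : R (1/2) (fun x : G => (((e m y / 2 : ℝ)) : ℂ) * ((e m x : ℝ) : ℂ)) := by
      have := R_smul (((e m y / 2 : ℝ)) : ℂ) (R_e m)
      rw [Complex.norm_real, Real.norm_eq_abs, abs_div, abs_e] at this
      norm_num at this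
      simpa using this
    have h3 := R_mul ih (R_add h1 h2)
    have h4 : cyl (m+1) y = fun x => cyl m y x * ((((1 / 2 : ℝ) : ℂ)) + (((e m y / 2 : ℝ)) : ℂ) * ((e m x : ℝ) : ℂ)) := by
      funext x
      unfold cyl
      rw [Finset.prod_range_succ]
    rw [h4]
    exact R_mono h3 (by norm_num)

lemma e_eq_iff (i : ℕ) (x y : G) : e i x = e i y ↔ x i = y i := by
  unfold e
  constructor
  · intro h
    have : ((x i : ℤˣ) : ℤ) = ((y i : ℤˣ) : ℤ) := by exact_mod_cast h
    exact Units.ext this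
  · intro h; rw [h]

lemma cyl_eq (m : ℕ) (y x : G) [Decidable (∀ i, i < m → x i = y i)] :
    cyl m y x = if (∀ i, i < m → x i = y i) then 1 else 0 := by
  split_ifs with h
  · unfold cyl
    apply Finset.prod_eq_one
    intro i hi
    have h1 : e i x = e i y := (e_eq_iff i x y).2 (h i (Finset.mem_range.1 hi))
    rw [h1]
    rcases e_eq i y with h2 | h2 <;> rw [h2] <;> norm_num
  · push Not at h
    obtain ⟨i, hi, hne⟩ := h
    unfold cyl
    apply Finset.prod_eq_zero (Finset.mem_range.2 hi)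
    have h1 : e i x ≠ e i y := fun h => hne ((e_eq_iff i x y).1 h)
    rcases e_eq i y with h2 | h2 <;> rcases e_eq i x with h3 | h3
    · exact absurd (h3.trans h2.symm) h1
    · rw [h2, h3]; norm_num
    · rw [h2, h3]; norm_num
    · exact absurd (h3.trans h2.symm) h1

/-- membership in the Fourier algebra -/
def A (f : G → ℂ) : Prop := ∃ c, R c f

lemma R_zero : R 0 (fun _ => (0 : ℂ)) := by
  simpa using R_const 0

lemma R_sum {ι : Type} (s : Finset ι) (c : ι → ℝ) (f : ι → G → ℂ)
    (h : ∀ i ∈ s, R (c i) (f i)) : R (∑ i ∈ s, c i) (fun x => ∑ i ∈ s, f i x) := by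
  classical
  induction s using Finset.induction_on with
  | empty => simpa using R_zero
  | insert i s hi ih =>
    simp only [Finset.sum_insert hi]
    exact R_add (h i (Finset.mem_insert_self i s))
      (ih fun j hj => h j (Finset.mem_insert_of_mem hj))

/-- extend a finite sign sequence by ones -/
def ext {m : ℕ} (y : Fin m → ℤˣ) : G := fun i => if h : i < m then y ⟨i, h⟩ else 1

lemma lev_decomp {m : ℕ} {u : G → ℂ} (h : Lev m u) (x : G) :
    u x = ∑ y : Fin m → ℤˣ, u (ext y) * cyl m (ext y) x := by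
  classical
  rw [Finset.sum_eq_single (fun i : Fin m => x i)]
  · rw [cyl_eq, if_pos]
    · rw [mul_one]
      apply h
      intro i hi
      simp [ext, hi]
    · intro i hi
      simp [ext, hi]
  · intro y _ hy
    rw [cyl_eq, if_neg]
    · rw [mul_zero]
    · intro h2
      apply hy
      funext i
      have := h2 i i.2
      simp [ext] at this
      exact this.symm
  · intro h2
    exact absurd (Finset.mem_univ _) h2

lemma R_lev {m : ℕ} {u : G → ℂ} (h : Lev m u) {B : ℝ} (hB : ∀ x, ‖u x‖ ≤ B) :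
    R (2 ^ m * B) u := by
  have h1 : u = fun x => ∑ y : Fin m → ℤˣ, u (ext y) * cyl m (ext y) x := by
    funext x; exact lev_decomp h x
  rw [h1]
  have h2 := R_sum (Finset.univ : Finset (Fin m → ℤˣ)) (fun _ => B)
    (fun y x => u (ext y) * cyl m (ext y) x) (by
      intro y _
      exact R_mono (R_smul (u (ext y)) (R_cyl m (ext y))) (by rw [mul_one]; exact hB _))
  refine R_mono h2 ?_
  simp

lemma A_lev {m : ℕ} {u : G → ℂ} (h : Lev m u) : A u := by
  have h1 : u = fun x => ∑ y : Fin m → ℤˣ, u (ext y) * cyl m (ext y) x := by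
    funext x; exact lev_decomp h x
  rw [h1]
  exact ⟨_, R_sum (Finset.univ : Finset (Fin m → ℤˣ)) (fun y => ‖u (ext y)‖ * 1)
    (fun y x => u (ext y) * cyl m (ext y) x) (fun y _ => R_smul (u (ext y)) (R_cyl m (ext y)))⟩

lemma Lev_w (S : Finset ℕ) {m : ℕ} (h : ∀ i ∈ S, i < m) : Lev m (w S) := by
  intro x y hxy
  unfold w e
  exact Finset.prod_congr rfl fun i hi => by rw [hxy i (h i hi)]

lemma finite_part {c η : ℝ} {f : G → ℂ} (hf : R c f) (hη : 0 < η) :
    ∃ (m : ℕ) (g : G → ℂ), Lev m g ∧ R η (fun x => f x - g x) := by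
  classical
  obtain ⟨a, h1, h2, h3⟩ := hf
  -- choose a finite set of indices carrying all but `η` of the mass
  have h4 := (tendsto_order.1 h1.hasSum).1 (∑' S, ‖a S‖ - η) (by linarith)
  obtain ⟨s, hs⟩ := h4.exists
  obtain ⟨m, hm⟩ : ∃ m, ∀ S ∈ s, ∀ i ∈ S, i < m := by
    refine ⟨(s.biUnion id).sup id + 1, ?_⟩
    intro S hS i hi
    have : i ≤ (s.biUnion id).sup id :=
      Finset.le_sup (f := id) (Finset.mem_biUnion.2 ⟨S, hS, hi⟩)
    omega
  refine ⟨m, fun x => ∑ S ∈ s, a S * ((w S x : ℝ) : ℂ), ?_, ?_⟩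
  · intro x y hxy
    apply Finset.sum_congr rfl
    intro S hS
    rw [Lev_w S (hm S hS) x y hxy]
  · have h5 : Summable (fun S => ‖if S ∈ s then 0 else a S‖) := by
      refine Summable.of_nonneg_of_le (fun _ => norm_nonneg _) (fun S => ?_) h1
      split_ifs <;> simp
    have h6 : Summable (fun S => ‖if S ∈ s then a S else 0‖) := by
      refine Summable.of_nonneg_of_le (fun _ => norm_nonneg _) (fun S => ?_) h1
      split_ifs <;> simp
    refine ⟨fun S => if S ∈ s then 0 else a S, h5, ?_, ?_⟩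
    · have h7 : ∑' S, ‖if S ∈ s then a S else 0‖ = ∑ S ∈ s, ‖a S‖ := by
        rw [tsum_eq_sum (s := s)]
        · exact Finset.sum_congr rfl fun S hS => by simp [hS]
        · intro S hS; simp [hS]
      have h8 : ∑' S, ‖a S‖ = ∑' S, ‖if S ∈ s then a S else 0‖ + ∑' S, ‖if S ∈ s then 0 else a S‖ := by
        rw [← h6.tsum_add h5]
        exact tsum_congr fun S => by split_ifs <;> simp
      linarith
    · intro x
      have h9 : f x = ∑' S, (if S ∈ s then a S else 0) * ((w S x : ℝ) : ℂ)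
          + ∑' S, (if S ∈ s then 0 else a S) * ((w S x : ℝ) : ℂ) := by
        rw [h3, ← (summable_term h6 x).tsum_add (summable_term h5 x)]
        exact tsum_congr fun S => by split_ifs <;> simp
      have h10 : ∑' S, (if S ∈ s then a S else 0) * ((w S x : ℝ) : ℂ)
          = ∑ S ∈ s, a S * ((w S x : ℝ) : ℂ) := by
        rw [tsum_eq_sum (s := s)]
        · exact Finset.sum_congr rfl fun S hS => by simp [hS]
        · intro S hS; simp [hS]
      show f x - ∑ S ∈ s, a S * ((w S x : ℝ) : ℂ) = _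
      rw [h9, h10]; ring

end WD
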