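import Pool.Agent.Helper348.WDLev
import Pool.Agent.Helper348.WDCube

set_option autoImplicit false

open MeasureTheory

namespace WD

theorem fs_sum_abs (b : ℕ →₀ ℝ) (s : Finset ℕ) (hs : b.support ⊆ s) :
    ∑ k ∈ b.support, |b k| = ∑ k ∈ s, |b k| := by
  apply Finset.sum_subset hs
  intro k _ hk
  rw [Finsupp.notMem_support_iff.1 hk, abs_zero]

theorem fs_sum_e (b : ℕ →₀ ℝ) (s : Finset ℕ) (hs : b.support ⊆ s) (g : ℕ → ℝ) :
    ∑ k ∈ b.support, b k * g k = ∑ k ∈ s, b k * g k := by
  apply Finset.sum_subset hs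
  intro k _ hk
  rw [Finsupp.notMem_support_iff.1 hk, zero_mul]

/-- the set of approximable functions -/
def PP (E : Set G) (n₀ m : ℕ) : Set ((Fin m → ℤˣ) → ℝ) :=
  {v | ∃ b : ℕ →₀ ℝ, (∑ k ∈ b.support, |b k|) ≤ 1 ∧
    ∀ x ∈ E, |v (fun i => x i) - ∑ k ∈ b.support, b k * e (n₀ + k) x| ≤ 15 / 16}

theorem PP_convex (E : Set G) (n₀ m : ℕ) : Convex ℝ (PP E n₀ m) := by
  rintro v ⟨b, hb1, hb2⟩ v' ⟨b', hb1', hb2'⟩ p q hp hq hpq
  refine ⟨p • b + q • b', ?_, ?_⟩
  · have hs : (p • b + q • b').support ⊆ b.support ∪ b'.support := by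
      refine Finsupp.support_add.trans ?_
      exact Finset.union_subset_union Finsupp.support_smul Finsupp.support_smul
    rw [fs_sum_abs _ _ hs]
    rw [fs_sum_abs b (b.support ∪ b'.support) Finset.subset_union_left] at hb1
    rw [fs_sum_abs b' (b.support ∪ b'.support) Finset.subset_union_right] at hb1'
    calc ∑ k ∈ b.support ∪ b'.support, |(p • b + q • b') k|
        ≤ ∑ k ∈ b.support ∪ b'.support, (p * |b k| + q * |b' k|) := by
          apply Finset.sum_le_sum
          intro k _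
          rw [Finsupp.add_apply, Finsupp.smul_apply, Finsupp.smul_apply, smul_eq_mul, smul_eq_mul]
          refine (abs_add_le _ _).trans ?_
          rw [abs_mul, abs_mul, abs_of_nonneg hp, abs_of_nonneg hq]
      _ = p * ∑ k ∈ b.support ∪ b'.support, |b k| + q * ∑ k ∈ b.support ∪ b'.support, |b' k| := by
          rw [Finset.sum_add_distrib, Finset.mul_sum, Finset.mul_sum]
      _ ≤ p * 1 + q * 1 := by
          apply add_le_add
          · exact mul_le_mul_of_nonneg_left hb1 hp
          · exact mul_le_mul_of_nonneg_left hb1' hq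
      _ = 1 := by rw [mul_one, mul_one, hpq]
  · intro x hx
    have hs : (p • b + q • b').support ⊆ b.support ∪ b'.support := by
      refine Finsupp.support_add.trans ?_
      exact Finset.union_subset_union Finsupp.support_smul Finsupp.support_smul
    have h2 := hb2 x hx
    have h2' := hb2' x hx
    rw [fs_sum_e _ _ hs]
    rw [fs_sum_e b (b.support ∪ b'.support) Finset.subset_union_left] at h2
    rw [fs_sum_e b' (b.support ∪ b'.support) Finset.subset_union_right] at h2'
    have e1 : (p • v + q • v') (fun i => x i) - ∑ k ∈ b.support ∪ b'.support,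
        (p • b + q • b') k * e (n₀ + k) x
        = p * (v (fun i => x i) - ∑ k ∈ b.support ∪ b'.support, b k * e (n₀ + k) x)
        + q * (v' (fun i => x i) - ∑ k ∈ b.support ∪ b'.support, b' k * e (n₀ + k) x) := by
      have e2 : ∑ k ∈ b.support ∪ b'.support, (p • b + q • b') k * e (n₀ + k) x
          = p * ∑ k ∈ b.support ∪ b'.support, b k * e (n₀ + k) x
          + q * ∑ k ∈ b.support ∪ b'.support, b' k * e (n₀ + k) x := by
        rw [Finset.mul_sum, Finset.mul_sum, ← Finset.sum_add_distrib]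
        apply Finset.sum_congr rfl
        intro k _
        rw [Finsupp.add_apply, Finsupp.smul_apply, Finsupp.smul_apply, smul_eq_mul, smul_eq_mul]
        ring
      rw [e2, Pi.add_apply, Pi.smul_apply, Pi.smul_apply, smul_eq_mul, smul_eq_mul]
      ring
    rw [e1]
    refine (abs_add_le _ _).trans ?_
    rw [abs_mul, abs_mul, abs_of_nonneg hp, abs_of_nonneg hq]
    have h3 := mul_le_mul_of_nonneg_left h2 hp
    have h4 := mul_le_mul_of_nonneg_left h2' hq
    have h5 : p * (15 / 16) + q * (15 / 16) = 15 / 16 := by rw [← add_mul, hpq, one_mul]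
    linarith

theorem PP_sign (E : Set G)
    (hK : ∀ (n₀ m : ℕ) (f : G → ℝ), Lev m f → (∀ x, f x = 1 ∨ f x = -1) →
      ∃ K : Finset ℕ, K.Nonempty ∧ (∀ k ∈ K, n₀ ≤ k) ∧
        ∀ x ∈ E, (K.card : ℝ) / 16 ≤ f x * ∑ k ∈ K, e k x)
    (n₀ m : ℕ) (s : (Fin m → ℤˣ) → ℝ) (hs : ∀ i, s i = 1 ∨ s i = -1) : s ∈ PP E n₀ m := by
  classical
  obtain ⟨K, hKne, hKn, hKE⟩ := hK n₀ m (fun x => s (fun i => x i))
    (by
      intro x y hxy
      have : (fun i : Fin m => x i) = fun i : Fin m => y i := by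
        funext i
        exact hxy i i.2
      simp only [this])
    (fun x => hs _)
  have hc : 0 < (K.card : ℝ) := by exact_mod_cast hKne.card_pos
  let b : ℕ →₀ ℝ := Finsupp.onFinset (K.image (fun k => k - n₀))
    (fun k => if n₀ + k ∈ K then 1 / (K.card : ℝ) else 0)
    (by
      intro k hk
      by_cases h : n₀ + k ∈ K
      · exact Finset.mem_image.2 ⟨n₀ + k, h, by omega⟩
      · rw [if_neg h] at hk
        exact absurd rfl hk)
  have hbk : ∀ k, b k = if n₀ + k ∈ K then 1 / (K.card : ℝ) else 0 := fun k => rfl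
  have hsup : b.support ⊆ K.image (fun k => k - n₀) := Finsupp.support_onFinset_subset
  have hinj : Set.InjOn (fun k => k - n₀) (K : Set ℕ) := by
    intro a ha c hc' h
    have h1 := hKn a ha
    have h2 := hKn c hc'
    simp only at h
    omega
  refine ⟨b, ?_, ?_⟩
  · rw [fs_sum_abs b _ hsup, Finset.sum_image hinj]
    have h1 : ∀ k ∈ K, |b (k - n₀)| = 1 / (K.card : ℝ) := by
      intro k hk
      have h2 : n₀ + (k - n₀) = k := by have := hKn k hk; omega
      rw [hbk, h2, if_pos hk, abs_of_pos (by positivity)]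
    rw [Finset.sum_congr rfl h1, Finset.sum_const, nsmul_eq_mul]
    rw [mul_one_div, div_self hc.ne']
  · intro x hx
    rw [fs_sum_e b _ hsup, Finset.sum_image hinj]
    have h1 : ∀ k ∈ K, b (k - n₀) * e (n₀ + (k - n₀)) x = 1 / (K.card : ℝ) * e k x := by
      intro k hk
      have h2 : n₀ + (k - n₀) = k := by have := hKn k hk; omega
      rw [hbk, h2, if_pos hk]
    rw [Finset.sum_congr rfl h1, ← Finset.mul_sum]
    have h3 := hKE x hx
    have h4 : |∑ k ∈ K, e k x| ≤ K.card := by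
      refine (Finset.abs_sum_le_sum_abs _ _).trans ?_
      rw [Finset.sum_congr rfl (fun k _ => abs_e k x), Finset.sum_const, nsmul_eq_mul, mul_one]
    obtain ⟨h5, h6⟩ := abs_le.1 h4
    set A := ∑ k ∈ K, e k x with hA
    have h7 : 1 / (K.card : ℝ) * A ≤ 1 := by
      rw [one_div, inv_mul_le_iff₀ hc, mul_one]; exact h6
    have h8 : -1 ≤ 1 / (K.card : ℝ) * A := by
      rw [one_div, ← neg_le_neg_iff, neg_neg, ← mul_neg, inv_mul_le_iff₀ hc, mul_one]; linarith
    rcases hs (fun i => x i) with h | h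
    · rw [h] at h3 ⊢
      have h9 : 1 / 16 ≤ 1 / (K.card : ℝ) * A := by
        rw [one_mul] at h3
        rw [one_div (K.card : ℝ), inv_mul_eq_div, le_div_iff₀ hc]
        linarith
      rw [abs_le]
      constructor <;> linarith
    · rw [h] at h3 ⊢
      have h9 : 1 / (K.card : ℝ) * A ≤ - (1 / 16) := by
        rw [one_div (K.card : ℝ), inv_mul_eq_div, div_le_iff₀ hc]
        linarith
      rw [abs_le]
      constructor <;> linarith

/-- TARGET -/
theorem approx_E (E : Set G) (hE : IsClosed E)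
    (hK : ∀ (n₀ m : ℕ) (f : G → ℝ), Lev m f → (∀ x, f x = 1 ∨ f x = -1) →
      ∃ K : Finset ℕ, K.Nonempty ∧ (∀ k ∈ K, n₀ ≤ k) ∧
        ∀ x ∈ E, (K.card : ℝ) / 16 ≤ f x * ∑ k ∈ K, e k x)
    (n₀ : ℕ) (u : C(E, ℝ)) (hu : ∀ x, |u x| ≤ 1) :
    ∃ b : ℕ →₀ ℝ, (∑ k ∈ b.support, |b k|) ≤ 1 ∧
      ∀ x : E, |u x - ∑ k ∈ b.support, b k * e (n₀ + k) x| ≤ 31 / 32 := by
  obtain ⟨U, hU1, hU2⟩ := ContinuousMap.exists_restrict_eq_forall_mem_of_closed u
    (t := Set.Icc (-1 : ℝ) 1) (fun x => abs_le.1 (hu x)) ⟨0, by norm_num⟩ hE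
  obtain ⟨m, hm⟩ := exists_lev_approx U U.continuous (1 / 64) (by norm_num)
  have hP := cube_convex (PP E n₀ m) (PP_convex E n₀ m) (PP_sign E hK n₀ m)
    (fun y => U (fun i => if h : i < m then y ⟨i, h⟩ else 1)) (fun y => abs_le.2 (hU1 _))
  obtain ⟨b, hb1, hb2⟩ := hP
  refine ⟨b, hb1, fun x => ?_⟩
  have h1 := hb2 x x.2
  have h2 := hm x (fun i => if h : i < m then (x : G) i else 1) (fun i hi => by
    rw [dif_pos hi])
  have h3 : u x = U x := by rw [← hU2]; rfl
  rw [h3]
  have h4 : U x - ∑ k ∈ b.support, b k * e (n₀ + k) x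
      = (U x - U (fun i => if h : i < m then (x : G) i else 1))
      + (U (fun i => if h : i < m then (x : G) i else 1) - ∑ k ∈ b.support, b k * e (n₀ + k) x) := by
    ring
  rw [h4]
  refine (abs_add_le _ _).trans ?_
  have h5 : |U (fun i => if h : i < m then (x : G) i else 1) - ∑ k ∈ b.support, b k * e (n₀ + k) x|
      ≤ 15 / 16 := h1
  linarith

end WD
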