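import Mathlib

set_option autoImplicit false

namespace WD

/-- goodness of a set -/
def BCGood {K : Type} [TopologicalSpace K] [CompactSpace K] (N : C(K, ℂ) → ℝ) (V : Set K) : Prop :=
  ∃ C : ℝ, 0 ≤ C ∧ ∀ u : C(K, ℂ), (∀ x, x ∉ V → u x = 0) → N u ≤ C * ‖u‖

open Classical in
/-- indicator of a clopen set -/
noncomputable def bcInd {K : Type} [TopologicalSpace K] (V : Set K) (hV : IsClopen V) : C(K, ℂ) where
  toFun := V.indicator (fun _ => (1 : ℂ))
  continuous_toFun := by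
    refine Continuous.indicator (fun a ha => ?_) continuous_const
    rw [hV.frontier_eq] at ha
    exact absurd ha (Set.notMem_empty a)

theorem bcInd_mem {K : Type} [TopologicalSpace K] (V : Set K) (hV : IsClopen V) (x : K) (hx : x ∈ V) :
    bcInd V hV x = 1 := by
  simp [bcInd, hx]

theorem bcInd_notMem {K : Type} [TopologicalSpace K] (V : Set K) (hV : IsClopen V) (x : K) (hx : x ∉ V) :
    bcInd V hV x = 0 := by
  simp [bcInd, hx]

theorem bcInd_norm {K : Type} [TopologicalSpace K] [CompactSpace K] (V : Set K) (hV : IsClopen V)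
    (u : C(K, ℂ)) : ‖u * bcInd V hV‖ ≤ ‖u‖ := by
  rw [ContinuousMap.norm_le _ (norm_nonneg u)]
  intro x
  by_cases hx : x ∈ V
  · rw [ContinuousMap.mul_apply, bcInd_mem V hV x hx, mul_one]
    exact ContinuousMap.norm_coe_le_norm u x
  · rw [ContinuousMap.mul_apply, bcInd_notMem V hV x hx, mul_zero, norm_zero]
    exact norm_nonneg u

theorem bcGood_mono {K : Type} [TopologicalSpace K] [CompactSpace K] (N : C(K, ℂ) → ℝ) {V W : Set K}
    (h : V ⊆ W) (hW : BCGood N W) : BCGood N V := by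
  obtain ⟨C, hC, hW⟩ := hW
  exact ⟨C, hC, fun u hu => hW u fun x hx => hu x fun hx' => hx (h hx')⟩

theorem bcGood_union {K : Type} [TopologicalSpace K] [CompactSpace K] (N : C(K, ℂ) → ℝ)
    (hadd : ∀ u v, N (u + v) ≤ N u + N v) {V W : Set K} (hVc : IsClopen V)
    (hV : BCGood N V) (hW : BCGood N W) : BCGood N (V ∪ W) := by
  obtain ⟨C, hC, hV⟩ := hV
  obtain ⟨D, hD, hW⟩ := hW
  refine ⟨C + D, add_nonneg hC hD, fun u hu => ?_⟩
  have e : u = u * bcInd V hVc + u * bcInd Vᶜ hVc.compl := by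
    ext x
    by_cases hx : x ∈ V
    · rw [ContinuousMap.add_apply, ContinuousMap.mul_apply, ContinuousMap.mul_apply,
        bcInd_mem V hVc x hx, bcInd_notMem Vᶜ hVc.compl x (fun h => h hx)]
      simp
    · rw [ContinuousMap.add_apply, ContinuousMap.mul_apply, ContinuousMap.mul_apply,
        bcInd_notMem V hVc x hx, bcInd_mem Vᶜ hVc.compl x hx]
      simp
  have h1 : N (u * bcInd V hVc) ≤ C * ‖u‖ := by
    refine (hV _ ?_).trans (mul_le_mul_of_nonneg_left (bcInd_norm V hVc u) hC)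
    intro x hx
    rw [ContinuousMap.mul_apply, bcInd_notMem V hVc x hx, mul_zero]
  have h2 : N (u * bcInd Vᶜ hVc.compl) ≤ D * ‖u‖ := by
    refine (hW _ ?_).trans (mul_le_mul_of_nonneg_left (bcInd_norm Vᶜ hVc.compl u) hD)
    intro x hx
    rw [ContinuousMap.mul_apply]
    by_cases hxV : x ∈ V
    · rw [bcInd_notMem Vᶜ hVc.compl x (fun h => h hxV), mul_zero]
    · rw [hu x (fun h => h.elim hxV hx), zero_mul]
  calc N u = N (u * bcInd V hVc + u * bcInd Vᶜ hVc.compl) := by rw [← e]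
    _ ≤ N (u * bcInd V hVc) + N (u * bcInd Vᶜ hVc.compl) := hadd _ _
    _ ≤ C * ‖u‖ + D * ‖u‖ := add_le_add h1 h2
    _ = (C + D) * ‖u‖ := by ring

theorem bcGood_compact {K : Type} [TopologicalSpace K] [CompactSpace K] (N : C(K, ℂ) → ℝ)
    (hadd : ∀ u v, N (u + v) ≤ N u + N v) (hsmul : ∀ (c : ℂ) u, N (c • u) = ‖c‖ * N u)
    {V : Set K} (hVc : IsClopen V)
    (h : ∀ x ∈ V, ∃ W : Set K, IsClopen W ∧ x ∈ W ∧ BCGood N W) : BCGood N V := by
  have hcomp : IsCompact V := hVc.isClosed.isCompact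
  have key : ∃ W : Set K, IsClopen W ∧ V ⊆ W ∧ BCGood N W := by
    refine hcomp.induction_on (p := fun s => ∃ W : Set K, IsClopen W ∧ s ⊆ W ∧ BCGood N W) ?_ ?_ ?_ ?_
    · refine ⟨∅, isClopen_empty, subset_rfl, 0, le_rfl, fun u hu => ?_⟩
      have hu0 : u = 0 := by
        ext x
        exact hu x (Set.notMem_empty x)
      have := hsmul 0 u
      rw [zero_smul, norm_zero, zero_mul] at this
      rw [hu0, this]
      simp
    · rintro s t hst ⟨W, hW, htW, hg⟩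
      exact ⟨W, hW, hst.trans htW, hg⟩
    · rintro s t ⟨W, hW, hsW, hg⟩ ⟨W', hW', htW', hg'⟩
      exact ⟨W ∪ W', hW.union hW', Set.union_subset_union hsW htW', bcGood_union N hadd hW hg hg'⟩
    · intro x hx
      obtain ⟨W, hW, hxW, hg⟩ := h x hx
      exact ⟨W, mem_nhdsWithin_of_mem_nhds (hW.isOpen.mem_nhds hxW), W, hW, subset_rfl, hg⟩
  obtain ⟨W, -, hVW, hg⟩ := key
  exact bcGood_mono N hVW hg

theorem bc_step {K : Type} [TopologicalSpace K] [CompactSpace K] [T2Space K]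
    [TotallyDisconnectedSpace K] (N : C(K, ℂ) → ℝ) (F : Set K)
    (hF : ∀ x ∈ F, ∀ W : Set K, IsClopen W → x ∈ W → ¬ BCGood N W)
    (V : Set K) (hV : IsClopen V) (hinf : (V ∩ F).Infinite) :
    ∃ B V' : Set K, IsClopen B ∧ ¬ BCGood N B ∧ B ⊆ V ∧ V' ⊆ V ∧ Disjoint B V' ∧
      IsClopen V' ∧ (V' ∩ F).Infinite := by
  obtain ⟨x, hx, y, hy, hxy⟩ := hinf.nontrivial
  obtain ⟨W, hW, hxW, hyW⟩ := exists_isClopen_of_totally_separated hxy
  have hsub : V ∩ F ⊆ (V ∩ W ∩ F) ∪ ((V ∩ Wᶜ) ∩ F) := by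
    rintro z ⟨hzV, hzF⟩
    by_cases hzW : z ∈ W
    · exact Or.inl ⟨⟨hzV, hzW⟩, hzF⟩
    · exact Or.inr ⟨⟨hzV, hzW⟩, hzF⟩
  have hdis : Disjoint (V ∩ W) (V ∩ Wᶜ) := by
    rw [Set.disjoint_left]
    rintro z ⟨-, h1⟩ ⟨-, h2⟩
    exact h2 h1
  rcases Set.infinite_union.1 (hinf.mono hsub) with h | h
  · exact ⟨V ∩ Wᶜ, V ∩ W, hV.inter hW.compl, hF y hy.2 _ (hV.inter hW.compl) ⟨hy.1, hyW⟩,
      Set.inter_subset_left, Set.inter_subset_left, hdis.symm, hV.inter hW, h⟩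
  · exact ⟨V ∩ W, V ∩ Wᶜ, hV.inter hW, hF x hx.2 _ (hV.inter hW) ⟨hx.1, hxW⟩,
      Set.inter_subset_left, Set.inter_subset_left, hdis, hV.inter hW.compl, h⟩

theorem bc_bad {K : Type} [TopologicalSpace K] [CompactSpace K] (N : C(K, ℂ) → ℝ)
    (hsmul : ∀ (c : ℂ) u, N (c • u) = ‖c‖ * N u) {B : Set K} (hB : ¬ BCGood N B) (C : ℝ) (hC : 0 ≤ C) :
    ∃ v : C(K, ℂ), (∀ x, x ∉ B → v x = 0) ∧ ‖v‖ = 1 ∧ C < N v := by
  unfold BCGood at hB
  push Not at hB
  obtain ⟨u, hu, hN⟩ := hB C hC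
  have hu0 : 0 < ‖u‖ := by
    rcases (norm_nonneg u).eq_or_lt with h | h
    · exfalso
      have hu0 : u = 0 := norm_eq_zero.1 h.symm
      have := hsmul 0 u
      rw [zero_smul, norm_zero, zero_mul] at this
      rw [hu0, this] at hN
      simp at hN
    · exact h
  refine ⟨((‖u‖⁻¹ : ℝ) : ℂ) • u, fun x hx => by simp [hu x hx], ?_, ?_⟩
  · rw [norm_smul, Complex.norm_real, norm_inv, norm_norm, inv_mul_cancel₀ hu0.ne']
  · rw [hsmul, Complex.norm_real, norm_inv, norm_norm, ← div_eq_inv_mul, lt_div_iff₀ hu0]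
    exact hN

theorem bade_curtis {K : Type} [TopologicalSpace K] [CompactSpace K] [T2Space K]
    [TotallyDisconnectedSpace K] (N : C(K, ℂ) → ℝ)
    (h0 : ∀ u, 0 ≤ N u) (hadd : ∀ u v, N (u + v) ≤ N u + N v)
    (hsmul : ∀ (c : ℂ) u, N (c • u) = ‖c‖ * N u) (hmul : ∀ u v, N (u * v) ≤ N u * N v) :
    ∃ F : Set K, F.Finite ∧ ∀ V : Set K, IsClopen V → Disjoint V F →
      ∃ C : ℝ, 0 ≤ C ∧ ∀ u : C(K, ℂ), (∀ x, x ∉ V → u x = 0) → N u ≤ C * ‖u‖ := by
  set F : Set K := {x | ∀ W : Set K, IsClopen W → x ∈ W → ¬ BCGood N W} with hFdef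
  refine ⟨F, ?_, ?_⟩
  · by_contra hinf
    have hinf' : (Set.univ ∩ F).Infinite := by rwa [Set.univ_inter]
    let S := {V : Set K // IsClopen V ∧ (V ∩ F).Infinite}
    have step : ∀ V : S, ∃ (B : Set K) (V' : S), IsClopen B ∧ ¬ BCGood N B ∧ B ⊆ V.1 ∧ V'.1 ⊆ V.1 ∧
        Disjoint B V'.1 := by
      intro V
      obtain ⟨B, V', h1, h2, h3, h4, h5, h6, h7⟩ :=
        bc_step N F (fun x hx => hx) V.1 V.2.1 V.2.2
      exact ⟨B, ⟨V', h6, h7⟩, h1, h2, h3, h4, h5⟩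
    choose B V' hBc hBb hBV hVV hdis using step
    let Vs : ℕ → S := fun n => V'^[n] ⟨Set.univ, isClopen_univ, hinf'⟩
    have hVs : ∀ n, Vs (n + 1) = V' (Vs n) := fun n => Function.iterate_succ_apply' _ _ _
    have hanti : ∀ m n, m ≤ n → (Vs n).1 ⊆ (Vs m).1 := by
      intro m n hmn
      induction n, hmn using Nat.le_induction with
      | base => exact subset_rfl
      | succ n _ ih => rw [hVs]; exact (hVV _).trans ih
    have hBdis : ∀ m n, m < n → Disjoint (B (Vs m)) (B (Vs n)) := by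
      intro m n hmn
      refine (hdis (Vs m)).mono_right ((hBV (Vs n)).trans ?_)
      rw [← hVs]
      exact hanti _ _ hmn
    have hBdis' : ∀ m n, m ≠ n → ∀ x, x ∈ B (Vs m) → x ∉ B (Vs n) := by
      intro m n hmn x hx hx'
      rcases lt_or_gt_of_ne hmn with h | h
      · exact Set.disjoint_left.1 (hBdis m n h) hx hx'
      · exact Set.disjoint_left.1 (hBdis n m h) hx' hx
    have hex : ∀ n : ℕ, ∃ v : C(K, ℂ), (∀ x, x ∉ B (Vs n) → v x = 0) ∧ ‖v‖ = 1 ∧
        (n : ℝ) * 2 ^ n * (1 + N (bcInd (B (Vs n)) (hBc (Vs n)))) < N v := by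
      intro n
      refine bc_bad N hsmul (hBb (Vs n)) _ ?_
      have := h0 (bcInd (B (Vs n)) (hBc (Vs n)))
      positivity
    choose v hv1 hv2 hv3 using hex
    have hsum : Summable (fun n : ℕ => (((1 / 2 : ℝ) ^ n : ℝ) : ℂ) • v n) := by
      refine Summable.of_norm_bounded (g := fun n => (1 / 2 : ℝ) ^ n) summable_geometric_two (fun n => ?_)
      rw [norm_smul, hv2, mul_one, Complex.norm_real, Real.norm_of_nonneg (by positivity)]
    set y : C(K, ℂ) := ∑' n : ℕ, (((1 / 2 : ℝ) ^ n : ℝ) : ℂ) • v n with hy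
    have hyx : ∀ x, y x = ∑' n : ℕ, (((1 / 2 : ℝ) ^ n : ℝ) : ℂ) * v n x := by
      intro x
      exact (ContinuousMap.evalCLM ℂ x : C(K, ℂ) →L[ℂ] ℂ).map_tsum hsum
    have hyB : ∀ n, y * bcInd (B (Vs n)) (hBc (Vs n)) = (((1 / 2 : ℝ) ^ n : ℝ) : ℂ) • v n := by
      intro n
      ext x
      by_cases hx : x ∈ B (Vs n)
      · rw [ContinuousMap.mul_apply, bcInd_mem _ _ x hx, mul_one, hyx, tsum_eq_single n]
        · rfl
        · intro m hm
          rw [hv1 m x (hBdis' n m hm.symm x hx), mul_zero]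
      · rw [ContinuousMap.mul_apply, bcInd_notMem _ _ x hx, mul_zero, ContinuousMap.smul_apply,
          hv1 n x hx, smul_zero]
    have hlt : ∀ n : ℕ, (n : ℝ) < N y := by
      intro n
      have h1 := hmul y (bcInd (B (Vs n)) (hBc (Vs n)))
      rw [hyB, hsmul, Complex.norm_real, Real.norm_of_nonneg (by positivity)] at h1
      have h2 := hv3 n
      have h3 := h0 (bcInd (B (Vs n)) (hBc (Vs n)))
      have h4 := h0 y
      set t := N (bcInd (B (Vs n)) (hBc (Vs n))) with ht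
      have h5 : (1 / 2 : ℝ) ^ n * ((n : ℝ) * 2 ^ n * (1 + t)) < (1 / 2 : ℝ) ^ n * N (v n) :=
        mul_lt_mul_of_pos_left h2 (by positivity)
      have h6 : (1 / 2 : ℝ) ^ n * ((n : ℝ) * 2 ^ n * (1 + t)) = n * (1 + t) := by
        have : (1 / 2 : ℝ) ^ n * 2 ^ n = 1 := by rw [← mul_pow]; norm_num
        calc (1 / 2 : ℝ) ^ n * ((n : ℝ) * 2 ^ n * (1 + t)) = ((1 / 2 : ℝ) ^ n * 2 ^ n) * (n * (1 + t)) := by
              ring
          _ = n * (1 + t) := by rw [this, one_mul]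
      have h7 : (n : ℝ) * (1 + t) < N y * (1 + t) := by
        calc (n : ℝ) * (1 + t) < (1 / 2 : ℝ) ^ n * N (v n) := by rw [← h6]; exact h5
          _ ≤ N y * t := h1
          _ ≤ N y * (1 + t) := by nlinarith
      exact lt_of_mul_lt_mul_right h7 (by linarith)
    obtain ⟨n, hn⟩ := exists_nat_gt (N y)
    exact absurd (hlt n) (not_lt.2 hn.le)
  · intro V hV hdis
    have : BCGood N V := by
      refine bcGood_compact N hadd hsmul hV (fun x hx => ?_)
      have hxF : x ∉ F := Set.disjoint_left.1 hdis hx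
      rw [hFdef, Set.mem_ofPred_eq] at hxF
      push Not at hxF
      exact hxF
    exact this

end WD
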