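import Mathlib

set_option autoImplicit false

open MeasureTheory

namespace WD

/-- the Cantor group, written multiplicatively -/
abbrev G := ℕ → ℤˣ

/-- the `i`-th Rademacher function -/
noncomputable def e (i : ℕ) (x : G) : ℝ := (((x i : ℤˣ) : ℤ) : ℝ)

/-- Walsh functions -/
noncomputable def w (S : Finset ℕ) (x : G) : ℝ := ∏ i ∈ S, e i x

/-- `u` depends only on the first `m` coordinates -/
def Lev (m : ℕ) {α : Type} (u : G → α) : Prop :=
  ∀ x y : G, (∀ i, i < m → x i = y i) → u x = u y

/-- `f` belongs to the Fourier algebra of `G`, with norm at most `c` -/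
def R (c : ℝ) (f : G → ℂ) : Prop :=
  ∃ a : Finset ℕ → ℂ, Summable (fun S => ‖a S‖) ∧ (∑' S, ‖a S‖) ≤ c ∧
    ∀ x, f x = ∑' S, a S * ((w S x : ℝ) : ℂ)

/-- the generator flipping coordinate `i` -/
def flip (i : ℕ) : G := Pi.mulSingle i (-1)

lemma e_eq (i : ℕ) (x : G) : e i x = 1 ∨ e i x = -1 := by
  unfold e
  rcases Int.units_eq_one_or (x i) with h | h <;> simp [h]

lemma e_mul_self (i : ℕ) (x : G) : e i x * e i x = 1 := by
  rcases e_eq i x with h | h <;> simp [h]

lemma abs_e (i : ℕ) (x : G) : |e i x| = 1 := by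
  rcases e_eq i x with h | h <;> simp [h]

lemma abs_w (S : Finset ℕ) (x : G) : |w S x| = 1 := by
  unfold w
  rw [Finset.abs_prod]
  exact Finset.prod_eq_one fun i _ => abs_e i x

lemma e_mul (i : ℕ) (x y : G) : e i (x * y) = e i x * e i y := by
  unfold e; simp

lemma w_mul (S : Finset ℕ) (x y : G) : w S (x * y) = w S x * w S y := by
  unfold w; simp [e_mul, Finset.prod_mul_distrib]

lemma e_flip_self (i : ℕ) (x : G) : e i (flip i * x) = - e i x := by
  rw [e_mul]; simp [e, flip]

lemma e_flip_ne (i j : ℕ) (h : i ≠ j) (x : G) : e j (flip i * x) = e j x := by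
  rw [e_mul]; simp [e, flip, h.symm]

lemma continuous_e (i : ℕ) : Continuous (e i) := by
  unfold e
  have h1 : Continuous (fun u : ℤˣ => (((u : ℤˣ) : ℤ) : ℝ)) := continuous_of_discreteTopology
  exact h1.comp (continuous_apply i)

lemma continuous_w (S : Finset ℕ) : Continuous (w S) := by
  unfold w
  exact continuous_finsetProd _ fun i _ => continuous_e i

end WD
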