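import Pool.Agent.Helper348.WDHaar
import Pool.Agent.Helper348.WDLev

set_option autoImplicit false

open MeasureTheory

namespace WD

/-- Riesz product -/
noncomputable def D (m N : ℕ) (f : G → ℝ) (a : ℝ) (x : G) : ℝ :=
  ∏ k ∈ Finset.range N, (1 + a * f x * e (m + k) x)



lemma h_lev_flip {α : Type} {m : ℕ} {u : G → α} (h : Lev m u) {i : ℕ} (hi : m ≤ i) (x : G) :
    u (flip i * x) = u x := by
  apply h
  intro j hj
  have : i ≠ j := by omega
  simp [flip, this.symm]

lemma h_w_flip {S : Finset ℕ} {i : ℕ} (hi : i ∉ S) (x : G) : w S (flip i * x) = w S x := by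
  unfold w
  apply Finset.prod_congr rfl
  intro j hj
  exact e_flip_ne i j (fun h => hi (h ▸ hj)) x

lemma h_D_flip {m N : ℕ} {f : G → ℝ} (hf : Lev m f) (a : ℝ) (x : G) :
    D m N f a (flip (m + N) * x) = D m N f a x := by
  unfold D
  apply Finset.prod_congr rfl
  intro k hk
  have hk' := Finset.mem_range.mp hk
  rw [h_lev_flip hf (by omega), e_flip_ne _ _ (by omega)]

lemma h_D_cont {m N : ℕ} {f : G → ℝ} (hf : Continuous f) (a : ℝ) : Continuous (D m N f a) := by
  unfold D
  apply continuous_finsetProd
  intro k _
  have := continuous_e (m + k)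
  fun_prop

lemma h_D_succ (m N : ℕ) (f : G → ℝ) (a : ℝ) (x : G) :
    D m (N + 1) f a x = D m N f a x * (1 + a * f x * e (m + N) x) := by
  unfold D
  rw [Finset.prod_range_succ]

lemma h_w_erase {S : Finset ℕ} {i : ℕ} (hi : i ∈ S) (x : G) : w S x = w (S.erase i) x * e i x := by
  unfold w
  rw [mul_comm, Finset.mul_prod_erase S (fun i => e i x) hi]

/-- TARGET -/
theorem riesz_coeff (ν : Measure G) [IsProbabilityMeasure ν] [ν.IsMulLeftInvariant]
    (m N : ℕ) (f : G → ℝ) (hf : Lev m f) (hf1 : ∀ x, f x = 1 ∨ f x = -1)
    (p : G → ℝ) (hp : Lev m p) (S : Finset ℕ) :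
    ∃ (κ : ℝ) (r : ℕ), |κ| ≤ ∫ x, |p x| ∂ν ∧
      (r = 0 → κ = ∫ x, p x * w S x ∂ν) ∧ (1 ≤ r → ∫ x, p x * w S x ∂ν = 0) ∧
      ∀ a : ℝ, ∫ x, p x * D m N f a x * w S x ∂ν = a ^ r * κ := by
  induction N generalizing p S with
  | zero =>
    refine ⟨∫ x, p x * w S x ∂ν, 0, ?_, fun _ => rfl, fun h => absurd h (by norm_num), ?_⟩
    · refine (abs_integral_le_integral_abs).trans ?_
      apply le_of_eq
      apply integral_congr_ae
      refine Filter.Eventually.of_forall fun x => ?_
      simp only
      rw [abs_mul, abs_w, mul_one]
    · intro a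
      rw [pow_zero, one_mul]
      apply integral_congr_ae
      refine Filter.Eventually.of_forall fun x => ?_
      simp [D]
  | succ N ih =>
    have hfc := hf.continuous
    have hpc := hp.continuous
    have hec := continuous_e (m + N)
    by_cases hS : m + N ∈ S
    · have hpf : Lev m (fun x => p x * f x) := by
        intro x y hxy
        simp only
        rw [hp x y hxy, hf x y hxy]
      obtain ⟨κ, r, h1, -, -, h4⟩ := ih (fun x => p x * f x) hpf (S.erase (m + N))
      refine ⟨κ, r + 1, ?_, fun h => absurd h (Nat.succ_ne_zero r), fun _ => ?_, ?_⟩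
      · refine h1.trans (le_of_eq ?_)
        apply integral_congr_ae
        refine Filter.Eventually.of_forall fun x => ?_
        simp only
        rw [abs_mul]
        rcases hf1 x with h | h <;> rw [h] <;> simp
      · have h := int_odd ν (u := fun x => p x * w (S.erase (m + N)) x) (m + N) (by
          intro x
          rw [h_lev_flip hp (by omega), h_w_flip (Finset.notMem_erase _ _)])
        rw [← h]
        apply integral_congr_ae
        refine Filter.Eventually.of_forall fun x => ?_
        simp only
        rw [h_w_erase hS]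
        ring
      · intro a
        have hDc := h_D_cont (m := m) (N := N) hfc a
        have hwc := continuous_w (S.erase (m + N))
        have e1 : ∀ x, p x * D m (N + 1) f a x * w S x =
            (p x * D m N f a x * w (S.erase (m + N)) x) * e (m + N) x +
            a * ((p x * f x) * D m N f a x * w (S.erase (m + N)) x) := by
          intro x
          rw [h_D_succ, h_w_erase hS]
          have := e_mul_self (m + N) x
          linear_combination (a * p x * f x * D m N f a x * w (S.erase (m + N)) x) * this
        simp_rw [e1]
        rw [integral_add (int_cont ν (by fun_prop)) (int_cont ν (by fun_prop)), integral_const_mul, h4 a,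
          int_odd ν (u := fun x => p x * D m N f a x * w (S.erase (m + N)) x) (m + N) (by
            intro x
            rw [h_lev_flip hp (by omega), h_w_flip (Finset.notMem_erase _ _), h_D_flip hf])]
        ring
    · obtain ⟨κ, r, h1, h2, h3, h4⟩ := ih p hp S
      refine ⟨κ, r, h1, h2, h3, ?_⟩
      intro a
      have hDc := h_D_cont (m := m) (N := N) hfc a
      have hwc := continuous_w S
      have e1 : ∀ x, p x * D m (N + 1) f a x * w S x =
          p x * D m N f a x * w S x +
          a * ((p x * f x * D m N f a x * w S x) * e (m + N) x) := by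
        intro x
        rw [h_D_succ]
        ring
      simp_rw [e1]
      rw [integral_add (int_cont ν (by fun_prop)) (int_cont ν (by fun_prop)), integral_const_mul, h4 a,
        int_odd ν (u := fun x => p x * f x * D m N f a x * w S x) (m + N) (by
          intro x
          rw [h_lev_flip hp (by omega), h_lev_flip hf (by omega), h_w_flip hS, h_D_flip hf])]
      ring

end WD
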