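import Pool.Agent.Helper348.WDSeq

set_option autoImplicit false

open MeasureTheory

namespace WD

lemma flip_lev833 {m k : ℕ} (hk : m ≤ k) {α : Type} {u : G → α} (hu : Lev m u) (x : G) :
    u (flip k * x) = u x := by
  refine hu _ _ (fun i hi => ?_)
  have hne : i ≠ k := by omega
  show flip k i * x i = x i
  unfold flip
  rw [Pi.mulSingle_eq_of_ne hne, one_mul]

/-- TARGET -/
theorem exists_E : ∃ E : Set G, IsClosed E ∧
    (∃ s : Finset ℕ → ℝ, (∀ S, |s S| ≤ 3 / 2) ∧ 1 / 2 ≤ s ∅ ∧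
      (∀ ε : ℝ, 0 < ε → ∃ n₀ : ℕ, ∀ k, n₀ ≤ k → |s {k}| ≤ ε) ∧
      (∀ a : Finset ℕ → ℂ, Summable (fun S => ‖a S‖) →
        (∃ U : Set G, IsOpen U ∧ E ⊆ U ∧ ∀ x ∈ U, ∑' S, a S * ((w S x : ℝ) : ℂ) = 0) →
        ∑' S, a S * ((s S : ℝ) : ℂ) = 0)) ∧
    (∀ (n₀ m : ℕ) (f : G → ℝ), Lev m f → (∀ x, f x = 1 ∨ f x = -1) →
      ∃ K : Finset ℕ, K.Nonempty ∧ (∀ k ∈ K, n₀ ≤ k) ∧
        ∀ x ∈ E, (K.card : ℝ) / 16 ≤ f x * ∑ k ∈ K, e k x) := by
  classical
  obtain ⟨ν, hν1, hν2⟩ := exists_haar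
  obtain ⟨m, p, s, hm, hLev, hp0, hs, hs0, hsb, hf⟩ := exists_seq ν
  have hKclosed : ∀ n, IsClosed {x : G | p n x ≠ 0} := by
    intro n
    have h1 : Lev (m n) (fun x => decide (p n x ≠ 0)) := by
      intro x y hxy
      show decide (p n x ≠ 0) = decide (p n y ≠ 0)
      rw [hLev n x y hxy]
    have h2 := h1.continuous
    have h3 : {x : G | p n x ≠ 0} = (fun x => decide (p n x ≠ 0)) ⁻¹' {true} := by
      ext x
      simp
    rw [h3]
    exact (isClosed_discrete _).preimage h2
  have hKanti : ∀ n k, n ≤ k → {x : G | p k x ≠ 0} ⊆ {x : G | p n x ≠ 0} := by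
    intro n k hnk
    induction hnk with
    | refl => exact subset_rfl
    | step _ ih =>
      refine Set.Subset.trans ?_ ih
      intro x hx hx0
      exact hx (hp0 _ x hx0)
  have hpc : ∀ n, Continuous (p n) := fun n => (hLev n).continuous
  have half : Filter.Tendsto (fun n : ℕ => ((1 : ℝ) / 2) ^ (n + 1)) Filter.atTop (nhds 0) :=
    (tendsto_pow_atTop_nhds_zero_of_lt_one (by norm_num) (by norm_num)).comp
      (Filter.tendsto_add_atTop_nat 1)
  refine ⟨⋂ n, {x : G | p n x ≠ 0}, isClosed_iInter hKclosed, ⟨s, hsb, hs0, ?_, ?_⟩, ?_⟩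
  · intro ε hε
    obtain ⟨n, hn⟩ := (half.eventually (gt_mem_nhds hε)).exists
    refine ⟨m n, fun k hk => ?_⟩
    have h1 := hs n {k}
    have h2 : ∫ x, p n x * w {k} x ∂ν = 0 := by
      have h3 : ∀ x, w {k} x = e k x := fun x => by simp [w]
      simp only [h3]
      exact int_odd ν k (fun x => flip_lev833 hk (hLev n) x)
    rw [h2, sub_zero] at h1
    exact h1.trans hn.le
  · intro a ha hU
    obtain ⟨U, hUo, hEU, hU0⟩ := hU
    -- a level set inside U
    obtain ⟨n1, hn1⟩ : ∃ n, {x : G | p n x ≠ 0} ⊆ U := by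
      refine exists_subset_nhds_of_isCompact' (V := fun n => {x : G | p n x ≠ 0}) ?_
        (fun n => (hKclosed n).isCompact) hKclosed ?_
      · intro i j
        exact ⟨max i j, hKanti _ _ (le_max_left i j), hKanti _ _ (le_max_right i j)⟩
      · intro x hx
        exact hUo.mem_nhds (hEU hx)
    have hA0 : 0 ≤ ∑' S, ‖a S‖ := tsum_nonneg fun _ => norm_nonneg _
    have has : Summable (fun S => a S * ((s S : ℝ) : ℂ)) := by
      refine Summable.of_norm_bounded (g := fun S => ‖a S‖ * (3 / 2)) (ha.mul_right _) (fun S => ?_)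
      rw [norm_mul, Complex.norm_real, Real.norm_eq_abs]
      exact mul_le_mul_of_nonneg_left (hsb S) (norm_nonneg _)
    have key : ∀ n, n1 ≤ n → ‖∑' S, a S * ((s S : ℝ) : ℂ)‖ ≤ (1 / 2) ^ (n + 1) * ∑' S, ‖a S‖ := by
      intro n hn
      have hKU : {x : G | p n x ≠ 0} ⊆ U := (hKanti _ _ hn).trans hn1
      have hint : ∀ S, Integrable (fun x => p n x * w S x) ν := fun S =>
        int_cont ν ((hpc n).mul (continuous_w S))
      have hF1 : ∀ S, Integrable (fun x => a S * ((p n x * w S x : ℝ) : ℂ)) ν := fun S =>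
        ((hint S).ofReal).const_mul (a S)
      have hF2 : Summable fun S => ∫ x, ‖a S * ((p n x * w S x : ℝ) : ℂ)‖ ∂ν := by
        have : ∀ S, ∫ x, ‖a S * ((p n x * w S x : ℝ) : ℂ)‖ ∂ν = ‖a S‖ * ∫ x, |p n x| ∂ν := by
          intro S
          rw [← integral_const_mul]
          congr 1
          funext x
          rw [norm_mul, Complex.norm_real, Real.norm_eq_abs, abs_mul, abs_w, mul_one]
        simp only [this]
        exact ha.mul_right _
      have hsum := hasSum_integral_of_summable_integral_norm hF1 hF2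
      have hz : ∀ x, ∑' S, a S * ((p n x * w S x : ℝ) : ℂ) = 0 := by
        intro x
        have h1 : ∀ S, a S * ((p n x * w S x : ℝ) : ℂ)
            = ((p n x : ℝ) : ℂ) * (a S * ((w S x : ℝ) : ℂ)) := by
          intro S
          push_cast
          ring
        simp only [h1]
        rw [tsum_mul_left]
        by_cases hx : p n x = 0
        · rw [hx]; simp
        · rw [hU0 x (hKU hx), mul_zero]
      simp only [hz, integral_zero] at hsum
      have hci : ∀ S, ∫ x, a S * ((p n x * w S x : ℝ) : ℂ) ∂ν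
          = a S * ((∫ x, p n x * w S x ∂ν : ℝ) : ℂ) := by
        intro S
        rw [integral_const_mul]
        congr 1
        exact integral_ofReal
      simp only [hci] at hsum
      have hdiff := has.hasSum.sub hsum
      rw [sub_zero] at hdiff
      have hb : ∀ S, ‖a S * ((s S : ℝ) : ℂ) - a S * ((∫ x, p n x * w S x ∂ν : ℝ) : ℂ)‖
          ≤ (1 / 2) ^ (n + 1) * ‖a S‖ := by
        intro S
        rw [← mul_sub, norm_mul, ← Complex.ofReal_sub, Complex.norm_real, Real.norm_eq_abs, mul_comm]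
        exact mul_le_mul_of_nonneg_right (hs n S) (norm_nonneg _)
      rw [← hdiff.tsum_eq]
      have hbs : Summable (fun S => (1 / 2 : ℝ) ^ (n + 1) * ‖a S‖) := ha.mul_left _
      refine (norm_tsum_le_tsum_norm (Summable.of_nonneg_of_le (fun _ => norm_nonneg _) hb hbs)).trans ?_
      rw [← tsum_mul_left]
      exact (Summable.of_nonneg_of_le (fun _ => norm_nonneg _) hb hbs).tsum_le_tsum hb hbs
    have hlim : Filter.Tendsto (fun n : ℕ => ((1 : ℝ) / 2) ^ (n + 1) * ∑' S, ‖a S‖) Filter.atTop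
        (nhds 0) := by
      have := half.mul_const (∑' S, ‖a S‖)
      rwa [zero_mul] at this
    have hle : ‖∑' S, a S * ((s S : ℝ) : ℂ)‖ ≤ 0 := by
      refine ge_of_tendsto hlim ?_
      filter_upwards [Filter.eventually_ge_atTop n1] with n hn
      exact key n hn
    exact norm_le_zero_iff.mp hle
  · intro n₀ m' f hfl hf1
    have hmn : ∀ n, n ≤ m n := fun n => hm.id_le n
    have hlev : Lev (m (max n₀ m')) f := by
      intro x y hxy
      refine hfl x y (fun i hi => hxy i ?_)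
      exact lt_of_lt_of_le hi ((le_max_right _ _).trans (hmn _))
    obtain ⟨K, hK1, hK2, hK3⟩ := hf (max n₀ m') f hlev hf1
    refine ⟨K, hK1, fun k hk => ((le_max_left _ _).trans (hmn _)).trans (hK2 k hk), fun x hx => ?_⟩
    exact hK3 x (Set.mem_iInter.mp hx (max n₀ m' + 1))

end WD
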