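import Pool.Agent.Helper348.WDApprox
import Pool.Agent.Helper348.WDIter

set_option autoImplicit false

open MeasureTheory

namespace WD

/-- TARGET -/
theorem helson_E (E : Set G) (hE : IsClosed E)
    (hK : ∀ (n₀ m : ℕ) (f : G → ℝ), Lev m f → (∀ x, f x = 1 ∨ f x = -1) →
      ∃ K : Finset ℕ, K.Nonempty ∧ (∀ k ∈ K, n₀ ≤ k) ∧
        ∀ x ∈ E, (K.card : ℝ) / 16 ≤ f x * ∑ k ∈ K, e k x)
    (n₀ : ℕ) (u : C(E, ℝ)) (hu : ∀ x, |u x| ≤ 1) :
    ∃ b : ℕ → ℝ, Summable (fun k => |b k|) ∧ (∑' k, |b k|) ≤ 32 ∧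
      ∀ x : E, u x = ∑' k, b k * e (n₀ + k) x := by
  classical
  have hcE : CompactSpace E := isCompact_iff_compactSpace.mp hE.isCompact
  have hsum : ∀ y : lp (fun _ : ℕ => ℝ) 1, HasSum (fun n => |y n|) ‖y‖ := by
    intro y
    have h := lp.hasSum_norm (p := 1) (by norm_num) y
    simpa using h
  have hs1 : ∀ (y : lp (fun _ : ℕ => ℝ) 1) (x : G), Summable (fun k => ‖y k * e (n₀ + k) x‖) := by
    intro y x
    refine (hsum y).summable.congr fun k => ?_
    rw [norm_mul, Real.norm_eq_abs, Real.norm_eq_abs, abs_e, mul_one]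
  have hs2 : ∀ (y : lp (fun _ : ℕ => ℝ) 1) (x : G), Summable (fun k => y k * e (n₀ + k) x) :=
    fun y x => (hs1 y x).of_norm
  have hcont : ∀ y : lp (fun _ : ℕ => ℝ) 1, Continuous (fun x : E => ∑' k, y k * e (n₀ + k) x) := by
    intro y
    refine continuous_tsum (fun k => ?_) (hsum y).summable (fun k x => ?_)
    · exact continuous_const.mul ((continuous_e _).comp continuous_subtype_val)
    · rw [norm_mul, Real.norm_eq_abs, Real.norm_eq_abs, abs_e, mul_one]
  let L : lp (fun _ : ℕ => ℝ) 1 →ₗ[ℝ] C(E, ℝ) :=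
    { toFun := fun y => ⟨fun x : E => ∑' k, y k * e (n₀ + k) x, hcont y⟩
      map_add' := by
        intro a b
        ext x
        simp only [ContinuousMap.coe_mk, ContinuousMap.add_apply]
        rw [← (hs2 a x).tsum_add (hs2 b x)]
        refine tsum_congr fun k => ?_
        rw [lp.coeFn_add, Pi.add_apply, add_mul]
      map_smul' := by
        intro a b
        ext x
        simp only [ContinuousMap.coe_mk, ContinuousMap.smul_apply, RingHom.id_apply]
        rw [← (hs2 b x).tsum_const_smul a]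
        refine tsum_congr fun k => ?_
        rw [lp.coeFn_smul, Pi.smul_apply, smul_eq_mul, smul_eq_mul, mul_assoc] }
  have hLapp : ∀ y (x : E), L y x = ∑' k, y k * e (n₀ + k) x := fun y x => rfl
  have hL : ∀ y, ‖L y‖ ≤ 1 * ‖y‖ := by
    intro y
    rw [one_mul, ContinuousMap.norm_le _ (norm_nonneg _)]
    intro x
    rw [hLapp, ← (hsum y).tsum_eq]
    refine (norm_tsum_le_tsum_norm (hs1 y x)).trans (le_of_eq ?_)
    refine tsum_congr fun k => ?_
    rw [norm_mul, Real.norm_eq_abs, Real.norm_eq_abs, abs_e, mul_one]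
  have hun : ‖u‖ ≤ 1 := by
    rw [ContinuousMap.norm_le _ zero_le_one]
    intro x
    rw [Real.norm_eq_abs]
    exact hu x
  obtain ⟨b, hb1, hb2⟩ := iterate_approx (L.mkContinuous 1 hL) (31 / 32) (by norm_num) (by norm_num)
    (by
      intro y hy
      obtain ⟨c, hc1, hc2⟩ := approx_E E hE hK n₀ y (fun x => by
        rw [← Real.norm_eq_abs]
        exact (ContinuousMap.norm_coe_le_norm y x).trans hy)
      have hmem : Memℓp (fun k => c k : ℕ → ℝ) 1 := by
        refine memℓp_gen ?_
        refine summable_of_ne_finset_zero (s := c.support) fun k hk => ?_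
        rw [Finsupp.notMem_support_iff.mp hk]
        simp
      refine ⟨⟨fun k => c k, hmem⟩, ?_, ?_⟩
      · rw [← (hsum ⟨fun k => c k, hmem⟩).tsum_eq, tsum_eq_sum (s := c.support)]
        · exact hc1
        · intro k hk
          show |c k| = 0
          rw [Finsupp.notMem_support_iff.mp hk, abs_zero]
      · rw [ContinuousMap.norm_le _ (by norm_num)]
        intro x
        rw [Real.norm_eq_abs]
        have h1 : (y - (L.mkContinuous 1 hL) ⟨fun k => c k, hmem⟩) x
            = y x - ∑ k ∈ c.support, c k * e (n₀ + k) x := by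
          have h2 : (y - (L.mkContinuous 1 hL) ⟨fun k => c k, hmem⟩) x
            = y x - ∑' k, c k * e (n₀ + k) x := rfl
          rw [h2, tsum_eq_sum (s := c.support)]
          intro k hk
          rw [Finsupp.notMem_support_iff.mp hk, zero_mul]
        rw [h1]
        exact hc2 x) u
  refine ⟨fun k => b k, (hsum b).summable, ?_, fun x => ?_⟩
  · rw [(hsum b).tsum_eq]
    refine hb2.trans ?_
    have : (1 - 31 / 32 : ℝ)⁻¹ = 32 := by norm_num
    rw [this]
    linarith
  · rw [← hb1]
    rfl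

end WD
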