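import Pool.Agent.Helper348.WDE
import Pool.Agent.Helper348.WDHelson
import Pool.Agent.Helper348.WDSplit2
import Pool.Agent.Helper348.WDDual

set_option autoImplicit false

open MeasureTheory

namespace WD

lemma sing_inj (n₀ : ℕ) : Function.Injective (fun k : ℕ => ({n₀ + k} : Finset ℕ)) := by
  intro a b h
  have := Finset.singleton_injective h
  omega

/-- coefficients of a Rademacher series -/
noncomputable def co (n₀ : ℕ) (b : ℕ → ℝ) : Finset ℕ → ℂ :=
  Function.extend (fun k : ℕ => ({n₀ + k} : Finset ℕ)) (fun k => ((b k : ℝ) : ℂ)) 0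

lemma co_norm (n₀ : ℕ) (b : ℕ → ℝ) : (fun S => ‖co n₀ b S‖) =
    Function.extend (fun k : ℕ => ({n₀ + k} : Finset ℕ)) (fun k => |b k|) 0 := by
  funext S
  by_cases h : ∃ k, ({n₀ + k} : Finset ℕ) = S
  · obtain ⟨k, rfl⟩ := h
    rw [co, (sing_inj n₀).extend_apply, (sing_inj n₀).extend_apply]
    rw [Complex.norm_real, Real.norm_eq_abs]
  · rw [co, Function.extend_apply' _ _ _ h, Function.extend_apply' _ _ _ h]
    simp

lemma co_summable {n₀ : ℕ} {b : ℕ → ℝ} (hb : Summable (fun k => |b k|)) :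
    Summable (fun S => ‖co n₀ b S‖) := by
  rw [co_norm]
  exact ((hasSum_extend_zero (sing_inj n₀)).2 hb.hasSum).summable

lemma co_tsum {n₀ : ℕ} {b : ℕ → ℝ} (hb : Summable (fun k => |b k|)) :
    ∑' S, ‖co n₀ b S‖ = ∑' k, |b k| := by
  rw [co_norm]
  exact ((hasSum_extend_zero (sing_inj n₀)).2 hb.hasSum).tsum_eq

/-- pairing the coefficients with a bounded function of the index -/
lemma co_pair {n₀ : ℕ} {b : ℕ → ℝ} (hb : Summable (fun k => |b k|)) (t : Finset ℕ → ℝ) {C : ℝ}
    (ht : ∀ S, |t S| ≤ C) :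
    ∑' S, co n₀ b S * ((t S : ℝ) : ℂ) = ((∑' k, b k * t {n₀ + k} : ℝ) : ℂ) := by
  have h1 : Summable (fun k => b k * t {n₀ + k}) := by
    apply Summable.of_norm
    refine Summable.of_nonneg_of_le (fun _ => norm_nonneg _) (fun k => ?_) (hb.mul_right C)
    rw [Real.norm_eq_abs, abs_mul]
    exact mul_le_mul_of_nonneg_left (ht _) (abs_nonneg _)
  have h2 : HasSum (fun k => (((b k * t {n₀ + k} : ℝ)) : ℂ)) ((∑' k, b k * t {n₀ + k} : ℝ) : ℂ) :=
    Complex.hasSum_ofReal.2 h1.hasSum
  have h3 := (hasSum_extend_zero (sing_inj n₀)).2 h2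
  have h4 : (fun S => co n₀ b S * ((t S : ℝ) : ℂ)) =
      Function.extend (fun k : ℕ => ({n₀ + k} : Finset ℕ))
        (fun k => (((b k * t {n₀ + k} : ℝ)) : ℂ)) 0 := by
    funext S
    by_cases h : ∃ k, ({n₀ + k} : Finset ℕ) = S
    · obtain ⟨k, rfl⟩ := h
      rw [co, (sing_inj n₀).extend_apply, (sing_inj n₀).extend_apply]
      push_cast
      rfl
    · rw [co, Function.extend_apply' _ _ _ h, Function.extend_apply' _ _ _ h]
      simp
  rw [h4]
  exact h3.tsum_eq

lemma co_series {n₀ : ℕ} {b : ℕ → ℝ} (hb : Summable (fun k => |b k|)) (x : G) :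
    ∑' S, co n₀ b S * ((w S x : ℝ) : ℂ) = ((∑' k, b k * e (n₀ + k) x : ℝ) : ℂ) := by
  rw [co_pair hb (fun S => w S x) (C := 1) (fun S => (abs_w S x).le)]
  simp [w]

lemma R_series {n₀ : ℕ} {b : ℕ → ℝ} (hb : Summable (fun k => |b k|)) :
    R (∑' k, |b k|) (fun x => ((∑' k, b k * e (n₀ + k) x : ℝ) : ℂ)) :=
  ⟨co n₀ b, co_summable hb, (co_tsum hb).le, fun x => (co_series hb x).symm⟩

/-- the existence of a compact Helson set of non-synthesis in the Cantor group -/
theorem helson_nonsynth : ∃ E : Set G, IsClosed E ∧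
    (∀ u : C(E, ℂ), ∃ f, A f ∧ ∀ x (hx : x ∈ E), f x = u ⟨x, hx⟩) ∧
    ∃ f, A f ∧ (∀ x ∈ E, f x = 0) ∧ ¬ JE E f := by
  obtain ⟨E, hE, ⟨s, hs1, hs2, hs3, hs4⟩, hK⟩ := exists_E
  have : CompactSpace E := isCompact_iff_compactSpace.1 hE.isCompact
  refine ⟨E, hE, ?_, ?_⟩
  · intro u
    have hreal : ∀ v : C(E, ℝ), ∃ f, A f ∧ ∀ x (hx : x ∈ E), f x = ((v ⟨x, hx⟩ : ℝ) : ℂ) := by
      intro v
      set M := ‖v‖ + 1 with hM
      have hM0 : 0 < M := by positivity
      obtain ⟨b, hb, _, hb3⟩ := helson_E E hE hK 0 (M⁻¹ • v) (by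
        intro x
        rw [ContinuousMap.smul_apply, smul_eq_mul, abs_mul, abs_of_pos (inv_pos.2 hM0),
          inv_mul_le_iff₀ hM0, mul_one]
        have := v.norm_coe_le_norm x
        rw [Real.norm_eq_abs] at this
        linarith)
      refine ⟨fun x => ((M : ℝ) : ℂ) * ((∑' k, b k * e (0 + k) x : ℝ) : ℂ),
        A_smul _ ⟨_, R_series hb⟩, ?_⟩
      intro x hx
      have h1 := hb3 ⟨x, hx⟩
      rw [ContinuousMap.smul_apply, smul_eq_mul] at h1
      show ((M : ℝ) : ℂ) * ((∑' k, b k * e (0 + k) x : ℝ) : ℂ) = _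
      rw [← h1, ← Complex.ofReal_mul, ← mul_assoc, mul_inv_cancel₀ hM0.ne', one_mul]
    obtain ⟨f, hf, hf2⟩ := hreal ⟨fun x => (u x).re, Complex.continuous_re.comp u.continuous⟩
    obtain ⟨g, hg, hg2⟩ := hreal ⟨fun x => (u x).im, Complex.continuous_im.comp u.continuous⟩
    refine ⟨fun x => f x + Complex.I * g x, A_add hf (A_smul _ hg), fun x hx => ?_⟩
    show f x + Complex.I * g x = u ⟨x, hx⟩
    rw [hf2 x hx, hg2 x hx, mul_comm]
    exact Complex.re_add_im (u ⟨x, hx⟩)
  · obtain ⟨n₀, hn₀⟩ := hs3 (1 / 128) (by norm_num)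
    obtain ⟨b, hb, hb2, hb3⟩ := helson_E E hE hK n₀ 1 (by
      intro x; simp)
    set a : Finset ℕ → ℂ := fun S => (if S = ∅ then 1 else 0) + (-1) * co n₀ b S with ha
    have hδ : Summable (fun S : Finset ℕ => ‖(if S = ∅ then (1 : ℂ) else 0)‖) := by
      apply summable_of_ne_finset_zero (s := {∅})
      intro T hT
      simp at hT
      simp [hT]
    have hco' : Summable (fun S => ‖(-1 : ℂ) * co n₀ b S‖) := by
      simpa using co_summable (n₀ := n₀) hb
    have hasum : Summable (fun S => ‖a S‖) :=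
      Summable.of_nonneg_of_le (fun _ => norm_nonneg _) (fun S => norm_add_le _ _) (hδ.add hco')
    -- pairing of a with bounded functions
    have hpair : ∀ (t : Finset ℕ → ℝ) (C : ℝ), (∀ S, |t S| ≤ C) →
        ∑' S, a S * ((t S : ℝ) : ℂ) = ((t ∅ - ∑' k, b k * t {n₀ + k} : ℝ) : ℂ) := by
      intro t C ht
      have hC : 0 ≤ C := le_trans (abs_nonneg _) (ht ∅)
      have h1 : Summable (fun S : Finset ℕ => (if S = ∅ then (1 : ℂ) else 0) * ((t S : ℝ) : ℂ)) := by
        apply summable_of_ne_finset_zero (s := {∅})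
        intro T hT
        simp at hT
        simp [hT]
      have h2 : Summable (fun S => co n₀ b S * ((t S : ℝ) : ℂ)) := by
        apply Summable.of_norm
        refine Summable.of_nonneg_of_le (fun _ => norm_nonneg _) (fun S => ?_)
          ((co_summable (n₀ := n₀) hb).mul_right C)
        rw [norm_mul, Complex.norm_real, Real.norm_eq_abs]
        exact mul_le_mul_of_nonneg_left (ht _) (norm_nonneg _)
      have h3 : (fun S => a S * ((t S : ℝ) : ℂ)) =
          fun S => (if S = ∅ then (1 : ℂ) else 0) * ((t S : ℝ) : ℂ) +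
            (-1) * (co n₀ b S * ((t S : ℝ) : ℂ)) := by
        funext S; rw [ha]; ring
      rw [h3, h1.tsum_add (h2.mul_left _), tsum_mul_left, co_pair hb t ht, tsum_eq_single ∅]
      · push_cast
        simp
        ring
      · intro S hS; simp [hS]
    refine ⟨fun x => ∑' S, a S * ((w S x : ℝ) : ℂ), ⟨_, a, hasum, le_rfl, fun x => rfl⟩, ?_, ?_⟩
    · intro x hx
      show ∑' S, a S * ((w S x : ℝ) : ℂ) = 0
      rw [hpair (fun S => w S x) 1 (fun S => (abs_w S x).le)]
      have h1 := hb3 ⟨x, hx⟩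
      have h2 : ∑' k, b k * w {n₀ + k} x = 1 := by
        have h3 : (1 : C(E, ℝ)) ⟨x, hx⟩ = 1 := rfl
        rw [h3] at h1
        rw [h1]
        simp [w]
      rw [h2]
      simp [w]
    · intro hJ
      obtain ⟨g, ⟨c, hc1, hc2, hc3⟩, U, hU, hEU, hg⟩ := hJ (1 / 8) (by norm_num)
      -- the difference vanishes near E
      have hd : Summable (fun S => ‖a S + (-1) * c S‖) :=
        Summable.of_nonneg_of_le (fun _ => norm_nonneg _) (fun S => norm_add_le _ _)
          (hasum.add (by simpa using hc1))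
      have hsumC : ∀ (v : Finset ℕ → ℂ), Summable (fun S => ‖v S‖) → ∀ (t : Finset ℕ → ℝ) (C : ℝ),
          (∀ S, |t S| ≤ C) → Summable (fun S => v S * ((t S : ℝ) : ℂ)) := by
        intro v hv t C ht
        apply Summable.of_norm
        refine Summable.of_nonneg_of_le (fun _ => norm_nonneg _) (fun S => ?_) (hv.mul_right C)
        rw [norm_mul, Complex.norm_real, Real.norm_eq_abs]
        exact mul_le_mul_of_nonneg_left (ht _) (norm_nonneg _)
      have hsplit : ∀ (t : Finset ℕ → ℝ) (C : ℝ), (∀ S, |t S| ≤ C) →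
          ∑' S, (a S + (-1) * c S) * ((t S : ℝ) : ℂ) =
            ∑' S, a S * ((t S : ℝ) : ℂ) - ∑' S, c S * ((t S : ℝ) : ℂ) := by
        intro t C ht
        have h1 := hsumC a hasum t C ht
        have h2 := hsumC c hc1 t C ht
        rw [sub_eq_add_neg, ← tsum_neg, ← h1.tsum_add h2.neg]
        exact tsum_congr fun S => by ring
      have h0 := hs4 (fun S => a S + (-1) * c S) hd ⟨U, hU, hEU, fun x hx => by
        rw [hsplit (fun S => w S x) 1 (fun S => (abs_w S x).le)]
        have h1 := hg x hx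
        rw [hc3 x] at h1
        exact sub_eq_zero.2 h1⟩
      rw [hsplit s (3 / 2) hs1, hpair s (3 / 2) hs1] at h0
      have h5 : ‖∑' S, c S * ((s S : ℝ) : ℂ)‖ ≤ 3 / 16 := by
        have h6 : Summable (fun S => ‖c S * ((s S : ℝ) : ℂ)‖) := by
          refine Summable.of_nonneg_of_le (fun _ => norm_nonneg _) (fun S => ?_)
            (hc1.mul_right (3 / 2))
          rw [norm_mul, Complex.norm_real, Real.norm_eq_abs]
          exact mul_le_mul_of_nonneg_left (hs1 _) (norm_nonneg _)
        refine (norm_tsum_le_tsum_norm h6).trans ?_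
        calc ∑' S, ‖c S * ((s S : ℝ) : ℂ)‖ ≤ ∑' S, ‖c S‖ * (3 / 2) := by
              refine h6.tsum_le_tsum (fun S => ?_) (hc1.mul_right (3 / 2))
              rw [norm_mul, Complex.norm_real, Real.norm_eq_abs]
              exact mul_le_mul_of_nonneg_left (hs1 _) (norm_nonneg _)
          _ = (∑' S, ‖c S‖) * (3 / 2) := tsum_mul_right
          _ ≤ 3 / 16 := by linarith
      rw [← sub_eq_zero.1 h0, Complex.norm_real, Real.norm_eq_abs] at h5
      have h7 : |∑' k, b k * s {n₀ + k}| ≤ 1 / 4 := by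
        have h8 : Summable (fun k => |b k * s {n₀ + k}|) := by
          refine Summable.of_nonneg_of_le (fun _ => abs_nonneg _) (fun k => ?_)
            (hb.mul_right (1 / 128))
          rw [abs_mul]
          exact mul_le_mul_of_nonneg_left (hn₀ _ (by omega)) (abs_nonneg _)
        have h9 : |∑' k, b k * s {n₀ + k}| ≤ ∑' k, |b k * s {n₀ + k}| := by
          have := norm_tsum_le_tsum_norm (f := fun k => b k * s {n₀ + k})
            (by simpa only [Real.norm_eq_abs] using h8)
          simpa only [Real.norm_eq_abs] using this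
        refine h9.trans ?_
        calc ∑' k, |b k * s {n₀ + k}| ≤ ∑' k, |b k| * (1 / 128) := by
              refine h8.tsum_le_tsum (fun k => ?_) (hb.mul_right (1 / 128))
              rw [abs_mul]
              exact mul_le_mul_of_nonneg_left (hn₀ _ (by omega)) (abs_nonneg _)
          _ = (∑' k, |b k|) * (1 / 128) := tsum_mul_right
          _ ≤ 1 / 4 := by linarith
      have h10 := le_abs_self (s ∅ - ∑' k, b k * s {n₀ + k})
      have h11 := le_abs_self (∑' k, b k * s {n₀ + k})
      linarith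

end WD
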