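import Pool.Agent.Helper348.WDBase

set_option autoImplicit false

open MeasureTheory

namespace WD

instance instBorelUnits : BorelSpace ℤˣ := by
  constructor
  rw [borel_eq_top_of_discrete]
  refine top_le_iff.1 ?_
  intro s _
  exact ⟨Units.val '' s, trivial, Set.preimage_image_eq s Units.val_injective⟩

theorem exists_haar : ∃ ν : Measure G, IsProbabilityMeasure ν ∧ ν.IsMulLeftInvariant := by
  refine ⟨Measure.haarMeasure (⊤ : TopologicalSpace.PositiveCompacts G), ⟨?_⟩, inferInstance⟩
  have h := Measure.haarMeasure_self (K₀ := (⊤ : TopologicalSpace.PositiveCompacts G))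
  simpa using h

/-- continuous real functions are integrable -/
theorem int_cont (ν : Measure G) [IsProbabilityMeasure ν] {u : G → ℝ} (hu : Continuous u) :
    Integrable u ν :=
  hu.integrable_of_hasCompactSupport (HasCompactSupport.of_compactSpace u)

theorem int_odd (ν : Measure G) [IsProbabilityMeasure ν] [ν.IsMulLeftInvariant]
    {u : G → ℝ} (i : ℕ) (hi : ∀ x, u (flip i * x) = u x) :
    ∫ x, u x * e i x ∂ν = 0 := by
  have h := integral_mul_left_eq_self (μ := ν) (fun x => u x * e i x) (flip i)
  have h2 : (fun x => u (flip i * x) * e i (flip i * x)) = fun x => -(u x * e i x) := by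
    funext x
    rw [hi, e_flip_self]
    ring
  have h' : ∫ x, u (flip i * x) * e i (flip i * x) ∂ν = ∫ x, u x * e i x ∂ν := h
  rw [h2, integral_neg] at h'
  linarith

end WD
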