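import Mathlib

set_option autoImplicit false

namespace WD

noncomputable def wdA (j : ℕ) : ℝ := 1 / 8 + 1 / (8 * ((j : ℝ) + 1))

theorem wdA_lo (j : ℕ) : 1 / 8 ≤ wdA j := by
  unfold wdA
  have : (0 : ℝ) ≤ 1 / (8 * ((j : ℝ) + 1)) := by positivity
  linarith

theorem wdA_hi (j : ℕ) : wdA j ≤ 1 / 4 := by
  unfold wdA
  have hj : (0 : ℝ) ≤ (j : ℝ) := Nat.cast_nonneg j
  have : 1 / (8 * ((j : ℝ) + 1)) ≤ 1 / 8 := by
    apply one_div_le_one_div_of_le
    · norm_num
    · linarith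
  linarith

theorem wdA_inj {i j : ℕ} (h : i < j) : wdA j - wdA i ≠ 0 := by
  unfold wdA
  have hi : (0 : ℝ) ≤ (i : ℝ) := Nat.cast_nonneg i
  have hij : (i : ℝ) < (j : ℝ) := by exact_mod_cast h
  have : 1 / (8 * ((j : ℝ) + 1)) < 1 / (8 * ((i : ℝ) + 1)) := by
    apply one_div_lt_one_div_of_lt
    · linarith
    · linarith
  intro h0
  linarith

noncomputable def wdC : ℕ → ℕ → ℝ
  | 0, _ => 1
  | M + 1, j => if j ≤ M then wdC M j * wdA (M + 1) / (wdA (M + 1) - wdA j)
      else 1 - ∑ i ∈ Finset.range (M + 1), wdC M i * wdA (M + 1) / (wdA (M + 1) - wdA i)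

noncomputable def wdE (M r : ℕ) : ℝ := ∑ j ∈ Finset.range (M + 1), wdC M j * wdA j ^ r

theorem wdE_zero (M : ℕ) : wdE M 0 = 1 := by
  cases M with
  | zero => simp [wdE, wdC]
  | succ M =>
    unfold wdE
    rw [Finset.sum_range_succ]
    have h1 : wdC (M + 1) (M + 1) = 1 - ∑ i ∈ Finset.range (M + 1),
        wdC M i * wdA (M + 1) / (wdA (M + 1) - wdA i) := by
      rw [wdC, if_neg (by omega)]
    have h2 : ∑ x ∈ Finset.range (M + 1), wdC (M + 1) x * wdA x ^ 0 =
        ∑ i ∈ Finset.range (M + 1), wdC M i * wdA (M + 1) / (wdA (M + 1) - wdA i) := by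
      apply Finset.sum_congr rfl
      intro x hx
      rw [Finset.mem_range] at hx
      rw [wdC, if_pos (by omega)]
      ring
    rw [h1, h2]
    ring

theorem wdE_succ (M r : ℕ) : wdE (M + 1) (r + 1) = wdA (M + 1) * (wdE (M + 1) r - wdE M r) := by
  have key : wdA (M + 1) * wdE (M + 1) r - wdE (M + 1) (r + 1) = wdA (M + 1) * wdE M r := by
    unfold wdE
    rw [Finset.mul_sum, Finset.mul_sum, ← Finset.sum_sub_distrib, Finset.sum_range_succ]
    have h0 : wdA (M + 1) * (wdC (M + 1) (M + 1) * wdA (M + 1) ^ r) -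
        wdC (M + 1) (M + 1) * wdA (M + 1) ^ (r + 1) = 0 := by ring
    rw [h0, add_zero]
    apply Finset.sum_congr rfl
    intro x hx
    rw [Finset.mem_range] at hx
    have h1 : wdC (M + 1) x = wdC M x * wdA (M + 1) / (wdA (M + 1) - wdA x) := by
      rw [wdC, if_pos (by omega)]
    have h2 : wdA (M + 1) - wdA x ≠ 0 := wdA_inj (by omega)
    rw [h1]
    field_simp
    ring
  linarith

theorem wdE_bound (M : ℕ) : ∀ r : ℕ, 1 ≤ r → |wdE M r| ≤ (1 / 2) ^ M := by
  induction M with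
  | zero =>
    intro r _
    have h1 : wdE 0 r = wdA 0 ^ r := by
      simp [wdE, wdC]
    rw [h1, pow_zero, abs_of_nonneg (pow_nonneg (by linarith [wdA_lo 0]) r)]
    exact pow_le_one₀ (by linarith [wdA_lo 0]) (by linarith [wdA_hi 0])
  | succ M ih =>
    intro r hr
    induction r with
    | zero => omega
    | succ r ihr =>
      rw [wdE_succ, abs_mul, abs_of_nonneg (by linarith [wdA_lo (M + 1)] : (0 : ℝ) ≤ wdA (M + 1))]
      rcases Nat.eq_zero_or_pos r with h0 | h0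
      · subst h0
        rw [wdE_zero, wdE_zero, sub_self, abs_zero, mul_zero]
        positivity
      · have e1 := ihr h0
        have e2 := ih r h0
        have e3 : |wdE (M + 1) r - wdE M r| ≤ |wdE (M + 1) r| + |wdE M r| := abs_sub _ _
        have e4 : (0 : ℝ) ≤ |wdE (M + 1) r - wdE M r| := abs_nonneg _
        have e5 := wdA_hi (M + 1)
        have e6 : wdA (M + 1) * |wdE (M + 1) r - wdE M r| ≤
            1 / 4 * |wdE (M + 1) r - wdE M r| := mul_le_mul_of_nonneg_right e5 e4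
        have e7 : ((1 : ℝ) / 2) ^ (M + 1) = (1 / 2) ^ M * (1 / 2) := pow_succ _ _
        have e8 : (0 : ℝ) ≤ (1 / 2) ^ M := by positivity
        rw [e7] at e1 ⊢
        nlinarith

theorem moment (M : ℕ) : ∃ (a c : Fin (M + 1) → ℝ), (∀ j, 1 / 8 ≤ a j ∧ a j ≤ 1 / 4) ∧
    ∑ j, c j = 1 ∧ ∀ r : ℕ, 1 ≤ r → |∑ j, c j * a j ^ r| ≤ (1 / 2) ^ M := by
  refine ⟨fun j => wdA j, fun j => wdC M j, fun j => ⟨wdA_lo _, wdA_hi _⟩, ?_, ?_⟩
  · have h := wdE_zero M
    unfold wdE at h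
    rw [Finset.sum_range] at h
    simpa using h
  · intro r hr
    have h := wdE_bound M r hr
    unfold wdE at h
    rw [Finset.sum_range] at h
    exact h

end WD
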