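import Pool.Agent.Helper348.WDStage

set_option autoImplicit false

open MeasureTheory

namespace WD

/-- TARGET -/
theorem exists_seq (ν : Measure G) [IsProbabilityMeasure ν] [ν.IsMulLeftInvariant] :
    ∃ (m : ℕ → ℕ) (p : ℕ → G → ℝ) (s : Finset ℕ → ℝ), StrictMono m ∧
      (∀ n, Lev (m n) (p n)) ∧ (∀ n x, p n x = 0 → p (n + 1) x = 0) ∧
      (∀ n S, |s S - ∫ x, p n x * w S x ∂ν| ≤ (1 / 2) ^ (n + 1)) ∧
      1 / 2 ≤ s ∅ ∧ (∀ S, |s S| ≤ 3 / 2) ∧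
      ∀ n (f : G → ℝ), Lev (m n) f → (∀ x, f x = 1 ∨ f x = -1) →
        ∃ K : Finset ℕ, K.Nonempty ∧ (∀ k ∈ K, m n ≤ k) ∧
          ∀ x, p (n + 1) x ≠ 0 → (K.card : ℝ) / 16 ≤ f x * ∑ k ∈ K, e k x := by
  classical
  let T := {q : ℕ × (G → ℝ) // Lev q.1 q.2}
  have st : ∀ (n : ℕ) (q : T), ∃ q' : T, q.1.1 < q'.1.1 ∧
      (∀ x, q.1.2 x = 0 → q'.1.2 x = 0) ∧
      (∀ S : Finset ℕ, |∫ x, q'.1.2 x * w S x ∂ν - ∫ x, q.1.2 x * w S x ∂ν| ≤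
        (1 / 2 : ℝ) ^ (n + 2)) ∧
      ∀ f : G → ℝ, Lev q.1.1 f → (∀ x, f x = 1 ∨ f x = -1) →
        ∃ K : Finset ℕ, K.Nonempty ∧ (∀ k ∈ K, q.1.1 ≤ k) ∧
          ∀ x, q'.1.2 x ≠ 0 → (K.card : ℝ) / 16 ≤ f x * ∑ k ∈ K, e k x := by
    intro n q
    obtain ⟨m', p', h1, h2, h3, h4, h5⟩ := stage ν q.1.1 q.1.2 q.2 ((1 / 2 : ℝ) ^ (n + 2))
      (by positivity)
    exact ⟨⟨(m', p'), h2⟩, h1, h3, h4, h5⟩
  choose F hF1 hF2 hF3 hF4 using st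
  let Q : ℕ → T := fun n => Nat.rec ⟨(0, fun _ => 1), fun _ _ _ => rfl⟩ (fun n q => F n q) n
  have hQ0 : Q 0 = ⟨(0, fun _ => 1), fun _ _ _ => rfl⟩ := rfl
  have hQs : ∀ n, Q (n + 1) = F n (Q n) := fun n => rfl
  have hstep : ∀ n S, |∫ x, (Q (n+1)).1.2 x * w S x ∂ν - ∫ x, (Q n).1.2 x * w S x ∂ν| ≤
      (1 / 2 : ℝ) ^ (n + 2) := fun n S => hF3 n (Q n) S
  have hdist : ∀ (S : Finset ℕ) (n : ℕ), dist (∫ x, (Q n).1.2 x * w S x ∂ν)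
      (∫ x, (Q (n+1)).1.2 x * w S x ∂ν) ≤ (1 / 4 : ℝ) * (1 / 2) ^ n := by
    intro S n
    rw [dist_comm, Real.dist_eq]
    refine (hstep n S).trans (le_of_eq ?_)
    rw [pow_add]; ring
  have hlim : ∀ S : Finset ℕ, ∃ a : ℝ, Filter.Tendsto (fun n => ∫ x, (Q n).1.2 x * w S x ∂ν)
      Filter.atTop (nhds a) := fun S =>
    cauchySeq_tendsto_of_complete (cauchySeq_of_le_geometric (1/2) (1/4) (by norm_num) (hdist S))
  choose s hs using hlim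
  have hbd : ∀ n S, |s S - ∫ x, (Q n).1.2 x * w S x ∂ν| ≤ (1 / 2 : ℝ) ^ (n + 1) := by
    intro n S
    have h := dist_le_of_le_geometric_of_tendsto (1/2) (1/4) (by norm_num) (hdist S) (hs S) n
    rw [dist_comm, Real.dist_eq] at h
    refine h.trans (le_of_eq ?_)
    rw [pow_succ]; ring
  have hc0 : ∀ S, ∫ x, (Q 0).1.2 x * w S x ∂ν = ∫ x, w S x ∂ν := by
    intro S
    simp only [hQ0, one_mul]
  have hb0 : ∀ S, |∫ x, (Q 0).1.2 x * w S x ∂ν| ≤ 1 := by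
    intro S
    rw [hc0, ← Real.norm_eq_abs]
    have h := norm_integral_le_of_norm_le_const (μ := ν) (f := w S) (C := 1)
      (Filter.Eventually.of_forall fun x => by rw [Real.norm_eq_abs, abs_w])
    simpa using h
  have he0 : ∫ x, (Q 0).1.2 x * w ∅ x ∂ν = 1 := by
    rw [hc0]
    simp [w]
  refine ⟨fun n => (Q n).1.1, fun n => (Q n).1.2, s, ?_, fun n => (Q n).2, ?_, hbd, ?_, ?_, ?_⟩
  · exact strictMono_nat_of_lt_succ fun n => hF1 n (Q n)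
  · exact fun n x h => hF2 n (Q n) x h
  · have h := hbd 0 ∅
    rw [he0, abs_le] at h
    norm_num at h
    linarith [h.1]
  · intro S
    have h := hbd 0 S
    have h2 := hb0 S
    have h3 : |s S| ≤ |s S - ∫ x, (Q 0).1.2 x * w S x ∂ν| + |∫ x, (Q 0).1.2 x * w S x ∂ν| := by
      have := abs_add_le (s S - ∫ x, (Q 0).1.2 x * w S x ∂ν) (∫ x, (Q 0).1.2 x * w S x ∂ν)
      simpa using this
    norm_num at h
    linarith
  · exact fun n f hf1 hf2 => hF4 n (Q n) f hf1 hf2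


end WD
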