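import Pool.Agent.Helper348.WDAlg
import Pool.Agent.Helper348.WDBade
import Pool.Agent.Helper348.WDLev

set_option autoImplicit false

open MeasureTheory

namespace WD

/-- near `E`, `f` agrees with an element of the Fourier algebra of norm at most `c` -/
def Q (E : Set G) (c : ℝ) (f : G → ℂ) : Prop :=
  ∃ g, R c g ∧ ∃ U : Set G, IsOpen U ∧ E ⊆ U ∧ ∀ x ∈ U, f x = g x

lemma Q_of_R {E : Set G} {c : ℝ} {f : G → ℂ} (h : R c f) : Q E c f :=
  ⟨f, h, Set.univ, isOpen_univ, Set.subset_univ _, fun _ _ => rfl⟩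

lemma Q_nonneg {E : Set G} {c : ℝ} {f : G → ℂ} (h : Q E c f) : 0 ≤ c := by
  obtain ⟨g, hg, _⟩ := h
  exact R_nonneg hg

lemma Q_mono {E : Set G} {c d : ℝ} {f : G → ℂ} (h : Q E c f) (hcd : c ≤ d) : Q E d f := by
  obtain ⟨g, hg, h2⟩ := h
  exact ⟨g, R_mono hg hcd, h2⟩

lemma Q_congr {E : Set G} {c : ℝ} {f f' : G → ℂ} (h : Q E c f) {V : Set G} (hV : IsOpen V)
    (hEV : E ⊆ V) (hff : ∀ x ∈ V, f' x = f x) : Q E c f' := by
  obtain ⟨g, hg, U, hU, hEU, h2⟩ := h
  exact ⟨g, hg, U ∩ V, hU.inter hV, Set.subset_inter hEU hEV, fun x hx => by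
    rw [hff x hx.2, h2 x hx.1]⟩

lemma Q_add {E : Set G} {c d : ℝ} {f g : G → ℂ} (hf : Q E c f) (hg : Q E d g) :
    Q E (c + d) (fun x => f x + g x) := by
  obtain ⟨f', hf', U, hU, hEU, h2⟩ := hf
  obtain ⟨g', hg', V, hV, hEV, k2⟩ := hg
  exact ⟨fun x => f' x + g' x, R_add hf' hg', U ∩ V, hU.inter hV, Set.subset_inter hEU hEV,
    fun x hx => by show f x + g x = f' x + g' x; rw [h2 x hx.1, k2 x hx.2]⟩

lemma Q_mul {E : Set G} {c d : ℝ} {f g : G → ℂ} (hf : Q E c f) (hg : Q E d g) :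
    Q E (c * d) (fun x => f x * g x) := by
  obtain ⟨f', hf', U, hU, hEU, h2⟩ := hf
  obtain ⟨g', hg', V, hV, hEV, k2⟩ := hg
  exact ⟨fun x => f' x * g' x, R_mul hf' hg', U ∩ V, hU.inter hV, Set.subset_inter hEU hEV,
    fun x hx => by show f x * g x = f' x * g' x; rw [h2 x hx.1, k2 x hx.2]⟩

lemma Q_smul {E : Set G} {c : ℝ} {f : G → ℂ} (k : ℂ) (hf : Q E c f) :
    Q E (‖k‖ * c) (fun x => k * f x) := by
  obtain ⟨f', hf', U, hU, hEU, h2⟩ := hf
  exact ⟨fun x => k * f' x, R_smul k hf', U, hU, hEU, fun x hx => by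
    show k * f x = k * f' x; rw [h2 x hx]⟩

lemma Q_bound {E : Set G} {c : ℝ} {f : G → ℂ} (hf : Q E c f) {x : G} (hx : x ∈ E) :
    ‖f x‖ ≤ c := by
  obtain ⟨f', hf', U, hU, hEU, h2⟩ := hf
  rw [h2 x (hEU hx)]
  exact R_bound hf' x

/-- membership in the ideal `J_E` -/
def JE (E : Set G) (f : G → ℂ) : Prop := ∀ ε : ℝ, 0 < ε → Q E ε f

/-- the seminorm of `A(G)/J_E` -/
noncomputable def q (E : Set G) (f : G → ℂ) : ℝ := sInf {c | Q E c f}

lemma bdd_q (E : Set G) (f : G → ℂ) : BddBelow {c | Q E c f} := ⟨0, fun _ h => Q_nonneg h⟩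

lemma q_nonneg (E : Set G) (f : G → ℂ) : 0 ≤ q E f :=
  Real.sInf_nonneg fun _ h => Q_nonneg h

lemma q_le {E : Set G} {c : ℝ} {f : G → ℂ} (h : Q E c f) : q E f ≤ c := csInf_le (bdd_q E f) h

lemma Q_of_lt {E : Set G} {c : ℝ} {f : G → ℂ} (hf : A f) (h : q E f < c) : Q E c f := by
  obtain ⟨b, hb⟩ := hf
  obtain ⟨d, hd, hdc⟩ := exists_lt_of_csInf_lt ⟨b, Q_of_R hb⟩ h
  exact Q_mono hd hdc.le

lemma q_add {E : Set G} {f g : G → ℂ} (hf : A f) (hg : A g) :
    q E (fun x => f x + g x) ≤ q E f + q E g := by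
  refine le_of_forall_pos_le_add fun ε hε => ?_
  have h1 : Q E (q E f + ε / 2) f := Q_of_lt hf (by linarith)
  have h2 : Q E (q E g + ε / 2) g := Q_of_lt hg (by linarith)
  have := q_le (Q_add h1 h2)
  linarith

lemma q_mul {E : Set G} {f g : G → ℂ} (hf : A f) (hg : A g) :
    q E (fun x => f x * g x) ≤ q E f * q E g := by
  have h0 := q_nonneg E f
  have h0' := q_nonneg E g
  refine le_of_forall_pos_le_add fun ε hε => ?_
  -- choose δ with (a+δ)(b+δ) ≤ ab+ε
  set a := q E f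
  set b := q E g
  obtain ⟨δ, hδ, h3⟩ : ∃ δ : ℝ, 0 < δ ∧ (a + δ) * (b + δ) ≤ a * b + ε := by
    refine ⟨min 1 (ε / (a + b + 1)), ?_, ?_⟩
    · have : 0 < ε / (a + b + 1) := by positivity
      exact lt_min one_pos this
    · set δ := min 1 (ε / (a + b + 1))
      have hδ0 : 0 < δ := lt_min one_pos (by positivity)
      have h1 : δ ≤ 1 := min_le_left _ _
      have h2 : δ ≤ ε / (a + b + 1) := min_le_right _ _
      have h4 : δ * (a + b + 1) ≤ ε := by
        rwa [le_div_iff₀ (by positivity)] at h2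
      nlinarith
  have h1 : Q E (a + δ) f := Q_of_lt hf (by linarith)
  have h2 : Q E (b + δ) g := Q_of_lt hg (by linarith)
  have := q_le (Q_mul h1 h2)
  linarith

lemma JE_of_q {E : Set G} {f : G → ℂ} (hf : A f) (h : q E f ≤ 0) : JE E f := fun ε hε =>
  Q_of_lt hf (lt_of_le_of_lt h hε)

lemma q_of_JE {E : Set G} {f : G → ℂ} (h : JE E f) : q E f = 0 :=
  le_antisymm (le_of_forall_pos_le_add fun _ hε => by
    have := q_le (h _ hε); linarith) (q_nonneg E f)

lemma JE_add {E : Set G} {f g : G → ℂ} (hf : JE E f) (hg : JE E g) :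
    JE E (fun x => f x + g x) := fun ε hε =>
  Q_mono (Q_add (hf (ε / 2) (by linarith)) (hg (ε / 2) (by linarith))) (by linarith)

lemma JE_mul {E : Set G} {f g : G → ℂ} (hf : JE E f) (hg : A g) :
    JE E (fun x => f x * g x) := by
  intro ε hε
  obtain ⟨c, hc⟩ := hg
  have h0 := R_nonneg hc
  refine Q_mono (Q_mul (hf (ε / (c + 1)) (by positivity)) (Q_of_R hc)) ?_
  rw [div_mul_eq_mul_div, div_le_iff₀ (by positivity)]
  nlinarith

lemma JE_smul {E : Set G} {f : G → ℂ} (k : ℂ) (hf : JE E f) : JE E (fun x => k * f x) := by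
  have := JE_mul hf ⟨_, R_const k⟩
  intro ε hε
  obtain ⟨g, h1, U, h2, h3, h4⟩ := this ε hε
  exact ⟨g, h1, U, h2, h3, fun x hx => by rw [← h4 x hx]; ring⟩

lemma A_add {f g : G → ℂ} (hf : A f) (hg : A g) : A (fun x => f x + g x) := by
  obtain ⟨c, hc⟩ := hf
  obtain ⟨d, hd⟩ := hg
  exact ⟨_, R_add hc hd⟩

lemma A_mul {f g : G → ℂ} (hf : A f) (hg : A g) : A (fun x => f x * g x) := by
  obtain ⟨c, hc⟩ := hf
  obtain ⟨d, hd⟩ := hg
  exact ⟨_, R_mul hc hd⟩

lemma A_smul {f : G → ℂ} (k : ℂ) (hf : A f) : A (fun x => k * f x) := by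
  obtain ⟨c, hc⟩ := hf
  exact ⟨_, R_smul k hc⟩

lemma A_sub {f g : G → ℂ} (hf : A f) (hg : A g) : A (fun x => f x - g x) := by
  have := A_add hf (A_smul (-1) hg)
  simpa [sub_eq_add_neg] using this

lemma q_smul {E : Set G} {f : G → ℂ} (k : ℂ) (hf : A f) :
    q E (fun x => k * f x) = ‖k‖ * q E f := by
  have key : ∀ (k : ℂ) (f : G → ℂ), A f → q E (fun x => k * f x) ≤ ‖k‖ * q E f := by
    intro k f hf
    refine le_of_forall_pos_le_add fun ε hε => ?_
    have h1 : Q E (q E f + ε / (‖k‖ + 1)) f := Q_of_lt hf (by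
      have : 0 < ε / (‖k‖ + 1) := by positivity
      linarith)
    have h2 := q_le (Q_smul k h1)
    have h3 : ‖k‖ * (ε / (‖k‖ + 1)) ≤ ε := by
      rw [mul_div_assoc', div_le_iff₀ (by positivity)]
      nlinarith [norm_nonneg k]
    calc q E (fun x => k * f x) ≤ ‖k‖ * (q E f + ε / (‖k‖ + 1)) := h2
      _ = ‖k‖ * q E f + ‖k‖ * (ε / (‖k‖ + 1)) := by ring
      _ ≤ ‖k‖ * q E f + ε := by linarith
  by_cases hk : k = 0
  · subst hk
    have := key 0 f hf
    have h2 := q_nonneg E (fun x => 0 * f x)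
    simp only [norm_zero, zero_mul] at *
    linarith
  · apply le_antisymm (key k f hf)
    have h1 := key k⁻¹ (fun x => k * f x) (A_smul k hf)
    have h2 : (fun x => k⁻¹ * (k * f x)) = f := by
      funext x; rw [← mul_assoc, inv_mul_cancel₀ hk, one_mul]
    rw [h2, norm_inv] at h1
    have h3 : 0 < ‖k‖ := norm_pos_iff.2 hk
    rw [inv_mul_eq_div, le_div_iff₀ h3] at h1
    linarith

lemma q_congr {E : Set G} {f g : G → ℂ} (hf : A f) (hg : A g)
    (h : JE E (fun x => f x - g x)) : q E f = q E g := by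
  have h1 : q E f ≤ q E g := by
    have := q_add (E := E) hg (A_sub hf hg)
    have h2 : (fun x => g x + (f x - g x)) = f := by funext x; ring
    rw [h2, q_of_JE h, add_zero] at this
    exact this
  have h' : JE E (fun x => g x - f x) := by
    have := JE_smul (-1) h
    have h2 : (fun x => -1 * (f x - g x)) = fun x => g x - f x := by funext x; ring
    rwa [h2] at this
  have h2 : q E g ≤ q E f := by
    have := q_add (E := E) hf (A_sub hg hf)
    have h2 : (fun x => f x + (g x - f x)) = g := by funext x; ring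
    rw [h2, q_of_JE h', add_zero] at this
    exact this
  exact le_antisymm h1 h2

end WD
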