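import Pool.Agent.Helper348.WDStep

set_option autoImplicit false

open MeasureTheory

namespace WD

/-- sign functions of level `m` -/
noncomputable def fF7413 (m : ℕ) (F : (Fin m → ℤˣ) → ℤˣ) (x : G) : ℝ :=
  (((F (fun i : Fin m => x i) : ℤˣ) : ℤ) : ℝ)

lemma fF_lev7413 (m : ℕ) (F : (Fin m → ℤˣ) → ℤˣ) : Lev m (fF7413 m F) := by
  intro x y h
  unfold fF7413
  have : (fun i : Fin m => x i) = (fun i : Fin m => y i) := by
    funext i; exact h i i.2
  rw [this]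

lemma fF_eq7413 (m : ℕ) (F : (Fin m → ℤˣ) → ℤˣ) (x : G) :
    fF7413 m F x = 1 ∨ fF7413 m F x = -1 := by
  unfold fF7413
  rcases Int.units_eq_one_or (F (fun i : Fin m => x i)) with h | h <;> simp [h]

lemma Lev_mono7413 {α : Type} {m n : ℕ} (h : m ≤ n) {u : G → α} (hu : Lev m u) : Lev n u :=
  fun x y hxy => hu x y (fun i hi => hxy i (by omega))

lemma exists_F7413 (m : ℕ) (f : G → ℝ) (hf : Lev m f) (hf1 : ∀ x, f x = 1 ∨ f x = -1) :
    ∃ F : (Fin m → ℤˣ) → ℤˣ, fF7413 m F = f := by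
  classical
  refine ⟨fun y => if f (fun i => if h : i < m then y ⟨i, h⟩ else 1) = 1 then 1 else -1, ?_⟩
  funext x
  unfold fF7413
  have h1 : f (fun i => if h : i < m then (fun i : Fin m => x i) ⟨i, h⟩ else 1) = f x := by
    apply hf
    intro i hi
    simp [hi]
  simp only at h1 ⊢
  rw [h1]
  rcases hf1 x with h | h
  · rw [if_pos h, h]; simp
  · rw [if_neg (by rw [h]; norm_num), h]; simp

lemma claim7413 (ν : Measure G) [IsProbabilityMeasure ν] [ν.IsMulLeftInvariant]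
    (m : ℕ) (p : G → ℝ) (hp : Lev m p) (T : Finset ((Fin m → ℤˣ) → ℤˣ)) :
    ∀ ε : ℝ, 0 < ε →
    ∃ (m' : ℕ) (p' : G → ℝ), m ≤ m' ∧ Lev m' p' ∧ (∀ x, p x = 0 → p' x = 0) ∧
      (∀ S : Finset ℕ, |∫ x, p' x * w S x ∂ν - ∫ x, p x * w S x ∂ν| ≤ ε) ∧
      ∀ F ∈ T, ∃ K : Finset ℕ, K.Nonempty ∧ (∀ k ∈ K, m ≤ k) ∧
          ∀ x, p' x ≠ 0 → (K.card : ℝ) / 16 ≤ fF7413 m F x * ∑ k ∈ K, e k x := by
  classical
  induction T using Finset.induction_on with
  | empty =>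
    intro ε hε
    refine ⟨m, p, le_rfl, hp, fun _ h => h, fun S => ?_, fun F hF => absurd hF (Finset.notMem_empty F)⟩
    rw [sub_self, abs_zero]; exact hε.le
  | insert F T hFT ih =>
    intro ε hε
    obtain ⟨m2, p2, hm2, hp2, hz2, hS2, hK2⟩ := ih (ε / 2) (by linarith)
    obtain ⟨N, p3, hN, hp3, hz3, hs3, hS3⟩ := step ν m2 p2 (fF7413 m F) hp2
      (Lev_mono7413 hm2 (fF_lev7413 m F)) (fF_eq7413 m F) (ε / 2) (by linarith)
    refine ⟨m2 + N, p3, by omega, hp3, fun x hx => hz3 x (hz2 x hx), ?_, ?_⟩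
    · intro S
      have h1 := abs_le.1 (hS2 S)
      have h2 := abs_le.1 (hS3 S)
      rw [abs_le]
      constructor <;> linarith [h1.1, h1.2, h2.1, h2.2]
    · intro F' hF'
      rw [Finset.mem_insert] at hF'
      rcases hF' with rfl | hF'
      · have hinj : Function.Injective (fun k : ℕ => m2 + k) := fun a b h => by
          simp only at h; omega
        refine ⟨(Finset.range N).image (fun k => m2 + k), ?_, ?_, ?_⟩
        · exact ⟨m2 + 0, Finset.mem_image.2 ⟨0, Finset.mem_range.2 hN, rfl⟩⟩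
        · intro k hk
          obtain ⟨a, -, rfl⟩ := Finset.mem_image.1 hk
          omega
        · intro x hx
          rw [Finset.card_image_of_injective _ hinj, Finset.card_range,
            Finset.sum_image (fun a _ b _ h => hinj h), Finset.mul_sum]
          exact hs3 x hx
      · obtain ⟨K, hK1, hK2', hK3⟩ := hK2 F' hF'
        exact ⟨K, hK1, hK2', fun x hx => hK3 x (fun h => hx (hz3 x h))⟩

/-- TARGET -/
theorem stage (ν : Measure G) [IsProbabilityMeasure ν] [ν.IsMulLeftInvariant]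
    (m : ℕ) (p : G → ℝ) (hp : Lev m p) (ε : ℝ) (hε : 0 < ε) :
    ∃ (m' : ℕ) (p' : G → ℝ), m < m' ∧ Lev m' p' ∧ (∀ x, p x = 0 → p' x = 0) ∧
      (∀ S : Finset ℕ, |∫ x, p' x * w S x ∂ν - ∫ x, p x * w S x ∂ν| ≤ ε) ∧
      ∀ f : G → ℝ, Lev m f → (∀ x, f x = 1 ∨ f x = -1) →
        ∃ K : Finset ℕ, K.Nonempty ∧ (∀ k ∈ K, m ≤ k) ∧
          ∀ x, p' x ≠ 0 → (K.card : ℝ) / 16 ≤ f x * ∑ k ∈ K, e k x := by
  classical
  obtain ⟨m2, p2, hm2, hp2, hz2, hS2, hK2⟩ := claim7413 ν m p hp Finset.univ ε hε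
  refine ⟨m2 + 1, p2, by omega, Lev_mono7413 (by omega) hp2, hz2, hS2, ?_⟩
  intro f hf hf1
  obtain ⟨F, rfl⟩ := exists_F7413 m f hf hf1
  exact hK2 F (Finset.mem_univ F)

end WD
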