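import Pool.Agent.Helper348.WDVar
import Pool.Agent.Helper348.WDMoment

set_option autoImplicit false

open MeasureTheory

namespace WD

lemma D_nonneg {m N : ℕ} {f : G → ℝ} (hf1 : ∀ x, f x = 1 ∨ f x = -1) {a : ℝ} (h0 : 0 ≤ a)
    (h1 : a ≤ 1 / 4) (x : G) : 0 ≤ D m N f a x := by
  unfold D
  apply Finset.prod_nonneg
  intro k _
  have h2 : |a * f x * e (m + k) x| ≤ 1 / 4 := by
    rw [abs_mul, abs_mul, abs_e, mul_one, abs_of_nonneg h0]
    rcases hf1 x with h | h <;> rw [h] <;> simp <;> linarith
  have := abs_le.1 h2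
  linarith

theorem step (ν : Measure G) [IsProbabilityMeasure ν] [ν.IsMulLeftInvariant]
    (m : ℕ) (p f : G → ℝ) (hp : Lev m p) (hf : Lev m f) (hf1 : ∀ x, f x = 1 ∨ f x = -1)
    (ε : ℝ) (hε : 0 < ε) :
    ∃ (N : ℕ) (p' : G → ℝ), 0 < N ∧ Lev (m + N) p' ∧ (∀ x, p x = 0 → p' x = 0) ∧
      (∀ x, p' x ≠ 0 → (N : ℝ) / 16 ≤ ∑ k ∈ Finset.range N, f x * e (m + k) x) ∧
      ∀ S : Finset ℕ, |∫ x, p' x * w S x ∂ν - ∫ x, p x * w S x ∂ν| ≤ ε := by
  classical
  set I := ∫ x, |p x| ∂ν with hI
  have hI0 : 0 ≤ I := integral_nonneg fun x => abs_nonneg _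
  have hpL : Lev m (fun x => |p x|) := fun x y h => by
    show |p x| = |p y|
    rw [hp x y h]
  obtain ⟨M, hM⟩ : ∃ M : ℕ, (1 / 2 : ℝ) ^ M * I ≤ ε / 2 := by
    obtain ⟨M, hM⟩ := exists_pow_lt_of_lt_one (show 0 < ε / (2 * (I + 1)) by positivity)
      (show (1 / 2 : ℝ) < 1 by norm_num)
    refine ⟨M, ?_⟩
    have h7 : (1 / 2 : ℝ) ^ M * I ≤ (ε / (2 * (I + 1))) * I := by gcongr
    refine h7.trans ?_
    rw [div_mul_eq_mul_div, div_le_div_iff₀ (by positivity) (by positivity)]
    nlinarith
  obtain ⟨a, c, ha, hc1, hcr⟩ := moment M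
  set Cs := ∑ j, |c j| with hCs
  have hCs0 : 0 ≤ Cs := Finset.sum_nonneg fun _ _ => abs_nonneg _
  obtain ⟨N, hN⟩ := exists_nat_gt (Cs * 256 * I / (ε / 2))
  have hN0 : (0 : ℝ) < N := lt_of_le_of_lt (by positivity) hN
  have hN1 : Cs * (256 * I / N) ≤ ε / 2 := by
    rw [div_lt_iff₀ (by positivity)] at hN
    rw [mul_div_assoc', div_le_iff₀ hN0]
    nlinarith
  have hNn : 0 < N := by exact_mod_cast hN0
  -- the good set
  set s : G → ℝ := fun x => ∑ k ∈ Finset.range N, f x * e (m + k) x with hs
  have hsL : Lev (m + N) s := by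
    intro x y hxy
    show ∑ k ∈ Finset.range N, f x * e (m + k) x = ∑ k ∈ Finset.range N, f y * e (m + k) y
    refine Finset.sum_congr rfl fun k hk => ?_
    rw [hf x y fun i hi => hxy i (by omega), rv_e (Finset.mem_range.1 hk) x y hxy]
  set T : G → ℝ := fun x => ∑ j, c j * D m N f (a j) x with hT
  have hTL : Lev (m + N) T := by
    intro x y hxy
    show ∑ j, c j * D m N f (a j) x = ∑ j, c j * D m N f (a j) y
    exact Finset.sum_congr rfl fun j _ => by rw [rv_D hf N (a j) x y hxy]
  have hpN : Lev (m + N) p := rv_mono hp (by omega)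
  have hwc := fun S => continuous_w S
  have hDc : ∀ b : ℝ, Continuous (D m N f b) := fun b => (rv_D hf N b).continuous
  refine ⟨N, fun x => if (N : ℝ) / 16 ≤ s x then p x * T x else 0, hNn, ?_, ?_, ?_, ?_⟩
  · intro x y hxy
    show (if (N : ℝ) / 16 ≤ s x then p x * T x else 0) = if (N : ℝ) / 16 ≤ s y then p y * T y else 0
    rw [hsL x y hxy, hTL x y hxy, hpN x y hxy]
  · intro x hx
    show (if (N : ℝ) / 16 ≤ s x then p x * T x else 0) = 0
    rw [hx, zero_mul, ite_self]
  · intro x hx
    by_contra hcon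
    exact hx (if_neg hcon)
  · intro S
    have hL' : Lev (m + N) (fun x => if (N : ℝ) / 16 ≤ s x then p x * T x else 0) := by
      intro x y hxy
      show (if (N : ℝ) / 16 ≤ s x then p x * T x else 0) = if (N : ℝ) / 16 ≤ s y then p y * T y else 0
      rw [hsL x y hxy, hTL x y hxy, hpN x y hxy]
    -- main term
    have h1 : |∫ x, p x * T x * w S x ∂ν - ∫ x, p x * w S x ∂ν| ≤ ε / 2 := by
      obtain ⟨κ, r, hκ, hr0, hr1, hκa⟩ := riesz_coeff ν m N f hf hf1 p hp S
      have h2 : ∫ x, p x * T x * w S x ∂ν = (∑ j, c j * a j ^ r) * κ := by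
        have h3 : (fun x => p x * T x * w S x) =
            fun x => ∑ j, c j * (p x * D m N f (a j) x * w S x) := by
          funext x
          simp only [hT]
          rw [Finset.mul_sum, Finset.sum_mul]
          exact Finset.sum_congr rfl fun j _ => by ring
        rw [h3, integral_finsetSum _ (fun j _ => ?_), Finset.sum_mul]
        · refine Finset.sum_congr rfl fun j _ => ?_
          rw [integral_const_mul, hκa]; ring
        · exact (int_cont ν ((hp.continuous.mul (hDc _)).mul (hwc S))).const_mul _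
      rw [h2]
      rcases Nat.eq_zero_or_pos r with hr | hr
      · rw [hr0 hr, hr]
        simp only [pow_zero, mul_one]
        rw [hc1, one_mul, sub_self, abs_zero]
        linarith
      · rw [hr1 hr, sub_zero, abs_mul]
        calc |∑ j, c j * a j ^ r| * |κ| ≤ (1 / 2) ^ M * I := by
              apply mul_le_mul (hcr r hr) hκ (abs_nonneg _) (by positivity)
          _ ≤ ε / 2 := hM
    -- the bad part
    have h2 : |∫ x, (if (N : ℝ) / 16 ≤ s x then p x * T x else 0) * w S x ∂ν -
        ∫ x, p x * T x * w S x ∂ν| ≤ ε / 2 := by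
      have hi1 : Integrable (fun x => (if (N : ℝ) / 16 ≤ s x then p x * T x else 0) * w S x) ν :=
        int_cont ν (hL'.continuous.mul (hwc S))
      have hi2 : Integrable (fun x => p x * T x * w S x) ν :=
        int_cont ν ((hp.continuous.mul hTL.continuous).mul (hwc S))
      rw [← integral_sub hi1 hi2]
      refine (abs_integral_le_integral_abs).trans ?_
      have hdom : ∀ x, |(if (N : ℝ) / 16 ≤ s x then p x * T x else 0) * w S x -
          p x * T x * w S x| ≤ ∑ j, |c j| * (256 / N ^ 2) * (|p x| * D m N f (a j) x *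
            (∑ k ∈ Finset.range N, (f x * e (m + k) x - a j)) ^ 2) := by
        intro x
        rw [← sub_mul, abs_mul, abs_w, mul_one]
        split_ifs with hg
        · rw [sub_self, abs_zero]
          apply Finset.sum_nonneg
          intro j _
          have := D_nonneg (m := m) (N := N) hf1 (by linarith [(ha j).1]) (ha j).2 x
          positivity
        · rw [zero_sub, abs_neg, abs_mul]
          have h3 : |T x| ≤ ∑ j, |c j| * D m N f (a j) x := by
            refine (Finset.abs_sum_le_sum_abs _ _).trans (Finset.sum_le_sum fun j _ => ?_)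
            rw [abs_mul, abs_of_nonneg (D_nonneg (m := m) (N := N) hf1 (by linarith [(ha j).1]) (ha j).2 x)]
          refine (mul_le_mul_of_nonneg_left h3 (abs_nonneg _)).trans ?_
          rw [Finset.mul_sum]
          refine Finset.sum_le_sum fun j _ => ?_
          have hDn := D_nonneg (m := m) (N := N) hf1 (by linarith [(ha j).1]) (ha j).2 x
          have h4 : (1 : ℝ) ≤ 256 / N ^ 2 *
              (∑ k ∈ Finset.range N, (f x * e (m + k) x - a j)) ^ 2 := by
            rw [Finset.sum_sub_distrib, Finset.sum_const, Finset.card_range, nsmul_eq_mul]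
            rw [div_mul_eq_mul_div, le_div_iff₀ (by positivity), one_mul]
            have h5 : s x - N * a j ≤ - ((N : ℝ) / 16) := by
              have h6 : (N : ℝ) * (1 / 8) ≤ N * a j := by
                apply mul_le_mul_of_nonneg_left (ha j).1 hN0.le
              push Not at hg
              linarith
            have h7 : ((N : ℝ) / 16) ^ 2 ≤ (s x - N * a j) ^ 2 := by
              have h9 : (0 : ℝ) ≤ (N : ℝ) / 16 := by positivity
              nlinarith
            have h8 : (s x - N * a j) ^ 2 = (∑ k ∈ Finset.range N, f x * e (m + k) x - N * a j) ^ 2 := rfl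
            rw [h8] at h7
            nlinarith
          have h5 : 0 ≤ |c j| * (|p x| * D m N f (a j) x) := by positivity
          calc |p x| * (|c j| * D m N f (a j) x) = |c j| * (|p x| * D m N f (a j) x) * 1 := by ring
            _ ≤ |c j| * (|p x| * D m N f (a j) x) * (256 / N ^ 2 *
              (∑ k ∈ Finset.range N, (f x * e (m + k) x - a j)) ^ 2) :=
                mul_le_mul_of_nonneg_left h4 h5
            _ = _ := by ring
      have hi3 : ∀ j, Integrable (fun x => |p x| * D m N f (a j) x *
            (∑ k ∈ Finset.range N, (f x * e (m + k) x - a j)) ^ 2) ν := by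
        intro j
        refine int_cont ν ((hpL.continuous.mul (hDc _)).mul (Continuous.pow ?_ 2))
        exact continuous_finsetSum _ fun k _ =>
          (hf.continuous.mul (continuous_e _)).sub continuous_const
      have hi4 : Integrable (fun x => ∑ j, |c j| * (256 / N ^ 2) * (|p x| * D m N f (a j) x *
            (∑ k ∈ Finset.range N, (f x * e (m + k) x - a j)) ^ 2)) ν :=
        integrable_finsetSum _ fun j _ => (hi3 j).const_mul _
      refine (integral_mono (hi1.sub hi2).abs hi4 hdom).trans ?_
      rw [integral_finsetSum _ (fun j _ => (hi3 j).const_mul _)]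
      have h6 : ∀ j ∈ Finset.univ, ∫ x, |c j| * (256 / N ^ 2) * (|p x| * D m N f (a j) x *
            (∑ k ∈ Finset.range N, (f x * e (m + k) x - a j)) ^ 2) ∂ν ≤ |c j| * (256 * I / N) := by
        intro j _
        rw [integral_const_mul, riesz_var ν m N f hf hf1 (fun x => |p x|) hpL
          (fun x => abs_nonneg _) (a j)]
        have h7 : (N : ℝ) * (1 - a j ^ 2) * ∫ x, |p x| ∂ν ≤ N * I := by
          have h8 : 1 - a j ^ 2 ≤ 1 := by nlinarith [sq_nonneg (a j)]
          have h9 : (N : ℝ) * (1 - a j ^ 2) ≤ N := by nlinarith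
          exact mul_le_mul_of_nonneg_right h9 hI0
        calc |c j| * (256 / N ^ 2) * ((N : ℝ) * (1 - a j ^ 2) * ∫ x, |p x| ∂ν)
            ≤ |c j| * (256 / N ^ 2) * (N * I) := by
              apply mul_le_mul_of_nonneg_left h7 (by positivity)
          _ = |c j| * (256 * I / N) := by field_simp
      refine (Finset.sum_le_sum h6).trans ?_
      rw [← Finset.sum_mul]
      exact hN1
    have h3 := abs_sub_le (∫ x, (if (N : ℝ) / 16 ≤ s x then p x * T x else 0) * w S x ∂ν)
      (∫ x, p x * T x * w S x ∂ν) (∫ x, p x * w S x ∂ν)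
    linarith

end WD
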