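import Pool.Agent.Helper348.WDFinal

set_option autoImplicit false

open MeasureTheory

namespace WD

lemma not_discrete_G : ¬ DiscreteTopology G := by
  intro h
  have h1 : Finite G := finite_of_compact_of_discrete
  have h2 : Function.Injective flip := by
    intro i j hij
    by_contra hne
    have h3 := e_flip_self i 1
    have h4 := e_flip_ne j i (Ne.symm hne) 1
    rw [hij, h4] at h3
    rcases e_eq i 1 with h5 | h5 <;> rw [h5] at h3 <;> norm_num at h3
  exact not_injective_infinite_finite flip h2

/-- the Borel sets of the dual group -/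
noncomputable instance instMeasDual : MeasurableSpace (PontryaginDual G) := borel _

instance instBorelDual : BorelSpace (PontryaginDual G) := ⟨rfl⟩

instance instHaarCount : (Measure.count : Measure (PontryaginDual G)).IsHaarMeasure where
  lt_top_of_isCompact := by
    intro K hK
    have h1 : K.Finite := hK.finite_of_discrete
    exact Measure.count_apply_lt_top.2 h1
  open_pos := by
    intro U _ hne
    exact Measure.count_ne_zero hne

instance instMSDual : MeasurableSingletonClass (PontryaginDual G) := inferInstance

theorem transfer : ∃ Φ : Finset ℕ ≃ PontryaginDual G,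
    ∀ φ : PontryaginDual G → ℂ,
      (Integrable φ (Measure.count : Measure (PontryaginDual G)) ↔
        Summable (fun S => ‖φ (Φ S)‖)) ∧
      (∫ χ, ‖φ χ‖ ∂(Measure.count : Measure (PontryaginDual G)) = ∑' S, ‖φ (Φ S)‖ ∨
        ¬ Summable (fun S => ‖φ (Φ S)‖)) ∧
      (Summable (fun S => ‖φ (Φ S)‖) → ∀ x : G,
        ∫ χ, φ χ * ((χ x : Circle) : ℂ) ∂(Measure.count : Measure (PontryaginDual G)) =
          ∑' S, φ (Φ S) * ((w S x : ℝ) : ℂ)) := by
  obtain ⟨Φ, hΦ⟩ := exists_dual_equiv
  have hc : Countable (PontryaginDual G) := Φ.symm.injective.countable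
  refine ⟨Φ, fun φ => ?_⟩
  have h1 : Integrable φ (Measure.count : Measure (PontryaginDual G)) ↔
      Summable (fun S => ‖φ (Φ S)‖) := by
    rw [integrable_count_iff]
    exact (Φ.summable_iff (f := fun χ => ‖φ χ‖)).symm
  have hreal : ∀ χ : PontryaginDual G, (Measure.count : Measure (PontryaginDual G)).real {χ} = 1 := by
    intro χ
    simp [Measure.real]
  refine ⟨h1, ?_, ?_⟩
  · by_cases hs : Summable (fun S => ‖φ (Φ S)‖)
    · left
      rw [integral_countable (h1.2 hs).norm, ← Φ.tsum_eq]
      exact tsum_congr fun S => by rw [hreal, one_smul]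
    · exact Or.inr hs
  · intro hs x
    have h2 : Integrable (fun χ : PontryaginDual G => φ χ * ((χ x : Circle) : ℂ))
        (Measure.count : Measure (PontryaginDual G)) := by
      rw [integrable_count_iff]
      have h3 := (Φ.summable_iff (f := fun χ => ‖φ χ‖)).1 hs
      refine h3.congr fun χ => ?_
      rw [norm_mul, Circle.norm_coe, mul_one]
    rw [integral_countable h2, ← Φ.tsum_eq]
    exact tsum_congr fun S => by rw [hreal, one_smul, hΦ]

end WD
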