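import Pool.Agent.Helper348.WDHaar
import Pool.Agent.Helper348.WDLev
import Pool.Agent.Helper348.WDCoeff

set_option autoImplicit false

open MeasureTheory

namespace WD


lemma rv_flip {m : ℕ} {α : Type} {u : G → α} (h : Lev m u) {i : ℕ} (hi : m ≤ i) (x : G) :
    u (flip i * x) = u x := by
  apply h
  intro j hj
  show flip i j * x j = x j
  unfold flip
  rw [Pi.mulSingle_eq_of_ne (by omega), one_mul]

lemma rv_mono {m n : ℕ} {α : Type} {u : G → α} (h : Lev m u) (hmn : m ≤ n) : Lev n u :=
  fun x y hxy => h x y fun i hi => hxy i (by omega)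

lemma rv_e {m k N : ℕ} (hk : k < N) : Lev (m + N) (e (m + k)) := by
  intro x y hxy
  unfold e
  rw [hxy (m + k) (by omega)]

lemma rv_D {m : ℕ} {f : G → ℝ} (hf : Lev m f) (N : ℕ) (a : ℝ) : Lev (m + N) (D m N f a) := by
  intro x y hxy
  unfold D
  refine Finset.prod_congr rfl fun k hk => ?_
  rw [hf x y (fun i hi => hxy i (by omega)), rv_e (Finset.mem_range.1 hk) x y hxy]

/-- the centred sum -/
noncomputable def rvS (m N : ℕ) (f : G → ℝ) (a : ℝ) (x : G) : ℝ :=
  ∑ k ∈ Finset.range N, (f x * e (m + k) x - a)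

lemma rv_S {m : ℕ} {f : G → ℝ} (hf : Lev m f) (N : ℕ) (a : ℝ) : Lev (m + N) (rvS m N f a) := by
  intro x y hxy
  unfold rvS
  refine Finset.sum_congr rfl fun k hk => ?_
  rw [hf x y (fun i hi => hxy i (by omega)), rv_e (Finset.mem_range.1 hk) x y hxy]

lemma rv_mass (ν : Measure G) [IsProbabilityMeasure ν] [ν.IsMulLeftInvariant]
    (m N : ℕ) (f : G → ℝ) (hf : Lev m f)
    (p : G → ℝ) (hp : Lev m p) (a : ℝ) :
    ∫ x, p x * D m N f a x ∂ν = ∫ x, p x ∂ν := by
  induction N with
  | zero =>
    simp [D]
  | succ N ih =>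
    have hpc := hp.continuous
    have hfc := hf.continuous
    have hDc := (rv_D hf N a).continuous
    have h1 : ∀ x, p x * D m (N + 1) f a x =
        p x * D m N f a x + (p x * D m N f a x * (a * f x)) * e (m + N) x := by
      intro x
      have : D m (N + 1) f a x = D m N f a x * (1 + a * f x * e (m + N) x) := by
        unfold D
        rw [Finset.prod_range_succ]
      rw [this]
      ring
    have hc1 : Continuous (fun x => p x * D m N f a x) := hpc.mul hDc
    have hc2 : Continuous (fun x => (p x * D m N f a x * (a * f x)) * e (m + N) x) :=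
      (hc1.mul (continuous_const.mul hfc)).mul (continuous_e _)
    calc ∫ x, p x * D m (N + 1) f a x ∂ν
        = ∫ x, (p x * D m N f a x + (p x * D m N f a x * (a * f x)) * e (m + N) x) ∂ν :=
          integral_congr_ae (Filter.Eventually.of_forall h1)
      _ = ∫ x, p x * D m N f a x ∂ν + ∫ x, (p x * D m N f a x * (a * f x)) * e (m + N) x ∂ν :=
          integral_add (int_cont ν hc1) (int_cont ν hc2)
      _ = ∫ x, p x ∂ν + 0 := by
          rw [ih]
          congr 1
          refine int_odd ν (u := fun x => p x * D m N f a x * (a * f x)) (m + N) fun x => ?_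
          show p (flip (m + N) * x) * D m N f a (flip (m + N) * x) * (a * f (flip (m + N) * x)) =
            p x * D m N f a x * (a * f x)
          rw [rv_flip hp (by omega) x, rv_flip (rv_D hf N a) le_rfl x, rv_flip hf (by omega) x]
      _ = ∫ x, p x ∂ν := add_zero _

/-- TARGET -/
theorem riesz_var (ν : Measure G) [IsProbabilityMeasure ν] [ν.IsMulLeftInvariant]
    (m N : ℕ) (f : G → ℝ) (hf : Lev m f) (hf1 : ∀ x, f x = 1 ∨ f x = -1)
    (p : G → ℝ) (hp : Lev m p) (hp0 : ∀ x, 0 ≤ p x) (a : ℝ) :
    ∫ x, p x * D m N f a x * (∑ k ∈ Finset.range N, (f x * e (m + k) x - a)) ^ 2 ∂ν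
      = N * (1 - a ^ 2) * ∫ x, p x ∂ν := by
  change ∫ x, p x * D m N f a x * (rvS m N f a x) ^ 2 ∂ν = N * (1 - a ^ 2) * ∫ x, p x ∂ν
  induction N with
  | zero =>
    have h0 : ∀ x, p x * D m 0 f a x * (rvS m 0 f a x) ^ 2 = 0 := by
      intro x
      simp [rvS]
    simp only [h0, integral_zero]
    simp
  | succ N ih =>
    have hpc := hp.continuous
    have hfc := hf.continuous
    have hDc := (rv_D hf N a).continuous
    have hSc := (rv_S hf N a).continuous
    have h1 : ∀ x, p x * D m (N + 1) f a x * (rvS m (N + 1) f a x) ^ 2 =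
        (p x * D m N f a x * (rvS m N f a x) ^ 2 + (1 - a ^ 2) * (p x * D m N f a x)) +
        (p x * D m N f a x * (f x * (a * (rvS m N f a x) ^ 2 +
          2 * (1 - a ^ 2) * rvS m N f a x - (1 - a ^ 2) * a))) * e (m + N) x := by
      intro x
      have hD : D m (N + 1) f a x = D m N f a x * (1 + a * f x * e (m + N) x) := by
        unfold D
        rw [Finset.prod_range_succ]
      have hS : rvS m (N + 1) f a x = rvS m N f a x + (f x * e (m + N) x - a) := by
        unfold rvS
        rw [Finset.sum_range_succ]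
      rw [hD, hS]
      generalize D m N f a x = d
      generalize rvS m N f a x = s
      rcases hf1 x with h | h <;> rcases e_eq (m + N) x with h' | h' <;> rw [h, h'] <;> ring
    have hc0 : Continuous (fun x => p x * D m N f a x) := hpc.mul hDc
    have hc1 : Continuous (fun x => p x * D m N f a x * (rvS m N f a x) ^ 2) :=
      hc0.mul (hSc.pow 2)
    have hc2 : Continuous (fun x => (1 - a ^ 2) * (p x * D m N f a x)) :=
      continuous_const.mul hc0
    have hc12 : Continuous (fun x => p x * D m N f a x * (rvS m N f a x) ^ 2 +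
        (1 - a ^ 2) * (p x * D m N f a x)) := hc1.add hc2
    have hc3 : Continuous (fun x => (p x * D m N f a x * (f x * (a * (rvS m N f a x) ^ 2 +
          2 * (1 - a ^ 2) * rvS m N f a x - (1 - a ^ 2) * a))) * e (m + N) x) :=
      (hc0.mul (hfc.mul (((continuous_const.mul (hSc.pow 2)).add
        (continuous_const.mul hSc)).sub continuous_const))).mul (continuous_e _)
    have hodd : ∫ x, (p x * D m N f a x * (f x * (a * (rvS m N f a x) ^ 2 +
          2 * (1 - a ^ 2) * rvS m N f a x - (1 - a ^ 2) * a))) * e (m + N) x ∂ν = 0 := by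
      refine int_odd ν (u := fun x => p x * D m N f a x * (f x * (a * (rvS m N f a x) ^ 2 +
          2 * (1 - a ^ 2) * rvS m N f a x - (1 - a ^ 2) * a))) (m + N) fun x => ?_
      beta_reduce
      rw [rv_flip hp (by omega) x, rv_flip (rv_D hf N a) le_rfl x, rv_flip hf (by omega) x,
        rv_flip (rv_S hf N a) le_rfl x]
    calc ∫ x, p x * D m (N + 1) f a x * (rvS m (N + 1) f a x) ^ 2 ∂ν
        = ∫ x, ((p x * D m N f a x * (rvS m N f a x) ^ 2 + (1 - a ^ 2) * (p x * D m N f a x)) +
        (p x * D m N f a x * (f x * (a * (rvS m N f a x) ^ 2 +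
          2 * (1 - a ^ 2) * rvS m N f a x - (1 - a ^ 2) * a))) * e (m + N) x) ∂ν :=
          integral_congr_ae (Filter.Eventually.of_forall h1)
      _ = (∫ x, p x * D m N f a x * (rvS m N f a x) ^ 2 ∂ν +
            ∫ x, (1 - a ^ 2) * (p x * D m N f a x) ∂ν) + 0 := by
          rw [integral_add (int_cont ν hc12) (int_cont ν hc3), hodd,
            integral_add (int_cont ν hc1) (int_cont ν hc2)]
      _ = ((N + 1 : ℕ) : ℝ) * (1 - a ^ 2) * ∫ x, p x ∂ν := by
          rw [ih, integral_const_mul, rv_mass ν m N f hf p hp a]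
          push_cast
          ring

end WD
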